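import Mathlib

/-!
# Gauss's multiplication formula for the Gamma function
-/

set_option autoImplicit false

namespace Q95.GM

open Complex Filter Finset
open scoped Topology Nat

/-- the product of the rising factorials -/
lemma prod_shift (m : ℕ) (hm : 0 < m) (z : ℂ) (N : ℕ) :
    ∏ k ∈ range m, ∏ j ∈ range N, (z + k / m + j) =
      (∏ i ∈ range (m * N), (m * z + i)) / (m : ℂ) ^ (m * N) := by
  have hm0 : (m : ℂ) ≠ 0 := by exact_mod_cast hm.ne'
  induction N with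
  | zero => simp
  | succ N ih =>
    have h1 : ∏ k ∈ range m, ∏ j ∈ range (N + 1), (z + (k : ℂ) / m + j) =
        (∏ k ∈ range m, ∏ j ∈ range N, (z + (k : ℂ) / m + j)) *
          ∏ k ∈ range m, (z + (k : ℂ) / m + N) := by
      rw [← Finset.prod_mul_distrib]
      exact Finset.prod_congr rfl fun k _ => Finset.prod_range_succ _ _
    have h2 : ∏ i ∈ range (m * (N + 1)), ((m : ℂ) * z + i) =
        (∏ i ∈ range (m * N), ((m : ℂ) * z + i)) * ∏ k ∈ range m, ((m : ℂ) * z + (m * N + k : ℕ)) := by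
      rw [Nat.mul_succ, Finset.prod_range_add]
    have h3 : ∏ k ∈ range m, ((m : ℂ) * z + (m * N + k : ℕ)) =
        (m : ℂ) ^ m * ∏ k ∈ range m, (z + (k : ℂ) / m + N) := by
      have : ∀ k ∈ range m, ((m : ℂ) * z + (m * N + k : ℕ)) = (m : ℂ) * (z + (k : ℂ) / m + N) := by
        intro k _
        push_cast
        field_simp
        ring
      rw [Finset.prod_congr rfl this, Finset.prod_mul_distrib, Finset.prod_const, Finset.card_range]
    rw [h1, ih, h2, h3, Nat.mul_succ, pow_add]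
    field_simp

/-- the sequence of constants -/
noncomputable def A (m n : ℕ) : ℂ :=
  (∏ k ∈ range m, (n : ℂ) ^ ((k : ℂ) / m)) * (n ! : ℂ) ^ m * (m : ℂ) ^ (m * (n + 1)) /
    (((m * n)! : ℂ) * ((m * n : ℕ) : ℂ) ^ (m - 1))

lemma seq_eq (m : ℕ) (hm : 0 < m) (z : ℂ) (hz : ∀ k : ℕ, (m : ℂ) * z ≠ -k) (n : ℕ) (hn : 0 < n) :
    (∏ k ∈ range m, GammaSeq (z + k / m) n) * (m : ℂ) ^ ((m : ℂ) * z) *
      (∏ i ∈ range (m - 1), (((m : ℂ) * z + (m * n + 1 + i : ℕ)) / ((m * n : ℕ) : ℂ))) =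
      A m n * GammaSeq (m * z) (m * n) := by
  have hm0 : (m : ℂ) ≠ 0 := by exact_mod_cast hm.ne'
  have hn0 : (n : ℂ) ≠ 0 := by exact_mod_cast hn.ne'
  have hP : ∀ N : ℕ, ∏ i ∈ range N, ((m : ℂ) * z + i) ≠ 0 := by
    intro N
    rw [Finset.prod_ne_zero_iff]
    intro i _ h
    exact hz i (by linear_combination h)
  have h1 : ∏ k ∈ range m, GammaSeq (z + k / m) n =
      (n : ℂ) ^ ((m : ℂ) * z) * (∏ k ∈ range m, (n : ℂ) ^ ((k : ℂ) / m)) * (n ! : ℂ) ^ m *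
        ((m : ℂ) ^ (m * (n + 1)) / ∏ i ∈ range (m * (n + 1)), ((m : ℂ) * z + i)) := by
    unfold GammaSeq
    rw [Finset.prod_div_distrib, Finset.prod_mul_distrib, Finset.prod_const, Finset.card_range,
      prod_shift m hm z (n + 1)]
    have h2 : ∏ k ∈ range m, (n : ℂ) ^ (z + (k : ℂ) / m) =
        (n : ℂ) ^ ((m : ℂ) * z) * (∏ k ∈ range m, (n : ℂ) ^ ((k : ℂ) / m)) := by
      have : ∀ k ∈ range m, (n : ℂ) ^ (z + (k : ℂ) / m) = (n : ℂ) ^ z * (n : ℂ) ^ ((k : ℂ) / m) :=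
        fun k _ => cpow_add _ _ hn0
      rw [Finset.prod_congr rfl this, Finset.prod_mul_distrib, Finset.prod_const,
        Finset.card_range, ← cpow_nat_mul]
    rw [h2]
    field_simp
  have h3 : ∏ i ∈ range (m * (n + 1)), ((m : ℂ) * z + i) =
      (∏ i ∈ range (m * n + 1), ((m : ℂ) * z + i)) *
        ∏ i ∈ range (m - 1), ((m : ℂ) * z + (m * n + 1 + i : ℕ)) := by
    rw [← Finset.prod_range_add]
    congr 2
    have : m * (n + 1) = m * n + m := by ring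
    omega
  have hmn : (n : ℂ) ^ ((m : ℂ) * z) * (m : ℂ) ^ ((m : ℂ) * z) =
      ((m * n : ℕ) : ℂ) ^ ((m : ℂ) * z) := by
    rw [Nat.cast_mul, mul_comm ((m : ℂ)) ((n : ℂ)), natCast_mul_natCast_cpow]
  have hR : ∏ i ∈ range (m - 1), ((m : ℂ) * z + (m * n + 1 + i : ℕ)) ≠ 0 := by
    have := hP (m * (n + 1))
    rw [h3] at this
    exact right_ne_zero_of_mul this
  have hmn0 : ((m * n : ℕ) : ℂ) ≠ 0 := by exact_mod_cast (Nat.mul_pos hm hn).ne'
  rw [h1, h3, Finset.prod_div_distrib, Finset.prod_const, Finset.card_range]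
  have hG : GammaSeq ((m : ℂ) * z) (m * n) = ((m * n : ℕ) : ℂ) ^ ((m : ℂ) * z) * ((m * n)! : ℂ) /
      ∏ j ∈ range (m * n + 1), ((m : ℂ) * z + j) := rfl
  rw [hG, ← hmn]
  unfold A
  have h5 := hP (m * n + 1)
  have h6 : (((m * n)! : ℕ) : ℂ) ≠ 0 := by exact_mod_cast Nat.factorial_ne_zero _
  generalize ∏ i ∈ range (m - 1), ((m : ℂ) * z + (m * n + 1 + i : ℕ)) = R at *
  generalize ∏ i ∈ range (m * n + 1), ((m : ℂ) * z + i) = P at *
  generalize ∏ k ∈ range m, (n : ℂ) ^ ((k : ℂ) / m) = Q at *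
  generalize (n : ℂ) ^ ((m : ℂ) * z) = u at *
  generalize (m : ℂ) ^ ((m : ℂ) * z) = v at *
  field_simp

/-- The quotient does not depend on `z`. -/
theorem indep (m : ℕ) (hm : 0 < m) (z z' : ℂ) (hz : ∀ k : ℕ, (m : ℂ) * z ≠ -k)
    (hz' : ∀ k : ℕ, (m : ℂ) * z' ≠ -k) :
    (∏ k ∈ range m, Gamma (z + k / m)) * (m : ℂ) ^ ((m : ℂ) * z) / Gamma (m * z) =
      (∏ k ∈ range m, Gamma (z' + k / m)) * (m : ℂ) ^ ((m : ℂ) * z') / Gamma (m * z') := by
  have key : ∀ z : ℂ, (∀ k : ℕ, (m : ℂ) * z ≠ -k) → Tendsto (fun n : ℕ => A m n) atTop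
      (𝓝 ((∏ k ∈ range m, Gamma (z + k / m)) * (m : ℂ) ^ ((m : ℂ) * z) / Gamma (m * z))) := by
    intro z hz
    have hmn : Tendsto (fun n : ℕ => m * n) atTop atTop :=
      tendsto_id.const_mul_atTop' hm
    have t1 : Tendsto (fun n : ℕ => ∏ k ∈ range m, GammaSeq (z + k / m) n) atTop
        (𝓝 (∏ k ∈ range m, Gamma (z + k / m))) :=
      tendsto_finsetProd _ fun k _ => GammaSeq_tendsto_Gamma _
    have t2 : Tendsto (fun n : ℕ => GammaSeq (m * z) (m * n)) atTop (𝓝 (Gamma (m * z))) :=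
      (GammaSeq_tendsto_Gamma (m * z)).comp hmn
    have t3 : Tendsto (fun n : ℕ => ∏ i ∈ range (m - 1),
        (((m : ℂ) * z + (m * n + 1 + i : ℕ)) / ((m * n : ℕ) : ℂ))) atTop (𝓝 1) := by
      have : (1 : ℂ) = ∏ _i ∈ range (m - 1), (1 : ℂ) := by simp
      rw [this]
      refine tendsto_finsetProd _ fun i _ => ?_
      have h1 : Tendsto (fun n : ℕ => ((m : ℂ) * z + 1 + i) / ((m * n : ℕ) : ℂ) + 1) atTop
          (𝓝 (0 + 1)) := by
        refine Tendsto.add_const 1 ?_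
        exact (tendsto_const_div_atTop_nhds_zero_nat ((m : ℂ) * z + 1 + i)).comp hmn
      rw [zero_add] at h1
      refine h1.congr' ?_
      filter_upwards [eventually_gt_atTop 0] with n hn
      have hmn0 : ((m * n : ℕ) : ℂ) ≠ 0 := by exact_mod_cast (Nat.mul_pos hm hn).ne'
      rw [eq_div_iff hmn0, add_mul, div_mul_cancel₀ _ hmn0]
      push_cast
      ring
    have hG0 : Gamma (m * z) ≠ 0 := Gamma_ne_zero hz
    have t4 := ((t1.mul_const ((m : ℂ) ^ ((m : ℂ) * z))).mul t3).div t2 hG0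
    rw [mul_one] at t4
    refine t4.congr' ?_
    have hne : ∀ᶠ n : ℕ in atTop, GammaSeq (m * z) (m * n) ≠ 0 :=
      t2.eventually_ne hG0
    filter_upwards [eventually_gt_atTop 0, hne] with n hn hne
    rw [Pi.div_apply, seq_eq m hm z hz n hn, mul_div_cancel_right₀ _ hne]
  exact tendsto_nhds_unique (key z hz) (key z' hz')

/-- The square of the constant. -/
theorem const_sq (m : ℕ) (hm : 0 < m) (z : ℂ) (hz : ∀ k : ℕ, (m : ℂ) * z ≠ -k) :
    ((∏ k ∈ range m, Gamma (z + k / m)) * (m : ℂ) ^ ((m : ℂ) * z)) ^ 2 *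
      ∏ k ∈ range (m - 1), Complex.sin (Real.pi * ((k + 1 : ℕ) / m)) =
      Gamma (m * z) ^ 2 * ((m : ℂ) ^ 2 * (Real.pi : ℂ) ^ (m - 1)) := by
  have hm0 : (m : ℂ) ≠ 0 := by exact_mod_cast hm.ne'
  have hG0 : Gamma (m * z) ≠ 0 := Gamma_ne_zero hz
  have h1 := indep m hm z (1 / m) hz (by
    intro k h
    rw [mul_one_div_cancel hm0] at h
    have : ((k + 1 : ℕ) : ℂ) = 0 := by push_cast; linear_combination h
    exact absurd this (by exact_mod_cast Nat.succ_ne_zero k))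
  rw [mul_one_div_cancel hm0, Gamma_one, div_one, cpow_one, div_eq_iff hG0] at h1
  rw [h1]
  -- the product of the values at the multiples of `1 / m`
  obtain ⟨r, rfl⟩ : ∃ r, m = r + 1 := ⟨m - 1, by omega⟩
  have h2 : ∏ k ∈ range (r + 1), Gamma (1 / ((r + 1 : ℕ) : ℂ) + k / ((r + 1 : ℕ) : ℂ)) =
      ∏ k ∈ range r, Gamma (((k + 1 : ℕ) : ℂ) / ((r + 1 : ℕ) : ℂ)) := by
    rw [Finset.prod_range_succ]
    have : Gamma (1 / ((r + 1 : ℕ) : ℂ) + (r : ℂ) / ((r + 1 : ℕ) : ℂ)) = 1 := by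
      have h0 : 1 / ((r + 1 : ℕ) : ℂ) + (r : ℂ) / ((r + 1 : ℕ) : ℂ) = 1 := by
        rw [← add_div, div_eq_one_iff_eq hm0]
        push_cast; ring
      rw [h0, Gamma_one]
    rw [this, mul_one]
    refine Finset.prod_congr rfl fun k _ => ?_
    congr 1
    rw [← add_div]
    push_cast; ring
  have h3 : (∏ k ∈ range r, Gamma (((k + 1 : ℕ) : ℂ) / ((r + 1 : ℕ) : ℂ))) ^ 2 *
      ∏ k ∈ range r, Complex.sin (Real.pi * (((k + 1 : ℕ) : ℂ) / ((r + 1 : ℕ) : ℂ))) =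
      (Real.pi : ℂ) ^ r := by
    have h4 : ∏ k ∈ range r, Gamma (((k + 1 : ℕ) : ℂ) / ((r + 1 : ℕ) : ℂ)) =
        ∏ k ∈ range r, Gamma (1 - ((k + 1 : ℕ) : ℂ) / ((r + 1 : ℕ) : ℂ)) := by
      rw [← Finset.prod_range_reflect]
      refine Finset.prod_congr rfl fun k hk => ?_
      congr 1
      have hk' := Finset.mem_range.mp hk
      have h5 : ((r - 1 - k + 1 : ℕ) : ℂ) = ((r + 1 : ℕ) : ℂ) - ((k + 1 : ℕ) : ℂ) := by
        have : r - 1 - k + 1 = r - k := by omega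
        rw [this, Nat.cast_sub (by omega)]
        push_cast; ring
      rw [h5, sub_div, div_self hm0]
    rw [sq]
    nth_rw 2 [h4]
    rw [← Finset.prod_mul_distrib, ← Finset.prod_mul_distrib]
    have h6 : ∀ k ∈ range r, Gamma (((k + 1 : ℕ) : ℂ) / ((r + 1 : ℕ) : ℂ)) *
        Gamma (1 - ((k + 1 : ℕ) : ℂ) / ((r + 1 : ℕ) : ℂ)) *
        Complex.sin (Real.pi * (((k + 1 : ℕ) : ℂ) / ((r + 1 : ℕ) : ℂ))) = (Real.pi : ℂ) := by
      intro k hk
      have hk' := Finset.mem_range.mp hk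
      rw [Gamma_mul_Gamma_one_sub, div_mul_cancel₀]
      have h7 : (Real.pi : ℂ) * (((k + 1 : ℕ) : ℂ) / ((r + 1 : ℕ) : ℂ)) =
          ((Real.pi * ((k + 1 : ℕ) / (r + 1 : ℕ)) : ℝ) : ℂ) := by push_cast; ring
      rw [h7, ← Complex.ofReal_sin]
      have h8 : 0 < Real.sin (Real.pi * ((k + 1 : ℕ) / (r + 1 : ℕ))) := by
        apply Real.sin_pos_of_pos_of_lt_pi
        · have := Real.pi_pos; positivity
        · have h9 : (((k + 1 : ℕ) : ℝ) / ((r + 1 : ℕ) : ℝ)) < 1 := by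
            rw [div_lt_one (by positivity)]
            exact_mod_cast (by omega : k + 1 < r + 1)
          calc Real.pi * (((k + 1 : ℕ) : ℝ) / ((r + 1 : ℕ) : ℝ)) < Real.pi * 1 :=
                mul_lt_mul_of_pos_left h9 Real.pi_pos
            _ = _ := mul_one _
      exact_mod_cast h8.ne'
    rw [Finset.prod_congr rfl h6, Finset.prod_const, Finset.card_range]
  rw [h2, Nat.add_sub_cancel]
  calc _ = ((∏ k ∈ range r, Gamma (((k + 1 : ℕ) : ℂ) / ((r + 1 : ℕ) : ℂ))) ^ 2 *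
      ∏ k ∈ range r, Complex.sin (Real.pi * (((k + 1 : ℕ) : ℂ) / ((r + 1 : ℕ) : ℂ)))) *
        (Gamma (((r + 1 : ℕ) : ℂ) * z) ^ 2 * ((r + 1 : ℕ) : ℂ) ^ 2) := by ring
    _ = _ := by rw [h3]; ring

end Q95.GM
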