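import Pool.Agent.Q95.NR2

/-!
# Counting near relations; pairs of real numbers with a relation over `ℤ[e]`
-/

set_option autoImplicit false

namespace Pool.Agent.Q95.NR

open Real Pool.Agent.Q252.EN Polynomial

theorem finite_ht (X : ℝ) : {v : Fin 3 → ℤ | (ht v : ℝ) ≤ X}.Finite := by
  refine (fin_ball ⌊X⌋₊).subset fun v hv => ?_
  exact Nat.le_floor hv

/-- **Counting.** -/
theorem count {w c om ρ : ℝ} (hw : 0 ≤ w) (hc : 0 < c) (hρ : 1 < ρ) (hρo : ρ < (om - w) / (w + 1)) :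
    ∃ C : ℝ, ∀ x y : ℝ, MM w c x y → ∀ (X : ℝ) (T : Set (Fin 3 → ℤ)), 3 ≤ X →
      (∀ u ∈ T, ∀ v ∈ T, u ≠ v → LinearIndependent ℤ ![u, v]) →
      (∀ v ∈ T, (ht v : ℝ) ≤ X ∧ |LL x y v| ≤ (ht v : ℝ) ^ (-om)) →
      T.Finite ∧ (T.ncard : ℝ) ≤ log (log X) / log ρ + C := by
  have hw1 : 0 < w + 1 := by linarith
  obtain ⟨C, hC⟩ := Pool.Agent.TH550.NRZ.count_unif (α := Fin 3 → ℤ) (fun v => (ht v : ℝ))
    finite_ht ((c * 2 ^ (-w) / 4) ^ (1 / (w + 1))) ((om - w) / (w + 1)) ρ (by positivity) hρ hρo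
  refine ⟨C, fun x y hm X T hX hind hT => ?_⟩
  have hgap : ∀ u ∈ T, ∀ v ∈ T, u ≠ v → (ht u : ℝ) ≤ ht v → (1 : ℝ) ≤ ht u →
      (c * 2 ^ (-w) / 4) ^ (1 / (w + 1)) * (ht u : ℝ) ^ ((om - w) / (w + 1)) ≤ ht v := by
    intro u hu v hv huv hle hu1
    have hn := nr_ne_of_li (hind u hu v hv huv)
    have h1 := core hm u v hn
    obtain ⟨p, hp⟩ : ∃ x : ℝ, x = ht u := ⟨_, rfl⟩
    obtain ⟨q, hq⟩ : ∃ x : ℝ, x = ht v := ⟨_, rfl⟩
    have hLu := (hT u hu).2
    have hLv := (hT v hv).2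
    rw [← hp] at hle hu1 h1 hLu ⊢
    rw [← hq] at hle h1 hLv ⊢
    have hp0 : 0 < p := by linarith
    have hq0 : 0 < q := by linarith
    have hom : 0 < om := by
      have h2 : 0 < (om - w) / (w + 1) := by linarith
      rw [div_pos_iff] at h2
      rcases h2 with h2 | h2 <;> linarith
    have h2 : q ^ (-om) ≤ p ^ (-om) := rpow_le_rpow_of_nonpos hp0 hle (by linarith)
    have hpo : 0 < p ^ (-om) := rpow_pos_of_pos hp0 _
    have h3 : p * |LL x y v| ≤ q * p ^ (-om) :=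
      mul_le_mul hle (hLv.trans h2) (abs_nonneg _) hq0.le
    have h4 : q * |LL x y u| ≤ q * p ^ (-om) := mul_le_mul_of_nonneg_left hLu hq0.le
    have h5 : c * (2 * (p * q)) ^ (-w) ≤ 4 * (q * p ^ (-om)) := by linarith
    -- isolate `q ^ (w + 1)`
    have hpw : 0 < p ^ w := rpow_pos_of_pos hp0 _
    have hqw : 0 < q ^ w := rpow_pos_of_pos hq0 _
    have hpom : 0 < p ^ om := rpow_pos_of_pos hp0 _
    have h6 : c * 2 ^ (-w) / 4 * p ^ (om - w) ≤ q ^ (w + 1) := by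
      have e1 : (2 * (p * q)) ^ (-w) = 2 ^ (-w) * ((p ^ w)⁻¹ * (q ^ w)⁻¹) := by
        rw [mul_rpow (by norm_num) (by positivity), mul_rpow hp0.le hq0.le, rpow_neg hp0.le,
          rpow_neg hq0.le]
      rw [e1, rpow_neg hp0.le om] at h5
      have h7 := mul_le_mul_of_nonneg_right h5 (by positivity : 0 ≤ q ^ w * p ^ om / 4)
      have e2 : c * (2 ^ (-w) * ((p ^ w)⁻¹ * (q ^ w)⁻¹)) * (q ^ w * p ^ om / 4) =
          c * 2 ^ (-w) / 4 * (p ^ om / p ^ w) := by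
        field_simp
      have e3 : 4 * (q * (p ^ om)⁻¹) * (q ^ w * p ^ om / 4) = q ^ w * q := by
        field_simp
      rw [e2, e3, ← rpow_sub hp0] at h7
      rw [rpow_add hq0, rpow_one]
      exact h7
    calc (c * 2 ^ (-w) / 4) ^ (1 / (w + 1)) * p ^ ((om - w) / (w + 1))
        = (c * 2 ^ (-w) / 4 * p ^ (om - w)) ^ (1 / (w + 1)) := by
          rw [mul_rpow (by positivity) (by positivity), ← rpow_mul hp0.le, mul_one_div]
      _ ≤ (q ^ (w + 1)) ^ (1 / (w + 1)) := rpow_le_rpow (by positivity) h6 (by positivity)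
      _ = q := by rw [← rpow_mul hq0.le, mul_one_div_cancel hw1.ne', rpow_one]
  obtain ⟨h1, h2⟩ := hC T hgap X hX
  have e : {v ∈ T | (ht v : ℝ) ≤ X} = T := by
    ext v
    exact ⟨fun h => h.1, fun h => ⟨h, (hT v h).1⟩⟩
  rw [e] at h1 h2
  exact ⟨h1, h2⟩

/-- a bound for the coefficients -/
theorem coeff_bound (P : ℤ[X]) : ∃ B : ℝ, 0 ≤ B ∧ ∀ j, |(P.coeff j : ℝ)| ≤ B := by
  refine ⟨∑ j ∈ P.support, |(P.coeff j : ℝ)|, Finset.sum_nonneg fun _ _ => abs_nonneg _, ?_⟩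
  intro j
  by_cases hj : j ∈ P.support
  · exact Finset.single_le_sum (f := fun j => |(P.coeff j : ℝ)|) (fun _ _ => abs_nonneg _) hj
  · rw [notMem_support_iff.1 hj]
    simp only [Int.cast_zero, abs_zero]
    exact Finset.sum_nonneg fun _ _ => abs_nonneg _

/-- The measure for real points `(x, y)` on a line `A(e) + B(e) x + C(e) y = 0`. -/
theorem mm_of_rel (D : ℕ) (A B C : ℤ[X]) (hA : A.natDegree ≤ D) (hB : B.natDegree ≤ D)
    (hC : C.natDegree ≤ D) (hli : LinearIndependent ℤ ![A, B, C]) (η : ℝ) (hη : 0 < η) :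
    ∃ c : ℝ, 0 < c ∧ ∀ x y : ℝ, aeval (exp 1) A + aeval (exp 1) B * x + aeval (exp 1) C * y = 0 →
      MM (D + η) c x y := by
  obtain ⟨c0, hc0, hmeas⟩ := Pool.Agent.W472.AC.e_measP D η hη
  obtain ⟨a, ha0, ha⟩ := coeff_bound A
  obtain ⟨b, hb0, hb⟩ := coeff_bound B
  obtain ⟨g, hg0, hg⟩ := coeff_bound C
  obtain ⟨R, hR⟩ : ∃ R : ℝ, R = 1 + a + b + g := ⟨_, rfl⟩
  have hR1 : 1 ≤ R := by rw [hR]; linarith
  obtain ⟨K, hK⟩ : ∃ K : ℝ, K = 1 + |aeval (exp 1) B| + |aeval (exp 1) C| := ⟨_, rfl⟩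
  have hK0 : 0 < K := by rw [hK]; positivity
  have hD : (0 : ℝ) ≤ D := Nat.cast_nonneg D
  refine ⟨c0 / (K * R ^ ((D : ℝ) + η)), by positivity, fun x y hxy n hn M hM1 hM => ?_⟩
  set P : ℤ[X] := n 0 • A + n 1 • B + n 2 • C with hP
  have hP0 : P ≠ 0 := by
    intro h
    rw [Fintype.linearIndependent_iff] at hli
    have h1 := hli n (by rw [Fin.sum_univ_three]; exact h)
    exact hn (funext h1)
  have hPd : P.natDegree ≤ D := by
    refine (natDegree_add_le _ _).trans (max_le ((natDegree_add_le _ _).trans (max_le ?_ ?_)) ?_)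
    · exact (natDegree_smul_le _ _).trans hA
    · exact (natDegree_smul_le _ _).trans hB
    · exact (natDegree_smul_le _ _).trans hC
  have hPc : ∀ j, |(P.coeff j : ℝ)| ≤ M * R := by
    intro j
    have e : (P.coeff j : ℝ) = n 0 * A.coeff j + n 1 * B.coeff j + n 2 * C.coeff j := by
      rw [hP]
      simp only [coeff_add, coeff_smul, smul_eq_mul]
      push_cast
      ring
    rw [e]
    have h1 : |(n 0 : ℝ) * A.coeff j| ≤ M * a := by
      rw [abs_mul]; exact mul_le_mul (hM 0) (ha j) (abs_nonneg _) (by linarith)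
    have h2 : |(n 1 : ℝ) * B.coeff j| ≤ M * b := by
      rw [abs_mul]; exact mul_le_mul (hM 1) (hb j) (abs_nonneg _) (by linarith)
    have h3 : |(n 2 : ℝ) * C.coeff j| ≤ M * g := by
      rw [abs_mul]; exact mul_le_mul (hM 2) (hg j) (abs_nonneg _) (by linarith)
    have h4 := abs_add_le ((n 0 : ℝ) * A.coeff j + n 1 * B.coeff j) (n 2 * C.coeff j)
    have h5 := abs_add_le ((n 0 : ℝ) * A.coeff j) (n 1 * B.coeff j)
    rw [hR]
    nlinarith
  have hMR : 1 ≤ M * R := by nlinarith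
  have h1 := hmeas P hP0 hPd (M * R) hMR hPc
  have h2 : |aeval (exp 1) P| ≤ K * SS x y n := by
    have e : aeval (exp 1) P =
        -(aeval (exp 1) B * ((n 0 : ℝ) * x - n 1)) + aeval (exp 1) C * ((n 2 : ℝ) - y * n 0) := by
      rw [hP]
      simp only [map_add, map_mul, zsmul_eq_mul, map_intCast]
      linear_combination (n 0 : ℝ) * hxy
    rw [e]
    have h3 := abs_add_le (-(aeval (exp 1) B * ((n 0 : ℝ) * x - n 1)))
      (aeval (exp 1) C * ((n 2 : ℝ) - y * n 0))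
    rw [abs_neg, abs_mul, abs_mul] at h3
    have h4 : |(n 0 : ℝ) * x - n 1| ≤ SS x y n := by
      unfold SS
      linarith [abs_nonneg ((n 2 : ℝ) - y * n 0)]
    have h5 : |(n 2 : ℝ) - y * n 0| ≤ SS x y n := by
      unfold SS
      linarith [abs_nonneg ((n 0 : ℝ) * x - n 1)]
    have h6 := mul_le_mul_of_nonneg_left h4 (abs_nonneg (aeval (exp 1) B))
    have h7 := mul_le_mul_of_nonneg_left h5 (abs_nonneg (aeval (exp 1) C))
    have h8 := SS_nonneg (x := x) (y := y) n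
    rw [hK]
    nlinarith
  have hM0 : 0 < M := by linarith
  have hR0 : 0 < R := by linarith
  rw [mul_rpow hM0.le hR0.le] at h1
  have hMw : 0 < M ^ ((D : ℝ) + η) := rpow_pos_of_pos hM0 _
  have hRw : 0 < R ^ ((D : ℝ) + η) := rpow_pos_of_pos hR0 _
  have h3 : c0 ≤ M ^ ((D : ℝ) + η) * R ^ ((D : ℝ) + η) * (K * SS x y n) :=
    h1.trans (mul_le_mul_of_nonneg_left h2 (by positivity))
  rw [rpow_neg hM0.le, ← div_eq_mul_inv, div_div, div_le_iff₀ (by positivity)]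
  linarith

end Pool.Agent.Q95.NR
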