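import Pool.Agent.Q158.EqD.MinPol2

/-!
# Polynomials in two variables: bidegree, height, Mahler measure
-/

set_option autoImplicit false

namespace Pool.Agent.Q95.AR

open Polynomial Polynomial.Bivariate Pool.Agent.Q158.EqD

/-- degree at most `a` in the first (inner), at most `b` in the second (outer) variable -/
def Box (a b : ℕ) (P : ℤ[X][Y]) : Prop := P.natDegree ≤ b ∧ ∀ i, (P.coeff i).natDegree ≤ a

/-- the largest absolute value of a coefficient -/
noncomputable def hgt (P : ℤ[X][Y]) : ℕ :=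
  P.support.sup fun i => (P.coeff i).support.sup fun j => ((P.coeff i).coeff j).natAbs

theorem coeff_le_hgt (P : ℤ[X][Y]) (i j : ℕ) : ((P.coeff i).coeff j).natAbs ≤ hgt P := by
  by_cases hi : i ∈ P.support
  · by_cases hj : j ∈ (P.coeff i).support
    · unfold hgt
      refine le_trans ?_ (Finset.le_sup hi)
      exact Finset.le_sup (f := fun j => ((P.coeff i).coeff j).natAbs) hj
    · rw [notMem_support_iff.1 hj]
      simp
  · rw [notMem_support_iff.1 hi]
    simp

theorem hgt_le {P : ℤ[X][Y]} {H : ℕ} (h : ∀ i j, ((P.coeff i).coeff j).natAbs ≤ H) : hgt P ≤ H :=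
  Finset.sup_le fun i _ => Finset.sup_le fun j _ => h i j

theorem abs_coeff_le (P : ℤ[X][Y]) (i j : ℕ) : |((P.coeff i).coeff j : ℝ)| ≤ hgt P := by
  have h := coeff_le_hgt P i j
  have : ((((P.coeff i).coeff j).natAbs : ℕ) : ℝ) ≤ hgt P := by exact_mod_cast h
  rwa [Nat.cast_natAbs, Int.cast_abs] at this

theorem one_le_hgt {P : ℤ[X][Y]} (h : P ≠ 0) : 1 ≤ hgt P := by
  by_contra hcon
  apply h
  ext i j
  have h1 := coeff_le_hgt P i j
  have h2 : ((P.coeff i).coeff j).natAbs = 0 := by omega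
  simpa using h2

theorem Box.of_dvd {a b : ℕ} {P Q : ℤ[X][Y]} (hP : Box a b P) (hP0 : P ≠ 0) (h : Q ∣ P) :
    Box a b Q := by
  refine ⟨(natDegree_le_of_dvd h hP0).trans hP.1, ?_⟩
  rw [← swap_natDegree_le]
  exact (natDegree_le_of_dvd (swap_dvd h) (swap_ne_zero hP0)).trans
    ((swap_natDegree_le P a).2 hP.2)

theorem Box.wt_le {a b : ℕ} {P : ℤ[X][Y]} (hP : Box a b P) : wt P ≤ a + b := by
  unfold wt
  have := (swap_natDegree_le P a).2 hP.2
  have := hP.1
  omega

/-- the Mahler measure of `P(x, x ^ (a + 1))` -/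
noncomputable def mm (a : ℕ) (P : ℤ[X][Y]) : ℝ :=
  ((kr (a + 1) P).map (Int.castRingHom ℂ)).mahlerMeasure

theorem mm_mul (a : ℕ) (P Q : ℤ[X][Y]) : mm a (P * Q) = mm a P * mm a Q := by
  unfold mm
  rw [map_mul, Polynomial.map_mul, mahlerMeasure_mul]

theorem kr_coeff' {a b : ℕ} {P : ℤ[X][Y]} (hP : Box a b P) (n : ℕ) :
    (kr (a + 1) P).coeff n = (P.coeff (n / (a + 1))).coeff (n % (a + 1)) := by
  rw [← kr_coeff (a + 1) P (fun i => Nat.lt_succ_of_le (hP.2 i)) (n / (a + 1)) (n % (a + 1))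
    (Nat.mod_lt _ (by omega)), Nat.mod_add_div]

theorem kr_ne_zero {a b : ℕ} {P : ℤ[X][Y]} (hP : Box a b P) (h : P ≠ 0) : kr (a + 1) P ≠ 0 := by
  intro h0
  apply h
  ext i j
  by_cases hj : j < a + 1
  · rw [← kr_coeff (a + 1) P (fun i => Nat.lt_succ_of_le (hP.2 i)) i j hj, h0]
    simp
  · rw [coeff_eq_zero_of_natDegree_lt (by have := hP.2 i; omega)]
    simp

theorem kr_natDegree {a b : ℕ} {P : ℤ[X][Y]} (hP : Box a b P) :
    (kr (a + 1) P).natDegree + 1 ≤ (a + 1) * (b + 1) := by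
  have : (kr (a + 1) P).natDegree ≤ (a + 1) * (b + 1) - 1 := by
    rw [natDegree_le_iff_coeff_eq_zero]
    intro n hn
    rw [kr_coeff' hP]
    have h1 : b + 1 ≤ n / (a + 1) := by
      rw [Nat.le_div_iff_mul_le (by omega), mul_comm]
      omega
    rw [coeff_eq_zero_of_natDegree_lt (p := P) (by have := hP.1; omega), coeff_zero]
  have h2 : 0 < (a + 1) * (b + 1) := by positivity
  omega

theorem one_le_mm {a b : ℕ} {P : ℤ[X][Y]} (hP : Box a b P) (h : P ≠ 0) : 1 ≤ mm a P := by
  unfold mm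
  apply one_le_mahlerMeasure_of_one_le_norm_leadingCoeff
  rw [leadingCoeff_map_of_injective (RingHom.injective_int _)]
  simp only [Int.coe_castRingHom, Complex.norm_intCast]
  have : (1 : ℤ) ≤ |(kr (a + 1) P).leadingCoeff| :=
    Int.one_le_abs (leadingCoeff_ne_zero.2 (kr_ne_zero hP h))
  exact_mod_cast this

/-- the constant comparing heights and Mahler measures -/
noncomputable def k0 (a b : ℕ) : ℝ := 2 ^ ((a + 1) * (b + 1))

theorem one_le_k0 (a b : ℕ) : 1 ≤ k0 a b := one_le_pow₀ (by norm_num)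

theorem hgt_le_mm {a b : ℕ} {P : ℤ[X][Y]} (hP : Box a b P) : (hgt P : ℝ) ≤ k0 a b * mm a P := by
  have h0 : 0 ≤ k0 a b * mm a P := mul_nonneg (by unfold k0; positivity) (mahlerMeasure_nonneg _)
  rw [← Nat.le_floor_iff h0]
  apply hgt_le
  intro i j
  rw [Nat.le_floor_iff h0, Nat.cast_natAbs, Int.cast_abs]
  by_cases hj : j < a + 1
  · rw [← kr_coeff (a + 1) P (fun i => Nat.lt_succ_of_le (hP.2 i)) i j hj]
    have h1 := norm_coeff_le_choose_mul_mahlerMeasure (j + (a + 1) * i)
      ((kr (a + 1) P).map (Int.castRingHom ℂ))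
    rw [coeff_map, natDegree_map_eq_of_injective (RingHom.injective_int _)] at h1
    simp only [Int.coe_castRingHom, Complex.norm_intCast] at h1
    refine h1.trans (mul_le_mul_of_nonneg_right ?_ (mahlerMeasure_nonneg _))
    have h2 : ((kr (a + 1) P).natDegree).choose (j + (a + 1) * i) ≤ 2 ^ ((a + 1) * (b + 1)) :=
      (Nat.choose_le_two_pow _ _).trans (Nat.pow_le_pow_right (by norm_num) (by
        have := kr_natDegree hP
        omega))
    unfold k0
    exact_mod_cast h2
  · rw [coeff_eq_zero_of_natDegree_lt (by have := hP.2 i; omega)]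
    simpa using h0

theorem mm_le_hgt {a b : ℕ} {P : ℤ[X][Y]} (hP : Box a b P) : mm a P ≤ k0 a b * hgt P := by
  unfold mm
  refine (mahlerMeasure_le_sum_norm_coeff _).trans ?_
  rw [sum_over_range _ (by simp), natDegree_map_eq_of_injective (RingHom.injective_int _)]
  calc ∑ i ∈ Finset.range ((kr (a + 1) P).natDegree + 1),
        ‖((kr (a + 1) P).map (Int.castRingHom ℂ)).coeff i‖
      ≤ ∑ _i ∈ Finset.range ((kr (a + 1) P).natDegree + 1), (hgt P : ℝ) := by
        apply Finset.sum_le_sum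
        intro i _
        rw [coeff_map, kr_coeff' hP]
        simp only [Int.coe_castRingHom, Complex.norm_intCast]
        exact abs_coeff_le P _ _
    _ = (((kr (a + 1) P).natDegree + 1 : ℕ) : ℝ) * hgt P := by
        rw [Finset.sum_const, Finset.card_range, nsmul_eq_mul]
    _ ≤ k0 a b * hgt P := by
        apply mul_le_mul_of_nonneg_right _ (Nat.cast_nonneg _)
        have h1 := kr_natDegree hP
        have h2 : (a + 1) * (b + 1) ≤ 2 ^ ((a + 1) * (b + 1)) := Nat.lt_two_pow_self.le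
        unfold k0
        exact_mod_cast h1.trans h2

end Pool.Agent.Q95.AR
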