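import Pool.Agent.Q95.AR1

/-!
# The gap principle for integer polynomials at `(z, t)`
-/

set_option autoImplicit false

namespace Pool.Agent.Q95.AR

open Polynomial Polynomial.Bivariate Pool.Agent.Q158.EqD

/-- a transcendence measure in degree `D` with exponent `w` -/
def TM (D : ℕ) (w c z : ℝ) : Prop :=
  ∀ p : ℤ[X], p ≠ 0 → p.natDegree ≤ D → ∀ H : ℝ, 1 ≤ H → (∀ j, |(p.coeff j : ℝ)| ≤ H) →
    c ≤ H ^ w * |aeval z p|

theorem res_ne2 (Q P : ℤ[X][Y]) (hQ : Irreducible Q) (hQ0 : 0 < Q.natDegree)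
    (hne : ¬ Q ∣ P) : resultant Q P ≠ 0 := by
  classical
  set ι := algebraMap ℤ[X] (FractionRing ℤ[X]) with hι
  have hinj : Function.Injective ι := IsFractionRing.injective _ _
  have hQp : Q.IsPrimitive := hQ.isPrimitive hQ0.ne'
  have hQ' : Irreducible (Q.map ι) :=
    (IsPrimitive.irreducible_iff_irreducible_map_fraction_map (K := FractionRing ℤ[X]) hQp).1 hQ
  have hcop : IsCoprime (Q.map ι) (P.map ι) := by
    refine (hQ'.coprime_iff_not_dvd).2 fun hdvd => hne ?_
    exact hQp.dvd_of_fraction_map_dvd_fraction_map (K := FractionRing ℤ[X]) hdvd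
  have h2 := resultant_ne_zero _ _ hcop
  rw [natDegree_map_eq_of_injective hinj, natDegree_map_eq_of_injective hinj, resultant_map_map] at h2
  intro h0
  exact h2 (by rw [h0, map_zero])

theorem gap {z w c T : ℝ} {a b : ℕ} (hb : 1 ≤ b) (hw : 0 ≤ w) (hc : 0 < c)
    (hm : TM (2 * b * a) w c z) (hT : 1 ≤ T) (hz : |z| ≤ T) :
    ∃ c1 : ℝ, 0 < c1 ∧ ∀ t : ℝ, |t| ≤ T → ∀ P Q : ℤ[X][Y], Box a b P → Box a b Q → P ≠ 0 →
      Irreducible Q → ¬ Q ∣ P → ∀ H : ℝ, (hgt P : ℝ) ≤ H → (hgt Q : ℝ) ≤ H →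
      c1 * H ^ (-(2 * b * (w + 1))) ≤ max |ev z t P| |ev z t Q| := by
  obtain ⟨K1, hK1⟩ : ∃ K1 : ℝ, K1 = (2 * b).factorial * ((a : ℝ) + 1) ^ (2 * b) := ⟨_, rfl⟩
  obtain ⟨K2, hK2⟩ : ∃ K2 : ℝ, K2 = (2 * b) * T ^ (2 * b) *
    ((2 * b).factorial * (((a : ℝ) + 1) * T ^ a) ^ (2 * b)) := ⟨_, rfl⟩
  have hfac : (1 : ℝ) ≤ (2 * b).factorial := by exact_mod_cast Nat.factorial_pos _
  have ha1 : (1 : ℝ) ≤ (a : ℝ) + 1 := by
    have : (0 : ℝ) ≤ a := Nat.cast_nonneg a
    linarith
  have hb1 : (1 : ℝ) ≤ b := by exact_mod_cast hb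
  have hK1' : 1 ≤ K1 := by
    rw [hK1]
    exact one_le_mul_of_one_le_of_one_le hfac (one_le_pow₀ ha1)
  have hK2' : 1 ≤ K2 := by
    rw [hK2]
    refine one_le_mul_of_one_le_of_one_le (one_le_mul_of_one_le_of_one_le (by linarith)
      (one_le_pow₀ hT)) (one_le_mul_of_one_le_of_one_le hfac (one_le_pow₀ ?_))
    exact one_le_mul_of_one_le_of_one_le ha1 (one_le_pow₀ hT)
  have hK3 : 1 ≤ K1 ^ w * K2 :=
    one_le_mul_of_one_le_of_one_le (Real.one_le_rpow hK1' hw) hK2'
  have hK30 : 0 < K1 ^ w * K2 := by linarith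
  refine ⟨c / (K1 ^ w * K2), by positivity, fun t ht P Q hP hQ hP0 hQi hdvd H hPH hQH => ?_⟩
  have hH1 : 1 ≤ H := by
    have := one_le_hgt hQi.ne_zero
    have h1 : (1 : ℝ) ≤ hgt Q := by exact_mod_cast this
    linarith
  have hH0 : 0 < H := by linarith
  obtain ⟨ε, hε⟩ : ∃ ε : ℝ, ε = max |ev z t P| |ev z t Q| := ⟨_, rfl⟩
  have hεP : |ev z t P| ≤ ε := hε ▸ le_max_left _ _
  have hεQ : |ev z t Q| ≤ ε := hε ▸ le_max_right _ _
  have hε0 : 0 ≤ ε := (abs_nonneg _).trans hεP
  rw [← hε, Real.rpow_neg hH0.le, ← div_eq_mul_inv, div_div, div_le_iff₀ (by positivity)]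
  by_cases hQ0 : Q.natDegree = 0
  · have h1 : Q = C (Q.coeff 0) := eq_C_of_natDegree_eq_zero hQ0
    have hne : Q.coeff 0 ≠ 0 := by
      intro h
      rw [h, C_0] at h1
      exact hQi.ne_zero h1
    have hdeg : (Q.coeff 0).natDegree ≤ 2 * b * a :=
      (hQ.2 0).trans (Nat.le_mul_of_pos_left a (by omega))
    have h2 := hm (Q.coeff 0) hne hdeg H hH1 (fun j => (abs_coeff_le Q 0 j).trans hQH)
    have h3 : |aeval z (Q.coeff 0)| ≤ ε := by
      rw [← ev_C z t, ← h1]
      exact hεQ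
    have h4 : H ^ w ≤ H ^ (2 * b * (w + 1)) :=
      Real.rpow_le_rpow_of_exponent_le hH1 (by nlinarith)
    calc c ≤ H ^ w * |aeval z (Q.coeff 0)| := h2
      _ ≤ H ^ (2 * b * (w + 1)) * ε := mul_le_mul h4 h3 (abs_nonneg _) (by positivity)
      _ ≤ ε * (K1 ^ w * K2 * H ^ (2 * b * (w + 1))) := by
          have : 0 ≤ H ^ (2 * b * (w + 1)) * ε := by positivity
          nlinarith
  · have hQ1 : 0 < Q.natDegree := by omega
    have hres := res_ne2 Q P hQi hQ1 hdvd
    obtain ⟨N, hN⟩ : ∃ N : ℤ, N = (max (hgt P) (hgt Q) : ℕ) := ⟨_, rfl⟩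
    have hN0 : 0 ≤ N := by rw [hN]; exact Int.natCast_nonneg _
    have hNH : (N : ℝ) ≤ H := by
      rw [hN]
      push_cast
      exact max_le hPH hQH
    have hPN : ∀ i j, |(P.coeff i).coeff j| ≤ N := by
      intro i j
      rw [Int.abs_eq_natAbs, hN]
      exact_mod_cast (coeff_le_hgt P i j).trans (le_max_left _ _)
    have hQN : ∀ i j, |(Q.coeff i).coeff j| ≤ N := by
      intro i j
      rw [Int.abs_eq_natAbs, hN]
      exact_mod_cast (coeff_le_hgt Q i j).trans (le_max_right _ _)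
    obtain ⟨hR1, hR2⟩ := Pool.Agent.TH647.NR.resultant_bounds Q P Q.natDegree P.natDegree a N hN0
      hQ.2 hP.2 hQN hPN
    set R := resultant Q P Q.natDegree P.natDegree with hR
    have hsum : Q.natDegree + P.natDegree ≤ 2 * b := by
      have := hQ.1
      have := hP.1
      omega
    have hRdeg : R.natDegree ≤ 2 * b * a := hR1.trans (Nat.mul_le_mul_right a hsum)
    have hfle : ((Q.natDegree + P.natDegree).factorial : ℝ) ≤ (2 * b).factorial := by
      exact_mod_cast Nat.factorial_le hsum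
    have hRcoef : ∀ j, |(R.coeff j : ℝ)| ≤ K1 * H ^ (2 * b) := by
      intro j
      have e1 : |(R.coeff j : ℝ)| ≤ ((Q.natDegree + P.natDegree).factorial : ℝ) *
          ((a + 1) * N) ^ (Q.natDegree + P.natDegree) := by
        have := hR2 j
        have h2 : ((|R.coeff j| : ℤ) : ℝ) ≤ (((Q.natDegree + P.natDegree).factorial *
            ((a + 1) * N) ^ (Q.natDegree + P.natDegree) : ℤ) : ℝ) := by exact_mod_cast this
        push_cast at h2
        exact h2
      refine e1.trans ?_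
      have hN0' : (0 : ℝ) ≤ N := by exact_mod_cast hN0
      have e3 : (((a : ℝ) + 1) * N) ^ (Q.natDegree + P.natDegree) ≤ ((a + 1) * H) ^ (2 * b) := by
        calc (((a : ℝ) + 1) * N) ^ (Q.natDegree + P.natDegree)
            ≤ ((a + 1) * H) ^ (Q.natDegree + P.natDegree) := by
              apply pow_le_pow_left₀ (by positivity)
              exact mul_le_mul_of_nonneg_left hNH (by positivity)
          _ ≤ _ := pow_le_pow_right₀ (one_le_mul_of_one_le_of_one_le ha1 hH1) hsum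
      calc ((Q.natDegree + P.natDegree).factorial : ℝ) * ((a + 1) * N) ^ (Q.natDegree + P.natDegree)
          ≤ (2 * b).factorial * ((a + 1) * H) ^ (2 * b) :=
            mul_le_mul hfle e3 (by positivity) (by positivity)
        _ = K1 * H ^ (2 * b) := by
            rw [hK1, mul_pow]
            ring
    -- the value
    set φ : ℤ[X] →+* ℂ := eval₂RingHom (Int.castRingHom ℂ) (z : ℂ) with hφ
    have hφv : ∀ p : ℤ[X], ‖φ p‖ = |aeval z p| := by
      intro p
      have e1 : φ p = aeval (z : ℂ) p := rfl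
      have e2 : aeval (z : ℂ) p = ((aeval z p : ℝ) : ℂ) := by
        rw [← Complex.coe_algebraMap, aeval_algebraMap_apply]
      rw [e1, e2, Complex.norm_real, Real.norm_eq_abs]
    have hφe : ∀ p : ℤ[X][Y], p.natDegree ≤ b → ‖(p.map φ).eval (t : ℂ)‖ = |ev z t p| := by
      intro p hp
      have e1 : (p.map φ).eval (t : ℂ) = ((ev z t p : ℝ) : ℂ) := by
        rw [eval_map, eval₂_eq_sum_range' _ (show p.natDegree < b + 1 by omega), ev_eq_sum z t b p hp]
        push_cast
        apply Finset.sum_congr rfl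
        intro i _
        congr 1
        have e1 : φ (p.coeff i) = aeval (z : ℂ) (p.coeff i) := rfl
        rw [e1, ← Complex.coe_algebraMap, aeval_algebraMap_apply]
      rw [e1, Complex.norm_real, Real.norm_eq_abs]
    have hBv : 1 ≤ (a + 1) * T ^ a * H :=
      one_le_mul_of_one_le_of_one_le (one_le_mul_of_one_le_of_one_le ha1 (one_le_pow₀ hT)) hH1
    have hval := Pool.Agent.TH647.NR.norm_resultant_le (Q.map φ) (P.map φ) Q.natDegree P.natDegree
      natDegree_map_le natDegree_map_le (by omega) ((a + 1) * T ^ a * H) T ε hBv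
      (fun i => by
        rw [coeff_map, hφv]
        exact aeval_bound z T _ hT hz hH0.le a _ (hQ.2 i) (fun j => (abs_coeff_le Q i j).trans hQH))
      (fun i => by
        rw [coeff_map, hφv]
        exact aeval_bound z T _ hT hz hH0.le a _ (hP.2 i) (fun j => (abs_coeff_le P i j).trans hPH))
      (t : ℂ) hT (by rw [Complex.norm_real, Real.norm_eq_abs]; exact ht)
      (by rw [hφe Q hQ.1]; exact hεQ) (by rw [hφe P hP.1]; exact hεP)
    rw [resultant_map_map, ← hR, hφv] at hval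
    have hval' : |aeval z R| ≤ K2 * H ^ (2 * b) * ε := by
      refine hval.trans ?_
      have e0 : ((Q.natDegree : ℝ) + P.natDegree) ≤ 2 * b := by exact_mod_cast hsum
      have e1 : T ^ (Q.natDegree + P.natDegree) ≤ T ^ (2 * b) := pow_le_pow_right₀ hT hsum
      have e3 : ((a + 1) * T ^ a * H) ^ (Q.natDegree + P.natDegree) ≤
          ((a + 1) * T ^ a * H) ^ (2 * b) := pow_le_pow_right₀ hBv hsum
      calc ((Q.natDegree : ℝ) + P.natDegree) * (T ^ (Q.natDegree + P.natDegree) * ε) *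
            ((Q.natDegree + P.natDegree).factorial *
              ((a + 1) * T ^ a * H) ^ (Q.natDegree + P.natDegree))
          ≤ (2 * b) * (T ^ (2 * b) * ε) * ((2 * b).factorial *
              ((a + 1) * T ^ a * H) ^ (2 * b)) := by gcongr
        _ = K2 * H ^ (2 * b) * ε := by
            rw [hK2, mul_pow _ H]
            ring
    have hAz : 1 ≤ K1 * H ^ (2 * b) := one_le_mul_of_one_le_of_one_le hK1' (one_le_pow₀ hH1)
    have h2 := hm R hres hRdeg (K1 * H ^ (2 * b)) hAz hRcoef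
    have h3 : (K1 * H ^ (2 * b)) ^ w = K1 ^ w * H ^ (2 * b * w) := by
      rw [Real.mul_rpow (by linarith) (by positivity), ← Real.rpow_natCast H, ← Real.rpow_mul hH0.le]
      push_cast
      rfl
    have h4 : H ^ (2 * b * (w + 1)) = H ^ (2 * b * w) * H ^ (2 * b) := by
      rw [← Real.rpow_natCast H (2 * b), ← Real.rpow_add hH0]
      congr 1
      push_cast
      ring
    calc c ≤ (K1 * H ^ (2 * b)) ^ w * |aeval z R| := h2
      _ ≤ (K1 * H ^ (2 * b)) ^ w * (K2 * H ^ (2 * b) * ε) :=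
          mul_le_mul_of_nonneg_left hval' (by positivity)
      _ = ε * (K1 ^ w * K2 * H ^ (2 * b * (w + 1))) := by
          rw [h3, h4]
          ring

end Pool.Agent.Q95.AR
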