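import Pool.Agent.Q95.AR2
import Pool.Agent.Q95.NR3

/-!
# Windows of scales, the criterion and counting for algebraic relations between `z` and `t`
-/

set_option autoImplicit false

namespace Pool.Agent.Q95.AR

open Polynomial Polynomial.Bivariate Pool.Agent.Q158.EqD

/-- the weighted value -/
noncomputable def phi (a : ℕ) (z t g : ℝ) (P : ℤ[X][Y]) : ℝ := |ev z t P| * (mm a P) ^ g

theorem mm_nonneg (a : ℕ) (P : ℤ[X][Y]) : 0 ≤ mm a P := mahlerMeasure_nonneg _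

theorem phi_nonneg (a : ℕ) (z t g : ℝ) (P : ℤ[X][Y]) : 0 ≤ phi a z t g P :=
  mul_nonneg (abs_nonneg _) (Real.rpow_nonneg (mm_nonneg _ _) _)

theorem phi_mul (a : ℕ) (z t g : ℝ) (P Q : ℤ[X][Y]) :
    phi a z t g (P * Q) = phi a z t g P * phi a z t g Q := by
  unfold phi
  rw [map_mul, abs_mul, mm_mul, Real.mul_rpow (mm_nonneg _ _) (mm_nonneg _ _)]
  ring

theorem one_le_phi {a b : ℕ} {z t g : ℝ} (hg : 0 ≤ g) {P : ℤ[X][Y]} (hP : Box a b P) (h0 : P ≠ 0)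
    (hwt : wt P = 0) : 1 ≤ phi a z t g P := by
  have h2 := eq_C_of_wt hwt
  have h3 : (P.coeff 0).coeff 0 ≠ 0 := by
    intro h
    rw [h, C_0, C_0] at h2
    exact h0 h2
  have h4 : (1 : ℝ) ≤ |ev z t P| := by
    rw [h2, ev_CC]
    have : (1 : ℤ) ≤ |(P.coeff 0).coeff 0| := Int.one_le_abs h3
    exact_mod_cast this
  exact one_le_mul_of_one_le_of_one_le h4 (Real.one_le_rpow (one_le_mm hP h0) hg)

theorem wt_one : wt (1 : ℤ[X][Y]) = 0 := by
  unfold wt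
  rw [map_one, natDegree_one]

theorem wt_unit {u : ℤ[X][Y]} (hu : IsUnit u) : wt u = 0 := by
  obtain ⟨v, hv⟩ := hu.exists_right_inv
  have h1 : u ≠ 0 := hu.ne_zero
  have h2 : v ≠ 0 := by
    intro h
    rw [h, mul_zero] at hv
    exact zero_ne_one hv
  have h3 := wt_mul h1 h2
  rw [hv, wt_one] at h3
  omega

theorem split {a b : ℕ} {z t g L c2 : ℝ} (hg : 0 ≤ g) (hL : 1 ≤ L) (hc2 : 0 < c2) (hc21 : c2 ≤ 1)
    (P : ℤ[X][Y]) (hP0 : P ≠ 0) (hP : Box a b P)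
    (hsm : ∀ Q : ℤ[X][Y], Irreducible Q → Q ∣ P → phi a z t g Q < c2 → mm a Q ≤ L) :
    ∃ G R : ℤ[X][Y], P = G * R ∧ mm a G ≤ L ^ wt P ∧ c2 ^ wt P ≤ phi a z t g R := by
  induction P using WfDvdMonoid.induction_on_irreducible with
  | zero => exact absurd rfl hP0
  | unit u hu =>
    refine ⟨1, u, (one_mul u).symm, ?_, ?_⟩
    · rw [wt_unit hu, pow_zero]
      unfold mm
      rw [map_one, Polynomial.map_one, mahlerMeasure_one]
    · rw [wt_unit hu, pow_zero]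
      exact one_le_phi hg hP hP0 (wt_unit hu)
  | mul p i hp hi ih =>
    have hBp : Box a b p := hP.of_dvd hP0 (Dvd.intro_left _ rfl)
    have hBi : Box a b i := hP.of_dvd hP0 (Dvd.intro _ rfl)
    obtain ⟨G, R, h1, h2, h3⟩ := ih hp hBp (fun Q hQ hQp => hsm Q hQ (Dvd.dvd.mul_left hQp i))
    have hwt := wt_mul hi.ne_zero hp
    have hc2p : 0 < c2 ^ wt p := by positivity
    by_cases hcase : 0 < wt i ∧ phi a z t g i < c2
    · refine ⟨i * G, R, by rw [h1]; ring, ?_, ?_⟩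
      · rw [mm_mul, hwt, pow_add]
        refine mul_le_mul ?_ h2 (mm_nonneg _ _) (by positivity)
        calc mm a i ≤ L := hsm i hi (Dvd.intro _ rfl) hcase.2
          _ = L ^ 1 := (pow_one L).symm
          _ ≤ L ^ wt i := pow_le_pow_right₀ hL hcase.1
      · refine le_trans ?_ h3
        rw [hwt]
        exact pow_le_pow_of_le_one hc2.le hc21 (by omega)
    · refine ⟨G, i * R, by rw [h1]; ring, ?_, ?_⟩
      · refine h2.trans ?_
        rw [hwt]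
        exact pow_le_pow_right₀ hL (by omega)
      · rw [phi_mul, hwt, pow_add]
        refine mul_le_mul ?_ h3 hc2p.le (phi_nonneg _ _ _ _ _)
        by_cases hw0 : wt i = 0
        · rw [hw0, pow_zero]
          exact one_le_phi hg hBi hi.ne_zero hw0
        · have h4 : c2 ≤ phi a z t g i := by
            by_contra hcon
            exact hcase ⟨by omega, not_le.1 hcon⟩
          calc c2 ^ wt i ≤ c2 ^ 1 := pow_le_pow_of_le_one hc2.le hc21 (by omega)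
            _ ≤ phi a z t g i := by rw [pow_one]; exact h4

theorem mm_le_of_dvd {a b : ℕ} {P Q : ℤ[X][Y]} (hP : Box a b P) (hP0 : P ≠ 0) (h : Q ∣ P) :
    mm a Q ≤ mm a P := by
  obtain ⟨S, hS⟩ := h
  have hS0 : S ≠ 0 := by
    rintro rfl
    rw [mul_zero] at hS
    exact hP0 hS
  have h1 : 1 ≤ mm a S := one_le_mm (hP.of_dvd hP0 ⟨Q, by rw [hS]; ring⟩) hS0
  rw [hS, mm_mul]
  exact le_mul_of_one_le_right (mm_nonneg _ _) h1

/-- **Windows.** -/
theorem window {z w c T γ δ : ℝ} {a b : ℕ} (hb : 1 ≤ b) (hw : 0 ≤ w) (hc : 0 < c)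
    (hm : TM (2 * b * a) w c z) (hT : 1 ≤ T) (hz : |z| ≤ T) (hδ : 0 < δ)
    (hγ : 2 * b * (w + 1) + δ < γ) :
    ∃ K : ℝ, 1 ≤ K ∧ ∀ t : ℝ, |t| ≤ T → ∀ V Z : ℝ, K ≤ V → V ≤ Z →
      (∀ X ∈ Set.Icc V Z, ∃ P : ℤ[X][Y], P ≠ 0 ∧ Box a b P ∧ (hgt P : ℝ) ≤ X ∧
        |ev z t P| ≤ X ^ (-γ)) →
      ∃ G : ℤ[X][Y], G ≠ 0 ∧ Box a b G ∧ (hgt G : ℝ) ≤ K * V ^ (a + b) ∧
        |ev z t G| ≤ K * Z ^ (-δ) := by
  obtain ⟨c1, hc1, hgap⟩ := gap hb hw hc hm hT hz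
  obtain ⟨κ, hκ⟩ : ∃ κ : ℝ, κ = 2 * b * (w + 1) := ⟨_, rfl⟩
  rw [← hκ] at hgap hγ
  have hb1 : (1 : ℝ) ≤ b := by exact_mod_cast hb
  have hκ0 : 0 ≤ κ := by rw [hκ]; positivity
  obtain ⟨k, hk⟩ : ∃ k : ℝ, k = k0 a b := ⟨_, rfl⟩
  have hk1 : 1 ≤ k := hk ▸ one_le_k0 a b
  have hk0' : 0 < k := by linarith
  obtain ⟨c2, hc2⟩ : ∃ c2 : ℝ, c2 = min 1 (c1 * k ^ (-κ)) := ⟨_, rfl⟩
  have hc20 : 0 < c2 := by rw [hc2]; positivity
  have hc21 : c2 ≤ 1 := by rw [hc2]; exact min_le_left _ _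
  have hc2' : c2 ≤ c1 * k ^ (-κ) := by rw [hc2]; exact min_le_right _ _
  have hγ0 : 0 < γ - δ := by linarith
  have hγκ : 0 < γ - κ := by linarith
  obtain ⟨E, hE⟩ : ∃ E : ℝ, E = (2 * k) ^ γ * k ^ κ / c1 := ⟨_, rfl⟩
  have hE0 : 0 < E := by rw [hE]; positivity
  obtain ⟨K, hK⟩ : ∃ K : ℝ, K = 1 + E ^ (1 / (γ - κ)) + k * (2 * k) ^ (a + b) +
    k ^ (γ - δ) / c2 ^ (a + b) := ⟨_, rfl⟩
  have e1 : 0 < E ^ (1 / (γ - κ)) := by positivity
  have e2 : 0 < k * (2 * k) ^ (a + b) := by positivity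
  have e3 : 0 < k ^ (γ - δ) / c2 ^ (a + b) := by positivity
  refine ⟨K, by linarith, fun t ht V Z hKV hVZ hwin => ?_⟩
  have hV1 : 1 ≤ V := by linarith
  have hZ1 : 1 ≤ Z := by linarith
  have hZ0 : 0 < Z := by linarith
  obtain ⟨P, hP0, hPB, hPh, hPv⟩ := hwin Z ⟨hVZ, le_rfl⟩
  have hmP : mm a P ≤ k * Z := by
    rw [hk]
    exact (mm_le_hgt hPB).trans (mul_le_mul_of_nonneg_left hPh (by rw [← hk]; exact hk0'.le))
  have hsm : ∀ Q : ℤ[X][Y], Irreducible Q → Q ∣ P → phi a z t (γ - δ) Q < c2 →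
      mm a Q ≤ 2 * k * V := by
    intro Q hQi hQP hQphi
    by_contra hcon
    rw [not_le] at hcon
    have hQB : Box a b Q := hPB.of_dvd hP0 hQP
    obtain ⟨M, hM⟩ : ∃ M : ℝ, M = mm a Q := ⟨_, rfl⟩
    rw [← hM] at hcon
    have hVM : V < M := by
      have : V ≤ 2 * k * V := le_mul_of_one_le_left (by linarith) (by linarith)
      linarith
    have hM1 : 1 ≤ M := by linarith
    have hM0 : 0 < M := by linarith
    have h2k : 0 < 2 * k := by linarith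
    have hX1 : V ≤ M / (2 * k) := by
      rw [le_div_iff₀ h2k]
      linarith
    have hX2 : M / (2 * k) ≤ Z := by
      rw [div_le_iff₀ h2k, hM]
      have h8 := mm_le_of_dvd hPB hP0 hQP
      have h9 : 0 < k * Z := mul_pos hk0' hZ0
      linarith
    obtain ⟨S, hS0, hSB, hSh, hSv⟩ := hwin (M / (2 * k)) ⟨hX1, hX2⟩
    have hX0 : 0 < M / (2 * k) := by positivity
    have hndvd : ¬ Q ∣ S := by
      intro hdvd
      have h1 := mm_le_of_dvd hSB hS0 hdvd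
      have h2 := mm_le_hgt hSB
      rw [← hk] at h2
      have h3 : k * (hgt S : ℝ) ≤ k * (M / (2 * k)) := mul_le_mul_of_nonneg_left hSh hk0'.le
      have h4 : k * (M / (2 * k)) = M / 2 := by field_simp
      rw [← hM] at h1
      linarith
    have hSk : (hgt S : ℝ) ≤ k * M := by
      refine hSh.trans ?_
      rw [div_le_iff₀ h2k]
      have h9 : 1 ≤ k * (2 * k) := one_le_mul_of_one_le_of_one_le hk1 (by linarith)
      calc M = 1 * M := (one_mul M).symm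
        _ ≤ k * (2 * k) * M := mul_le_mul_of_nonneg_right h9 hM0.le
        _ = k * M * (2 * k) := by ring
    have hQk : (hgt Q : ℝ) ≤ k * M := by
      rw [hk, hM]
      exact hgt_le_mm hQB
    have hg := hgap t ht S Q hSB hQB hS0 hQi hndvd (k * M) hSk hQk
    rw [Real.mul_rpow hk0'.le hM0.le] at hg
    have hMκ : 0 < M ^ (-κ) := Real.rpow_pos_of_pos hM0 _
    have hlt : max |ev z t S| |ev z t Q| < c1 * (k ^ (-κ) * M ^ (-κ)) := by
      apply max_lt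
      · refine lt_of_le_of_lt hSv ?_
        rw [Real.div_rpow hM0.le h2k.le, Real.rpow_neg h2k.le, div_inv_eq_mul]
        have h1 : E < M ^ (γ - κ) := by
          have h2 : E ^ (1 / (γ - κ)) < M := by linarith
          calc E = (E ^ (1 / (γ - κ))) ^ (γ - κ) := by
                rw [← Real.rpow_mul hE0.le, one_div, inv_mul_cancel₀ hγκ.ne', Real.rpow_one]
            _ < M ^ (γ - κ) := Real.rpow_lt_rpow e1.le h2 hγκ
        have h3 : M ^ (-κ) = M ^ (-γ) * M ^ (γ - κ) := by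
          rw [← Real.rpow_add hM0]
          congr 1
          ring
        rw [h3, Real.rpow_neg hk0'.le]
        have hMγ : 0 < M ^ (-γ) := Real.rpow_pos_of_pos hM0 _
        have h4 : (2 * k) ^ γ < c1 * (k ^ κ)⁻¹ * M ^ (γ - κ) := by
          have h5 : (2 * k) ^ γ = c1 * (k ^ κ)⁻¹ * E := by
            rw [hE]
            field_simp
          rw [h5]
          exact mul_lt_mul_of_pos_left h1 (by positivity)
        calc M ^ (-γ) * (2 * k) ^ γ < M ^ (-γ) * (c1 * (k ^ κ)⁻¹ * M ^ (γ - κ)) :=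
              mul_lt_mul_of_pos_left h4 hMγ
          _ = _ := by ring
      · unfold phi at hQphi
        rw [← hM] at hQphi
        have hMg : 0 < M ^ (γ - δ) := Real.rpow_pos_of_pos hM0 _
        have h1 : |ev z t Q| < c2 * M ^ (-(γ - δ)) := by
          rw [Real.rpow_neg hM0.le, ← div_eq_mul_inv, lt_div_iff₀ hMg]
          exact hQphi
        have h2 : M ^ (-(γ - δ)) ≤ M ^ (-κ) :=
          Real.rpow_le_rpow_of_exponent_le hM1 (by linarith)
        calc |ev z t Q| < c2 * M ^ (-(γ - δ)) := h1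
          _ ≤ (c1 * k ^ (-κ)) * M ^ (-κ) :=
              mul_le_mul hc2' h2 (Real.rpow_pos_of_pos hM0 _).le (by positivity)
          _ = _ := by ring
    linarith
  have hL1 : 1 ≤ 2 * k * V := one_le_mul_of_one_le_of_one_le (by linarith) hV1
  obtain ⟨G, R, h1, h2, h3⟩ := split hγ0.le hL1 hc20 hc21 P hP0 hPB hsm
  have hG0 : G ≠ 0 := by
    rintro rfl
    rw [zero_mul] at h1
    exact hP0 h1
  have hGB : Box a b G := hPB.of_dvd hP0 ⟨R, h1⟩
  refine ⟨G, hG0, hGB, ?_, ?_⟩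
  · calc (hgt G : ℝ) ≤ k * mm a G := by rw [hk]; exact hgt_le_mm hGB
      _ ≤ k * (2 * k * V) ^ (a + b) := by
          refine mul_le_mul_of_nonneg_left (h2.trans ?_) hk0'.le
          exact pow_le_pow_right₀ hL1 hPB.wt_le
      _ = k * (2 * k) ^ (a + b) * V ^ (a + b) := by
          rw [mul_pow (2 * k) V]
          ring
      _ ≤ K * V ^ (a + b) := by
          apply mul_le_mul_of_nonneg_right _ (by positivity)
          linarith
  · have h4 : phi a z t (γ - δ) G * c2 ^ (a + b) ≤ phi a z t (γ - δ) P := by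
      rw [h1, phi_mul]
      refine mul_le_mul_of_nonneg_left (le_trans ?_ h3) (phi_nonneg _ _ _ _ _)
      exact pow_le_pow_of_le_one hc20.le hc21 hPB.wt_le
    have h5 : |ev z t G| ≤ phi a z t (γ - δ) G := by
      unfold phi
      exact le_mul_of_one_le_right (abs_nonneg _) (Real.one_le_rpow (one_le_mm hGB hG0) hγ0.le)
    have h6 : phi a z t (γ - δ) P ≤ k ^ (γ - δ) * Z ^ (-δ) := by
      unfold phi
      calc |ev z t P| * mm a P ^ (γ - δ) ≤ Z ^ (-γ) * (k * Z) ^ (γ - δ) := by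
            apply mul_le_mul hPv _ (Real.rpow_nonneg (mm_nonneg _ _) _) (by positivity)
            exact Real.rpow_le_rpow (mm_nonneg _ _) hmP hγ0.le
        _ = k ^ (γ - δ) * (Z ^ (-γ) * Z ^ (γ - δ)) := by
            rw [Real.mul_rpow hk0'.le hZ0.le]
            ring
        _ = k ^ (γ - δ) * Z ^ (-δ) := by
            rw [← Real.rpow_add hZ0]
            congr 2
            ring
    have hcp : 0 < c2 ^ (a + b) := by positivity
    calc |ev z t G| ≤ phi a z t (γ - δ) G := h5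
      _ ≤ phi a z t (γ - δ) P / c2 ^ (a + b) := by
          rw [le_div_iff₀ hcp]
          exact h4
      _ ≤ k ^ (γ - δ) * Z ^ (-δ) / c2 ^ (a + b) := by
          apply div_le_div_of_nonneg_right h6 hcp.le
      _ = k ^ (γ - δ) / c2 ^ (a + b) * Z ^ (-δ) := by ring
      _ ≤ K * Z ^ (-δ) := by
          apply mul_le_mul_of_nonneg_right _ (by positivity)
          linarith

theorem finite_box (a b : ℕ) (B : ℝ) : {P : ℤ[X][Y] | Box a b P ∧ (hgt P : ℝ) ≤ B}.Finite := by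
  have h1 : (Set.Icc (fun _ => -⌊B⌋ : Fin (b + 1) → Fin (a + 1) → ℤ) (fun _ _ => ⌊B⌋)).Finite :=
    Set.finite_Icc _ _
  refine Set.Finite.of_finite_image (f := fun P : ℤ[X][Y] =>
    (fun (i : Fin (b + 1)) (j : Fin (a + 1)) => (P.coeff i).coeff j)) (h1.subset ?_) ?_
  · rintro _ ⟨P, ⟨_, hP⟩, rfl⟩
    have h2 : ∀ i j, |(P.coeff i).coeff j| ≤ ⌊B⌋ := by
      intro i j
      rw [Int.le_floor]
      push_cast
      exact (abs_coeff_le P i j).trans hP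
    refine ⟨fun i j => ?_, fun i j => ?_⟩
    · exact neg_le_of_abs_le (h2 i j)
    · exact le_of_abs_le (h2 i j)
  · intro P hP Q hQ h
    ext i j
    by_cases hi : i < b + 1
    · by_cases hj : j < a + 1
      · exact congrFun (congrFun h ⟨i, hi⟩) ⟨j, hj⟩
      · rw [coeff_eq_zero_of_natDegree_lt (p := P.coeff i) (by have := hP.1.2 i; omega),
          coeff_eq_zero_of_natDegree_lt (p := Q.coeff i) (by have := hQ.1.2 i; omega)]
    · rw [coeff_eq_zero_of_natDegree_lt (p := P) (by have := hP.1.1; omega),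
        coeff_eq_zero_of_natDegree_lt (p := Q) (by have := hQ.1.1; omega)]

/-- **Criterion.** -/
theorem crit {z w c γ : ℝ} {a b : ℕ} (hb : 1 ≤ b) (hw : 0 ≤ w) (hc : 0 < c)
    (hm : TM (2 * b * a) w c z) (hγ : 2 * b * (w + 1) < γ) (t : ℝ) :
    (∃ P : ℤ[X][Y], P ≠ 0 ∧ Box a b P ∧ ev z t P = 0) ↔
      ∃ X0 : ℝ, ∀ X : ℝ, X0 ≤ X → ∃ P : ℤ[X][Y], P ≠ 0 ∧ Box a b P ∧ (hgt P : ℝ) ≤ X ∧
        |ev z t P| ≤ X ^ (-γ) := by
  constructor
  · rintro ⟨P, hP0, hPB, hPv⟩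
    refine ⟨max 1 (hgt P), fun X hX => ⟨P, hP0, hPB, (le_max_right _ _).trans hX, ?_⟩⟩
    rw [hPv, abs_zero]
    have : 1 ≤ X := (le_max_left _ _).trans hX
    positivity
  · rintro ⟨X0, hX0⟩
    by_contra hcon
    push Not at hcon
    obtain ⟨T, hT⟩ : ∃ T : ℝ, T = max 1 (max |z| |t|) := ⟨_, rfl⟩
    have hT1 : 1 ≤ T := hT ▸ le_max_left _ _
    have hTz : |z| ≤ T := hT ▸ (le_max_left _ _).trans (le_max_right _ _)
    have hTt : |t| ≤ T := hT ▸ (le_max_right _ _).trans (le_max_right _ _)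
    obtain ⟨δ, hδ0, hδ⟩ : ∃ δ : ℝ, 0 < δ ∧ 2 * b * (w + 1) + δ < γ :=
      ⟨(γ - 2 * b * (w + 1)) / 2, by linarith, by linarith⟩
    obtain ⟨K, hK1, hK⟩ := window hb hw hc hm hT1 hTz hδ0 hδ
    obtain ⟨V, hV⟩ : ∃ V : ℝ, V = max K X0 := ⟨_, rfl⟩
    have hVK : K ≤ V := hV ▸ le_max_left _ _
    have hVX : X0 ≤ V := hV ▸ le_max_right _ _
    -- the finite set
    have hfin := finite_box a b (K * V ^ (a + b))
    obtain ⟨μ, hμ0, hμ⟩ : ∃ μ : ℝ, 0 < μ ∧ ∀ P ∈ {P : ℤ[X][Y] | Box a b P ∧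
        (hgt P : ℝ) ≤ K * V ^ (a + b)}, P ≠ 0 → μ ≤ |ev z t P| := by
      by_cases hne : {P ∈ {P : ℤ[X][Y] | Box a b P ∧ (hgt P : ℝ) ≤ K * V ^ (a + b)} |
          P ≠ 0}.Nonempty
      · obtain ⟨Q, hQ, hQmin⟩ := Set.exists_min_image _ (fun P => |ev z t P|)
          (hfin.subset (Set.sep_subset _ _)) hne
        exact ⟨|ev z t Q|, abs_pos.2 (hcon Q hQ.2 hQ.1.1), fun P hP hP0 => hQmin P ⟨hP, hP0⟩⟩
      · refine ⟨1, one_pos, fun P hP hP0 => ?_⟩
        exact absurd ⟨P, hP, hP0⟩ hne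
    -- a large `Z`
    have hlim : Filter.Tendsto (fun Z : ℝ => K * Z ^ (-δ)) Filter.atTop (nhds (K * 0)) :=
      (tendsto_rpow_neg_atTop hδ0).const_mul K
    rw [mul_zero] at hlim
    obtain ⟨Z, hZ1, hZ2⟩ := ((hlim.eventually (gt_mem_nhds hμ0)).and
      (Filter.eventually_ge_atTop V)).exists
    obtain ⟨G, hG0, hGB, hGh, hGv⟩ := hK t hTt V Z hVK hZ2
      (fun X hX => hX0 X (hVX.trans hX.1))
    have := hμ G ⟨hGB, hGh⟩ hG0
    linarith

/-- **Counting.** -/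
theorem count {z w c T om ρ : ℝ} {a b : ℕ} (hb : 1 ≤ b) (hw : 0 ≤ w) (hc : 0 < c)
    (hm : TM (2 * b * a) w c z) (hT : 1 ≤ T) (hz : |z| ≤ T) (hρ : 1 < ρ)
    (hρo : ρ * (2 * b * (w + 1)) < om) :
    ∃ C : ℝ, ∀ t : ℝ, |t| ≤ T → ∀ (X : ℝ) (S : Set ℤ[X][Y]), 3 ≤ X →
      (∀ P ∈ S, ∀ Q ∈ S, P ≠ Q → ¬ Associated P Q) →
      (∀ P ∈ S, Irreducible P ∧ Box a b P ∧ (hgt P : ℝ) ≤ X ∧
        |ev z t P| ≤ (hgt P : ℝ) ^ (-om)) →
      S.Finite ∧ (S.ncard : ℝ) ≤ Real.log (Real.log X) / Real.log ρ + C := by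
  obtain ⟨c1, hc1, hgap⟩ := gap hb hw hc hm hT hz
  obtain ⟨κ, hκ⟩ : ∃ κ : ℝ, κ = 2 * b * (w + 1) := ⟨_, rfl⟩
  rw [← hκ] at hgap hρo
  have hb1 : (1 : ℝ) ≤ b := by exact_mod_cast hb
  have hκ0 : 0 < κ := by rw [hκ]; positivity
  have hom : 0 < om := by nlinarith
  have hfin : ∀ X : ℝ, {v : {P : ℤ[X][Y] // Box a b P} | (hgt v.1 : ℝ) ≤ X}.Finite := by
    intro X
    refine Set.Finite.of_finite_image (f := Subtype.val) ((finite_box a b X).subset ?_)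
      Subtype.val_injective.injOn
    rintro _ ⟨v, hv, rfl⟩
    exact ⟨v.2, hv⟩
  obtain ⟨C, hC⟩ := Pool.Agent.TH550.NRZ.count_unif (α := {P : ℤ[X][Y] // Box a b P})
    (fun v => (hgt v.1 : ℝ)) hfin (c1 ^ (1 / κ)) (om / κ) ρ (by positivity) hρ
    (by rwa [lt_div_iff₀ hκ0])
  refine ⟨C, fun t ht X S hX hass hS => ?_⟩
  obtain ⟨h1, h2⟩ := hC {v | v.1 ∈ S} (by
    intro u hu v hv huv hle hu1
    have huS := hS u.1 hu
    have hvS := hS v.1 hv
    have hndvd : ¬ v.1 ∣ u.1 := by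
      intro hdvd
      exact hass v.1 hv u.1 hu (fun h => huv (Subtype.ext h.symm))
        ((hvS.1.dvd_irreducible_iff_associated huS.1).1 hdvd)
    have hg := hgap t ht u.1 v.1 u.2 v.2 huS.1.ne_zero hvS.1 hndvd (hgt v.1) hle le_rfl
    obtain ⟨p, hp⟩ : ∃ x : ℝ, x = hgt u.1 := ⟨_, rfl⟩
    obtain ⟨q, hq⟩ : ∃ x : ℝ, x = hgt v.1 := ⟨_, rfl⟩
    have hu4 := huS.2.2.2
    have hv4 := hvS.2.2.2
    rw [← hp] at hle hu1 hu4 ⊢
    rw [← hq] at hle hg hv4 ⊢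
    have hp0 : 0 < p := by linarith
    have hq0 : 0 < q := by linarith
    have h3 : q ^ (-om) ≤ p ^ (-om) := Real.rpow_le_rpow_of_nonpos hp0 hle (by linarith)
    have h4 : c1 * q ^ (-κ) ≤ p ^ (-om) := hg.trans (max_le hu4 (hv4.trans h3))
    have h5 : c1 * p ^ om ≤ q ^ κ := by
      rw [Real.rpow_neg hq0.le, Real.rpow_neg hp0.le, ← div_eq_mul_inv,
        div_le_iff₀ (Real.rpow_pos_of_pos hq0 _), inv_mul_eq_div,
        le_div_iff₀ (Real.rpow_pos_of_pos hp0 _)] at h4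
      exact h4
    calc c1 ^ (1 / κ) * p ^ (om / κ) = (c1 * p ^ om) ^ (1 / κ) := by
          rw [Real.mul_rpow hc1.le (by positivity), ← Real.rpow_mul hp0.le, mul_one_div]
      _ ≤ (q ^ κ) ^ (1 / κ) := Real.rpow_le_rpow (by positivity) h5 (by positivity)
      _ = q := by rw [← Real.rpow_mul hq0.le, mul_one_div_cancel hκ0.ne', Real.rpow_one]) X hX
  have e : {v ∈ {v : {P : ℤ[X][Y] // Box a b P} | v.1 ∈ S} | (hgt v.1 : ℝ) ≤ X} =
      {v | v.1 ∈ S} := by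
    ext v
    exact ⟨fun h => h.1, fun h => ⟨h, (hS v.1 h).2.2.1⟩⟩
  rw [e] at h1 h2
  have e2 : S = Subtype.val '' {v : {P : ℤ[X][Y] // Box a b P} | v.1 ∈ S} := by
    ext P
    constructor
    · intro hP
      exact ⟨⟨P, (hS P hP).2.1⟩, hP, rfl⟩
    · rintro ⟨v, hv, rfl⟩
      exact hv
  rw [e2]
  refine ⟨h1.image _, ?_⟩
  rw [Set.ncard_image_of_injective _ Subtype.val_injective]
  exact h2

end Pool.Agent.Q95.AR
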