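import Mathlib

/-!
# Discrete measures (helper for MP_fbca0c_an)
-/

open MeasureTheory Set Filter
open scoped ENNReal

noncomputable section

namespace Q95.Disc

variable {Ω : Type*} [MeasurableSpace Ω] [DiscreteMeasurableSpace Ω]

/-- the discrete measure with weights `w` -/
def dm (w : Ω → ℝ≥0∞) : Measure Ω := Measure.sum fun x => w x • Measure.dirac x

lemma lintegral_dm (w : Ω → ℝ≥0∞) (f : Ω → ℝ≥0∞) : ∫⁻ x, f x ∂(dm w) = ∑' x, w x * f x := by
  unfold dm
  rw [lintegral_sum_measure]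
  apply tsum_congr
  intro x
  rw [lintegral_smul_measure, lintegral_dirac, smul_eq_mul]

lemma dm_apply (w : Ω → ℝ≥0∞) (s : Set Ω) : dm w s = ∑' x, w x * s.indicator 1 x := by
  rw [← lintegral_indicator_one (MeasurableSet.of_discrete), lintegral_dm]

lemma dm_singleton (w : Ω → ℝ≥0∞) (x : Ω) : dm w {x} = w x := by
  classical
  rw [dm_apply, tsum_eq_single x]
  · simp
  · intro y hy
    simp [hy]

lemma ae_iff_all {w : Ω → ℝ≥0∞} (hw : ∀ x, w x ≠ 0) {P : Ω → Prop} :
    (∀ᵐ x ∂(dm w), P x) ↔ ∀ x, P x := by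
  constructor
  · intro h x
    by_contra hx
    rw [ae_iff] at h
    have : dm w {x} ≤ dm w {y | ¬ P y} := measure_mono (by intro y hy; rw [mem_singleton_iff] at hy; subst hy; exact hx)
    rw [h, dm_singleton] at this
    exact hw x (le_antisymm this zero_le)
  · intro h
    exact Eventually.of_forall h

lemma isProb {w : Ω → ℝ≥0∞} (h : ∑' x, w x = 1) : IsProbabilityMeasure (dm w) := by
  refine ⟨?_⟩
  rw [dm_apply]
  simpa using h

/-- functions measurable with respect to a comap are constant on the fibres -/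
lemma const_fibre {α β E : Type*} [MeasurableSpace β] [MeasurableSpace E]
    [MeasurableSingletonClass E] {π : α → β} {f : α → E}
    (hf : @Measurable _ _ (MeasurableSpace.comap π inferInstance) _ f) {x y : α}
    (h : π x = π y) : f x = f y := by
  have h1 : @MeasurableSet _ (MeasurableSpace.comap π inferInstance) (f ⁻¹' {f y}) :=
    hf (measurableSet_singleton _)
  obtain ⟨T, _, hT⟩ := h1
  have h2 : y ∈ π ⁻¹' T := by rw [hT]; simp
  have h3 : x ∈ π ⁻¹' T := by
    rw [mem_preimage, h]; exact h2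
  rw [hT] at h3
  simpa using h3

/-- `ℓ_p ⊆ ℓ_1` for `p ≤ 1` -/
lemma tsum_le_rpow {ι : Type*} (a : ι → ℝ≥0∞) {p : ℝ} (hp0 : 0 < p) (hp1 : p ≤ 1) :
    ∑' i, a i ≤ (∑' i, a i ^ p) ^ (1 / p) := by
  have fin : ∀ s : Finset ι, (∑ i ∈ s, a i) ^ p ≤ ∑ i ∈ s, a i ^ p := by
    classical
    intro s
    induction s using Finset.induction_on with
    | empty => simp [hp0]
    | insert i s hi ih =>
      rw [Finset.sum_insert hi, Finset.sum_insert hi]
      exact (ENNReal.rpow_add_le_add_rpow _ _ hp0.le hp1).trans (add_le_add le_rfl ih)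
  rw [ENNReal.tsum_eq_iSup_sum]
  apply iSup_le
  intro s
  rw [← ENNReal.rpow_le_rpow_iff hp0, ← ENNReal.rpow_mul, one_div_mul_cancel hp0.ne',
    ENNReal.rpow_one]
  exact (fin s).trans (ENNReal.sum_le_tsum s)

end Q95.Disc
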