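import Mathlib

set_option autoImplicit false

/-!
# Gram vectors of a multiple of a projection matrix
-/

namespace Pool.Agent.Q95.Etf

open Matrix

/-- A symmetric real matrix with `X * X = c • X` and trace `c * r` is the Gram matrix of vectors
of `ℝ^r` which form a tight frame with constant `c`. -/
theorem exists_vectors {N r : ℕ} (X : Matrix (Fin N) (Fin N) ℝ) (hs : Xᵀ = X) (c : ℝ) (hc : 0 < c)
    (hX : X * X = c • X) (htr : X.trace = c * r) :
    ∃ v : Fin N → Fin r → ℝ, (∀ i j, v i ⬝ᵥ v j = X i j) ∧
      ∑ i, Matrix.vecMulVec (v i) (v i) = c • (1 : Matrix (Fin r) (Fin r) ℝ) := by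
  classical
  have hA : X.IsHermitian := by
    rw [Matrix.IsHermitian, Matrix.conjTranspose_eq_transpose_of_trivial, hs]
  set U : Matrix (Fin N) (Fin N) ℝ := (hA.eigenvectorUnitary : Matrix (Fin N) (Fin N) ℝ) with hU
  set μ := hA.eigenvalues with hμ
  have hUU : Uᵀ * U = 1 := by
    have := Unitary.coe_star_mul_self hA.eigenvectorUnitary
    rwa [Matrix.star_eq_conjTranspose, Matrix.conjTranspose_eq_transpose_of_trivial] at this
  have hXU : ∀ i j, X i j = ∑ k, U i k * μ k * U j k := by
    intro i j
    have h1 := hA.spectral_theorem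
    rw [Unitary.conjStarAlgAut_apply] at h1
    conv_lhs => rw [h1]
    rw [Matrix.star_eq_conjTranspose, Matrix.conjTranspose_eq_transpose_of_trivial,
      Matrix.mul_apply]
    apply Finset.sum_congr rfl
    intro k _
    rw [Matrix.mul_diagonal, Matrix.transpose_apply]
    rfl
  have hμ2 : ∀ k, μ k = 0 ∨ μ k = c := by
    intro k
    have h1 := hA.mulVec_eigenvectorBasis k
    have h2 : X *ᵥ (X *ᵥ ⇑(hA.eigenvectorBasis k)) =
        (μ k * μ k) • ⇑(hA.eigenvectorBasis k) := by
      rw [h1, Matrix.mulVec_smul, h1, smul_smul]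
    rw [Matrix.mulVec_mulVec, hX, Matrix.smul_mulVec, h1, smul_smul] at h2
    have h3 : (hA.eigenvectorBasis k) ≠ 0 := by
      intro h
      have := hA.eigenvectorBasis.orthonormal.1 k
      rw [h, norm_zero] at this
      exact zero_ne_one this
    have h4 : (⇑(hA.eigenvectorBasis k) : Fin N → ℝ) ≠ 0 := by
      intro h
      apply h3
      ext i
      exact congrFun h i
    have h5 : c * μ k = μ k * μ k := by
      obtain ⟨i, hi⟩ := Function.ne_iff.1 h4
      have := congrFun h2 i
      simp only [Pi.smul_apply, smul_eq_mul] at this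
      exact mul_right_cancel₀ hi this
    by_cases h : μ k = 0
    · exact Or.inl h
    · right
      exact (mul_right_cancel₀ h h5).symm
  have hcard : Fintype.card {k : Fin N // μ k = c} = r := by
    have h1 := hA.trace_eq_sum_eigenvalues
    have h2 : ∑ k, ((μ k : ℝ)) = c * Fintype.card {k : Fin N // μ k = c} := by
      rw [Fintype.card_subtype, Finset.card_eq_sum_ones, Nat.cast_sum, Finset.mul_sum,
        Finset.sum_filter]
      apply Finset.sum_congr rfl
      intro k _
      rcases hμ2 k with h | h
      · rw [h, if_neg hc.ne]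
      · rw [h, if_pos rfl]; simp
    rw [htr] at h1
    have h3 : c * (r : ℝ) = c * Fintype.card {k : Fin N // μ k = c} := by
      rw [← h2, h1]
      rfl
    have h4 := mul_left_cancel₀ hc.ne' h3
    exact_mod_cast h4.symm
  obtain ⟨e⟩ : Nonempty (Fin r ≃ {k : Fin N // μ k = c}) := by
    rw [← Fintype.card_eq, Fintype.card_fin, hcard]
  refine ⟨fun i k => Real.sqrt c * U i (e k), fun i j => ?_, ?_⟩
  · rw [hXU i j, dotProduct]
    have h1 : ∑ k, U i k * μ k * U j k = ∑ k ∈ Finset.univ.filter (fun k => μ k = c),
        U i k * c * U j k := by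
      rw [Finset.sum_filter]
      apply Finset.sum_congr rfl
      intro k _
      rcases hμ2 k with h | h
      · rw [h, if_neg hc.ne]; ring
      · rw [h, if_pos rfl]
    rw [h1, ← Finset.sum_subtype (Finset.univ.filter (fun k => μ k = c))
      (p := fun k => μ k = c) (by simp) (fun k => U i k * c * U j k) |>.symm,
      ← e.sum_comp]
    apply Finset.sum_congr rfl
    intro k _
    have := Real.mul_self_sqrt hc.le
    calc Real.sqrt c * U i (e k) * (Real.sqrt c * U j (e k))
        = (Real.sqrt c * Real.sqrt c) * (U i (e k) * U j (e k)) := by ring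
      _ = U i (e k) * c * U j (e k) := by rw [this]; ring
  · ext a b
    rw [Matrix.sum_apply]
    have h1 : (Uᵀ * U) (e a) (e b) = ∑ i, U i (e a) * U i (e b) := by
      rw [Matrix.mul_apply]; rfl
    rw [hUU, Matrix.one_apply] at h1
    calc ∑ i, Matrix.vecMulVec (fun k => Real.sqrt c * U i (e k))
          (fun k => Real.sqrt c * U i (e k)) a b
        = ∑ i, (Real.sqrt c * Real.sqrt c) * (U i (e a) * U i (e b)) := by
          apply Finset.sum_congr rfl
          intro i _
          rw [Matrix.vecMulVec_apply]; ring
      _ = c * ∑ i, U i (e a) * U i (e b) := by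
          rw [← Finset.mul_sum, Real.mul_self_sqrt hc.le]
      _ = (c • (1 : Matrix (Fin r) (Fin r) ℝ)) a b := by
          rw [← h1, Matrix.smul_apply, Matrix.one_apply, smul_eq_mul]
          congr 1
          by_cases hab : a = b
          · simp [hab]
          · have : (e a : Fin N) ≠ e b := fun h => hab (e.injective (Subtype.ext h))
            simp [hab, this]

end Pool.Agent.Q95.Etf
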