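import Pool.Agent.Q95.GaussMult
import Pool.Agent.Q95.GK2
import Pool.Agent.W243.TD.Trdeg
import Pool.Agent.H297R2.Density

/-!
# Values of the Gamma function in the classes `ℚ z + ℚ`
-/

set_option autoImplicit false

namespace Q95.GC

open Complex IntermediateField

lemma prod_al {F : IntermediateField ℚ ℂ} {ι : Type*} (s : Finset ι) (f : ι → ℂ)
    (h : ∀ i ∈ s, IsAlgebraic F (f i)) : IsAlgebraic F (∏ i ∈ s, f i) := by
  classical
  induction s using Finset.induction_on with
  | empty => simpa using isAlgebraic_one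
  | insert i s hi ih =>
    rw [Finset.prod_insert hi]
    exact (h i (Finset.mem_insert_self _ _)).mul (ih fun j hj => h j (Finset.mem_insert_of_mem hj))

/-- the exponential values attached to a class -/
theorem class_exp {F : IntermediateField ℚ ℂ} (z : ℂ) (hz : ∀ q : ℚ, z ≠ q)
    (h : ∀ m ∈ ({2, 3, 4, 5, 7} : Finset ℕ), (∀ k < m, IsAlgebraic F (Gamma (z + k / m))) ∧
      IsAlgebraic F (Gamma (m * z))) :
    ∀ p ∈ ({2, 3, 5, 7} : Finset ℕ), IsAlgebraic F (exp (z * Real.log p)) := by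
  have hpi : (Real.pi : ℂ) ≠ 0 := by exact_mod_cast Real.pi_ne_zero
  have hnat : ∀ m : ℕ, IsAlgebraic F (m : ℂ) := fun m => by
    have := isAlgebraic_algebraMap (R := F) (A := ℂ) (m : F)
    simpa using this
  -- the quantity `exp (2 m z log m) / π ^ (m - 1)`
  have hU : ∀ m ∈ ({2, 3, 4, 5, 7} : Finset ℕ),
      IsAlgebraic F (exp (2 * m * (z * Real.log m)) / (Real.pi : ℂ) ^ (m - 1)) := by
    intro m hm
    have hm0 : 0 < m := by
      fin_cases hm <;> norm_num
    have hmc : (m : ℂ) ≠ 0 := by exact_mod_cast hm0.ne'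
    obtain ⟨h1, h2⟩ := h m hm
    have hmz : ∀ k : ℕ, (m : ℂ) * z ≠ -k := by
      intro k hk
      apply hz (-(k : ℚ) / m)
      push_cast
      field_simp
      linear_combination hk
    have h3 := GM.const_sq m hm0 z hmz
    have hG0 : Gamma (m * z) ≠ 0 := Gamma_ne_zero hmz
    set P := ∏ k ∈ Finset.range m, Gamma (z + k / m) with hP
    set S := ∏ k ∈ Finset.range (m - 1), Complex.sin (Real.pi * ((k + 1 : ℕ) / m)) with hS
    have h4 : Gamma (m * z) ^ 2 * ((m : ℂ) ^ 2 * (Real.pi : ℂ) ^ (m - 1)) ≠ 0 :=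
      mul_ne_zero (pow_ne_zero _ hG0) (mul_ne_zero (pow_ne_zero _ hmc) (pow_ne_zero _ hpi))
    have hP0 : P ≠ 0 := by
      intro h5
      rw [h5] at h3
      apply h4
      rw [← h3]; simp
    have hS0 : S ≠ 0 := by
      intro h5
      rw [h5] at h3
      apply h4
      rw [← h3]; simp
    have hPal : IsAlgebraic F P := prod_al _ _ fun k hk => h1 k (Finset.mem_range.mp hk)
    have hSal : IsAlgebraic F S := prod_al _ _ fun k _ => by
      have h6 := Complex.isAlgebraic_sin_rat_mul_pi ((k + 1 : ℕ) / m : ℚ)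
      have h7 : IsAlgebraic ℚ (Complex.sin (((k + 1 : ℕ) / m : ℚ) * Real.pi)) :=
        h6.extendScalars (algebraMap ℤ ℚ).injective_int
      have h8 : IsAlgebraic F (Complex.sin (((k + 1 : ℕ) / m : ℚ) * Real.pi)) :=
        h7.extendScalars (algebraMap ℚ F).injective
      have h9 : (Real.pi : ℂ) * (((k + 1 : ℕ) : ℂ) / (m : ℂ)) =
          (((k + 1 : ℕ) / m : ℚ) : ℂ) * Real.pi := by push_cast; ring
      rw [h9]
      exact h8
    have h5 : (m : ℂ) ^ ((m : ℂ) * z) = exp (m * (z * Real.log m)) := by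
      rw [cpow_def_of_ne_zero hmc, natCast_log]
      congr 1
      ring
    have h6 : exp (2 * m * (z * Real.log m)) / (Real.pi : ℂ) ^ (m - 1) =
        Gamma (m * z) ^ 2 * (m : ℂ) ^ 2 * (P ^ 2 * S)⁻¹ := by
      have h7 : exp (2 * m * (z * Real.log m)) = ((m : ℂ) ^ ((m : ℂ) * z)) ^ 2 := by
        rw [h5, ← exp_nat_mul]
        congr 1
        push_cast
        ring
      rw [h7, div_eq_iff (pow_ne_zero _ hpi)]
      field_simp
      linear_combination h3
    rw [h6]
    exact ((h2.pow 2).mul ((hnat m).pow 2)).mul (((hPal.pow 2).mul hSal).inv)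
  have h2log : IsAlgebraic F (exp (4 * (z * Real.log 2))) := by
    have hU2 := hU 2 (by simp)
    have hU4 := hU 4 (by simp)
    have hl4 : (Real.log (4 : ℕ) : ℂ) = 2 * Real.log 2 := by
      have : Real.log ((4 : ℕ) : ℝ) = 2 * Real.log 2 := by
        rw [show ((4 : ℕ) : ℝ) = 2 ^ 2 by norm_num, Real.log_pow]; norm_num
      rw [this]; push_cast; rfl
    have h := hU4.mul ((hU2.pow 3).inv)
    have e : exp (2 * (4 : ℕ) * (z * Real.log (4 : ℕ))) / (Real.pi : ℂ) ^ (4 - 1) *
        ((exp (2 * (2 : ℕ) * (z * Real.log (2 : ℕ))) / (Real.pi : ℂ) ^ (2 - 1)) ^ 3)⁻¹ =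
        exp (4 * (z * Real.log 2)) := by
      rw [hl4, div_pow, ← exp_nat_mul, inv_div]
      have e1 : (2 : ℂ) * (4 : ℕ) * (z * (2 * Real.log 2)) =
          (3 : ℕ) * (2 * (2 : ℕ) * (z * Real.log (2 : ℕ))) + 4 * (z * Real.log 2) := by
        push_cast; ring
      rw [e1, exp_add]
      norm_num
      field_simp
    rw [e] at h
    exact h
  have hpiA : IsAlgebraic F (Real.pi : ℂ) := by
    have hU2 := hU 2 (by simp)
    have h := h2log.mul hU2.inv
    have e : exp (4 * (z * Real.log 2)) *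
        (exp (2 * (2 : ℕ) * (z * Real.log (2 : ℕ))) / (Real.pi : ℂ) ^ (2 - 1))⁻¹ = Real.pi := by
      rw [inv_div]
      have e1 : (2 : ℂ) * (2 : ℕ) * (z * Real.log (2 : ℕ)) = 4 * (z * Real.log 2) := by
        push_cast; ring
      rw [e1]
      norm_num
      field_simp
    rw [e] at h
    exact h
  intro p hp
  have hp' : p ∈ ({2, 3, 4, 5, 7} : Finset ℕ) := by
    fin_cases hp <;> simp
  have hp0 : 0 < p := by fin_cases hp <;> norm_num
  have h := (hU p hp').mul (hpiA.pow (p - 1))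
  rw [div_mul_cancel₀ _ (pow_ne_zero _ hpi)] at h
  apply IsAlgebraic.of_pow (n := 2 * p) (by omega)
  rw [← exp_nat_mul, Nat.cast_mul, Nat.cast_ofNat]
  exact h

/-- algebraicity over the field generated by one element -/
theorem al_of_trdeg (K : IntermediateField ℚ ℂ) (hK : Algebra.trdeg ℚ K ≤ 1) {θ : ℂ} (hθK : θ ∈ K)
    (hθ : Transcendental ℚ θ) {x : ℂ} (hx : x ∈ K) : IsAlgebraic (adjoin ℚ {θ}) x := by
  set t : K := ⟨θ, hθK⟩ with ht
  have hθ' : Transcendental ℚ t := by
    intro h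
    exact hθ (h.algebraMap (A := ℂ))
  have h1 : AlgebraicIndependent ℚ (fun _ : Unit => t) := by
    rw [algebraicIndependent_unique_type_iff]
    exact hθ'
  have h2 : IsTranscendenceBasis ℚ (fun _ : Unit => t) :=
    h1.isTranscendenceBasis_of_lift_trdeg_le_of_finite (by simpa using hK)
  have h3 : Algebra.IsAlgebraic ℚ⟮t⟯ K := by
    have := h2.isAlgebraic_field
    rwa [Set.range_const] at this
  exact Pool.Agent.W243.TD.al_of_mem t ⟨x, hx⟩

/-- transitivity -/
theorem al_trans2 {θ φ x : ℂ} (h1 : IsAlgebraic (adjoin ℚ {θ}) φ)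
    (h2 : IsAlgebraic (adjoin ℚ {φ}) x) : IsAlgebraic (adjoin ℚ {θ}) x := by
  have h3 : ∀ y : (adjoin ℚ {φ} : IntermediateField ℚ ℂ), Pool.Agent.W243.TD.Al θ (y : ℂ) := by
    rintro ⟨y, hy⟩
    show IsAlgebraic (adjoin ℚ {θ}) y
    induction hy using adjoin_induction with
    | mem x hx =>
      rw [Set.mem_singleton_iff.1 hx]
      exact h1
    | algebraMap q =>
      have := (isAlgebraic_algebraMap (R := ℚ) (A := ℂ) q)
      exact this.extendScalars (algebraMap ℚ _).injective
    | add x y _ _ hx hy => exact hx.add hy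
    | inv x _ hx => exact hx.inv
    | mul x y _ _ hx hy => exact hx.mul hy
  exact Pool.Agent.W243.TD.al_trans h3 h2

/-- **Gelfond-Schneider** for `2 ^ z`. -/
theorem gs {z : ℂ} (hz : ∀ q : ℚ, z ≠ q) (hal : IsAlgebraic ℚ z)
    (h : IsAlgebraic ℚ (exp (z * Real.log 2))) : False := by
  have hl2 : (Real.log 2 : ℂ) ≠ 0 := by
    exact_mod_cast (Real.log_pos one_lt_two).ne'
  have hlin : LinearIndependent ℚ ![(Real.log 2 : ℂ), z * Real.log 2] := by
    rw [LinearIndependent.pair_iff]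
    intro s t hst
    have h1 : ((s : ℂ) + t * z) * Real.log 2 = 0 := by
      rw [← hst]
      simp only [Rat.smul_def]
      ring
    have h2 := (mul_eq_zero.mp h1).resolve_right hl2
    by_cases ht : t = 0
    · rw [ht] at h2
      simp only [Rat.cast_zero, zero_mul, add_zero] at h2
      exact ⟨by exact_mod_cast h2, ht⟩
    · exfalso
      apply hz (-s / t)
      have ht' : (t : ℂ) ≠ 0 := by exact_mod_cast ht
      push_cast
      field_simp
      linear_combination h2
  have := Pool.Agent.H297R2.baker ![(Real.log 2 : ℂ), z * Real.log 2] (by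
    intro i
    fin_cases i
    · show IsAlgebraic ℚ (exp (Real.log 2 : ℂ))
      have : exp (Real.log 2 : ℂ) = ((2 : ℕ) : ℂ) := by
        rw [← Complex.ofReal_exp, Real.exp_log two_pos]; norm_num
      rw [this]
      exact isAlgebraic_algebraMap (R := ℚ) (A := ℂ) ((2 : ℕ) : ℚ)
    · exact h) hlin ![z, -1] (by
    intro i
    fin_cases i
    · exact hal
    · exact isAlgebraic_one.neg) (by
    rw [Fin.sum_univ_two]
    simp) 1
  simp at this

/-- some value in the class of an algebraic irrational number is transcendental -/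
theorem exists_tr {z : ℂ} (hz : ∀ q : ℚ, z ≠ q) (hal : IsAlgebraic ℚ z) :
    (∃ m ∈ ({2, 3, 4, 5, 7} : Finset ℕ), ∃ k < m, Transcendental ℚ (Gamma (z + k / m))) ∨
    ∃ m ∈ ({2, 3, 4, 5, 7} : Finset ℕ), Transcendental ℚ (Gamma (m * z)) := by
  by_contra hcon
  push Not at hcon
  obtain ⟨h1, h2⟩ := hcon
  have hext : ∀ x : ℂ, IsAlgebraic ℚ x → IsAlgebraic (⊥ : IntermediateField ℚ ℂ) x := fun x hx =>
    hx.extendScalars (algebraMap ℚ _).injective
  have h3 := class_exp (F := (⊥ : IntermediateField ℚ ℂ)) z hz (fun m hm => ⟨fun k hk => by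
      apply hext
      by_contra h
      exact h1 m hm k hk h, by
      apply hext
      by_contra h
      exact h2 m hm h⟩) 2 (by simp)
  apply gs hz hal
  have h4 : IsAlgebraic ℚ (exp (z * Real.log (2 : ℕ))) := by
    have : Algebra.IsAlgebraic ℚ (⊥ : IntermediateField ℚ ℂ) := inferInstance
    exact h3.restrictScalars ℚ
  exact_mod_cast h4

/-- the contradiction from a transcendental `θ` -/
theorem two_classes {θ : ℂ} (hθ : Transcendental ℚ θ) {z₁ z₂ : ℂ} (h1 : ∀ q : ℚ, z₁ ≠ q)
    (h2 : ∀ q : ℚ, z₂ ≠ q) (hH : ∀ p q : ℚ, z₁ ≠ p * z₂ + q)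
    (a1 : IsAlgebraic (adjoin ℚ {θ}) z₁) (a2 : IsAlgebraic (adjoin ℚ {θ}) z₂)
    (g1 : ∀ m ∈ ({2, 3, 4, 5, 7} : Finset ℕ), (∀ k < m, IsAlgebraic (adjoin ℚ {θ})
      (Gamma (z₁ + k / m))) ∧ IsAlgebraic (adjoin ℚ {θ}) (Gamma (m * z₁)))
    (g2 : ∀ m ∈ ({2, 3, 4, 5, 7} : Finset ℕ), (∀ k < m, IsAlgebraic (adjoin ℚ {θ})
      (Gamma (z₂ + k / m))) ∧ IsAlgebraic (adjoin ℚ {θ}) (Gamma (m * z₂))) : False := by
  have e1 := class_exp z₁ h1 g1
  have e2 := class_exp z₂ h2 g2
  have hx : LinearIndependent ℚ ![(1 : ℂ), z₁, z₂] := by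
    rw [Fintype.linearIndependent_iff]
    intro g hg
    simp only [Fin.sum_univ_three, Matrix.cons_val_zero, Matrix.cons_val_one, Matrix.cons_val,
      Rat.smul_def, mul_one] at hg
    have g1 : g 1 = 0 := by
      by_contra hne
      apply hH (-g 2 / g 1) (-g 0 / g 1)
      have : (g 1 : ℂ) ≠ 0 := by exact_mod_cast hne
      push_cast
      field_simp
      linear_combination hg
    have g2 : g 2 = 0 := by
      by_contra hne
      apply h2 (-g 0 / g 2)
      have : (g 2 : ℂ) ≠ 0 := by exact_mod_cast hne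
      rw [g1] at hg
      push_cast at hg ⊢
      field_simp
      linear_combination hg
    have g0 : g 0 = 0 := by
      rw [g1, g2] at hg
      push_cast at hg
      simpa using hg
    intro i
    fin_cases i
    · exact g0
    · exact g1
    · exact g2
  have hy : LinearIndependent ℚ ![(Real.log 2 : ℂ), Real.log 3, Real.log 5, Real.log 7] := by
    have h := Pool.Agent.H297R2.linearIndependent_log_prime (![2, 3, 5, 7] : Fin 4 → ℕ) (by
      intro i
      fin_cases i <;> norm_num) (by decide)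
    have e : (fun i => (Real.log (((![2, 3, 5, 7] : Fin 4 → ℕ) i : ℕ) : ℝ) : ℂ)) =
        ![(Real.log 2 : ℂ), Real.log 3, Real.log 5, Real.log 7] := by
      funext i
      fin_cases i <;> simp
    rwa [e] at h
  have hexp : ∀ p : ℕ, 0 < p → exp (Real.log p : ℂ) = p := by
    intro p hp
    rw [← Complex.ofReal_exp, Real.exp_log (by exact_mod_cast hp)]
    norm_num
  have hnat : ∀ p : ℕ, IsAlgebraic (adjoin ℚ {θ}) (p : ℂ) := fun p => by
    have := isAlgebraic_algebraMap (R := (adjoin ℚ {θ} : IntermediateField ℚ ℂ)) (A := ℂ)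
      (p : (adjoin ℚ {θ} : IntermediateField ℚ ℂ))
    simpa using this
  refine GK.gelK2 3 4 (by norm_num) θ hθ ![(1 : ℂ), z₁, z₂]
    ![(Real.log 2 : ℂ), Real.log 3, Real.log 5, Real.log 7] hx hy ?_ ?_
  · intro i
    fin_cases i
    · exact isAlgebraic_one
    · exact a1
    · exact a2
  · intro i j
    have hj : ∃ p ∈ ({2, 3, 5, 7} : Finset ℕ),
        ![(Real.log 2 : ℂ), Real.log 3, Real.log 5, Real.log 7] j = Real.log p := by
      fin_cases j
      · exact ⟨2, by simp, rfl⟩
      · exact ⟨3, by simp, rfl⟩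
      · exact ⟨5, by simp, rfl⟩
      · exact ⟨7, by simp, rfl⟩
    obtain ⟨p, hp, hpj⟩ := hj
    rw [hpj]
    fin_cases i
    · show IsAlgebraic _ (exp (1 * _))
      rw [one_mul, hexp p (by fin_cases hp <;> norm_num)]
      exact hnat p
    · exact e1 p hp
    · exact e2 p hp

end Q95.GC
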