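import Mathlib

/-!
# Determinants, flags and Gelfand numbers (helper for MP_93c8fe_an)
-/

open Module Set Filter
open scoped ENNReal

noncomputable section

namespace Q95.GH

abbrev H (n : ℕ) := EuclideanSpace ℝ (Fin n)

/-- the standard basis -/
abbrev stdB (n : ℕ) : OrthonormalBasis (Fin n) ℝ (H n) := EuclideanSpace.basisFun (Fin n) ℝ

lemma hadamard {n : ℕ} (v : Fin n → H n) : |(stdB n).toBasis.det v| ≤ ∏ i, ‖v i‖ := by
  have : Fact (finrank ℝ (H n) = n) := ⟨by simp⟩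
  have o : Orientation ℝ (H n) (Fin n) := (stdB n).toBasis.orientation
  rw [← o.volumeForm_robust' (stdB n) v]
  exact o.abs_volumeForm_apply_le v

lemma det_orthonormal {n : ℕ} (w : OrthonormalBasis (Fin n) ℝ (H n)) :
    |(stdB n).toBasis.det w| = 1 := by
  have : Fact (finrank ℝ (H n) = n) := ⟨by simp⟩
  have o : Orientation ℝ (H n) (Fin n) := (stdB n).toBasis.orientation
  rw [← o.volumeForm_robust' (stdB n) w]
  exact o.abs_volumeForm_apply_of_orthonormal w

/-- A system of `n - 1` (or fewer) linear equations in dimension `n` has a unit solution. -/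
lemma exists_unit {n : ℕ} {ι : Type*} [Fintype ι] (hι : Fintype.card ι < n)
    (L : ι → (H n →ₗ[ℝ] ℝ)) : ∃ f : H n, ‖f‖ = 1 ∧ ∀ i, L i f = 0 := by
  have h1 : finrank ℝ (ι → ℝ) < finrank ℝ (H n) := by simpa using hι
  have h2 := LinearMap.ker_ne_bot_of_finrank_lt (f := LinearMap.pi L) h1
  obtain ⟨x, hx, hx0⟩ := Submodule.exists_mem_ne_zero_of_ne_bot h2
  refine ⟨(‖x‖)⁻¹ • x, ?_, fun i => ?_⟩
  · rw [norm_smul, norm_inv, norm_norm, inv_mul_cancel₀ (norm_ne_zero_iff.mpr hx0)]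
  · have := congrFun (LinearMap.mem_ker.mp hx) i
    simp only [LinearMap.pi_apply, Pi.zero_apply] at this
    rw [map_smul, this, smul_zero]

/-- orthonormal flag -/
lemma exists_flag {n : ℕ} (L : ∀ k : ℕ, Fin k → (H n →ₗ[ℝ] ℝ)) :
    ∀ m ≤ n, ∃ w : ℕ → H n, ∀ k < m, ‖w k‖ = 1 ∧ (∀ i, L (n - 1 - k) i (w k) = 0) ∧
      ∀ j < k, inner ℝ (w j) (w k) = 0 := by
  intro m
  induction m with
  | zero => intro _; exact ⟨fun _ => 0, fun k hk => absurd hk (Nat.not_lt_zero k)⟩
  | succ m ih =>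
    intro hm
    obtain ⟨w, hw⟩ := ih (by omega)
    obtain ⟨f, hf1, hf2⟩ := exists_unit (n := n) (ι := Fin (n - 1 - m) ⊕ Fin m)
      (by simp; omega)
      (Sum.elim (L (n - 1 - m)) (fun j => (innerₛₗ ℝ (w j)) ))
    refine ⟨Function.update w m f, fun k hk => ?_⟩
    rcases Nat.lt_succ_iff_lt_or_eq.mp hk with h | h
    · rw [Function.update_of_ne (by omega)]
      refine ⟨(hw k h).1, (hw k h).2.1, fun j hj => ?_⟩
      rw [Function.update_of_ne (by omega)]
      exact (hw k h).2.2 j hj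
    · subst h
      rw [Function.update_self]
      refine ⟨hf1, fun i => hf2 (Sum.inl i), fun j hj => ?_⟩
      rw [Function.update_of_ne (by omega)]
      exact hf2 (Sum.inr ⟨j, hj⟩)

lemma abs_det_le {n : ℕ} (V : H n →ₗ[ℝ] H n) (L : ∀ k : ℕ, Fin k → (H n →ₗ[ℝ] ℝ)) (s : ℕ → ℝ)
    (hs : ∀ k < n, ∀ f, ‖f‖ ≤ 1 → (∀ i, L k i f = 0) → ‖V f‖ ≤ s k) :
    |LinearMap.det V| ≤ ∏ k ∈ Finset.range n, s k := by
  rcases Nat.eq_zero_or_pos n with hn | hn
  · subst hn
    have h1 := (stdB 0).toBasis.det_comp V (stdB 0)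
    have h2 := hadamard (V ∘ (stdB 0))
    have h3 := det_orthonormal (stdB 0)
    rw [h1, abs_mul, h3, mul_one] at h2
    simpa using h2
  have : Nonempty (Fin n) := ⟨⟨0, hn⟩⟩
  obtain ⟨w, hw⟩ := exists_flag L n le_rfl
  have hon : Orthonormal ℝ (fun i : Fin n => w i) := by
    refine ⟨fun i => (hw i i.2).1, fun i j hij => ?_⟩
    rcases lt_or_gt_of_ne (fun h => hij (Fin.ext h) : (i : ℕ) ≠ j) with h | h
    · exact (hw j j.2).2.2 i h
    · rw [real_inner_comm]
      exact (hw i i.2).2.2 j h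
  let W : OrthonormalBasis (Fin n) ℝ (H n) :=
    (basisOfOrthonormalOfCardEqFinrank hon (by simp)).toOrthonormalBasis
      (by rw [coe_basisOfOrthonormalOfCardEqFinrank]; exact hon)
  have hW : ∀ i, W i = w i := by
    intro i
    simp [W]
  have h1 := det_orthonormal W
  have h2 := (stdB n).toBasis.det_comp V W
  have h3 : |LinearMap.det V| = |(stdB n).toBasis.det (V ∘ W)| := by
    rw [h2, abs_mul, h1, mul_one]
  rw [h3]
  refine (hadamard _).trans ?_
  have h4 : ∏ i : Fin n, ‖(V ∘ W) i‖ ≤ ∏ i : Fin n, s (n - 1 - i) := by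
    apply Finset.prod_le_prod
    · intro i _; exact norm_nonneg _
    · intro i _
      simp only [Function.comp]
      rw [hW]
      exact hs _ (by have := i.2; omega) _ (hw i i.2).1.le (hw i i.2).2.1
  refine h4.trans (le_of_eq ?_)
  rw [Finset.prod_range_reflect s n |>.symm, Finset.prod_range]

/-! ### Lower bound for the determinant -/

/-- Coordinates `y_j / √n`. -/
def Bmap {Y : Type*} [NormedAddCommGroup Y] [NormedSpace ℝ Y] {n : ℕ} (y : Fin n → (Y →L[ℝ] ℝ)) :
    Y →L[ℝ] H n :=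
  ((EuclideanSpace.equiv (Fin n) ℝ).symm : (Fin n → ℝ) →L[ℝ] H n) ∘L
    (ContinuousLinearMap.pi fun j => (√n)⁻¹ • y j)

lemma Bmap_apply {Y : Type*} [NormedAddCommGroup Y] [NormedSpace ℝ Y] {n : ℕ}
    (y : Fin n → (Y →L[ℝ] ℝ)) (v : Y) (j : Fin n) : Bmap y v j = (√n)⁻¹ * y j v := rfl

lemma Bmap_norm_le {Y : Type*} [NormedAddCommGroup Y] [NormedSpace ℝ Y] {n : ℕ}
    (y : Fin n → (Y →L[ℝ] ℝ)) (hy : ∀ j, ‖y j‖ ≤ 1) : ‖Bmap y‖ ≤ 1 := by
  refine ContinuousLinearMap.opNorm_le_bound _ zero_le_one fun v => ?_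
  rw [one_mul, EuclideanSpace.norm_eq]
  rw [Real.sqrt_le_left (norm_nonneg v)]
  have h1 : ∀ j, ‖Bmap y v j‖ ^ 2 ≤ ((√n)⁻¹ * ‖v‖) ^ 2 := by
    intro j
    rw [Bmap_apply, norm_mul, norm_inv, Real.norm_of_nonneg (Real.sqrt_nonneg _)]
    have h2 : ‖y j v‖ ≤ ‖v‖ := by
      refine ((y j).le_opNorm v).trans ?_
      have := hy j
      nlinarith [norm_nonneg v]
    gcongr
  refine (Finset.sum_le_sum fun j _ => h1 j).trans ?_
  rw [Finset.sum_const, Finset.card_univ, Fintype.card_fin, nsmul_eq_mul, mul_pow, inv_pow,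
    Real.sq_sqrt (Nat.cast_nonneg n)]
  rcases Nat.eq_zero_or_pos n with hn | hn
  · subst hn; simp
  · have : (n : ℝ) ≠ 0 := by positivity
    rw [← mul_assoc, mul_inv_cancel₀ this, one_mul]

lemma det_lower {X Y : Type*} [NormedAddCommGroup X] [InnerProductSpace ℝ X]
    [NormedAddCommGroup Y] [NormedSpace ℝ Y] (S : X →L[ℝ] Y) {n : ℕ}
    (f : Fin n → X) (y : Fin n → (Y →L[ℝ] ℝ)) (c : Fin n → ℝ)
    (hf : ∀ k, ‖f k‖ ≤ 1) (hc : ∀ k, 0 < c k) (hy : ∀ k, c k ≤ y k (S (f k)))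
    (hz : ∀ j k, j < k → y j (S (f k)) = 0) :
    ∃ A : H n →ₗᵢ[ℝ] X, ∏ k, c k ≤
      (√n) ^ n * |LinearMap.det ((Bmap y : Y →ₗ[ℝ] H n) ∘ₗ (S : X →ₗ[ℝ] Y) ∘ₗ A.toLinearMap)| := by
  classical
  -- the triangular matrix
  set M : Matrix (Fin n) (Fin n) ℝ := Matrix.of fun j k => y j (S (f k)) with hM
  have hMt : M.IsLowerTriangular := by
    intro j k hjk
    exact hz j k hjk
  have hMdet : M.det = ∏ k, y k (S (f k)) := by
    rw [Matrix.det_of_isLowerTriangular M hMt]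
    rfl
  have hpos : ∀ k, 0 < y k (S (f k)) := fun k => (hc k).trans_le (hy k)
  have hMpos : 0 < M.det := by
    rw [hMdet]
    exact Finset.prod_pos fun k _ => hpos k
  have hli : LinearIndependent ℝ f := by
    rw [Fintype.linearIndependent_iff]
    intro g hg
    have h1 : M.mulVec g = 0 := by
      funext j
      have h2 : y j (S (∑ k, g k • f k)) = 0 := by rw [hg]; simp
      rw [map_sum, map_sum] at h2
      simp only [Matrix.mulVec, dotProduct, hM, Matrix.of_apply, Pi.zero_apply]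
      rw [← h2]
      apply Finset.sum_congr rfl
      intro k _
      simp [mul_comm]
    have h3 := Matrix.eq_zero_of_mulVec_eq_zero hMpos.ne' h1
    intro i
    exact congrFun h3 i
  -- isometry onto the span
  set W := Submodule.span ℝ (Set.range f) with hW
  have : FiniteDimensional ℝ W := FiniteDimensional.span_of_finite ℝ (Set.finite_range f)
  have hfin : finrank ℝ W = n := by
    rw [hW, finrank_span_eq_card hli, Fintype.card_fin]
  let b : OrthonormalBasis (Fin n) ℝ W := (stdOrthonormalBasis ℝ W).reindex (finCongr hfin)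
  let A : H n →ₗᵢ[ℝ] X := W.subtypeₗᵢ.comp b.repr.symm.toLinearIsometry
  refine ⟨A, ?_⟩
  have hmem : ∀ k, f k ∈ W := fun k => Submodule.subset_span ⟨k, rfl⟩
  let F : Fin n → H n := fun k => b.repr ⟨f k, hmem k⟩
  have hAF : ∀ k, A (F k) = f k := by
    intro k
    simp [A, F]
  have hFn : ∀ k, ‖F k‖ ≤ 1 := by
    intro k
    have : ‖A (F k)‖ = ‖F k‖ := A.norm_map _
    rw [← this, hAF]
    exact hf k
  set T : H n →ₗ[ℝ] H n := (Bmap y : Y →ₗ[ℝ] H n) ∘ₗ (S : X →ₗ[ℝ] Y) ∘ₗ A.toLinearMap with hT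
  have hTF : ∀ k, T (F k) = Bmap y (S (f k)) := by
    intro k
    have : T (F k) = Bmap y (S (A (F k))) := rfl
    rw [this, hAF]
  have h1 := (stdB n).toBasis.det_comp T F
  have h2 : (stdB n).toBasis.det (T ∘ F) = ((√n)⁻¹) ^ n * M.det := by
    rw [Basis.det_apply]
    have : (stdB n).toBasis.toMatrix (T ∘ F) = (√n)⁻¹ • M := by
      ext j k
      rw [Basis.toMatrix_apply]
      simp only [Function.comp, hTF, Matrix.smul_apply, smul_eq_mul, hM, Matrix.of_apply]
      rw [← Bmap_apply]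
      simp
    rw [this, Matrix.det_smul, Fintype.card_fin]
  have h3 : |(stdB n).toBasis.det F| ≤ 1 := by
    refine (hadamard F).trans ?_
    exact Finset.prod_le_one (fun i _ => norm_nonneg _) fun i _ => hFn i
  have h4 : ((√n)⁻¹) ^ n * M.det ≤ |LinearMap.det T| := by
    have h5 : ((√n)⁻¹) ^ n * M.det = |LinearMap.det T * (stdB n).toBasis.det F| := by
      rw [← h1, h2, abs_of_nonneg]
      positivity
    rw [h5, abs_mul]
    exact mul_le_of_le_one_right (abs_nonneg _) h3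
  have h6 : ∏ k, c k ≤ M.det := by
    rw [hMdet]
    exact Finset.prod_le_prod (fun k _ => (hc k).le) fun k _ => hy k
  refine h6.trans ?_
  rcases Nat.eq_zero_or_pos n with hn | hn
  · subst hn
    simpa using h4
  · have h7 : (0 : ℝ) < √n := Real.sqrt_pos.mpr (by positivity)
    have h8 : M.det = (√n) ^ n * (((√n)⁻¹) ^ n * M.det) := by
      rw [← mul_assoc, ← mul_pow, mul_inv_cancel₀ h7.ne', one_pow, one_mul]
    rw [h8]
    exact mul_le_mul_of_nonneg_left h4 (by positivity)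

end Q95.GH
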