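import Mathlib

/-!
# Heisenberg groups over Banach spaces: the Carnot-Carathéodory distance
-/

namespace Q95.Heis

open Set MeasureTheory
open scoped ENNReal NNReal

variable {X : Type*} [NormedAddCommGroup X] [NormedSpace ℝ X]

/-- The group law of `ℍ(ω)`. -/
noncomputable def hmul (ω : X →L[ℝ] X →L[ℝ] ℝ) (p q : X × ℝ) : X × ℝ := (p.1 + q.1, p.2 + q.2 + ω p.1 q.1)

/-- The inverse in `ℍ(ω)`. -/
noncomputable def hinv (p : X × ℝ) : X × ℝ := (-p.1, -p.2)

/-- Horizontal curves. -/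
structure Horizontal (ω : X →L[ℝ] X →L[ℝ] ℝ) (γ : ℝ → X) (z : ℝ → ℝ) : Prop where
  lip_fst : ∃ C : ℝ≥0, LipschitzOnWith C γ (Icc 0 1)
  lip_snd : ∃ C : ℝ≥0, LipschitzOnWith C z (Icc 0 1)
  deriv : ∀ᵐ t : ℝ, t ∈ Ioo (0 : ℝ) 1 →
    DifferentiableAt ℝ γ t ∧ HasDerivAt z (ω (γ t) (_root_.deriv γ t)) t

/-- The Carnot-Carathéodory distance. -/
noncomputable def dcc (ω : X →L[ℝ] X →L[ℝ] ℝ) (p q : X × ℝ) : ℝ≥0∞ :=
  ⨅ (γ : ℝ → X) (z : ℝ → ℝ) (_ : Horizontal ω γ z) (_ : (γ 0, z 0) = p) (_ : (γ 1, z 1) = q),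
    eVariationOn γ (Icc 0 1)

lemma eVar_le {γ : ℝ → X} {C : ℝ≥0} (h : LipschitzOnWith C γ (Icc 0 1)) {s t : ℝ} (hs : 0 ≤ s)
    (hst : s ≤ t) (ht : t ≤ 1) : eVariationOn γ (Icc s t) ≤ C * ENNReal.ofReal (t - s) := by
  have h1 : eVariationOn (γ ∘ (id : ℝ → ℝ)) (Icc s t) ≤ C * eVariationOn (id : ℝ → ℝ) (Icc s t) :=
    h.comp_eVariationOn_le fun x hx => ⟨hs.trans hx.1, hx.2.trans ht⟩
  have h2 : eVariationOn (id : ℝ → ℝ) (Icc s t) ≤ ENNReal.ofReal (t - s) := by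
    have := (monotone_id.monotoneOn (univ : Set ℝ)).eVariationOn_le (mem_univ s) (mem_univ t)
    simpa using this
  exact h1.trans (mul_le_mul_right h2 _)

lemma eVar_add (γ : ℝ → X) {s t u : ℝ} (hst : s ≤ t) (htu : t ≤ u) :
    eVariationOn γ (Icc s t) + eVariationOn γ (Icc t u) = eVariationOn γ (Icc s u) := by
  have := eVariationOn.Icc_add_Icc γ (s := (univ : Set ℝ)) hst htu (mem_univ t)
  simpa using this

/-- The key estimate: the displacement along a horizontal curve. -/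
theorem displacement {ω : X →L[ℝ] X →L[ℝ] ℝ} (hω : ∀ x, ω x x = 0) {γ : ℝ → X} {z : ℝ → ℝ}
    (h : Horizontal ω γ z) :
    eVariationOn γ (Icc 0 1) ≠ ∞ ∧
    ‖γ 1 - γ 0‖ ≤ (eVariationOn γ (Icc 0 1)).toReal ∧
    |z 1 - z 0 - ω (γ 0) (γ 1)| ≤ ‖ω‖ * (eVariationOn γ (Icc 0 1)).toReal ^ 2 := by
  obtain ⟨C, hC⟩ := h.lip_fst
  obtain ⟨D, hD⟩ := h.lip_snd
  have hfin : ∀ {s t : ℝ}, 0 ≤ s → s ≤ t → t ≤ 1 → eVariationOn γ (Icc s t) ≠ ∞ := by
    intro s t hs hst ht
    exact ne_top_of_le_ne_top (ENNReal.mul_ne_top ENNReal.coe_ne_top ENNReal.ofReal_ne_top)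
      (eVar_le hC hs hst ht)
  set L : ℝ := (eVariationOn γ (Icc 0 1)).toReal with hL
  have hLfin := hfin le_rfl zero_le_one le_rfl
  have hdist : ∀ {s t : ℝ}, 0 ≤ s → s ≤ t → t ≤ 1 →
      ‖γ t - γ s‖ ≤ (eVariationOn γ (Icc s t)).toReal := by
    intro s t hs hst ht
    have h1 := eVariationOn.edist_le γ (s := Icc s t) (right_mem_Icc.mpr hst)
      (left_mem_Icc.mpr hst)
    rw [edist_dist, dist_eq_norm] at h1
    exact (ENNReal.ofReal_le_iff_le_toReal (hfin hs hst ht)).mp h1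
  refine ⟨hLfin, hdist le_rfl zero_le_one le_rfl, ?_⟩
  -- the variation function
  set V : ℝ → ℝ := fun t => (eVariationOn γ (Icc 0 t)).toReal with hV
  have hVadd : ∀ {s t : ℝ}, 0 ≤ s → s ≤ t → t ≤ 1 →
      V t - V s = (eVariationOn γ (Icc s t)).toReal := by
    intro s t hs hst ht
    simp only [hV]
    rw [← eVar_add γ hs hst, ENNReal.toReal_add (hfin le_rfl hs (hst.trans ht)) (hfin hs hst ht)]
    ring
  have hVlip : LipschitzOnWith C V (Icc 0 1) := by
    apply LipschitzOnWith.of_dist_le_mul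
    have key : ∀ s ∈ Icc (0 : ℝ) 1, ∀ t ∈ Icc (0 : ℝ) 1, s ≤ t → dist (V t) (V s) ≤ C * dist t s := by
      intro s hs t ht hst
      rw [Real.dist_eq, hVadd hs.1 hst ht.2, Real.dist_eq, abs_of_nonneg ENNReal.toReal_nonneg,
        abs_of_nonneg (by linarith)]
      have h1 := eVar_le hC hs.1 hst ht.2
      have h2 := ENNReal.toReal_mono (ENNReal.mul_ne_top ENNReal.coe_ne_top ENNReal.ofReal_ne_top) h1
      rwa [ENNReal.toReal_mul, ENNReal.coe_toReal, ENNReal.toReal_ofReal (by linarith)] at h2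
    intro s hs t ht
    rcases le_total s t with hst | hst
    · rw [dist_comm, dist_comm s t]; exact key s hs t ht hst
    · exact key t ht s hs hst
  set F : ℝ → ℝ := fun t => z t - ω (γ 0) (γ t) with hF
  have hFlip : ∃ K : ℝ≥0, LipschitzOnWith K F (Icc 0 1) := by
    refine ⟨D + ‖ω (γ 0)‖₊ * C, ?_⟩
    have h1 : LipschitzOnWith (‖ω (γ 0)‖₊ * C) (fun t => ω (γ 0) (γ t)) (Icc 0 1) :=
      (ω (γ 0)).lipschitz.comp_lipschitzOnWith hC
    exact hD.sub h1
  obtain ⟨K, hK⟩ := hFlip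
  have hI : uIcc (0 : ℝ) 1 = Icc 0 1 := uIcc_of_le zero_le_one
  have hFac : AbsolutelyContinuousOnInterval F 0 1 :=
    LipschitzOnWith.absolutelyContinuousOnInterval (by rw [hI]; exact hK)
  have hVac : AbsolutelyContinuousOnInterval V 0 1 :=
    LipschitzOnWith.absolutelyContinuousOnInterval (by rw [hI]; exact hVlip)
  have hFint := hFac.integral_deriv_eq_sub
  have hVint := hVac.integral_deriv_eq_sub
  have hV0 : V 0 = 0 := by
    simp [hV]
  have hV1 : V 1 = L := rfl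
  have hF01 : F 1 - F 0 = z 1 - z 0 - ω (γ 0) (γ 1) := by
    simp only [hF]; rw [hω]; ring
  rw [← hF01, ← hFint]
  have hnorm : |∫ t in (0 : ℝ)..1, deriv F t| ≤ ∫ t in (0 : ℝ)..1, ‖ω‖ * L * deriv V t := by
    have h1 := intervalIntegral.norm_integral_le_of_norm_le (μ := volume) (a := (0 : ℝ)) (b := 1)
      (f := fun t => deriv F t) (g := fun t => ‖ω‖ * L * deriv V t) zero_le_one ?_
      (hVac.intervalIntegrable_deriv.const_mul _)
    · simpa using h1
    · have e1 := h.deriv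
      have e2 : ∀ᵐ t : ℝ, t ∈ uIcc (0 : ℝ) 1 → DifferentiableAt ℝ V t := hVac.ae_differentiableAt
      have e3 : ∀ᵐ t : ℝ, t ≠ 1 := by
        rw [ae_iff]; simp
      filter_upwards [e1, e2, e3] with t ht1 ht2 ht3 htI
      have hto : t ∈ Ioo (0 : ℝ) 1 := ⟨htI.1, lt_of_le_of_ne htI.2 ht3⟩
      obtain ⟨hγd, hzd⟩ := ht1 hto
      have hVd := ht2 (by rw [hI]; exact ⟨hto.1.le, hto.2.le⟩)
      have hFd : HasDerivAt F (ω (γ t) (deriv γ t) - ω (γ 0) (deriv γ t)) t := by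
        apply hzd.sub
        exact (ω (γ 0)).hasFDerivAt.comp_hasDerivAt t hγd.hasDerivAt
      rw [hFd.deriv]
      have h2 : ω (γ t) (deriv γ t) - ω (γ 0) (deriv γ t) = ω (γ t - γ 0) (deriv γ t) := by
        rw [map_sub]; rfl
      rw [h2]
      have h3 : ‖ω (γ t - γ 0) (deriv γ t)‖ ≤ ‖ω‖ * ‖γ t - γ 0‖ * ‖deriv γ t‖ :=
        ω.le_opNorm₂ _ _
      have h4 : ‖γ t - γ 0‖ ≤ L := by
        refine (hdist le_rfl hto.1.le hto.2.le).trans ?_
        apply ENNReal.toReal_mono hLfin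
        exact eVariationOn.mono γ (Icc_subset_Icc le_rfl hto.2.le)
      have h5 : ‖deriv γ t‖ ≤ deriv V t := by
        -- compare difference quotients
        have q1 := hasDerivAt_iff_tendsto_slope.mp hγd.hasDerivAt
        have q2 := hasDerivAt_iff_tendsto_slope.mp hVd.hasDerivAt
        have q1' : Filter.Tendsto (fun s => ‖slope γ t s‖) (nhdsWithin t (Ioi t))
            (nhds ‖deriv γ t‖) :=
          (q1.norm).mono_left (nhdsWithin_mono t fun s hs => ne_of_gt hs)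
        have q2' : Filter.Tendsto (slope V t) (nhdsWithin t (Ioi t)) (nhds (deriv V t)) :=
          q2.mono_left (nhdsWithin_mono t fun s hs => ne_of_gt hs)
        refine le_of_tendsto_of_tendsto q1' q2' ?_
        have hev : ∀ᶠ s in nhdsWithin t (Ioi t), s ∈ Ioo t 1 :=
          Ioo_mem_nhdsGT hto.2
        filter_upwards [hev] with s hs
        rw [slope_def_module, slope_def_field, norm_smul, norm_inv, Real.norm_eq_abs,
          abs_of_pos (by linarith [hs.1] : 0 < s - t), hVadd hto.1.le hs.1.le hs.2.le,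
          div_eq_inv_mul]
        apply mul_le_mul_of_nonneg_left _ (inv_nonneg.mpr (by linarith [hs.1]))
        exact hdist hto.1.le hs.1.le hs.2.le
      calc ‖ω (γ t - γ 0) (deriv γ t)‖ ≤ ‖ω‖ * ‖γ t - γ 0‖ * ‖deriv γ t‖ := h3
        _ ≤ ‖ω‖ * L * deriv V t := by
            apply mul_le_mul _ h5 (norm_nonneg _) (by positivity)
            have := norm_nonneg ω
            gcongr
  refine hnorm.trans (le_of_eq ?_)
  rw [intervalIntegral.integral_const_mul, hVint, hV0, hV1]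
  ring

end Q95.Heis
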