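import Pool.Agent.Q95.HeisA

/-!
# Heisenberg groups over Banach spaces: the upper bound for the Carnot-Carathéodory distance
-/

namespace Q95.Heis

open Set MeasureTheory
open scoped ENNReal NNReal

variable {X : Type*} [NormedAddCommGroup X] [NormedSpace ℝ X]

lemma lip_of_hasDerivAt {E : Type*} [NormedAddCommGroup E] [NormedSpace ℝ E] {f f' : ℝ → E}
    (h : ∀ t, HasDerivAt f (f' t) t) {C : ℝ≥0} (hC : ∀ t ∈ Icc (0 : ℝ) 1, ‖f' t‖ ≤ C) :
    LipschitzOnWith C f (Icc 0 1) :=
  (convex_Icc (0 : ℝ) 1).lipschitzOnWith_of_nnnorm_hasDerivWithin_le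
    (fun t _ => (h t).hasDerivWithinAt) fun t ht => by
      have := hC t ht
      rw [← NNReal.coe_le_coe]; exact this

/-- Points reachable by polynomial horizontal curves. -/
lemma dcc_le_poly {ω : X →L[ℝ] X →L[ℝ] ℝ} (hω : ∀ x, ω x x = 0)
    (x v U W : X) (s : ℝ) :
    dcc ω (x, s) (x + v, s + ω x v - ω v U / 3 - ω v W / 6 + ω U W / 30) ≤
      ENNReal.ofReal (‖v‖ + ‖U‖ + ‖W‖) := by
  have hanti : ∀ a b, ω a b = - ω b a := by
    intro a b
    have h1 := hω (a + b)
    simp only [map_add, add_apply, hω] at h1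
    linarith
  set γ : ℝ → X := fun t => x + t • v + (t - t ^ 2) • U + (t ^ 2 - t ^ 3) • W with hγ
  set z : ℝ → ℝ := fun t => s + t * ω x v + (t - t ^ 2) * ω x U + (t ^ 2 - t ^ 3) * ω x W
    + (-(t ^ 3 / 3)) * ω v U + (t ^ 3 / 3 - t ^ 4 / 2) * ω v W
    + (t ^ 3 / 3 - t ^ 4 / 2 + t ^ 5 / 5) * ω U W with hz
  have hP : ∀ t : ℝ, HasDerivAt (fun t : ℝ => t - t ^ 2) (1 - 2 * t) t := by
    intro t
    exact ((hasDerivAt_id t).fun_sub (hasDerivAt_pow 2 t)).congr_deriv (by norm_num)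
  have hQ : ∀ t : ℝ, HasDerivAt (fun t : ℝ => t ^ 2 - t ^ 3) (2 * t - 3 * t ^ 2) t := by
    intro t
    exact ((hasDerivAt_pow 2 t).fun_sub (hasDerivAt_pow 3 t)).congr_deriv (by norm_num)
  have hγd : ∀ t : ℝ, HasDerivAt γ (v + (1 - 2 * t) • U + (2 * t - 3 * t ^ 2) • W) t := by
    intro t
    have h1 := (((hasDerivAt_id t).smul_const v).const_add x).fun_add ((hP t).smul_const U)
    have h2 := h1.fun_add ((hQ t).smul_const W)
    exact h2.congr_deriv (by rw [one_smul])
  have hzd : ∀ t : ℝ, HasDerivAt z (ω x v + (1 - 2 * t) * ω x U + (2 * t - 3 * t ^ 2) * ω x W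
      + (-(t ^ 2)) * ω v U + (t ^ 2 - 2 * t ^ 3) * ω v W
      + (t ^ 2 - 2 * t ^ 3 + t ^ 4) * ω U W) t := by
    intro t
    have e1 : HasDerivAt (fun t : ℝ => s + t * ω x v) (ω x v) t := by
      simpa using ((hasDerivAt_id t).mul_const (ω x v)).const_add s
    have e2 := (hP t).mul_const (ω x U)
    have e3 := (hQ t).mul_const (ω x W)
    have e4 : HasDerivAt (fun t : ℝ => (-(t ^ 3 / 3)) * ω v U) ((-(t ^ 2)) * ω v U) t := by
      exact ((((hasDerivAt_pow 3 t).div_const 3).fun_neg).mul_const (ω v U)).congr_deriv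
        (by push_cast; ring)
    have e5 : HasDerivAt (fun t : ℝ => (t ^ 3 / 3 - t ^ 4 / 2) * ω v W)
        ((t ^ 2 - 2 * t ^ 3) * ω v W) t := by
      exact ((((hasDerivAt_pow 3 t).div_const 3).fun_sub
        ((hasDerivAt_pow 4 t).div_const 2)).mul_const (ω v W)).congr_deriv (by push_cast; ring)
    have e6 : HasDerivAt (fun t : ℝ => (t ^ 3 / 3 - t ^ 4 / 2 + t ^ 5 / 5) * ω U W)
        ((t ^ 2 - 2 * t ^ 3 + t ^ 4) * ω U W) t := by
      exact (((((hasDerivAt_pow 3 t).div_const 3).fun_sub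
        ((hasDerivAt_pow 4 t).div_const 2)).fun_add
        ((hasDerivAt_pow 5 t).div_const 5)).mul_const (ω U W)).congr_deriv (by push_cast; ring)
    exact ((((e1.fun_add e2).fun_add e3).fun_add e4).fun_add e5).fun_add e6
  have hhor : ∀ t : ℝ, ω (γ t) (v + (1 - 2 * t) • U + (2 * t - 3 * t ^ 2) • W) =
      ω x v + (1 - 2 * t) * ω x U + (2 * t - 3 * t ^ 2) * ω x W
      + (-(t ^ 2)) * ω v U + (t ^ 2 - 2 * t ^ 3) * ω v W
      + (t ^ 2 - 2 * t ^ 3 + t ^ 4) * ω U W := by
    intro t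
    simp only [hγ, map_add, map_smul, add_apply,
      smul_apply, smul_eq_mul, hω, hanti U v, hanti W v, hanti W U]
    ring
  have hγlip : LipschitzOnWith (‖v‖ + ‖U‖ + ‖W‖).toNNReal γ (Icc 0 1) := by
    refine lip_of_hasDerivAt hγd fun t ht => ?_
    rw [Real.coe_toNNReal _ (by positivity)]
    refine (norm_add_le _ _).trans (add_le_add ((norm_add_le _ _).trans (add_le_add le_rfl ?_)) ?_)
    · rw [norm_smul, Real.norm_eq_abs]
      have : |1 - 2 * t| ≤ 1 := abs_le.mpr ⟨by linarith [ht.2], by linarith [ht.1]⟩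
      exact mul_le_of_le_one_left (norm_nonneg _) this
    · rw [norm_smul, Real.norm_eq_abs]
      have : |2 * t - 3 * t ^ 2| ≤ 1 := by
        refine abs_le.mpr ⟨?_, ?_⟩
        · nlinarith [ht.1, ht.2]
        · nlinarith [sq_nonneg (3 * t - 1)]
      exact mul_le_of_le_one_left (norm_nonneg _) this
  have hzlip : ∃ C : ℝ≥0, LipschitzOnWith C z (Icc 0 1) := by
    obtain ⟨C, hC⟩ := (isCompact_Icc (a := (0 : ℝ)) (b := 1)).exists_bound_of_continuousOn
      (f := fun t : ℝ => ω x v + (1 - 2 * t) * ω x U + (2 * t - 3 * t ^ 2) * ω x W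
      + (-(t ^ 2)) * ω v U + (t ^ 2 - 2 * t ^ 3) * ω v W
      + (t ^ 2 - 2 * t ^ 3 + t ^ 4) * ω U W) (by fun_prop)
    refine ⟨C.toNNReal, lip_of_hasDerivAt hzd fun t ht => (hC t ht).trans (Real.le_coe_toNNReal C)⟩
  have hH : Horizontal ω γ z := by
    refine ⟨⟨_, hγlip⟩, hzlip, Filter.Eventually.of_forall fun t _ => ⟨(hγd t).differentiableAt, ?_⟩⟩
    rw [(hγd t).deriv, hhor]
    exact hzd t
  have h0 : (γ 0, z 0) = (x, s) := by
    simp [hγ, hz]
  have h1 : (γ 1, z 1) = (x + v, s + ω x v - ω v U / 3 - ω v W / 6 + ω U W / 30) := by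
    refine Prod.ext ?_ ?_
    · simp [hγ]
    · simp only [hz]; ring
  have hle : dcc ω (x, s) (x + v, s + ω x v - ω v U / 3 - ω v W / 6 + ω U W / 30) ≤
      eVariationOn γ (Icc 0 1) := by
    unfold dcc
    exact iInf_le_of_le γ (iInf_le_of_le z (iInf_le_of_le hH (iInf_le_of_le h0
      (iInf_le_of_le h1 le_rfl))))
  refine hle.trans ?_
  have := eVar_le hγlip (le_refl (0 : ℝ)) zero_le_one le_rfl
  simpa [ENNReal.ofReal] using this

/-- The upper bound for the distance. -/
theorem dcc_le {ω : X →L[ℝ] X →L[ℝ] ℝ} (hω : ∀ x, ω x x = 0) (hne : ω ≠ 0) :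
    ∃ C : ℝ, 0 < C ∧ ∀ p q : X × ℝ, dcc ω p q ≤
      ENNReal.ofReal (C * max ‖q.1 - p.1‖ (Real.sqrt |q.2 - p.2 - ω p.1 q.1|)) := by
  have hanti : ∀ a b, ω a b = - ω b a := by
    intro a b
    have h1 := hω (a + b)
    simp only [map_add, add_apply, hω] at h1
    linarith
  -- two vectors with positive pairing
  obtain ⟨u, w, huw⟩ : ∃ u w, 0 < ω u w := by
    by_contra hcon
    push Not at hcon
    apply hne
    ext a b
    have h1 := hcon a b
    have h2 := hcon b a
    rw [hanti] at h2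
    simp only [zero_apply]
    linarith
  set α : ℝ := ω u w / 30 with hα
  have hα0 : 0 < α := by positivity
  set B : ℝ := ‖ω‖ * (‖u‖ + ‖w‖) with hB
  have hB0 : 0 ≤ B := by positivity
  refine ⟨1 + (B / α + 1 / Real.sqrt α) * (‖u‖ + ‖w‖), by positivity, ?_⟩
  rintro ⟨x, s⟩ ⟨y, t⟩
  simp only
  set v : X := y - x with hv
  set c : ℝ := t - s - ω x y with hc
  set M : ℝ := max ‖v‖ (Real.sqrt |c|) with hM
  have hM1 : ‖v‖ ≤ M := le_max_left _ _
  have hM2 : Real.sqrt |c| ≤ M := le_max_right _ _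
  have hM0 : 0 ≤ M := (norm_nonneg v).trans hM1
  have hxy : ω x y = ω x v := by rw [hv, map_sub, hω]; ring
  -- the general step
  have key : ∀ W : X, ‖W‖ = ‖w‖ → ∀ σ : ℝ, (σ = 1 ∨ σ = -1) → ω u W = σ * ω u w → c = σ * |c| →
      dcc ω (x, s) (y, t) ≤ ENNReal.ofReal ((1 + (B / α + 1 / Real.sqrt α) * (‖u‖ + ‖w‖)) * M) := by
    intro W hW σ hσ huW hcσ
    set b : ℝ := σ * (-(ω v u) / 3 - ω v W / 6) with hb
    have hbabs : |b| ≤ B * ‖v‖ := by
      have h1 : |ω v u| ≤ ‖ω‖ * ‖v‖ * ‖u‖ := by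
        have := ω.le_opNorm₂ v u
        simpa using this
      have h2 : |ω v W| ≤ ‖ω‖ * ‖v‖ * ‖w‖ := by
        have := ω.le_opNorm₂ v W
        rw [hW] at this
        simpa using this
      have hσa : |σ| = 1 := by
        rcases hσ with h | h <;> simp [h]
      rw [hb, abs_mul, hσa, one_mul, hB]
      have h3 : |-(ω v u) / 3 - ω v W / 6| ≤ |ω v u| + |ω v W| := by
        rw [abs_le]
        constructor
        · have := le_abs_self (ω v u); have := le_abs_self (ω v W)
          have := abs_nonneg (ω v u); have := abs_nonneg (ω v W)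
          linarith
        · have := neg_abs_le (ω v u); have := neg_abs_le (ω v W)
          have := abs_nonneg (ω v u); have := abs_nonneg (ω v W)
          linarith
      nlinarith [h3, h1, h2]
    set D : ℝ := b ^ 2 + 4 * α * |c| with hD
    have hD0 : 0 ≤ D := by positivity
    set ρ : ℝ := (-b + Real.sqrt D) / (2 * α) with hρ
    have hDb : |b| ≤ Real.sqrt D := by
      apply Real.abs_le_sqrt
      rw [hD]
      have : 0 ≤ 4 * α * |c| := by positivity
      linarith
    have hρ0 : 0 ≤ ρ := by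
      rw [hρ]
      apply div_nonneg _ (by positivity)
      have := le_abs_self b
      linarith
    have hρeq : α * ρ ^ 2 + b * ρ = |c| := by
      have h1 : Real.sqrt D ^ 2 = D := Real.sq_sqrt hD0
      have h2 : 2 * α * ρ = -b + Real.sqrt D := by
        rw [hρ]; field_simp
      have h3 : (2 * α * ρ + b) ^ 2 = D := by
        rw [h2]
        calc (-b + Real.sqrt D + b) ^ 2 = Real.sqrt D ^ 2 := by ring
          _ = D := h1
      rw [hD] at h3
      have h4 : 4 * α * (α * ρ ^ 2 + b * ρ) = 4 * α * |c| := by linarith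
      exact mul_left_cancel₀ (by positivity) h4
    have hρle : ρ ≤ (B / α + 1 / Real.sqrt α) * M := by
      have h1 : Real.sqrt D ≤ |b| + 2 * Real.sqrt α * Real.sqrt |c| := by
        apply Real.sqrt_le_left (by positivity) |>.mpr
        have h2 : Real.sqrt α ^ 2 = α := Real.sq_sqrt hα0.le
        have h3 : Real.sqrt |c| ^ 2 = |c| := Real.sq_sqrt (abs_nonneg _)
        have h4 : 0 ≤ |b| * (Real.sqrt α * Real.sqrt |c|) := by positivity
        have h5 : |b| ^ 2 = b ^ 2 := sq_abs b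
        have h6 : (|b| + 2 * Real.sqrt α * Real.sqrt |c|) ^ 2 =
            |b| ^ 2 + 4 * (|b| * (Real.sqrt α * Real.sqrt |c|))
              + 4 * Real.sqrt α ^ 2 * Real.sqrt |c| ^ 2 := by ring
        rw [h6, h2, h3, h5, hD]
        linarith
      have h2 : ρ ≤ |b| / α + Real.sqrt |c| / Real.sqrt α := by
        rw [hρ, div_le_iff₀ (by positivity)]
        have h3 : Real.sqrt α ^ 2 = α := Real.sq_sqrt hα0.le
        have h4 : (|b| / α + Real.sqrt |c| / Real.sqrt α) * (2 * α) =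
            2 * |b| + 2 * Real.sqrt α * Real.sqrt |c| := by
          have hs : 0 < Real.sqrt α := Real.sqrt_pos.mpr hα0
          have h5 : Real.sqrt |c| / Real.sqrt α * (2 * α) = 2 * Real.sqrt α * Real.sqrt |c| := by
            have h7 : Real.sqrt |c| / Real.sqrt α * (2 * Real.sqrt α ^ 2) =
                2 * Real.sqrt α * Real.sqrt |c| := by field_simp
            rwa [h3] at h7
          have h6 : |b| / α * (2 * α) = 2 * |b| := by field_simp
          rw [add_mul, h5, h6]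
        rw [h4]
        have := neg_abs_le b
        linarith
      have h3 : |b| / α ≤ B / α * M := by
        rw [div_mul_eq_mul_div]
        apply div_le_div_of_nonneg_right _ hα0.le
        exact hbabs.trans (mul_le_mul_of_nonneg_left hM1 hB0)
      have h4 : Real.sqrt |c| / Real.sqrt α ≤ 1 / Real.sqrt α * M := by
        rw [div_mul_eq_mul_div, one_mul]
        exact div_le_div_of_nonneg_right hM2 (Real.sqrt_nonneg _)
      calc ρ ≤ _ := h2
        _ ≤ B / α * M + 1 / Real.sqrt α * M := add_le_add h3 h4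
        _ = _ := by ring
    have hmain := dcc_le_poly hω x v (ρ • u) (ρ • W) s
    have hy : x + v = y := by rw [hv]; abel
    have ht : s + ω x v - ω v (ρ • u) / 3 - ω v (ρ • W) / 6 + ω (ρ • u) (ρ • W) / 30 = t := by
      simp only [map_smul, smul_apply, smul_eq_mul]
      rw [huW]
      have hσσ : σ * σ = 1 := by rcases hσ with h | h <;> simp [h]
      have h1 : -(ρ * ω v u) / 3 - (ρ * ω v W) / 6 + ρ * (ρ * (σ * ω u w)) / 30 = c := by
        rw [hcσ, ← hρeq, hα, hb]
        linear_combination (-(ρ * (-(ω v u) / 3 - ω v W / 6))) * hσσ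
      rw [hxy] at hc
      linarith
    rw [hy, ht] at hmain
    refine hmain.trans (ENNReal.ofReal_le_ofReal ?_)
    rw [norm_smul, norm_smul, Real.norm_eq_abs, abs_of_nonneg hρ0, hW]
    have : ρ * (‖u‖ + ‖w‖) ≤ (B / α + 1 / Real.sqrt α) * M * (‖u‖ + ‖w‖) :=
      mul_le_mul_of_nonneg_right hρle (by positivity)
    nlinarith
  rcases le_total 0 c with h | h
  · exact key w rfl 1 (Or.inl rfl) (by ring) (by rw [abs_of_nonneg h]; ring)
  · refine key (-w) (norm_neg _) (-1) (Or.inr rfl) (by rw [map_neg]; ring)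
      (by rw [abs_of_nonpos h]; ring)

end Q95.Heis
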