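import Mathlib

/-!
# Real-analytic lemmas for the umbel inequality
-/

namespace Q95.Heis

open Set

/-- A strict inequality between continuous functions on a compact interval has a uniform factor. -/
lemma uniform_factor {f g : ℝ → ℝ} {b : ℝ} (hb : 0 ≤ b) (hf : ContinuousOn f (Icc 0 b))
    (hg : ContinuousOn g (Icc 0 b)) (hg0 : ∀ t ∈ Icc 0 b, 0 < g t)
    (hf0 : ∀ t ∈ Icc 0 b, 0 ≤ f t)
    (hlt : ∀ t ∈ Icc 0 b, f t < g t) : ∃ ρ : ℝ, 0 ≤ ρ ∧ ρ < 1 ∧ ∀ t ∈ Icc 0 b, f t ≤ ρ * g t := by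
  have hc : ContinuousOn (fun t => f t / g t) (Icc 0 b) :=
    hf.div hg fun t ht => (hg0 t ht).ne'
  obtain ⟨t0, ht0, hmax⟩ := (isCompact_Icc (a := (0 : ℝ)) (b := b)).exists_isMaxOn
    ⟨0, left_mem_Icc.mpr hb⟩ hc
  refine ⟨f t0 / g t0, div_nonneg (hf0 t0 ht0) (hg0 t0 ht0).le,
    (div_lt_one (hg0 t0 ht0)).mpr (hlt t0 ht0), fun t ht => ?_⟩
  have := hmax ht
  simp only [mem_ofPred_eq] at this
  rwa [div_le_iff₀ (hg0 t ht)] at this

/-- Power mean inequality. -/
lemma mean_le {p : ℝ} (hp : 1 < p) {A B : ℝ} (hA : 0 ≤ A) (hB : 0 ≤ B) :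
    ((A + B) / 2) ^ p ≤ (A ^ p + B ^ p) / 2 := by
  have h := (convexOn_rpow hp.le).2 (mem_Ici.mpr hA) (mem_Ici.mpr hB)
    (by norm_num : (0 : ℝ) ≤ 1 / 2) (by norm_num : (0 : ℝ) ≤ 1 / 2) (by norm_num)
  simp only [smul_eq_mul] at h
  calc ((A + B) / 2) ^ p = (1 / 2 * A + 1 / 2 * B) ^ p := by ring_nf
    _ ≤ _ := h
    _ = _ := by ring

lemma mean_lt {p : ℝ} (hp : 1 < p) {A B : ℝ} (hA : 0 ≤ A) (hB : 0 ≤ B) (hne : A ≠ B) :
    ((A + B) / 2) ^ p < (A ^ p + B ^ p) / 2 := by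
  have h := (strictConvexOn_rpow hp).2 (mem_Ici.mpr hA) (mem_Ici.mpr hB) hne
    (by norm_num : (0 : ℝ) < 1 / 2) (by norm_num : (0 : ℝ) < 1 / 2) (by norm_num)
  simp only [smul_eq_mul] at h
  calc ((A + B) / 2) ^ p = (1 / 2 * A + 1 / 2 * B) ^ p := by ring_nf
    _ < _ := h
    _ = _ := by ring

/-- Case 2b: the radii are far apart. -/
lemma far_radii {p : ℝ} (hp : 1 < p) : ∃ ρ : ℝ, 0 ≤ ρ ∧ ρ < 1 ∧ ∀ A B : ℝ, 0 ≤ A → A ≤ B / 2 →
    ((A + B) / 2) ^ p ≤ ρ * ((A ^ p + B ^ p) / 2) := by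
  have hp0 : 0 < p := by linarith
  have hcp : Continuous fun t : ℝ => t ^ p := Real.continuous_rpow_const hp0.le
  obtain ⟨ρ, h0, h1, h⟩ := uniform_factor (f := fun t => ((t + 1) / 2) ^ p)
    (g := fun t => (t ^ p + 1 ^ p) / 2) (b := 1 / 2) (by norm_num)
    (hcp.comp (by fun_prop : Continuous fun t : ℝ => (t + 1) / 2)).continuousOn
    ((hcp.add continuous_const).div_const 2).continuousOn
    (fun t ht => by
      have := Real.rpow_nonneg ht.1 p
      rw [Real.one_rpow]; linarith)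
    (fun t ht => Real.rpow_nonneg (by linarith [ht.1]) p)
    (fun t ht => mean_lt hp ht.1 zero_le_one (by linarith [ht.2] : t < 1).ne)
  refine ⟨ρ, h0, h1, fun A B hA hAB => ?_⟩
  rcases eq_or_lt_of_le (by linarith : (0 : ℝ) ≤ B) with hB | hB
  · have : A = 0 := by linarith
    rw [this, ← hB]; simp [Real.zero_rpow hp0.ne']
  · have h2 := h (A / B) ⟨by positivity, by rw [div_le_iff₀ hB]; linarith⟩
    have e1 : ((A + B) / 2) ^ p = ((A / B + 1) / 2) ^ p * B ^ p := by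
      rw [← Real.mul_rpow (by positivity) hB.le]
      congr 1
      field_simp
    have e2 : A ^ p = (A / B) ^ p * B ^ p := by
      rw [← Real.mul_rpow (by positivity) hB.le]
      congr 1
      field_simp
    rw [e1, e2]
    have hBp : 0 ≤ B ^ p := Real.rpow_nonneg hB.le p
    rw [Real.one_rpow] at h2
    nlinarith [mul_le_mul_of_nonneg_right h2 hBp]

/-- Case 1: the central coordinate dominates. -/
lemma central_dom {p : ℝ} (hp : 1 < p) : ∃ ρ : ℝ, 0 ≤ ρ ∧ ρ < 1 ∧ ∀ A B J : ℝ, 0 ≤ A → 0 ≤ B →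
    0 ≤ J → J ^ 2 ≤ A ^ 2 + B ^ 2 + A * B → (J / 2) ^ p ≤ ρ * ((A ^ p + B ^ p) / 2) := by
  have hp0 : 0 < p := by linarith
  have hcp : Continuous fun t : ℝ => t ^ p := Real.continuous_rpow_const hp0.le
  obtain ⟨ρ, h0, h1, h⟩ := uniform_factor
    (f := fun t => (Real.sqrt (t ^ 2 + 1 + t) / 2) ^ p)
    (g := fun t => (t ^ p + 1 ^ p) / 2) (b := 1) (by norm_num)
    (hcp.comp (by fun_prop : Continuous fun t : ℝ => Real.sqrt (t ^ 2 + 1 + t) / 2)).continuousOn
    ((hcp.add continuous_const).div_const 2).continuousOn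
    (fun t ht => by
      have := Real.rpow_nonneg ht.1 p
      rw [Real.one_rpow]; linarith)
    (fun t ht => Real.rpow_nonneg (by positivity) p)
    (fun t ht => by
      have hs : Real.sqrt (t ^ 2 + 1 + t) ≤ t + 1 := by
        apply Real.sqrt_le_left (by linarith [ht.1]) |>.mpr
        nlinarith [ht.1]
      rcases eq_or_lt_of_le ht.2 with h | h
      · have hs' : Real.sqrt (t ^ 2 + 1 + t) < t + 1 := by
          apply (Real.sqrt_lt' (by linarith [ht.1])).mpr
          rw [h]; norm_num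
        calc (Real.sqrt (t ^ 2 + 1 + t) / 2) ^ p < ((t + 1) / 2) ^ p := by
              apply Real.rpow_lt_rpow (by positivity) _ hp0
              linarith
          _ ≤ _ := mean_le hp ht.1 zero_le_one
      · calc (Real.sqrt (t ^ 2 + 1 + t) / 2) ^ p ≤ ((t + 1) / 2) ^ p := by
              apply Real.rpow_le_rpow (by positivity) _ hp0.le
              linarith
          _ < _ := mean_lt hp ht.1 zero_le_one h.ne)
  have main : ∀ A B J : ℝ, 0 ≤ A → A ≤ B → 0 ≤ J → J ^ 2 ≤ A ^ 2 + B ^ 2 + A * B →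
      (J / 2) ^ p ≤ ρ * ((A ^ p + B ^ p) / 2) := by
    intro A B J hA hAB hJ hJ2
    rcases eq_or_lt_of_le (by linarith : (0 : ℝ) ≤ B) with hB | hB
    · have hA0 : A = 0 := by linarith
      rw [hA0, ← hB] at hJ2 ⊢
      have : J = 0 := by nlinarith
      rw [this]; simp [Real.zero_rpow hp0.ne']
    · have h2 := h (A / B) ⟨by positivity, by rw [div_le_iff₀ hB]; linarith⟩
      have hJs : J ≤ Real.sqrt ((A / B) ^ 2 + 1 + A / B) * B := by
        have h3 : J / B ≤ Real.sqrt ((A / B) ^ 2 + 1 + A / B) := by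
          apply Real.le_sqrt_of_sq_le
          rw [div_pow, div_le_iff₀ (by positivity)]
          have : ((A / B) ^ 2 + 1 + A / B) * B ^ 2 = A ^ 2 + B ^ 2 + A * B := by
            field_simp
          rw [this]; exact hJ2
        rwa [div_le_iff₀ hB] at h3
      have e1 : (J / 2) ^ p ≤ (Real.sqrt ((A / B) ^ 2 + 1 + A / B) / 2) ^ p * B ^ p := by
        rw [← Real.mul_rpow (by positivity) hB.le]
        apply Real.rpow_le_rpow (by positivity) _ hp0.le
        linarith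
      have e2 : A ^ p = (A / B) ^ p * B ^ p := by
        rw [← Real.mul_rpow (by positivity) hB.le]
        congr 1
        field_simp
      rw [e2]
      have hBp : 0 ≤ B ^ p := Real.rpow_nonneg hB.le p
      rw [Real.one_rpow] at h2
      nlinarith [mul_le_mul_of_nonneg_right h2 hBp]
  refine ⟨ρ, h0, h1, fun A B J hA hB hJ hJ2 => ?_⟩
  rcases le_total A B with h | h
  · exact main A B J hA h hJ hJ2
  · have := main B A J hB h hJ (by linarith)
    rwa [add_comm (B ^ p)] at this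

/-- Subtracting from a power. -/
lemma sub_rpow_le {p u δ : ℝ} (hp : 1 < p) (hu : 0 < u) (hδ : 0 ≤ δ) (hδu : δ ≤ u) :
    (u - δ) ^ p ≤ u ^ p - δ * u ^ (p - 1) := by
  have h1 : (1 - δ / u) ^ p ≤ 1 - δ / u := by
    have h0 : 0 ≤ 1 - δ / u := by
      rw [sub_nonneg, div_le_one hu]; exact hδu
    have h2 : 1 - δ / u ≤ 1 := by
      have : 0 ≤ δ / u := by positivity
      linarith
    calc (1 - δ / u) ^ p ≤ (1 - δ / u) ^ (1 : ℝ) :=
          Real.rpow_le_rpow_of_exponent_ge' h0 h2 zero_le_one hp.le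
      _ = _ := Real.rpow_one _
  have h3 : (u - δ) ^ p = (1 - δ / u) ^ p * u ^ p := by
    rw [← Real.mul_rpow _ hu.le]
    · congr 1; field_simp
    · rw [sub_nonneg, div_le_one hu]; exact hδu
  have h4 : u ^ p = u ^ (p - 1) * u := by
    rw [← Real.rpow_add_one hu.ne']; congr 1; ring
  rw [h3]
  calc (1 - δ / u) ^ p * u ^ p ≤ (1 - δ / u) * u ^ p :=
        mul_le_mul_of_nonneg_right h1 (Real.rpow_nonneg hu.le p)
    _ = u ^ p - δ * u ^ (p - 1) := by
        rw [h4]; field_simp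

end Q95.Heis
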