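import Pool.Agent.Q95.HeisB
import Pool.Agent.Q95.HeisC

/-!
# The umbel inequality for the quasi-metric `max (‖x‖) (λ √|s|)` on Heisenberg groups
-/

namespace Q95.Heis

open Set Filter
open scoped ENNReal NNReal Topology

/-- Rolewicz's modulus for property `(β)`. -/
noncomputable def betaMod (X : Type*) [NormedAddCommGroup X] [NormedSpace ℝ X] (t : ℝ) : ℝ :=
  1 - sSup {r : ℝ | ∃ (x : X) (xs : ℕ → X), ‖x‖ ≤ 1 ∧ (∀ n, ‖xs n‖ ≤ 1) ∧
    (∀ m n, m ≠ n → t ≤ ‖xs m - xs n‖) ∧ r = ⨅ n, ‖(1 / 2 : ℝ) • (x + xs n)‖}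

/-- Property `(β_p)`. -/
def HasBetaP (X : Type*) [NormedAddCommGroup X] [NormedSpace ℝ X] (p : ℝ) : Prop :=
  ∃ c : ℝ, 0 < c ∧ ∀ t : ℝ, 0 < t → t ≤ 2 → c * t ^ p ≤ betaMod X t

variable {X : Type*} [NormedAddCommGroup X] [NormedSpace ℝ X]

/-- The quasi-metric. -/
noncomputable def hd (ω : X →L[ℝ] X →L[ℝ] ℝ) (lam : ℝ) (p q : X × ℝ) : ℝ :=
  max ‖p.1 - q.1‖ (lam * Real.sqrt |p.2 - q.2 + ω p.1 q.1|)

lemma anti {ω : X →L[ℝ] X →L[ℝ] ℝ} (hω : ∀ x, ω x x = 0) (a b : X) : ω a b = - ω b a := by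
  have h1 := hω (a + b)
  simp only [map_add, add_apply, hω] at h1
  linarith

lemma hd_symm {ω : X →L[ℝ] X →L[ℝ] ℝ} (hω : ∀ x, ω x x = 0) (lam : ℝ) (p q : X × ℝ) :
    hd ω lam p q = hd ω lam q p := by
  unfold hd
  rw [norm_sub_rev, anti hω p.1 q.1, ← abs_neg]
  congr 4
  ring

lemma hd_nonneg (ω : X →L[ℝ] X →L[ℝ] ℝ) (lam : ℝ) (p q : X × ℝ) : 0 ≤ hd ω lam p q :=
  (norm_nonneg _).trans (le_max_left _ _)

/-- Left translation by the inverse of `z`. -/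
noncomputable def tr (ω : X →L[ℝ] X →L[ℝ] ℝ) (z w : X × ℝ) : X × ℝ :=
  (w.1 - z.1, w.2 - z.2 + ω w.1 z.1)

lemma hd_tr {ω : X →L[ℝ] X →L[ℝ] ℝ} (hω : ∀ x, ω x x = 0) (lam : ℝ) (z p q : X × ℝ) :
    hd ω lam (tr ω z p) (tr ω z q) = hd ω lam p q := by
  unfold hd tr
  simp only [map_sub, sub_apply]
  rw [hω, anti hω z.1 q.1]
  congr 1
  · congr 1; abel
  · congr 3; ring

lemma tr_self {ω : X →L[ℝ] X →L[ℝ] ℝ} (hω : ∀ x, ω x x = 0) (z : X × ℝ) : tr ω z z = (0, 0) := by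
  simp [tr, hω]

/-- The separation lemma. -/
lemma separation {ω : X →L[ℝ] X →L[ℝ] ℝ} (hω : ∀ x, ω x x = 0) {lam T B : ℝ} (hlam : 0 < lam)
    (hlω : lam ^ 2 * ‖ω‖ ≤ 1 / 8) (hT : 0 < T) (y : ℕ → X) (s : ℕ → ℝ)
    (hyB : ∀ n, ‖y n‖ ≤ B) (hsB : ∀ n, lam ^ 2 * |s n| ≤ B ^ 2)
    (hT' : ∀ i, ∀ᶠ j in atTop, T ≤ hd ω lam (y i, s i) (y j, s j)) :
    ∃ φ : ℕ → ℕ, ∀ m n, m ≠ n → T / 4 ≤ ‖y (φ m) - y (φ n)‖ := by
  by_cases h : ∀ S : Finset ℕ, ∃ n, ∀ m ∈ S, T / 4 ≤ ‖y m - y n‖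
  · obtain ⟨φ, -, hφ⟩ := exists_seq_of_forall_finset_exists (fun _ : ℕ => True)
      (fun m n => T / 4 ≤ ‖y m - y n‖) fun S _ => by
        obtain ⟨n, hn⟩ := h S
        exact ⟨n, trivial, hn⟩
    refine ⟨φ, fun m n hmn => ?_⟩
    rcases lt_or_gt_of_ne hmn with h1 | h1
    · exact hφ m n h1
    · rw [norm_sub_rev]; exact hφ n m h1
  · exfalso
    push Not at h
    obtain ⟨S, hS⟩ := h
    obtain ⟨m, -, hm⟩ : ∃ m ∈ S, ∃ᶠ n in atTop, ‖y m - y n‖ < T / 4 := by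
      by_contra hcon
      push Not at hcon
      have h1 : ∀ᶠ n in (atTop : Filter ℕ), ∀ m ∈ S, ¬ ‖y m - y n‖ < T / 4 := by
        rw [eventually_all_finset]
        intro m hm
        have := hcon m hm
        simpa using this
      obtain ⟨n, hn⟩ := h1.exists
      obtain ⟨m, hmS, hmn⟩ := hS n
      exact hn m hmS hmn
    obtain ⟨φ, hφ, hφm⟩ := extraction_of_frequently_atTop hm
    have hclose : ∀ k l, ‖y (φ k) - y (φ l)‖ < T / 2 := by
      intro k l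
      have h1 := hφm k
      have h2 := hφm l
      have : y (φ k) - y (φ l) = (y m - y (φ l)) - (y m - y (φ k)) := by abel
      rw [this]
      linarith [norm_sub_le (y m - y (φ l)) (y m - y (φ k))]
    have hB0 : 0 ≤ B := (norm_nonneg _).trans (hyB 0)
    have hl2 : 0 < lam ^ 2 := by positivity
    have hωle : ∀ u v : X, |ω u v| ≤ ‖ω‖ * ‖u‖ * ‖v‖ := by
      intro u v
      have := ω.le_opNorm₂ u v
      simpa using this
    set f : ℕ → ℝ := fun k => s (φ 0) - s (φ k) + ω (y (φ 0)) (y (φ k)) with hf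
    have hfb : ∀ k, f k ∈ Metric.closedBall (0 : ℝ) (4 * B ^ 2 / lam ^ 2) := by
      intro k
      rw [mem_closedBall_zero_iff, Real.norm_eq_abs, le_div_iff₀ hl2]
      have h1 := hsB (φ 0)
      have h2 := hsB (φ k)
      have h3 := hωle (y (φ 0)) (y (φ k))
      have h4 : ‖ω‖ * ‖y (φ 0)‖ * ‖y (φ k)‖ ≤ ‖ω‖ * B * B := by
        have := norm_nonneg ω
        gcongr
        · exact hyB _
        · exact hyB _
      have h5 : |f k| ≤ |s (φ 0)| + |s (φ k)| + |ω (y (φ 0)) (y (φ k))| := by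
        rw [hf]
        refine (abs_add_le _ _).trans (add_le_add (abs_sub _ _) le_rfl)
      have h6 : |f k| ≤ |s (φ 0)| + |s (φ k)| + ‖ω‖ * B * B := by linarith
      have h7 : |f k| * lam ^ 2 ≤ (|s (φ 0)| + |s (φ k)| + ‖ω‖ * B * B) * lam ^ 2 :=
        mul_le_mul_of_nonneg_right h6 hl2.le
      have h8 : (lam ^ 2 * ‖ω‖) * (B * B) ≤ 1 / 8 * (B * B) :=
        mul_le_mul_of_nonneg_right hlω (by positivity)
      nlinarith
    obtain ⟨L, -, ψ, hψ, hlim⟩ := tendsto_subseq_of_bounded Metric.isBounded_closedBall hfb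
    obtain ⟨N, hN⟩ := Metric.cauchySeq_iff'.mp hlim.cauchySeq (T ^ 2 / (2 * lam ^ 2))
      (by positivity)
    have e1 := (hφ.comp hψ).tendsto_atTop.eventually (hT' (φ (ψ N)))
    obtain ⟨k, hk1, hk2⟩ := (e1.and (eventually_ge_atTop N)).exists
    have h1 := hN k hk2
    simp only [Function.comp_apply] at h1 hk1
    rw [Real.dist_eq] at h1
    unfold hd at hk1
    simp only at hk1
    rcases le_max_iff.mp hk1 with h2 | h2
    · linarith [hclose (ψ N) (ψ k)]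
    · have h3 : T ^ 2 ≤ lam ^ 2 * |s (φ (ψ N)) - s (φ (ψ k)) + ω (y (φ (ψ N))) (y (φ (ψ k)))| := by
        have := pow_le_pow_left₀ hT.le h2 2
        rwa [mul_pow, Real.sq_sqrt (abs_nonneg _)] at this
      have h4 : s (φ (ψ N)) - s (φ (ψ k)) + ω (y (φ (ψ N))) (y (φ (ψ k))) =
          (f (ψ k) - f (ψ N)) + ω (y (φ (ψ N)) - y (φ 0)) (y (φ (ψ k)) - y (φ (ψ N))) := by
        simp only [hf, map_sub, sub_apply]
        rw [hω]; ring
      have h5 := hωle (y (φ (ψ N)) - y (φ 0)) (y (φ (ψ k)) - y (φ (ψ N)))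
      have h6 : ‖ω‖ * ‖y (φ (ψ N)) - y (φ 0)‖ * ‖y (φ (ψ k)) - y (φ (ψ N))‖ ≤
          ‖ω‖ * (T / 2) * (T / 2) := by
        have := norm_nonneg ω
        gcongr
        · exact (hclose _ _).le
        · exact (hclose _ _).le
      have h7 : |s (φ (ψ N)) - s (φ (ψ k)) + ω (y (φ (ψ N))) (y (φ (ψ k)))| ≤
          T ^ 2 / (2 * lam ^ 2) + ‖ω‖ * (T / 2) * (T / 2) := by
        rw [h4]
        exact (abs_add_le _ _).trans (add_le_add h1.le (h5.trans h6))
      have h8 : lam ^ 2 * (T ^ 2 / (2 * lam ^ 2)) = T ^ 2 / 2 := by field_simp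
      have h9 : (lam ^ 2 * ‖ω‖) * (T ^ 2) ≤ 1 / 8 * T ^ 2 :=
        mul_le_mul_of_nonneg_right hlω (by positivity)
      have h10 := mul_le_mul_of_nonneg_left h7 hl2.le
      have hT2 : 0 < T ^ 2 := by positivity
      nlinarith

/-- Using property `(β_p)`. -/
lemma beta_use {p c : ℝ} (hβ : ∀ t : ℝ, 0 < t → t ≤ 2 → c * t ^ p ≤ betaMod X t)
    {t : ℝ} (ht : 0 < t) (x : X) (xs : ℕ → X) (hx : ‖x‖ ≤ 1) (hxs : ∀ n, ‖xs n‖ ≤ 1)
    (hsep : ∀ m n, m ≠ n → t ≤ ‖xs m - xs n‖) :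
    ⨅ n, ‖(1 / 2 : ℝ) • (x + xs n)‖ ≤ 1 - c * t ^ p := by
  have ht2 : t ≤ 2 := by
    have h1 := hsep 0 1 (by norm_num)
    have h2 := norm_sub_le (xs 0) (xs 1)
    linarith [hxs 0, hxs 1]
  have h1 := hβ t ht ht2
  unfold betaMod at h1
  have h2 : ⨅ n, ‖(1 / 2 : ℝ) • (x + xs n)‖ ≤ sSup {r : ℝ | ∃ (x : X) (xs : ℕ → X), ‖x‖ ≤ 1 ∧
    (∀ n, ‖xs n‖ ≤ 1) ∧
    (∀ m n, m ≠ n → t ≤ ‖xs m - xs n‖) ∧ r = ⨅ n, ‖(1 / 2 : ℝ) • (x + xs n)‖} := by
    apply le_csSup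
    · refine ⟨1, ?_⟩
      rintro r ⟨x, xs, hx, hxs, -, rfl⟩
      have hb : BddBelow (Set.range fun n => ‖(1 / 2 : ℝ) • (x + xs n)‖) :=
        ⟨0, by rintro _ ⟨n, rfl⟩; exact norm_nonneg _⟩
      refine (ciInf_le hb 0).trans ?_
      rw [norm_smul]
      have := norm_add_le x (xs 0)
      norm_num
      linarith [hxs 0]
    · exact ⟨x, xs, hx, hxs, hsep, rfl⟩
  linarith

lemma beta_gap {p c : ℝ} (hβ : ∀ t : ℝ, 0 < t → t ≤ 2 → c * t ^ p ≤ betaMod X t)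
    {a : X} {y : ℕ → X} {A B t I : ℝ} (hA : 0 ≤ A) (ha : ‖a‖ ≤ A) (hB : 0 < B)
    (hy : ∀ n, ‖y n‖ ≤ B) (ht : 0 < t) (hsep : ∀ m n, m ≠ n → t ≤ ‖y m - y n‖)
    (hI : ∀ n, I ≤ ‖a - y n‖) : I ≤ A + B - 2 * min A B * (c * (t / B) ^ p) := by
  rcases eq_or_lt_of_le hA with hA0 | hA0
  · rw [← hA0, min_eq_left hB.le]
    have h1 := hI 0
    have h2 := norm_sub_le a (y 0)
    have h3 := hy 0
    linarith
  · set x : X := A⁻¹ • a with hx
    set xs : ℕ → X := fun n => -(B⁻¹ • y n) with hxs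
    have hx1 : ‖x‖ ≤ 1 := by
      rw [hx, norm_smul, norm_inv, Real.norm_eq_abs, abs_of_pos hA0, inv_mul_le_iff₀ hA0]
      simpa using ha
    have hxs1 : ∀ n, ‖xs n‖ ≤ 1 := by
      intro n
      rw [hxs]
      simp only
      rw [norm_neg, norm_smul, norm_inv, Real.norm_eq_abs, abs_of_pos hB, inv_mul_le_iff₀ hB]
      simpa using hy n
    have hsep' : ∀ m n, m ≠ n → t / B ≤ ‖xs m - xs n‖ := by
      intro m n hmn
      have h1 : xs m - xs n = -(B⁻¹ • (y m - y n)) := by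
        simp only [hxs, smul_sub]; abel
      rw [h1, norm_neg, norm_smul, norm_inv, Real.norm_eq_abs, abs_of_pos hB, div_eq_inv_mul]
      exact mul_le_mul_of_nonneg_left (hsep m n hmn) (by positivity)
    have hmain := beta_use hβ (by positivity : 0 < t / B) x xs hx1 hxs1 hsep'
    have hm : 0 < min A B := lt_min hA0 hB
    have hAB : A + B - 2 * min A B = |A - B| := by
      rcases le_total A B with h | h
      · rw [min_eq_left h, abs_of_nonpos (by linarith)]; ring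
      · rw [min_eq_right h, abs_of_nonneg (by linarith)]; ring
    have hstep : ∀ n, (I - |A - B|) / (2 * min A B) ≤ ‖(1 / 2 : ℝ) • (x + xs n)‖ := by
      intro n
      rw [div_le_iff₀ (by positivity)]
      have h1 : ‖(1 / 2 : ℝ) • (x + xs n)‖ * (2 * min A B) = ‖(min A B) • (x + xs n)‖ := by
        rw [norm_smul, norm_smul, Real.norm_eq_abs (min A B), abs_of_pos hm]
        norm_num
        ring
      have h2 : a - y n = A • x + B • xs n := by
        simp only [hx, hxs, smul_neg, smul_smul]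
        rw [mul_inv_cancel₀ hA0.ne', mul_inv_cancel₀ hB.ne', one_smul, one_smul]
        abel
      have h3 := hI n
      rw [h2] at h3
      rw [h1]
      rcases le_total A B with h | h
      · rw [min_eq_left h, abs_of_nonpos (by linarith)]
        have h4 : A • x + B • xs n = A • (x + xs n) + (B - A) • xs n := by
          rw [smul_add, sub_smul]; abel
        rw [h4] at h3
        have h5 := norm_add_le (A • (x + xs n)) ((B - A) • xs n)
        have h6 : ‖(B - A) • xs n‖ ≤ B - A := by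
          rw [norm_smul, Real.norm_eq_abs, abs_of_nonneg (by linarith)]
          exact mul_le_of_le_one_right (by linarith) (hxs1 n)
        linarith
      · rw [min_eq_right h, abs_of_nonneg (by linarith)]
        have h4 : A • x + B • xs n = B • (x + xs n) + (A - B) • x := by
          rw [smul_add, sub_smul]; abel
        rw [h4] at h3
        have h5 := norm_add_le (B • (x + xs n)) ((A - B) • x)
        have h6 : ‖(A - B) • x‖ ≤ A - B := by
          rw [norm_smul, Real.norm_eq_abs, abs_of_nonneg (by linarith)]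
          exact mul_le_of_le_one_right (by linarith) hx1
        linarith
    have h7 : (I - |A - B|) / (2 * min A B) ≤ 1 - c * (t / B) ^ p := (le_ciInf hstep).trans hmain
    rw [div_le_iff₀ (by positivity)] at h7
    nlinarith

end Q95.Heis
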