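import Pool.Agent.Q95.HeisD

/-!
# The umbel inequality on Heisenberg groups: the core inequality
-/

namespace Q95.Heis

open Set Filter
open scoped ENNReal NNReal Topology

variable {X : Type*} [NormedAddCommGroup X] [NormedSpace ℝ X]

lemma hd_sq_le {ω : X →L[ℝ] X →L[ℝ] ℝ} {lam : ℝ} (hlω : lam ^ 2 * ‖ω‖ ≤ 1 / 8)
    {a b : X} {s t A B : ℝ} (hA : 0 ≤ A) (hB : 0 ≤ B) (ha : ‖a‖ ≤ A) (hb : ‖b‖ ≤ B)
    (hs : lam ^ 2 * |s| ≤ A ^ 2) (ht : lam ^ 2 * |t| ≤ B ^ 2) :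
    (lam * Real.sqrt |s - t + ω a b|) ^ 2 ≤ A ^ 2 + B ^ 2 + A * B := by
  rw [mul_pow, Real.sq_sqrt (abs_nonneg _)]
  have h1 : |ω a b| ≤ ‖ω‖ * A * B := by
    have h2 := ω.le_opNorm₂ a b
    rw [Real.norm_eq_abs] at h2
    refine h2.trans ?_
    have := norm_nonneg ω
    gcongr
  have h3 : |s - t + ω a b| ≤ |s| + |t| + ‖ω‖ * A * B := by
    refine (abs_add_le _ _).trans (add_le_add (abs_sub _ _) h1)
  have h4 := mul_le_mul_of_nonneg_left h3 (sq_nonneg lam)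
  have h5 : (lam ^ 2 * ‖ω‖) * (A * B) ≤ 1 / 8 * (A * B) :=
    mul_le_mul_of_nonneg_right hlω (by positivity)
  have h6 : 0 ≤ A * B := by positivity
  nlinarith

/-- The core inequality, centred at the identity. -/
theorem core_zero {p c : ℝ} (hp : 1 < p) (hc : 0 < c)
    (hβ : ∀ t : ℝ, 0 < t → t ≤ 2 → c * t ^ p ≤ betaMod X t) :
    ∃ κ : ℝ, 0 < κ ∧ ∀ (ω : X →L[ℝ] X →L[ℝ] ℝ), (∀ x, ω x x = 0) → ∀ lam : ℝ, 0 < lam →
      lam ^ 2 * ‖ω‖ ≤ 1 / 8 → ∀ (w : X × ℝ) (x : ℕ → X × ℝ) (I T B : ℝ), 0 ≤ I → 0 ≤ T →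
      (∀ n, I ≤ hd ω lam w (x n)) → (∀ i, ∀ᶠ j in atTop, T ≤ hd ω lam (x i) (x j)) →
      (∀ n, hd ω lam (x n) (0, 0) ≤ B) →
      (I / 2) ^ p + κ * T ^ p ≤ (hd ω lam w (0, 0) ^ p + B ^ p) / 2 := by
  have hp0 : 0 < p := by linarith
  obtain ⟨ρ₁, h10, h11, hρ₁⟩ := central_dom hp
  obtain ⟨ρ₂, h20, h21, hρ₂⟩ := far_radii hp
  have h2p : 0 < (2 : ℝ) ^ (p + 1) := by positivity
  have h8p : 0 < (8 : ℝ) ^ p := by positivity
  refine ⟨min ((1 - ρ₁) / 2 ^ (p + 1)) (min ((1 - ρ₂) / 2 ^ (p + 1)) (c / 8 ^ p)),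
    lt_min (div_pos (by linarith) h2p) (lt_min (div_pos (by linarith) h2p) (by positivity)), ?_⟩
  intro ω hω lam hlam hlω w x I T B hI0 hT0 hI hT hB
  set κ := min ((1 - ρ₁) / 2 ^ (p + 1)) (min ((1 - ρ₂) / 2 ^ (p + 1)) (c / 8 ^ p)) with hκ
  have hκ1 : κ ≤ (1 - ρ₁) / 2 ^ (p + 1) := min_le_left _ _
  have hκ2 : κ ≤ (1 - ρ₂) / 2 ^ (p + 1) := (min_le_right _ _).trans (min_le_left _ _)
  have hκ3 : κ ≤ c / 8 ^ p := (min_le_right _ _).trans (min_le_right _ _)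
  have hκ0 : 0 < κ :=
    lt_min (div_pos (by linarith) h2p) (lt_min (div_pos (by linarith) h2p) (by positivity))
  obtain ⟨a, s⟩ := w
  set A : ℝ := hd ω lam (a, s) (0, 0) with hA
  have hA0 : 0 ≤ A := hd_nonneg _ _ _ _
  have hB0 : 0 ≤ B := (hd_nonneg _ _ _ _).trans (hB 0)
  have haA : ‖a‖ ≤ A := by
    rw [hA]; unfold hd; simp
  have hcen : ∀ (q : X × ℝ) (D : ℝ), hd ω lam q (0, 0) ≤ D →
      ‖q.1‖ ≤ D ∧ lam ^ 2 * |q.2| ≤ D ^ 2 := by
    intro q D hD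
    unfold hd at hD
    simp only [sub_zero, map_zero, add_zero] at hD
    have h1 := (le_max_left _ _).trans hD
    have h2 := (le_max_right _ _).trans hD
    refine ⟨h1, ?_⟩
    have h3 := pow_le_pow_left₀ (by positivity) h2 2
    rwa [mul_pow, Real.sq_sqrt (abs_nonneg _)] at h3
  have hsA : lam ^ 2 * |s| ≤ A ^ 2 := (hcen (a, s) A le_rfl).2
  have hyB : ∀ n, ‖(x n).1‖ ≤ B := fun n => (hcen (x n) B (hB n)).1
  have hsB : ∀ n, lam ^ 2 * |(x n).2| ≤ B ^ 2 := fun n => (hcen (x n) B (hB n)).2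
  -- bound on `T`
  have hT2 : T ≤ 2 * B := by
    obtain ⟨j, hj⟩ := (hT 0).exists
    refine hj.trans ?_
    unfold hd
    refine max_le ?_ ?_
    · have := norm_sub_le (x 0).1 (x j).1
      linarith [hyB 0, hyB j]
    · have h1 := hd_sq_le hlω hB0 hB0 (hyB 0) (hyB j) (hsB 0) (hsB j)
      apply le_of_sq_le_sq _ (by positivity)
      refine h1.trans ?_
      nlinarith [sq_nonneg B]
  have hAp : 0 ≤ A ^ p := Real.rpow_nonneg hA0 p
  have hBp : 0 ≤ B ^ p := Real.rpow_nonneg hB0 p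
  -- a factor gives the inequality
  have factor : ∀ ρ : ℝ, ρ < 1 → κ ≤ (1 - ρ) / 2 ^ (p + 1) →
      (I / 2) ^ p ≤ ρ * ((A ^ p + B ^ p) / 2) → (I / 2) ^ p + κ * T ^ p ≤ (A ^ p + B ^ p) / 2 := by
    intro ρ hρ hκρ h
    have h1 : T ^ p ≤ 2 ^ p * B ^ p := by
      rw [← Real.mul_rpow (by norm_num) hB0]
      exact Real.rpow_le_rpow hT0 hT2 hp0.le
    have h2 : κ * T ^ p ≤ (1 - ρ) / 2 ^ (p + 1) * (2 ^ p * B ^ p) :=
      mul_le_mul hκρ h1 (Real.rpow_nonneg hT0 p) (div_nonneg (by linarith) h2p.le)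
    have h3 : (1 - ρ) / 2 ^ (p + 1) * (2 ^ p * B ^ p) = (1 - ρ) * (B ^ p / 2) := by
      rw [Real.rpow_add_one (by norm_num : (2 : ℝ) ≠ 0)]
      have : (2 : ℝ) ^ p ≠ 0 := by positivity
      field_simp
    have h4 : (1 - ρ) * (B ^ p / 2) ≤ (1 - ρ) * ((A ^ p + B ^ p) / 2) :=
      mul_le_mul_of_nonneg_left (by linarith) (by linarith)
    linarith
  by_cases hcase : ∃ n, ‖a - (x n).1‖ ≤ lam * Real.sqrt |s - (x n).2 + ω a (x n).1|
  · -- Case 1
    obtain ⟨n, hn⟩ := hcase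
    apply factor ρ₁ h11 hκ1
    apply hρ₁ A B I hA0 hB0 hI0
    have h1 := hI n
    unfold hd at h1
    simp only at h1
    rw [max_eq_right hn] at h1
    exact (pow_le_pow_left₀ hI0 h1 2).trans
      (hd_sq_le hlω hA0 hB0 haA (hyB n) hsA (hsB n))
  · -- Case 2
    push Not at hcase
    have hI' : ∀ n, I ≤ ‖a - (x n).1‖ := by
      intro n
      have h1 := hI n
      unfold hd at h1
      simp only at h1
      rwa [max_eq_left (hcase n).le] at h1
    have hIAB : I ≤ A + B := by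
      have h1 := hI' 0
      have h2 := norm_sub_le a (x 0).1
      linarith [hyB 0]
    have hu : (I / 2) ^ p ≤ ((A + B) / 2) ^ p :=
      Real.rpow_le_rpow (by positivity) (by linarith) hp0.le
    rcases eq_or_lt_of_le hT0 with hT00 | hT00
    · rw [← hT00, Real.zero_rpow hp0.ne', mul_zero, add_zero]
      exact hu.trans (mean_le hp hA0 hB0)
    · have hBpos : 0 < B := by linarith
      rcases le_total A (B / 2) with hAB | hAB
      · exact factor ρ₂ h21 hκ2 (hu.trans (hρ₂ A B hA0 hAB))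
      · obtain ⟨φ, hφ⟩ := separation hω hlam hlω hT00 (fun n => (x n).1) (fun n => (x n).2)
          hyB hsB hT
        have hgap := beta_gap (I := I) (a := a) (y := fun n => (x (φ n)).1) hβ hA0 haA hBpos
          (fun n => hyB (φ n)) (by positivity : 0 < T / 4) hφ (fun n => hI' (φ n))
        have hm : B / 2 ≤ min A B := le_min hAB (by linarith)
        set u : ℝ := (A + B) / 2 with hudef
        have hu0 : 0 < u := by rw [hudef]; linarith
        set δ : ℝ := B / 2 * (c * (T / 4 / B) ^ p) with hδ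
        have hδ0 : 0 ≤ δ := by positivity
        have hIu : I / 2 ≤ u - δ := by
          have h1 : B / 2 * (c * (T / 4 / B) ^ p) ≤ min A B * (c * (T / 4 / B) ^ p) :=
            mul_le_mul_of_nonneg_right hm (by positivity)
          rw [hudef, hδ]
          linarith
        have hδu : δ ≤ u := by linarith
        have h1 : (I / 2) ^ p ≤ u ^ p - δ * u ^ (p - 1) :=
          (Real.rpow_le_rpow (by positivity) hIu hp0.le).trans (sub_rpow_le hp hu0 hδ0 hδu)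
        have h2 : (B / 2) ^ (p - 1) ≤ u ^ (p - 1) :=
          Real.rpow_le_rpow (by positivity) (by rw [hudef]; linarith) (by linarith)
        have h3 : c * (T / 8) ^ p ≤ δ * u ^ (p - 1) := by
          have h4 : δ * (B / 2) ^ (p - 1) ≤ δ * u ^ (p - 1) := mul_le_mul_of_nonneg_left h2 hδ0
          have h5 : δ * (B / 2) ^ (p - 1) = c * (T / 8) ^ p := by
            have h6 : (B / 2) * (B / 2) ^ (p - 1) = (B / 2) ^ p := by
              rw [mul_comm, ← Real.rpow_add_one (by positivity)]; congr 1; ring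
            have h7 : (B / 2) ^ p * (T / 4 / B) ^ p = (T / 8) ^ p := by
              rw [← Real.mul_rpow (by positivity) (by positivity)]
              congr 1
              field_simp
              norm_num
            rw [hδ]
            calc B / 2 * (c * (T / 4 / B) ^ p) * (B / 2) ^ (p - 1)
                = c * (((B / 2) * (B / 2) ^ (p - 1)) * (T / 4 / B) ^ p) := by ring
              _ = c * (T / 8) ^ p := by rw [h6, h7]
          linarith
        have h8 : κ * T ^ p ≤ c * (T / 8) ^ p := by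
          rw [Real.div_rpow hT0 (by norm_num)]
          calc κ * T ^ p ≤ c / 8 ^ p * T ^ p :=
                mul_le_mul_of_nonneg_right hκ3 (Real.rpow_nonneg hT0 p)
            _ = c * (T ^ p / 8 ^ p) := by ring
        have h9 := mean_le hp hA0 hB0
        linarith

/-- The core inequality. -/
theorem core {p c : ℝ} (hp : 1 < p) (hc : 0 < c)
    (hβ : ∀ t : ℝ, 0 < t → t ≤ 2 → c * t ^ p ≤ betaMod X t) :
    ∃ κ : ℝ, 0 < κ ∧ ∀ (ω : X →L[ℝ] X →L[ℝ] ℝ), (∀ x, ω x x = 0) → ∀ lam : ℝ, 0 < lam →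
      lam ^ 2 * ‖ω‖ ≤ 1 / 8 → ∀ (w z : X × ℝ) (x : ℕ → X × ℝ) (I T B : ℝ), 0 ≤ I → 0 ≤ T →
      (∀ n, I ≤ hd ω lam w (x n)) → (∀ i, ∀ᶠ j in atTop, T ≤ hd ω lam (x i) (x j)) →
      (∀ n, hd ω lam (x n) z ≤ B) →
      (I / 2) ^ p + κ * T ^ p ≤ (hd ω lam w z ^ p + B ^ p) / 2 := by
  obtain ⟨κ, hκ, h⟩ := core_zero (X := X) hp hc hβ
  refine ⟨κ, hκ, fun ω hω lam hlam hlω w z x I T B hI0 hT0 hI hT hB => ?_⟩
  have h1 := h ω hω lam hlam hlω (tr ω z w) (fun n => tr ω z (x n)) I T B hI0 hT0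
    (fun n => by rw [hd_tr hω]; exact hI n)
    (fun i => by
      filter_upwards [hT i] with j hj
      rw [hd_tr hω]; exact hj)
    (fun n => by rw [← tr_self hω z, hd_tr hω]; exact hB n)
  rwa [← tr_self hω z, hd_tr hω] at h1

end Q95.Heis
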