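import Pool.Agent.Q95.GaussMult
import Mathlib.NumberTheory.Niven
import Mathlib.RingTheory.AlgebraicIndependent.TranscendenceBasis

/-!
# Algebraic relations between values of the Gamma function at rational points

Multiplication formula up to algebraic factors over `ℚ(π)`; transcendence degrees.
-/

set_option autoImplicit false

namespace Pool.Agent.Q95.LR

open Complex IntermediateField Finset

/-- the field `ℚ(π)` -/
noncomputable abbrev Kp : IntermediateField ℚ ℂ := adjoin ℚ {(Real.pi : ℂ)}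

theorem trdeg_adjoin_le (S : Set ℂ) (T : Finset ℂ)
    (h : ∀ x ∈ S, IsAlgebraic (adjoin ℚ (T : Set ℂ)) x) :
    Algebra.trdeg ℚ (adjoin ℚ S) ≤ T.card := by
  classical
  obtain ⟨ι, x, hx⟩ := exists_isTranscendenceBasis' ℚ (A := adjoin ℚ S)
  have hind : AlgebraicIndependent ℚ fun i => (x i : ℂ) := by
    have := (AlgHom.algebraicIndependent_iff (adjoin ℚ S).val (adjoin ℚ S).val.injective).2 hx.1
    exact this
  set M := AlgebraicIndependent.matroid ℚ ℂ with hM
  have hI : M.Indep (Set.range fun i => (x i : ℂ)) := hind.to_subtype_range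
  have hsub0 : adjoin ℚ S ≤ (algebraicClosure (adjoin ℚ (T : Set ℂ)) ℂ).restrictScalars ℚ := by
    rw [adjoin_le_iff]
    intro y hy
    exact mem_algebraicClosure_iff.2 (h y hy)
  have hsub : Set.range (fun i => (x i : ℂ)) ⊆ M.closure (T : Set ℂ) := by
    rw [hM, AlgebraicIndependent.matroid_closure_eq]
    rintro _ ⟨j, rfl⟩
    rw [SetLike.mem_coe, Subalgebra.mem_algebraicClosure]
    have h1 : IsAlgebraic (adjoin ℚ (T : Set ℂ)) (x j : ℂ) :=
      mem_algebraicClosure_iff.1 (hsub0 (x j).2)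
    open IntermediateField.algebraAdjoinAdjoin in
    exact (IsFractionRing.isAlgebraic_iff (Algebra.adjoin ℚ (T : Set ℂ))
      (adjoin ℚ (T : Set ℂ)) ℂ).2 h1
  have h1 := hI.encard_le_eRk_of_subset hsub
  rw [M.eRk_closure_eq] at h1
  have h2 := h1.trans (M.eRk_le_encard (T : Set ℂ))
  rw [Set.encard_coe_eq_coe_finsetCard] at h2
  have h3 : Cardinal.mk ι = Algebra.trdeg ℚ (adjoin ℚ S) := hx.cardinalMk_eq_trdeg
  rw [← h3]
  have h4 : Set.encard (Set.range fun i => (x i : ℂ)) = Cardinal.toENat (Cardinal.mk ι) := by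
    rw [← Set.image_univ, hind.injective.encard_image, Set.encard_univ]
    rfl
  rw [h4] at h2
  exact Cardinal.toENat_le_natCast.1 h2

theorem prod_al {F : IntermediateField ℚ ℂ} {ι : Type*} (s : Finset ι) (f : ι → ℂ)
    (h : ∀ i ∈ s, IsAlgebraic F (f i)) : IsAlgebraic F (∏ i ∈ s, f i) := by
  classical
  induction s using Finset.induction_on with
  | empty => simpa using isAlgebraic_one
  | insert i s hi ih =>
    rw [Finset.prod_insert hi]
    exact (h i (Finset.mem_insert_self _ _)).mul (ih fun j hj => h j (Finset.mem_insert_of_mem hj))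

theorem alg_up {x : ℂ} (h : IsAlgebraic ℚ x) (F : IntermediateField ℚ ℂ) : IsAlgebraic F x :=
  h.extendScalars (algebraMap ℚ F).injective

theorem alg_nat_cpow (m : ℕ) (hm : 0 < m) (r : ℚ) : IsAlgebraic ℚ ((m : ℂ) ^ (r : ℂ)) := by
  have hmc : (m : ℂ) ≠ 0 := by exact_mod_cast hm.ne'
  apply IsAlgebraic.of_pow (n := r.den) r.den_pos
  rw [← cpow_nat_mul]
  have h1 : ((r.den : ℕ) : ℂ) * (r : ℂ) = ((r.num : ℤ) : ℂ) := by
    have h2 := Rat.den_mul_eq_num r
    exact_mod_cast congrArg (fun x : ℚ => (x : ℂ)) h2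
  rw [h1, cpow_intCast]
  have h3 : IsAlgebraic ℚ (m : ℂ) := by
    have := isAlgebraic_algebraMap (R := ℚ) (A := ℂ) (m : ℚ)
    simpa using this
  rcases Int.eq_nat_or_neg r.num with ⟨n, hn | hn⟩
  · rw [hn, zpow_natCast]
    exact h3.pow n
  · rw [hn, zpow_neg, zpow_natCast]
    exact (h3.pow n).inv

theorem alg_sin (r : ℚ) : IsAlgebraic ℚ (Complex.sin (Real.pi * (r : ℂ))) := by
  have h6 := Complex.isAlgebraic_sin_rat_mul_pi r
  rw [mul_comm]
  exact h6.extendScalars (algebraMap ℤ ℚ).injective_int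

theorem pi_mem : IsAlgebraic Kp (Real.pi : ℂ) := by
  have := isAlgebraic_algebraMap (R := Kp) (A := ℂ) ⟨_, subset_adjoin ℚ {(Real.pi : ℂ)} rfl⟩
  exact this

theorem gam_ne {b N : ℕ} (hb : 0 < b) (hN : 0 < N) : Gamma ((b : ℂ) / (N : ℂ)) ≠ 0 := by
  refine Gamma_ne_zero fun k hk => ?_
  have hNc : (N : ℂ) ≠ 0 := by exact_mod_cast hN.ne'
  rw [div_eq_iff hNc] at hk
  have h1 : ((b + k * N : ℕ) : ℂ) = 0 := by
    push_cast
    linear_combination hk
  have h2 : b + k * N = 0 := by exact_mod_cast h1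
  omega

theorem mult_alg {m b N : ℕ} (hm : 0 < m) (hb : 0 < b) (hN : 0 < N) : ∃ α : ℂ, α ≠ 0 ∧
    IsAlgebraic Kp α ∧ ∏ j ∈ range m, Gamma (((b + j * N : ℕ) : ℂ) / ((m * N : ℕ) : ℂ)) =
      α * Gamma ((b : ℂ) / (N : ℂ)) := by
  have hpi : (Real.pi : ℂ) ≠ 0 := by exact_mod_cast Real.pi_ne_zero
  have hmc : (m : ℂ) ≠ 0 := by exact_mod_cast hm.ne'
  have hNc : (N : ℂ) ≠ 0 := by exact_mod_cast hN.ne'
  set z : ℂ := (b : ℂ) / ((m * N : ℕ) : ℂ) with hz
  have hmz : (m : ℂ) * z = (b : ℂ) / (N : ℂ) := by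
    rw [hz]
    push_cast
    field_simp
  have hG := gam_ne hb hN
  have hmz0 : ∀ k : ℕ, (m : ℂ) * z ≠ -k := by
    intro k hk
    rw [hmz, div_eq_iff hNc] at hk
    have h1 : ((b + k * N : ℕ) : ℂ) = 0 := by
      push_cast
      linear_combination hk
    have h2 : b + k * N = 0 := by exact_mod_cast h1
    omega
  have hP : ∏ j ∈ range m, Gamma (((b + j * N : ℕ) : ℂ) / ((m * N : ℕ) : ℂ)) =
      ∏ j ∈ range m, Gamma (z + j / m) := by
    refine Finset.prod_congr rfl fun j _ => ?_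
    congr 1
    rw [hz]
    push_cast
    field_simp
  have h3 := _root_.Q95.GM.const_sq m hm z hmz0
  rw [← hP, hmz] at h3
  set P := ∏ j ∈ range m, Gamma (((b + j * N : ℕ) : ℂ) / ((m * N : ℕ) : ℂ)) with hPd
  set S := ∏ k ∈ range (m - 1), Complex.sin (Real.pi * ((k + 1 : ℕ) / m)) with hS
  set c := (m : ℂ) ^ ((b : ℂ) / (N : ℂ)) with hc
  set G := Gamma ((b : ℂ) / (N : ℂ)) with hGd
  have h4 : G ^ 2 * ((m : ℂ) ^ 2 * (Real.pi : ℂ) ^ (m - 1)) ≠ 0 :=
    mul_ne_zero (pow_ne_zero _ hG) (mul_ne_zero (pow_ne_zero _ hmc) (pow_ne_zero _ hpi))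
  have hP0 : P ≠ 0 := by
    intro h5
    rw [h5] at h3
    apply h4
    rw [← h3]; simp
  have hS0 : S ≠ 0 := by
    intro h5
    rw [h5] at h3
    apply h4
    rw [← h3]; simp
  have hc0 : c ≠ 0 := by
    intro h5
    rw [h5] at h3
    apply h4
    rw [← h3]; simp
  have hSal : IsAlgebraic Kp S := by
    rw [hS]
    refine prod_al _ _ fun k _ => ?_
    have h7 := alg_up (alg_sin ((k + 1 : ℕ) / m : ℚ)) Kp
    have h9 : (((k + 1 : ℕ) / m : ℚ) : ℂ) = ((k + 1 : ℕ) : ℂ) / (m : ℂ) := by push_cast; ring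
    rw [h9] at h7
    exact h7
  have hcal : IsAlgebraic Kp c := by
    have h7 := alg_up (alg_nat_cpow m hm ((b : ℚ) / N)) Kp
    have h9 : (((b : ℚ) / N : ℚ) : ℂ) = (b : ℂ) / (N : ℂ) := by push_cast; ring
    rw [h9] at h7
    exact h7
  have hmal : IsAlgebraic Kp (m : ℂ) := by
    have := isAlgebraic_algebraMap (R := ℚ) (A := ℂ) (m : ℚ)
    exact alg_up (by simpa using this) Kp
  refine ⟨P / G, div_ne_zero hP0 hG, ?_, (div_mul_cancel₀ _ hG).symm⟩
  apply IsAlgebraic.of_pow (n := 2) (by norm_num)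
  have h5 : (P / G) ^ 2 = ((m : ℂ) ^ 2 * (Real.pi : ℂ) ^ (m - 1)) * (c ^ 2 * S)⁻¹ := by
    rw [div_pow, div_eq_iff (pow_ne_zero _ hG)]
    field_simp
    linear_combination h3
  rw [h5]
  exact ((hmal.pow 2).mul (pi_mem.pow _)).mul ((hcal.pow 2).mul hSal).inv

/-- the residues modulo `M` congruent to `b` modulo `d` -/
def Ares (M d b : ℕ) : Finset ℕ := (range M).filter fun a => a % d = b

theorem Ares_eq {m d b : ℕ} (hb : b < d) :
    Ares (m * d) d b = (range m).image fun j => b + j * d := by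
  ext a
  simp only [Ares, mem_filter, mem_range, mem_image]
  constructor
  · rintro ⟨h1, h2⟩
    refine ⟨a / d, Nat.div_lt_of_lt_mul (by rwa [mul_comm] at h1), ?_⟩
    rw [← h2, mul_comm]
    exact Nat.mod_add_div a d
  · rintro ⟨j, hj, rfl⟩
    refine ⟨?_, ?_⟩
    · calc b + j * d < d + j * d := by omega
        _ = (j + 1) * d := by ring
        _ ≤ m * d := Nat.mul_le_mul_right d hj
    · rw [Nat.add_mul_mod_self_right, Nat.mod_eq_of_lt hb]

theorem mult_res {m d b : ℕ} (hm : 0 < m) (hb : 0 < b) (hbd : b < d) : ∃ α : ℂ, α ≠ 0 ∧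
    IsAlgebraic Kp α ∧ ∏ a ∈ Ares (m * d) d b, Gamma ((a : ℂ) / ((m * d : ℕ) : ℂ)) =
      α * Gamma ((b : ℂ) / (d : ℂ)) := by
  rw [Ares_eq hbd, prod_image]
  · exact mult_alg hm hb (hb.trans hbd)
  · intro i _ j _ hij
    have : i * d = j * d := by simpa using hij
    exact Nat.eq_of_mul_eq_mul_right (hb.trans hbd) this

/-- the residues prime to `p`: the product is `Γ(b/d) / Γ(b'/d)` up to an algebraic factor, if
`p b' ≡ b` modulo `d`. -/
theorem prim_res {p k d b b' : ℕ} (hp : p.Prime) (hpd : ¬ p ∣ d) (hb : 0 < b) (hbd : b < d)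
    (hb' : 0 < b') (hbd' : b' < d) (hbb : (p * b') % d = b) : ∃ α : ℂ, α ≠ 0 ∧ IsAlgebraic Kp α ∧
      (∏ a ∈ (Ares (p ^ (k + 1) * d) d b).filter (fun a => ¬ p ∣ a),
        Gamma ((a : ℂ) / ((p ^ (k + 1) * d : ℕ) : ℂ))) * Gamma ((b' : ℂ) / (d : ℂ)) =
          α * Gamma ((b : ℂ) / (d : ℂ)) := by
  have hd : 0 < d := hb.trans hbd
  have hpp := hp.pos
  obtain ⟨α, hα0, hα, hα1⟩ := mult_res (m := p ^ (k + 1)) (pow_pos hpp _) hb hbd
  obtain ⟨β, hβ0, hβ, hβ1⟩ := mult_res (m := p ^ k) (pow_pos hpp _) hb' hbd'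
  have hsplit := prod_filter_mul_prod_filter_not (Ares (p ^ (k + 1) * d) d b) (fun a => p ∣ a)
    (fun a => Gamma ((a : ℂ) / ((p ^ (k + 1) * d : ℕ) : ℂ)))
  have hcop : Nat.Coprime d p := ((Nat.Prime.coprime_iff_not_dvd hp).2 hpd).symm
  have himg : (Ares (p ^ (k + 1) * d) d b).filter (fun a => p ∣ a) =
      (Ares (p ^ k * d) d b').image fun a => p * a := by
    ext a
    simp only [Ares, mem_filter, mem_range, mem_image]
    constructor
    · rintro ⟨⟨h1, h2⟩, c, rfl⟩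
      refine ⟨c, ⟨?_, ?_⟩, rfl⟩
      · have h3 : p * c < p * (p ^ k * d) := by
          calc p * c < p ^ (k + 1) * d := h1
            _ = p * (p ^ k * d) := by ring
        exact Nat.lt_of_mul_lt_mul_left h3
      · have h3 : p * c ≡ p * b' [MOD d] := by
          rw [Nat.ModEq, h2, hbb]
        have h4 : c ≡ b' [MOD d] := Nat.ModEq.cancel_left_of_coprime hcop h3
        rw [Nat.ModEq, Nat.mod_eq_of_lt hbd'] at h4
        exact h4
    · rintro ⟨c, ⟨h1, h2⟩, rfl⟩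
      refine ⟨⟨?_, ?_⟩, dvd_mul_right _ _⟩
      · calc p * c < p * (p ^ k * d) := Nat.mul_lt_mul_of_pos_left h1 hpp
          _ = p ^ (k + 1) * d := by ring
      · rw [Nat.mul_mod, h2, ← hbb, Nat.mul_mod p b', Nat.mod_eq_of_lt hbd']
  have h5 : ∏ a ∈ (Ares (p ^ (k + 1) * d) d b).filter (fun a => p ∣ a),
      Gamma ((a : ℂ) / ((p ^ (k + 1) * d : ℕ) : ℂ)) = β * Gamma ((b' : ℂ) / (d : ℂ)) := by
    rw [himg, prod_image, ← hβ1]
    · refine prod_congr rfl fun a _ => ?_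
      congr 1
      have hpc : (p : ℂ) ≠ 0 := by exact_mod_cast hpp.ne'
      have hdc : (d : ℂ) ≠ 0 := by exact_mod_cast hd.ne'
      push_cast
      field_simp
      ring
    · intro i _ j _ hij
      exact Nat.eq_of_mul_eq_mul_left hpp hij
  rw [h5, hα1] at hsplit
  refine ⟨α / β, div_ne_zero hα0 hβ0, hα.mul hβ.inv, ?_⟩
  field_simp
  linear_combination hsplit

end Pool.Agent.Q95.LR
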