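import Pool.Agent.Q95.LR1
import Mathlib.Data.ZMod.Units
import Mathlib.GroupTheory.QuotientGroup.Basic

/-!
# Relations between the values of the Gamma function at the primitive fractions of denominator `q`
-/

set_option autoImplicit false

namespace Pool.Agent.Q95.LR

open Complex IntermediateField Finset

section

variable {p k d : ℕ} (hp : p.Prime) (hpd : ¬ p ∣ d) (hd : 2 < d)

/-- `Γ(u / n)` for a unit `u` modulo `n` -/
noncomputable def gv {n : ℕ} (u : (ZMod n)ˣ) : ℂ := Gamma (((u : ZMod n).val : ℂ) / (n : ℂ))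

theorem val_pos {n : ℕ} (hn : 1 < n) (u : (ZMod n)ˣ) : 0 < (u : ZMod n).val := by
  have : Fact (1 < n) := ⟨hn⟩
  have : NeZero n := ⟨by omega⟩
  rcases Nat.eq_zero_or_pos (u : ZMod n).val with h | h
  · rw [ZMod.val_eq_zero] at h
    exact absurd h u.ne_zero
  · exact h

theorem gv_ne {n : ℕ} (hn : 1 < n) (u : (ZMod n)ˣ) : gv u ≠ 0 :=
  gam_ne (val_pos hn u) (by omega)

theorem q_gt (hp : p.Prime) (hd : 2 < d) : 2 < p ^ (k + 1) * d := by
  have : 1 ≤ p ^ (k + 1) := Nat.one_le_pow _ _ hp.pos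
  nlinarith

/-- the unit `p` modulo `d` -/
noncomputable def pu (hp : p.Prime) (hpd : ¬ p ∣ d) : (ZMod d)ˣ :=
  ZMod.unitOfCoprime p ((Nat.Prime.coprime_iff_not_dvd hp).2 hpd)

theorem mem_fib (hp : p.Prime) (hd : 2 < d) [NeZero d] [NeZero (p ^ (k + 1) * d)]
    (v : (ZMod d)ˣ) :
    ∏ u ∈ univ.filter (fun u : (ZMod (p ^ (k + 1) * d))ˣ =>
      ZMod.unitsMap (Dvd.intro_left _ rfl : d ∣ p ^ (k + 1) * d) u = v), gv u =
    ∏ a ∈ (Ares (p ^ (k + 1) * d) d (v : ZMod d).val).filter (fun a => ¬ p ∣ a),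
        Gamma ((a : ℂ) / ((p ^ (k + 1) * d : ℕ) : ℂ)) := by
  set q := p ^ (k + 1) * d with hq
  have hq2 : 2 < q := q_gt hp hd
  have hdq : d ∣ q := Dvd.intro_left _ rfl
  refine prod_bij (fun u _ => ((u : ZMod q)).val) ?_ ?_ ?_ ?_
  · intro u hu
    rw [mem_filter] at hu
    simp only [Ares, mem_filter, mem_range]
    refine ⟨⟨ZMod.val_lt _, ?_⟩, ?_⟩
    · have h1 : ((v : (ZMod d)ˣ) : ZMod d) = ((u : ZMod q).val : ZMod d) := by
        rw [← hu.2, ZMod.unitsMap_val, ZMod.natCast_val]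
      rw [h1, ZMod.val_natCast]
    · intro hdiv
      have h2 : Nat.Coprime (u : ZMod q).val q := ZMod.val_coe_unit_coprime u
      have h3 : p ∣ q := dvd_mul_of_dvd_left (dvd_pow_self p (Nat.succ_ne_zero k)) d
      have h4 := Nat.dvd_gcd hdiv h3
      rw [h2] at h4
      exact hp.one_lt.ne' (Nat.dvd_one.1 h4)
  · intro u _ u' _ h
    exact Units.ext (ZMod.val_injective q h)
  · intro a ha
    simp only [Ares, mem_filter, mem_range] at ha
    obtain ⟨⟨h1, h2⟩, h3⟩ := ha
    have hcd : Nat.Coprime a d := by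
      have h4 : Nat.Coprime (v : ZMod d).val d := ZMod.val_coe_unit_coprime v
      rw [← h2] at h4
      rw [Nat.Coprime, Nat.gcd_comm, Nat.gcd_rec]
      rw [Nat.Coprime] at h4
      exact h4
    have hcp : Nat.Coprime a p := ((Nat.Prime.coprime_iff_not_dvd hp).2 h3).symm
    have hcq : Nat.Coprime a q := Nat.Coprime.mul_right (hcp.pow_right _) hcd
    refine ⟨ZMod.unitOfCoprime a hcq, ?_, ?_⟩
    · rw [mem_filter]
      refine ⟨mem_univ _, Units.ext ?_⟩
      rw [ZMod.unitsMap_val, ZMod.coe_unitOfCoprime, ← ZMod.natCast_val, ZMod.val_natCast,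
        Nat.mod_eq_of_lt h1]
      apply ZMod.val_injective d
      rw [ZMod.val_natCast, h2]
    · rw [ZMod.coe_unitOfCoprime, ZMod.val_natCast, Nat.mod_eq_of_lt h1]
  · intro u _
    rfl

theorem fib_rel (hp : p.Prime) (hpd : ¬ p ∣ d) (hd : 2 < d) [NeZero d] [NeZero (p ^ (k + 1) * d)]
    (v : (ZMod d)ˣ) : ∃ α : ℂ, α ≠ 0 ∧ IsAlgebraic Kp α ∧
    (∏ u ∈ univ.filter (fun u : (ZMod (p ^ (k + 1) * d))ˣ =>
      ZMod.unitsMap (Dvd.intro_left _ rfl : d ∣ p ^ (k + 1) * d) u = v), gv u) *
        gv ((pu hp hpd)⁻¹ * v) = α * gv v := by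
  rw [mem_fib hp hd]
  refine prim_res hp hpd (val_pos (by omega) v) (ZMod.val_lt _)
    (val_pos (by omega) ((pu hp hpd)⁻¹ * v)) (ZMod.val_lt _) ?_
  have h1 : (v : ZMod d) = (p : ZMod d) * (((pu hp hpd)⁻¹ * v : (ZMod d)ˣ) : ZMod d) := by
    have h2 : ((pu hp hpd : (ZMod d)ˣ) : ZMod d) = p := ZMod.coe_unitOfCoprime _ _
    rw [← h2, ← Units.val_mul, mul_inv_cancel_left]
  have h3 : ((v : (ZMod d)ˣ) : ZMod d).val =
      ((p * (((pu hp hpd)⁻¹ * v : (ZMod d)ˣ) : ZMod d).val : ℕ) : ZMod d).val := by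
    congr 1
    rw [Nat.cast_mul, ZMod.natCast_zmod_val, ← h1]
  rw [ZMod.val_natCast] at h3
  exact h3.symm

/-- the quotient of the unit group modulo `d` by the powers of `p` -/
abbrev CC (hp : p.Prime) (hpd : ¬ p ∣ d) : Type :=
  (ZMod d)ˣ ⧸ Subgroup.zpowers (pu hp hpd)

/-- the class of a unit modulo `q` -/
noncomputable def cls (hp : p.Prime) (hpd : ¬ p ∣ d) (k : ℕ) :
    (ZMod (p ^ (k + 1) * d))ˣ →* CC hp hpd :=
  (QuotientGroup.mk' _).comp (ZMod.unitsMap (Dvd.intro_left _ rfl : d ∣ p ^ (k + 1) * d))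

theorem coset_rel (hp : p.Prime) (hpd : ¬ p ∣ d) (hd : 2 < d) [NeZero d]
    [NeZero (p ^ (k + 1) * d)] [DecidableEq (CC hp hpd)] (c : CC hp hpd) :
    IsAlgebraic Kp (∏ u ∈ univ.filter (fun u => cls hp hpd k u = c), gv u) := by
  classical
  set ρ := ZMod.unitsMap (Dvd.intro_left _ rfl : d ∣ p ^ (k + 1) * d) with hρ
  choose α hα0 hα hrel using fun v => fib_rel (k := k) hp hpd hd v
  set T : (ZMod d)ˣ → ℂ := fun v => ∏ u ∈ univ.filter (fun u => ρ u = v), gv u with hT
  set t := univ.filter (fun v : (ZMod d)ˣ => (QuotientGroup.mk v : CC hp hpd) = c) with ht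
  have h1 : ∏ v ∈ t, T v = ∏ u ∈ univ.filter (fun u => cls hp hpd k u = c), gv u := by
    rw [← prod_fiberwise_of_maps_to (s := univ.filter (fun u => cls hp hpd k u = c)) (t := t)
      (g := ρ) (f := fun u => gv u)]
    · refine prod_congr rfl fun v hv => ?_
      rw [hT, filter_filter]
      refine prod_congr ?_ fun _ _ => rfl
      ext u
      simp only [mem_filter, mem_univ, true_and]
      constructor
      · intro hu
        refine ⟨?_, hu⟩
        rw [ht, mem_filter] at hv
        change (QuotientGroup.mk (ρ u) : CC hp hpd) = c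
        rw [hu]
        exact hv.2
      · exact fun hu => hu.2
    · intro u hu
      rw [mem_filter] at hu
      rw [ht, mem_filter]
      exact ⟨mem_univ _, hu.2⟩
  rw [← h1]
  have h2 : (∏ v ∈ t, T v) * ∏ v ∈ t, gv ((pu hp hpd)⁻¹ * v) = (∏ v ∈ t, α v) * ∏ v ∈ t, gv v := by
    rw [← prod_mul_distrib, ← prod_mul_distrib]
    exact prod_congr rfl fun v _ => hrel v
  have h3 : ∏ v ∈ t, gv ((pu hp hpd)⁻¹ * v) = ∏ v ∈ t, gv v := by
    refine prod_bij (fun v _ => (pu hp hpd)⁻¹ * v) ?_ ?_ ?_ ?_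
    · intro v hv
      rw [ht, mem_filter] at hv ⊢
      refine ⟨mem_univ _, ?_⟩
      rw [← hv.2, QuotientGroup.eq]
      have : ((pu hp hpd)⁻¹ * v)⁻¹ * v = pu hp hpd := by
        rw [mul_inv_rev, inv_inv, mul_comm v⁻¹, mul_assoc, inv_mul_cancel, mul_one]
      rw [this]
      exact Subgroup.mem_zpowers _
    · intro v _ v' _ h
      exact mul_left_cancel h
    · intro v hv
      refine ⟨pu hp hpd * v, ?_, by group⟩
      rw [ht, mem_filter] at hv ⊢
      refine ⟨mem_univ _, ?_⟩
      rw [← hv.2, QuotientGroup.eq]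
      have : (pu hp hpd * v)⁻¹ * v = (pu hp hpd)⁻¹ := by
        rw [mul_inv_rev, mul_comm v⁻¹, mul_assoc, inv_mul_cancel, mul_one]
      rw [this]
      exact inv_mem (Subgroup.mem_zpowers _)
    · intro v _
      rfl
  rw [h3] at h2
  have h4 : ∏ v ∈ t, gv v ≠ 0 := prod_ne_zero_iff.2 fun v _ => gv_ne (by omega) v
  rw [mul_right_cancel₀ h4 h2]
  exact prod_al _ _ fun v _ => hα v

/-- reflection -/
theorem refl_rel {n : ℕ} (hn : 1 < n) (u : (ZMod n)ˣ) :
    ∃ α : ℂ, IsAlgebraic Kp α ∧ gv (-u) * gv u = α := by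
  have : NeZero n := ⟨by omega⟩
  refine ⟨_, ?_, rfl⟩
  have hnc : (n : ℂ) ≠ 0 := by exact_mod_cast (by omega : n ≠ 0)
  have hval : ((-u : (ZMod n)ˣ) : ZMod n).val = n - (u : ZMod n).val := by
    rw [Units.val_neg, ZMod.neg_val, if_neg]
    intro h
    have h1 := val_pos hn u
    rw [h, ZMod.val_zero] at h1
    exact lt_irrefl _ h1
  have hle : (u : ZMod n).val ≤ n := (ZMod.val_lt _).le
  have h1 : gv (-u) * gv u = Real.pi / Complex.sin (Real.pi * (((u : ZMod n).val / n : ℚ) : ℂ)) := by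
    unfold gv
    rw [hval, mul_comm, Nat.cast_sub hle, sub_div, div_self hnc]
    rw [Gamma_mul_Gamma_one_sub]
    congr 3
    push_cast
    rfl
  rw [h1, div_eq_mul_inv]
  exact pi_mem.mul (alg_up (alg_sin _) Kp).inv

/-- the field of the problem -/
noncomputable def gammaField (q : ℕ) : IntermediateField ℚ ℂ :=
  adjoin ℚ ({(Real.pi : ℂ)} ∪ {x | ∃ a : ℕ, 1 ≤ a ∧ a ≤ q - 1 ∧ Nat.Coprime a q ∧
    x = Gamma (a / q)})

theorem card_half {A : Type*} [Fintype A] [DecidableEq A] (P : A → Prop) [DecidablePred P]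
    (s : A → A) (hs : ∀ a, s (s a) = a) (hP : ∀ a, P (s a) ↔ ¬ P a) :
    2 * (univ.filter P).card = Fintype.card A := by
  have h1 : (univ.filter fun a => ¬ P a).card = (univ.filter P).card := by
    refine card_bij (fun a _ => s a) ?_ ?_ ?_
    · intro a ha
      rw [mem_filter] at ha ⊢
      exact ⟨mem_univ _, (hP a).2 ha.2⟩
    · intro a _ b _ h
      rw [← hs a, h, hs b]
    · intro b hb
      rw [mem_filter] at hb
      refine ⟨s b, ?_, hs b⟩
      rw [mem_filter]
      exact ⟨mem_univ _, fun h => (hP b).1 h hb.2⟩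
  have h2 := card_filter_add_card_filter_not (s := (univ : Finset A)) P
  rw [h1, card_univ] at h2
  omega

theorem main (hp : p.Prime) (hpd : ¬ p ∣ d) (hd : 2 < d) (hH : ∀ j : ℕ, ¬ d ∣ p ^ j + 1) :
    0 < Nat.totient d / (2 * orderOf (p : ZMod d)) ∧
    Nat.totient d / (2 * orderOf (p : ZMod d)) ≤ Nat.totient (p ^ (k + 1) * d) / 2 ∧
    Algebra.trdeg ℚ (gammaField (p ^ (k + 1) * d)) ≤
      ((1 + Nat.totient (p ^ (k + 1) * d) / 2 - Nat.totient d / (2 * orderOf (p : ZMod d)) : ℕ) :
        Cardinal) := by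
  classical
  set q := p ^ (k + 1) * d with hq
  have hq2 : 2 < q := q_gt hp hd
  have : NeZero d := ⟨by omega⟩
  have : NeZero q := ⟨by omega⟩
  have : NeZero (p ^ (k + 1) * d) := ⟨by omega⟩
  have : Fact (1 < d) := ⟨by omega⟩
  set s : CC hp hpd := (QuotientGroup.mk (-1 : (ZMod d)ˣ) : CC hp hpd) with hs
  have hs2 : ∀ c : CC hp hpd, s * (s * c) = c := by
    intro c
    induction c using QuotientGroup.induction_on with
    | H v =>
      rw [hs, ← QuotientGroup.mk_mul, ← QuotientGroup.mk_mul]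
      congr 1
      rw [neg_mul, one_mul, neg_mul, one_mul, neg_neg]
  have hs1 : ∀ c : CC hp hpd, s * c ≠ c := by
    intro c hc
    have h1 : (-1 : (ZMod d)ˣ) ∈ Subgroup.zpowers (pu hp hpd) := by
      induction c using QuotientGroup.induction_on with
      | H v =>
        rw [hs, ← QuotientGroup.mk_mul, QuotientGroup.eq] at hc
        have e : (-1 * v)⁻¹ * v = (-1 : (ZMod d)ˣ) := by
          rw [mul_inv_rev, mul_comm v⁻¹, mul_assoc, inv_mul_cancel, mul_one]
          apply inv_eq_of_mul_eq_one_right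
          rw [neg_mul_neg, one_mul]
        rw [e] at hc
        exact hc
    rw [Subgroup.mem_zpowers_iff] at h1
    obtain ⟨z, hz⟩ := h1
    -- a nonnegative power
    obtain ⟨j, hj⟩ : ∃ j : ℕ, (pu hp hpd) ^ j = -1 := by
      have h2 : (-1 : (ZMod d)ˣ) ∈ Submonoid.powers (pu hp hpd) := by
        rw [mem_powers_iff_mem_zpowers]
        exact ⟨z, hz⟩
      exact h2
    apply hH j
    have h3 : ((pu hp hpd : (ZMod d)ˣ) : ZMod d) = p := ZMod.coe_unitOfCoprime _ _
    have h4 := congrArg (fun u : (ZMod d)ˣ => (u : ZMod d)) hj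
    simp only [Units.val_pow_eq_pow_val, Units.val_neg, Units.val_one, h3] at h4
    rw [← ZMod.natCast_eq_zero_iff]
    push_cast
    rw [h4]
    ring
  -- representatives
  set φ : CC hp hpd → ℕ := fun c => (Fintype.equivFin (CC hp hpd) c : ℕ) with hφ
  have hφi : Function.Injective φ := fun a b h => (Fintype.equivFin (CC hp hpd)).injective (Fin.ext h)
  set P : CC hp hpd → Prop := fun c => φ c < φ (s * c) with hP
  have hPs : ∀ c, P (s * c) ↔ ¬ P c := by
    intro c
    simp only [hP, hs2]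
    have : φ c ≠ φ (s * c) := fun h => hs1 c (hφi h).symm
    omega
  have hcls1 : ∀ u, cls hp hpd k (-u) = s * cls hp hpd k u := by
    intro u
    have h1 : -u = (-1) * u := by rw [neg_mul, one_mul]
    rw [h1, map_mul]
    congr 1
    rw [hs, cls, MonoidHom.comp_apply, QuotientGroup.mk'_apply]
    congr 1
    apply Units.ext
    rw [ZMod.unitsMap_val, Units.val_neg, Units.val_one, Units.val_neg, Units.val_one]
    rw [ZMod.cast_neg (Dvd.intro_left _ rfl : d ∣ p ^ (k + 1) * d),
      ZMod.cast_one (Dvd.intro_left _ rfl : d ∣ p ^ (k + 1) * d)]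
  have hsurj : Function.Surjective (cls hp hpd k) :=
    (QuotientGroup.mk'_surjective _).comp (ZMod.unitsMap_surjective _)
  choose w hw using hsurj
  -- cardinalities
  have c1 : 2 * (univ.filter P).card = Fintype.card (CC hp hpd) := card_half P (fun c => s * c) hs2 hPs
  have c2 : 2 * (univ.filter fun u => P (cls hp hpd k u)).card = Nat.totient q := by
    rw [← ZMod.card_units_eq_totient]
    exact card_half _ (fun u => -u) (fun u => neg_neg u) (fun u => by rw [hcls1, hPs])
  have c3 : Fintype.card (CC hp hpd) * orderOf (p : ZMod d) = Nat.totient d := by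
    rw [← ZMod.card_units_eq_totient, ← Nat.card_eq_fintype_card, ← Nat.card_eq_fintype_card]
    have h1 : orderOf (p : ZMod d) = Nat.card (Subgroup.zpowers (pu hp hpd)) := by
      rw [Nat.card_zpowers, ← orderOf_units]
      rfl
    rw [h1]
    exact (Subgroup.card_eq_card_quotient_mul_card_subgroup _).symm
  -- the generating set
  set A0 := univ.filter fun u => P (cls hp hpd k u) ∧ u ≠ w (cls hp hpd k u) with hA0
  have c4 : A0.card = (univ.filter fun u => P (cls hp hpd k u)).card - (univ.filter P).card := by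
    have h1 : A0 = (univ.filter fun u => P (cls hp hpd k u)) \ (univ.filter P).image w := by
      ext u
      simp only [hA0, mem_filter, mem_univ, true_and, mem_sdiff, mem_image, not_exists, not_and]
      constructor
      · rintro ⟨h1, h2⟩
        refine ⟨h1, fun c _ hcu => h2 ?_⟩
        rw [← hcu, hw]
      · rintro ⟨h1, h2⟩
        exact ⟨h1, fun h3 => h2 _ h1 h3.symm⟩
    rw [h1, card_sdiff_of_subset, card_image_of_injective]
    · intro a b h
      rw [← hw a, h, hw b]
    · intro u hu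
      rw [mem_image] at hu
      obtain ⟨c, hc, rfl⟩ := hu
      rw [mem_filter] at hc ⊢
      rw [hw]
      exact ⟨mem_univ _, hc.2⟩
  set T : Finset ℂ := insert (Real.pi : ℂ) (A0.image fun u => gv u) with hT
  have hdef : Nat.totient d / (2 * orderOf (p : ZMod d)) = (univ.filter P).card := by
    rw [← c3, ← c1]
    have h3 : 0 < orderOf (p : ZMod d) := by
      rw [Nat.pos_iff_ne_zero]
      intro h4
      rw [h4, mul_zero] at c3
      exact (Nat.totient_pos.2 (by omega)).ne c3
    rw [mul_right_comm]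
    exact Nat.mul_div_cancel_left _ (by positivity)
  have hPpos : 0 < (univ.filter P).card := by
    have h1 : 0 < Fintype.card (CC hp hpd) := Fintype.card_pos
    omega
  have hPle : (univ.filter P).card ≤ (univ.filter fun u => P (cls hp hpd k u)).card := by
    have h6 : (univ.filter P).card ≤ ((univ.filter fun u => P (cls hp hpd k u)).image
        (cls hp hpd k)).card := by
      refine card_le_card fun c hc => ?_
      rw [mem_filter] at hc
      rw [mem_image]
      exact ⟨w c, by rw [mem_filter, hw]; exact ⟨mem_univ _, hc.2⟩, hw c⟩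
    exact h6.trans card_image_le
  have hTcard : T.card ≤ 1 + Nat.totient q / 2 - Nat.totient d / (2 * orderOf (p : ZMod d)) := by
    have h1 : T.card ≤ A0.card + 1 :=
      (card_insert_le _ _).trans (Nat.add_le_add_right card_image_le 1)
    have h2 := hdef
    have h5 : (univ.filter P).card ≤ (univ.filter fun u => P (cls hp hpd k u)).card := by
      have h6 : (univ.filter P).card ≤ ((univ.filter fun u => P (cls hp hpd k u)).image
          (cls hp hpd k)).card := by
        refine card_le_card fun c hc => ?_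
        rw [mem_filter] at hc
        rw [mem_image]
        exact ⟨w c, by rw [mem_filter, hw]; exact ⟨mem_univ _, hc.2⟩, hw c⟩
      exact h6.trans card_image_le
    omega
  refine ⟨by rw [hdef]; exact hPpos, by rw [hdef]; omega, ?_⟩
  refine (trdeg_adjoin_le _ T ?_).trans (by exact_mod_cast hTcard)
  -- algebraicity
  set K0 := adjoin ℚ (T : Set ℂ) with hK0
  have hKle : Kp ≤ K0 := by
    rw [adjoin_le_iff]
    rintro x rfl
    exact subset_adjoin ℚ _ (by rw [hT]; exact mem_coe.2 (mem_insert_self _ _))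
  have hup : ∀ x : ℂ, IsAlgebraic Kp x → IsAlgebraic K0 x := by
    intro x hx
    letI : Algebra Kp K0 := (inclusion hKle).toRingHom.toAlgebra
    haveI : IsScalarTower Kp K0 ℂ := IsScalarTower.of_algebraMap_eq fun _ => rfl
    exact hx.extendScalars (inclusion hKle).injective
  have hmem : ∀ x ∈ T, IsAlgebraic K0 x := fun x hx =>
    isAlgebraic_algebraMap (R := K0) (A := ℂ) ⟨x, subset_adjoin ℚ _ (mem_coe.2 hx)⟩
  have hA : ∀ u ∈ A0, IsAlgebraic K0 (gv u) := fun u hu =>
    hmem _ (by rw [hT]; exact mem_insert_of_mem (mem_image_of_mem _ hu))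
  have hwal : ∀ c, P c → IsAlgebraic K0 (gv (w c)) := by
    intro c hc
    have h1 := hup _ (coset_rel (k := k) hp hpd hd c)
    have h2 : w c ∈ univ.filter (fun u => cls hp hpd k u = c) := by
      rw [mem_filter]
      exact ⟨mem_univ _, hw c⟩
    rw [← mul_prod_erase _ _ h2] at h1
    have h3 : IsAlgebraic K0 (∏ u ∈ (univ.filter (fun u => cls hp hpd k u = c)).erase (w c),
        gv u) := by
      refine prod_al _ _ fun u hu => hA u ?_
      rw [mem_erase, mem_filter] at hu
      rw [hA0, mem_filter, hu.2.2]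
      exact ⟨mem_univ _, hc, hu.1⟩
    have h4 : ∏ u ∈ (univ.filter (fun u => cls hp hpd k u = c)).erase (w c), gv u ≠ 0 :=
      prod_ne_zero_iff.2 fun u _ => gv_ne (by omega) u
    have h5 := h1.mul h3.inv
    rwa [mul_inv_cancel_right₀ h4] at h5
  have hPal : ∀ u, P (cls hp hpd k u) → IsAlgebraic K0 (gv u) := by
    intro u hu
    by_cases h1 : u = w (cls hp hpd k u)
    · rw [h1]
      exact hwal _ hu
    · exact hA u (by rw [hA0, mem_filter]; exact ⟨mem_univ _, hu, h1⟩)
  have hall : ∀ u : (ZMod (p ^ (k + 1) * d))ˣ, IsAlgebraic K0 (gv u) := by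
    intro u
    by_cases h1 : P (cls hp hpd k u)
    · exact hPal u h1
    · have h2 : P (cls hp hpd k (-u)) := by rw [hcls1, hPs]; exact h1
      obtain ⟨α, hα, hα1⟩ := refl_rel (n := p ^ (k + 1) * d) (by omega) u
      have h3 := (hup _ hα).mul (hPal _ h2).inv
      rw [← hα1, mul_comm (gv (-u)), mul_inv_cancel_right₀ (gv_ne (by omega) _)] at h3
      exact h3
  rintro x (rfl | ⟨a, ha1, ha2, hac, rfl⟩)
  · exact hmem _ (by rw [hT]; exact mem_insert_self _ _)
  · have h1 := hall (ZMod.unitOfCoprime a hac)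
    unfold gv at h1
    rw [ZMod.coe_unitOfCoprime, ZMod.val_natCast, Nat.mod_eq_of_lt (by omega)] at h1
    exact h1

end

end Pool.Agent.Q95.LR
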