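import Pool.Agent.Q95.LR2

/-!
# When the primitive fractions suffice

If for every prime `p ∣ q` with `d = q / p ^ v > 2` some power of `p` is `-1` modulo `d`, then all
`Γ(a/q)` are algebraic over the field generated by `π` and the `Γ(a/q)` with `a` prime to `q`.
-/

set_option autoImplicit false

namespace Pool.Agent.Q95.LR

open Complex IntermediateField Finset

/-- all values at the primitive fractions of denominator `e` are algebraic over `K` -/
def BB (K : IntermediateField ℚ ℂ) (e : ℕ) : Prop :=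
  ∀ b : ℕ, 0 < b → b < e → Nat.Coprime b e → IsAlgebraic K (Gamma ((b : ℂ) / (e : ℂ)))

theorem up {K : IntermediateField ℚ ℂ} (hK : Kp ≤ K) {x : ℂ} (hx : IsAlgebraic Kp x) :
    IsAlgebraic K x := by
  let _ : Algebra Kp K := (inclusion hK).toRingHom.toAlgebra
  have : IsScalarTower Kp K ℂ := IsScalarTower.of_algebraMap_eq fun _ => rfl
  exact hx.extendScalars (inclusion hK).injective

theorem BB_of_dvd {K : IntermediateField ℚ ℂ} (hK : Kp ≤ K) {p e : ℕ} (hp : p.Prime)
    (hpe : p ∣ e) (h : BB K (p * e)) : BB K e := by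
  intro b hb0 hbe hbc
  obtain ⟨α, hα0, hα, hα1⟩ := mult_res (m := p) (d := e) (b := b) hp.pos hb0 hbe
  have h1 : IsAlgebraic K (∏ a ∈ Ares (p * e) e b, Gamma ((a : ℂ) / ((p * e : ℕ) : ℂ))) := by
    refine prod_al _ _ fun a ha => ?_
    simp only [Ares, mem_filter, mem_range] at ha
    have hae : Nat.Coprime a e := by
      rw [Nat.Coprime, Nat.gcd_comm, Nat.gcd_rec, ha.2]
      exact hbc
    have hap : Nat.Coprime a p := Nat.Coprime.coprime_dvd_right hpe hae
    refine h a ?_ ha.1 (Nat.Coprime.mul_right hap hae)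
    rcases Nat.eq_zero_or_pos a with h0 | h0
    · rw [h0, Nat.zero_mod] at ha
      omega
    · exact h0
  rw [hα1] at h1
  have h2 := h1.mul (up hK hα).inv
  have h3 : α * Gamma ((b : ℂ) / (e : ℂ)) * α⁻¹ = Gamma ((b : ℂ) / (e : ℂ)) := by
    field_simp
  rwa [h3] at h2

theorem BB_of_not_dvd {K : IntermediateField ℚ ℂ} (hK : Kp ≤ K) {p e : ℕ} (hp : p.Prime)
    (hpe : ¬ p ∣ e) (he : 2 < e) {j : ℕ} (hj : e ∣ p ^ j + 1) (h : BB K (p * e)) : BB K e := by
  have : NeZero e := ⟨by omega⟩
  have hup : ∀ v : (ZMod e)ˣ, IsAlgebraic K (gv v / gv ((pu hp hpe)⁻¹ * v)) := by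
    intro v
    have hbb : (p * (((pu hp hpe)⁻¹ * v : (ZMod e)ˣ) : ZMod e).val) % e = (v : ZMod e).val := by
      have h1 : (v : ZMod e) = (p : ZMod e) * (((pu hp hpe)⁻¹ * v : (ZMod e)ˣ) : ZMod e) := by
        have h2 : ((pu hp hpe : (ZMod e)ˣ) : ZMod e) = p := ZMod.coe_unitOfCoprime _ _
        rw [← h2, ← Units.val_mul, mul_inv_cancel_left]
      have h3 : ((v : (ZMod e)ˣ) : ZMod e).val =
          ((p * (((pu hp hpe)⁻¹ * v : (ZMod e)ˣ) : ZMod e).val : ℕ) : ZMod e).val := by
        congr 1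
        rw [Nat.cast_mul, ZMod.natCast_zmod_val, ← h1]
      rw [ZMod.val_natCast] at h3
      exact h3.symm
    obtain ⟨α, hα0, hα, hα1⟩ := prim_res (k := 0) hp hpe (val_pos (by omega) v) (ZMod.val_lt _)
      (val_pos (by omega) ((pu hp hpe)⁻¹ * v)) (ZMod.val_lt _) hbb
    rw [show p ^ (0 + 1) = p by ring] at hα1
    have h1 : IsAlgebraic K (∏ a ∈ (Ares (p * e) e (v : ZMod e).val).filter (fun a => ¬ p ∣ a),
        Gamma ((a : ℂ) / ((p * e : ℕ) : ℂ))) := by
      refine prod_al _ _ fun a ha => ?_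
      simp only [Ares, mem_filter, mem_range] at ha
      have hae : Nat.Coprime a e := by
        rw [Nat.Coprime, Nat.gcd_comm, Nat.gcd_rec, ha.1.2]
        exact ZMod.val_coe_unit_coprime v
      have hap : Nat.Coprime a p := ((Nat.Prime.coprime_iff_not_dvd hp).2 ha.2).symm
      refine h a ?_ ha.1.1 (Nat.Coprime.mul_right hap hae)
      rcases Nat.eq_zero_or_pos a with h0 | h0
      · rw [h0] at ha
        exact absurd (dvd_zero p) ha.2
      · exact h0
    have h2 := h1.mul (up hK hα).inv
    have h3 : gv v / gv ((pu hp hpe)⁻¹ * v) = (∏ a ∈ (Ares (p * e) e (v : ZMod e).val).filter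
        (fun a => ¬ p ∣ a), Gamma ((a : ℂ) / ((p * e : ℕ) : ℂ))) * α⁻¹ := by
      have h4 : gv ((pu hp hpe)⁻¹ * v) ≠ 0 := gv_ne (by omega) _
      rw [div_eq_iff h4, mul_right_comm]
      unfold gv
      rw [hα1]
      field_simp
    rw [h3]
    exact h2
  have hpow : ∀ (i : ℕ) (v : (ZMod e)ˣ), IsAlgebraic K (gv v / gv (((pu hp hpe)⁻¹) ^ i * v)) := by
    intro i
    induction i with
    | zero =>
      intro v
      rw [pow_zero, one_mul, div_self (gv_ne (by omega) v)]
      exact isAlgebraic_one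
    | succ i ih =>
      intro v
      have h1 := (ih v).mul (hup (((pu hp hpe)⁻¹) ^ i * v))
      rw [div_mul_div_cancel₀ (gv_ne (by omega) _), ← mul_assoc, ← pow_succ'] at h1
      exact h1
  have hm1 : ((pu hp hpe)⁻¹) ^ j = -1 := by
    rw [inv_pow]
    have h1 : (pu hp hpe) ^ j = -1 := by
      apply Units.ext
      rw [Units.val_pow_eq_pow_val, Units.val_neg, Units.val_one]
      have h2 : ((pu hp hpe : (ZMod e)ˣ) : ZMod e) = p := ZMod.coe_unitOfCoprime _ _
      rw [h2]
      have h5 : ((p ^ j + 1 : ℕ) : ZMod e) = 0 := (ZMod.natCast_eq_zero_iff _ _).2 hj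
      push_cast at h5
      exact eq_neg_of_add_eq_zero_left h5
    rw [h1]
    apply inv_eq_of_mul_eq_one_right
    rw [neg_mul_neg, one_mul]
  intro b hb0 hbe hbc
  set v : (ZMod e)ˣ := ZMod.unitOfCoprime b hbc with hv
  have hgv : gv v = Gamma ((b : ℂ) / (e : ℂ)) := by
    unfold gv
    rw [hv, ZMod.coe_unitOfCoprime, ZMod.val_natCast, Nat.mod_eq_of_lt hbe]
  have h1 := hpow j v
  rw [hm1, neg_mul, one_mul] at h1
  obtain ⟨α, hα, hα1⟩ := refl_rel (n := e) (by omega) v
  have h2 := h1.mul (up hK hα)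
  rw [← hα1, div_mul_eq_mul_div, mul_comm (gv (-v)), ← mul_assoc,
    mul_div_cancel_right₀ _ (gv_ne (by omega) (-v)), ← sq, hgv] at h2
  exact h2.of_pow (by norm_num)

theorem BB_small {K : IntermediateField ℚ ℂ} (hK : Kp ≤ K) {e : ℕ} (he : e ≤ 2) : BB K e := by
  intro b hb0 hbe _
  have hb : b = 1 := by omega
  have he2 : e = 2 := by omega
  subst hb he2
  have h1 : IsAlgebraic Kp (Gamma (((1 : ℕ) : ℂ) / ((2 : ℕ) : ℂ))) := by
    have h2 : Gamma (((1 : ℕ) : ℂ) / ((2 : ℕ) : ℂ)) ^ 2 = Real.pi := by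
      push_cast
      rw [Complex.Gamma_one_half_eq, ← Complex.cpow_nat_mul]
      norm_num
    apply IsAlgebraic.of_pow (n := 2) (by norm_num)
    rw [h2]
    exact pi_mem
  exact up hK h1

/-- the condition on `q` -/
def Good (q : ℕ) : Prop :=
  ∀ p : ℕ, p.Prime → p ∣ q → 2 < q / p ^ q.factorization p →
    ∃ j : ℕ, q / p ^ q.factorization p ∣ p ^ j + 1

theorem BB_all {K : IntermediateField ℚ ℂ} (hK : Kp ≤ K) {q : ℕ} (hq : 0 < q) (hg : Good q)
    (h : BB K q) : ∀ n e : ℕ, 0 < n → n * e = q → BB K e := by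
  intro n
  induction n using Nat.strong_induction_on with
  | _ n ih =>
    intro e hn hne
    rcases Nat.lt_or_ge 1 n with h1 | h1
    · obtain ⟨p, hp, hpn⟩ := Nat.exists_prime_and_dvd (n := n) (by omega)
      obtain ⟨m, rfl⟩ := hpn
      have hm : 0 < m := Nat.pos_of_mul_pos_left hn
      have h2 : BB K (p * e) := ih m (by nlinarith [hp.two_le]) (p * e) hm (by rw [← hne]; ring)
      by_cases hpe : p ∣ e
      · exact BB_of_dvd hK hp hpe h2
      · rcases Nat.lt_or_ge 2 e with h3 | h3
        · have h4 : e ∣ q / p ^ q.factorization p := by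
            have h5 : p ^ q.factorization p * (q / p ^ q.factorization p) = q :=
              Nat.ordProj_mul_ordCompl_eq_self q p
            have h6 : e ∣ p ^ q.factorization p * (q / p ^ q.factorization p) := by
              rw [h5, ← hne]
              exact dvd_mul_left _ _
            exact (Nat.Coprime.pow_right _
              ((Nat.Prime.coprime_iff_not_dvd hp).2 hpe).symm).dvd_of_dvd_mul_left h6
          have hpos : 0 < q / p ^ q.factorization p := Nat.pos_of_ne_zero (by
            intro h7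
            have h5 : p ^ q.factorization p * (q / p ^ q.factorization p) = q :=
              Nat.ordProj_mul_ordCompl_eq_self q p
            rw [h7, mul_zero] at h5
            omega)
          obtain ⟨j, hj⟩ := hg p hp (by rw [← hne, mul_assoc]; exact dvd_mul_right _ _)
            (h3.trans_le (Nat.le_of_dvd hpos h4))
          exact BB_of_not_dvd hK hp hpe h3 (h4.trans hj) h2
        · exact BB_small hK h3
    · have hn1 : n = 1 := by omega
      rw [hn1, one_mul] at hne
      rw [hne]
      exact h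

/-- the field generated by `π` and all `Γ(a/q)` -/
noncomputable def fullField (q : ℕ) : IntermediateField ℚ ℂ :=
  adjoin ℚ ({(Real.pi : ℂ)} ∪ {x | ∃ a : ℕ, 1 ≤ a ∧ a ≤ q - 1 ∧ x = Gamma (a / q)})

theorem gamma_le_full (q : ℕ) : gammaField q ≤ fullField q := by
  refine adjoin.mono ℚ _ _ ?_
  rintro x (rfl | ⟨a, h1, h2, -, rfl⟩)
  · exact Or.inl rfl
  · exact Or.inr ⟨a, h1, h2, rfl⟩

theorem full_alg {q : ℕ} (hq : 2 < q) (hg : Good q) : ∀ x ∈ fullField q,
    IsAlgebraic (gammaField q) x := by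
  have hK : Kp ≤ gammaField q := by
    rw [adjoin_le_iff]
    rintro x rfl
    exact subset_adjoin ℚ _ (Or.inl rfl)
  have hB : BB (gammaField q) q := by
    intro b h1 h2 h3
    exact isAlgebraic_algebraMap (R := gammaField q) (A := ℂ)
      ⟨_, subset_adjoin ℚ _ (Or.inr ⟨b, h1, by omega, h3, rfl⟩)⟩
  have h1 : fullField q ≤ (algebraicClosure (gammaField q) ℂ).restrictScalars ℚ := by
    rw [fullField, adjoin_le_iff]
    rintro x (rfl | ⟨a, h1, h2, rfl⟩)
    · exact mem_algebraicClosure_iff.2 (up hK pi_mem)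
    · refine mem_algebraicClosure_iff.2 ?_
      -- lowest terms
      set g := Nat.gcd a q with hgd
      have hg0 : 0 < g := Nat.gcd_pos_of_pos_right _ (by omega)
      obtain ⟨b, hb⟩ := Nat.gcd_dvd_left a q
      obtain ⟨e, he⟩ := Nat.gcd_dvd_right a q
      rw [← hgd] at hb he
      have hb0 : 0 < b := by
        rcases Nat.eq_zero_or_pos b with h3 | h3
        · rw [h3, mul_zero] at hb
          omega
        · exact h3
      have hbe : b < e := by
        have h3 : g * b < g * e := by rw [← hb, ← he]; omega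
        exact Nat.lt_of_mul_lt_mul_left h3
      have hcop : Nat.Coprime b e := by
        have h3 : Nat.gcd (g * b) (g * e) = g := by rw [← hb, ← he]
        rw [Nat.gcd_mul_left] at h3
        exact Nat.eq_of_mul_eq_mul_left hg0 (by rw [h3, mul_one])
      have h4 := BB_all hK (by omega) hg hB g e hg0 he.symm b hb0 hbe hcop
      have h5 : (a : ℂ) / (q : ℂ) = (b : ℂ) / (e : ℂ) := by
        have hgc : (g : ℂ) ≠ 0 := by exact_mod_cast hg0.ne'
        rw [hb, he]
        push_cast
        rw [mul_div_mul_left _ _ hgc]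
      rw [h5]
      exact h4
  intro x hx
  exact mem_algebraicClosure_iff.1 (h1 hx)

theorem trdeg_eq {q : ℕ} (hq : 2 < q) (hg : Good q) :
    Algebra.trdeg ℚ (gammaField q) = Algebra.trdeg ℚ (fullField q) := by
  have hle := gamma_le_full q
  let _ : Algebra (gammaField q) (fullField q) := (inclusion hle).toRingHom.toAlgebra
  have ht : IsScalarTower ℚ (gammaField q) (fullField q) :=
    IsScalarTower.of_algebraMap_eq fun _ => rfl
  have ht2 : IsScalarTower (gammaField q) (fullField q) ℂ :=
    IsScalarTower.of_algebraMap_eq fun _ => rfl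
  have halg : Algebra.IsAlgebraic (gammaField q) (fullField q) := ⟨fun x => by
    have h1 := full_alg hq hg x x.2
    exact (isAlgebraic_algebraMap_iff (R := gammaField q) (S := fullField q) (A := ℂ)
      (algebraMap (fullField q) ℂ).injective).1 h1⟩
  have h := trdeg_add_eq ℚ (gammaField q) (A := fullField q)
  rw [trdeg_eq_zero (R := gammaField q) (A := fullField q), add_zero] at h
  exact h

end Pool.Agent.Q95.LR
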