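import Pool.Agent.Q252.EN.Sharp

/-!
# Near relations between `1` and two real numbers: the general form

`LL x y v = v₀ + v₁ x + v₂ y`. The hypothesis `MM w c x y` is a measure of simultaneous
approximation of exponent `w` of the point `(x, y)`; all constants depend on `w` and `c` only.
-/

set_option autoImplicit false

namespace Pool.Agent.Q95.NR

open Real Pool.Agent.Q252.EN

/-- The linear form `v₀ + v₁ x + v₂ y`. -/
noncomputable def LL (x y : ℝ) (v : Fin 3 → ℤ) : ℝ := v 0 + v 1 * x + v 2 * y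

/-- size of the vector product with `(1, x, y)` -/
noncomputable def SS (x y : ℝ) (n : Fin 3 → ℤ) : ℝ :=
  |(n 0 : ℝ) * x - n 1| + |(n 2 : ℝ) - y * n 0|

/-- the measure of simultaneous approximation -/
def MM (w c x y : ℝ) : Prop :=
  ∀ n : Fin 3 → ℤ, n ≠ 0 → ∀ M : ℝ, 1 ≤ M → (∀ j, |(n j : ℝ)| ≤ M) → c * M ^ (-w) ≤ SS x y n

variable {x y : ℝ}

lemma SS_nonneg (n : Fin 3 → ℤ) : 0 ≤ SS x y n := by unfold SS; positivity

lemma SS_nr (u v : Fin 3 → ℤ) :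
    SS x y (nr u v) ≤ 2 * (ht v * |LL x y u| + ht u * |LL x y v|) := by
  have e1 : ((nr u v 0 : ℤ) : ℝ) * x - (nr u v 1 : ℤ) = v 2 * LL x y u - u 2 * LL x y v := by
    simp only [nr, LL, Matrix.cons_val_zero, Matrix.cons_val_one]
    push_cast
    ring
  have e2 : ((nr u v 2 : ℤ) : ℝ) - y * (nr u v 0 : ℤ) = v 1 * LL x y u - u 1 * LL x y v := by
    simp only [nr, LL, Matrix.cons_val_zero, Matrix.cons_val]
    push_cast
    ring
  have h1 : ∀ i : Fin 3, |(v i : ℝ) * LL x y u - u i * LL x y v| ≤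
      ht v * |LL x y u| + ht u * |LL x y v| := by
    intro i
    refine (abs_sub _ _).trans ?_
    rw [abs_mul, abs_mul]
    exact add_le_add (mul_le_mul_of_nonneg_right (abs_le_ht v i) (abs_nonneg _))
      (mul_le_mul_of_nonneg_right (abs_le_ht u i) (abs_nonneg _))
  unfold SS
  rw [e1, e2]
  linarith [h1 1, h1 2]

/-- the product inequality, first form -/
lemma core {w c : ℝ} (hm : MM w c x y) (u v : Fin 3 → ℤ) (h : nr u v ≠ 0) :
    c * (2 * (ht u * ht v : ℝ)) ^ (-w) ≤ 2 * (ht v * |LL x y u| + ht u * |LL x y v|) := by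
  obtain ⟨hu, hv⟩ := nr_ne h
  have hu1 : (1 : ℝ) ≤ ht u := by exact_mod_cast ht_pos hu
  have hv1 : (1 : ℝ) ≤ ht v := by exact_mod_cast ht_pos hv
  have hP : (1 : ℝ) ≤ ht u * ht v := by nlinarith
  exact (hm (nr u v) h (2 * (ht u * ht v)) (by linarith) (nr_le u v)).trans (SS_nr u v)

lemma LL_vec (u v : Fin 3 → ℤ) (h : nr u v = 0) (i : Fin 3) :
    (v i : ℝ) * LL x y u = u i * LL x y v := by
  have h0 := congrFun h 0
  have h1 := congrFun h 1
  have h2 := congrFun h 2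
  simp only [nr, Matrix.cons_val_zero, Matrix.cons_val_one, Matrix.cons_val, Pi.zero_apply]
    at h0 h1 h2
  have g0 : (u 1 : ℝ) * v 2 - u 2 * v 1 = 0 := by exact_mod_cast h0
  have g1 : (u 2 : ℝ) * v 0 - u 0 * v 2 = 0 := by exact_mod_cast h1
  have g2 : (u 0 : ℝ) * v 1 - u 1 * v 0 = 0 := by exact_mod_cast h2
  unfold LL
  fin_cases i
  · show (v 0 : ℝ) * _ = u 0 * _
    linear_combination y * g1 - x * g2
  · show (v 1 : ℝ) * _ = u 1 * _
    linear_combination g2 - y * g0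
  · show (v 2 : ℝ) * _ = u 2 * _
    linear_combination x * g0 - g1

/-- vectors of increasing height and strictly decreasing values are independent -/
lemma nr_ne_of_lt (u v : Fin 3 → ℤ) (hh : ht u < ht v) (hL : |LL x y v| < |LL x y u|) :
    nr u v ≠ 0 := by
  intro h
  have h0 : 0 < |LL x y u| := (abs_nonneg _).trans_lt hL
  obtain ⟨i, hi⟩ : ∃ i : Fin 3, (v i).natAbs = ht v := by
    unfold ht
    rcases le_total (v 0).natAbs (max (v 1).natAbs (v 2).natAbs) with h | h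
    · rcases le_total (v 1).natAbs (v 2).natAbs with h' | h'
      · exact ⟨2, by rw [max_eq_right h, max_eq_right h']⟩
      · exact ⟨1, by rw [max_eq_right h, max_eq_left h']⟩
    · exact ⟨0, by rw [max_eq_left h]⟩
  have h1 := LL_vec (x := x) (y := y) u v h i
  have h2 : |(v i : ℝ)| * |LL x y u| = |(u i : ℝ)| * |LL x y v| := by
    rw [← abs_mul, h1, abs_mul]
  have h3 : |(v i : ℝ)| = ht v := by
    rw [← hi, Nat.cast_natAbs]; simp
  have h4 := abs_le_ht u i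
  have h5 : (ht u : ℝ) < ht v := by exact_mod_cast hh
  rw [h3] at h2
  have h6 : |(u i : ℝ)| * |LL x y v| ≤ ht u * |LL x y u| :=
    mul_le_mul h4 hL.le (abs_nonneg _) (by positivity)
  nlinarith

lemma dt_eq (a b c : Fin 3 → ℤ) : (dt a b c : ℝ) =
    LL x y a * (b 1 * c 2 - b 2 * c 1) - LL x y b * (a 1 * c 2 - a 2 * c 1)
      + LL x y c * (a 1 * b 2 - a 2 * b 1) := by
  unfold dt LL
  push_cast
  ring

lemma dt_le (a b c : Fin 3 → ℤ) (hab : ht a ≤ ht b) (hbc : ht b ≤ ht c)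
    (h1 : |LL x y b| ≤ |LL x y a|) (h2 : |LL x y c| ≤ |LL x y b|) :
    |(dt a b c : ℝ)| ≤ 6 * (|LL x y a| * (ht b * ht c)) := by
  have hab' : (ht a : ℝ) ≤ ht b := by exact_mod_cast hab
  have hbc' : (ht b : ℝ) ≤ ht c := by exact_mod_cast hbc
  have h : ∀ (x y : Fin 3 → ℤ) (i k : Fin 3), |(x i : ℝ) * y k - x k * y i| ≤
      2 * (ht x * ht y) := by
    intro x y i k
    refine (abs_sub _ _).trans ?_
    rw [abs_mul, abs_mul]
    have h1 := mul_le_mul (abs_le_ht x i) (abs_le_ht y k) (abs_nonneg _) (by positivity)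
    have h2 := mul_le_mul (abs_le_ht x k) (abs_le_ht y i) (abs_nonneg _) (by positivity)
    linarith
  rw [dt_eq (x := x) (y := y)]
  have e1 := mul_le_mul_of_nonneg_left (h b c 1 2) (abs_nonneg (LL x y a))
  have e2 : |LL x y b| * |(a 1 : ℝ) * c 2 - a 2 * c 1| ≤ |LL x y a| * (2 * (ht b * ht c)) := by
    refine mul_le_mul h1 ((h a c 1 2).trans ?_) (abs_nonneg _) (abs_nonneg _)
    have := mul_le_mul_of_nonneg_right hab' (Nat.cast_nonneg (α := ℝ) (ht c))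
    linarith
  have e3 : |LL x y c| * |(a 1 : ℝ) * b 2 - a 2 * b 1| ≤ |LL x y a| * (2 * (ht b * ht c)) := by
    refine mul_le_mul (h2.trans h1) ((h a b 1 2).trans ?_) (abs_nonneg _) (abs_nonneg _)
    have h3 := mul_le_mul hab' hbc' (by positivity) (by positivity)
    linarith
  rw [← abs_mul] at e1 e2 e3
  have f1 := abs_sub (LL x y a * ((b 1 : ℝ) * c 2 - b 2 * c 1))
    (LL x y b * ((a 1 : ℝ) * c 2 - a 2 * c 1))
  have f2 := abs_add_le (LL x y a * ((b 1 : ℝ) * c 2 - b 2 * c 1) -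
    LL x y b * ((a 1 : ℝ) * c 2 - a 2 * c 1)) (LL x y c * ((a 1 : ℝ) * b 2 - a 2 * b 1))
  linarith

lemma SS_par {n m : Fin 3 → ℤ} (h : Par n m) (hn : n ≠ 0) (hm : m ≠ 0) (M : ℝ)
    (hM : ∀ j, |(m j : ℝ)| ≤ M) : SS x y m ≤ M * SS x y n := by
  obtain ⟨s, hs⟩ : ∃ s, m s ≠ 0 := by
    by_contra h
    push Not at h
    exact hm (funext h)
  have hns : n s ≠ 0 := by
    intro h0
    apply hn
    funext i
    have := h i s
    rw [h0, zero_mul] at this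
    rcases mul_eq_zero.1 this with h1 | h1
    · exact h1
    · exact absurd h1 hs
  have h1 : ∀ i, (m s : ℝ) * n i = n s * m i := fun i => by
    have := h i s
    have h2 : (n i : ℝ) * m s = n s * m i := by exact_mod_cast this
    linarith
  have h2 : |(m s : ℝ)| * SS x y n = |(n s : ℝ)| * SS x y m := by
    unfold SS
    rw [mul_add, mul_add, ← abs_mul, ← abs_mul, ← abs_mul, ← abs_mul]
    congr 2
    · have a := h1 0
      have b := h1 1
      linear_combination x * a - b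
    · have a := h1 0
      have b := h1 2
      linear_combination b - y * a
  have h3 : (1 : ℝ) ≤ |(n s : ℝ)| := by exact_mod_cast Int.one_le_abs hns
  have h4 := SS_nonneg (x := x) (y := y) m
  have h5 := SS_nonneg (x := x) (y := y) n
  calc SS x y m ≤ |(n s : ℝ)| * SS x y m := by nlinarith
    _ = |(m s : ℝ)| * SS x y n := h2.symm
    _ ≤ M * SS x y n := mul_le_mul_of_nonneg_right (hM s) h5

/-! ### minimal points -/

/-- `b` is a minimal point at level `N` -/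
def Mn (x y : ℝ) (N : ℕ) (b : Fin 3 → ℤ) : Prop :=
  b ≠ 0 ∧ ht b ≤ N ∧ ∀ w : Fin 3 → ℤ, w ≠ 0 → ht w ≤ N → |LL x y b| ≤ |LL x y w|

lemma exists_Mn (x y : ℝ) {N : ℕ} (hN : 1 ≤ N) : ∃ b, Mn x y N b := by
  have hf : {v : Fin 3 → ℤ | v ≠ 0 ∧ ht v ≤ N}.Finite :=
    (fin_ball N).subset fun v hv => hv.2
  have hne : {v : Fin 3 → ℤ | v ≠ 0 ∧ ht v ≤ N}.Nonempty := by
    refine ⟨![1, 0, 0], ?_, ?_⟩
    · intro h
      have := congrFun h 0
      simp at this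
    · simpa [ht] using hN
  obtain ⟨b, hb, hmin⟩ := Set.exists_min_image _ (fun v => |LL x y v|) hf hne
  exact ⟨b, hb.1, hb.2, fun w hw hwN => hmin w ⟨hw, hwN⟩⟩

/-- consecutive minimal points -/
lemma consec {w c : ℝ} (γ : ℝ) (hc : 0 < c) :
    ∃ C1 : ℝ, 1 ≤ C1 ∧ ∀ (x y : ℝ), MM w c x y → ∀ (a b : Fin 3 → ℤ), nr a b ≠ 0 →
      ht a ≤ ht b → |LL x y b| ≤ |LL x y a| → |LL x y a| ≤ 2 ^ γ * (ht b : ℝ) ^ (-γ) →
      (ht b : ℝ) ^ (γ - 1 - w) ≤ C1 * (ht a : ℝ) ^ w := by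
  refine ⟨max 1 (4 * 2 ^ γ * 2 ^ w / c), le_max_left _ _, fun x y hm a b hn hab hL hLa => ?_⟩
  obtain ⟨ha0, hb0⟩ := nr_ne hn
  have ha1 : (1 : ℝ) ≤ ht a := by exact_mod_cast ht_pos ha0
  have hb1 : (1 : ℝ) ≤ ht b := by exact_mod_cast ht_pos hb0
  have hab' : (ht a : ℝ) ≤ ht b := by exact_mod_cast hab
  have hcore := core hm a b hn
  obtain ⟨p, hp⟩ : ∃ x : ℝ, x = ht a := ⟨_, rfl⟩
  obtain ⟨q, hq⟩ : ∃ y : ℝ, y = ht b := ⟨_, rfl⟩
  rw [← hp, ← hq] at hcore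
  rw [← hp] at ha1 hab' ⊢
  rw [← hq] at hb1 hab' hLa ⊢
  have hp0 : 0 < p := by linarith
  have hq0 : 0 < q := by linarith
  have h1 : 2 * (q * |LL x y a| + p * |LL x y b|) ≤ 4 * 2 ^ γ * (q * q ^ (-γ)) := by
    have h2 : p * |LL x y b| ≤ q * |LL x y a| :=
      mul_le_mul hab' hL (abs_nonneg _) (by linarith)
    have h3 : q * |LL x y a| ≤ q * (2 ^ γ * q ^ (-γ)) := mul_le_mul_of_nonneg_left hLa (by linarith)
    linarith
  have h2 := hcore.trans h1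
  -- multiply by `(2 p q) ^ w q ^ (γ - 1 - w)`
  have e1 : (2 * (p * q)) ^ (-w) = (2 ^ w)⁻¹ * (p ^ w)⁻¹ * (q ^ w)⁻¹ := by
    rw [rpow_neg (by positivity), mul_rpow (by norm_num) (by positivity),
      mul_rpow hp0.le hq0.le, mul_inv, mul_inv, mul_assoc]
  have e2 : q * q ^ (-γ) = (q ^ w)⁻¹ * (q ^ (γ - 1 - w))⁻¹ := by
    rw [← rpow_neg hq0.le, ← rpow_neg hq0.le, ← rpow_add hq0]
    nth_rw 1 [← rpow_one q]
    rw [← rpow_add hq0]
    congr 1
    ring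
  rw [e1, e2] at h2
  have hpw : 0 < p ^ w := rpow_pos_of_pos hp0 _
  have hqw : 0 < q ^ w := rpow_pos_of_pos hq0 _
  have hqg : 0 < q ^ (γ - 1 - w) := rpow_pos_of_pos hq0 _
  have h2w : (0 : ℝ) < 2 ^ w := by positivity
  have h3 : c * q ^ (γ - 1 - w) ≤ 4 * 2 ^ γ * 2 ^ w * p ^ w := by
    have h4 := mul_le_mul_of_nonneg_right h2
      (by positivity : 0 ≤ 2 ^ w * p ^ w * q ^ w * q ^ (γ - 1 - w))
    have e3 : c * ((2 ^ w)⁻¹ * (p ^ w)⁻¹ * (q ^ w)⁻¹) * (2 ^ w * p ^ w * q ^ w * q ^ (γ - 1 - w)) =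
        c * q ^ (γ - 1 - w) := by
      field_simp
    have e4 : 4 * 2 ^ γ * ((q ^ w)⁻¹ * (q ^ (γ - 1 - w))⁻¹) *
        (2 ^ w * p ^ w * q ^ w * q ^ (γ - 1 - w)) = 4 * 2 ^ γ * 2 ^ w * p ^ w := by
      field_simp
    rw [e3, e4] at h4
    exact h4
  calc q ^ (γ - 1 - w) = (c * q ^ (γ - 1 - w)) / c := by field_simp
    _ ≤ (4 * 2 ^ γ * 2 ^ w * p ^ w) / c := div_le_div_of_nonneg_right h3 hc.le
    _ = (4 * 2 ^ γ * 2 ^ w / c) * p ^ w := by ring
    _ ≤ max 1 (4 * 2 ^ γ * 2 ^ w / c) * p ^ w :=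
      mul_le_mul_of_nonneg_right (le_max_right _ _) hpw.le

/-- three consecutive minimal points of large height are linearly dependent -/
lemma three {w c γ : ℝ} (hc : 0 < c) (hγ : w + 1 < γ)
    (hγw : w < (γ - 1) * (γ - 1 - w)) :
    ∃ Y0 : ℝ, ∀ (x y : ℝ), MM w c x y → ∀ (a b d : Fin 3 → ℤ), Y0 < ht b → ht a < ht b →
      ht b < ht d → |LL x y b| < |LL x y a| → |LL x y d| < |LL x y b| →
      |LL x y a| ≤ 2 ^ γ * (ht b : ℝ) ^ (-γ) → |LL x y b| ≤ 2 ^ γ * (ht d : ℝ) ^ (-γ) →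
      dt a b d = 0 := by
  obtain ⟨C1, hC1, hcon⟩ := consec (w := w) γ hc
  obtain ⟨β, hβ⟩ : ∃ β, β = γ - 1 - w := ⟨_, rfl⟩
  have hβ0 : 0 < β := by linarith
  obtain ⟨κ, hκ⟩ : ∃ κ, κ = (γ - 1) * β - w := ⟨_, rfl⟩
  have hκ0 : 0 < κ := by rw [hκ, hβ]; linarith
  obtain ⟨C2, hC2⟩ : ∃ C2 : ℝ, C2 = (6 * 2 ^ γ) ^ β * C1 := ⟨_, rfl⟩
  have hC20 : 0 < C2 := by rw [hC2]; positivity
  refine ⟨max 1 (C2 ^ (1 / κ)), fun x y hm a b d hY hab hbc hL1 hL2 h1 h2 => ?_⟩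
  by_contra hd
  have hb1 : 1 < (ht b : ℝ) := (le_max_left _ _).trans_lt hY
  have hbY : C2 ^ (1 / κ) < (ht b : ℝ) := (le_max_right _ _).trans_lt hY
  have hbc' : (ht b : ℝ) < ht d := by exact_mod_cast hbc
  have e1 : (1 : ℝ) ≤ |(dt a b d : ℝ)| := by exact_mod_cast Int.one_le_abs hd
  have e2 := dt_le (x := x) (y := y) a b d hab.le hbc.le hL1.le hL2.le
  have hnbc := nr_ne_of_lt b d hbc hL2
  have e3 := hcon x y hm b d hnbc hbc.le hL2.le h2
  rw [← hβ] at e3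
  obtain ⟨p, hp⟩ : ∃ y : ℝ, y = ht b := ⟨_, rfl⟩
  obtain ⟨z, hz⟩ : ∃ z : ℝ, z = ht d := ⟨_, rfl⟩
  rw [← hp] at hb1 hbY hbc' e2 e3 h1
  rw [← hz] at hbc' e2 e3 h2
  have hp0 : 0 < p := by linarith
  have hz0 : 0 < z := by linarith
  have e4 : p ^ (γ - 1) ≤ 6 * 2 ^ γ * z := by
    have g1 : 1 ≤ 6 * (2 ^ γ * p ^ (-γ) * (p * z)) := by
      refine (e1.trans e2).trans ?_
      have := mul_le_mul_of_nonneg_right h1 (by positivity : 0 ≤ p * z)
      linarith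
    have g2 : 6 * (2 ^ γ * p ^ (-γ) * (p * z)) = (6 * 2 ^ γ * z) * (p ^ (γ - 1))⁻¹ := by
      rw [← rpow_neg hp0.le, show -(γ - 1) = -γ + 1 by ring, rpow_add hp0, rpow_one]
      ring
    rw [g2] at g1
    have g3 : 0 < p ^ (γ - 1) := rpow_pos_of_pos hp0 _
    calc p ^ (γ - 1) = 1 * p ^ (γ - 1) := (one_mul _).symm
      _ ≤ (6 * 2 ^ γ * z) * (p ^ (γ - 1))⁻¹ * p ^ (γ - 1) :=
        mul_le_mul_of_nonneg_right g1 g3.le
      _ = _ := by field_simp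
  have e5 : (p ^ (γ - 1)) ^ β ≤ (6 * 2 ^ γ * z) ^ β :=
    rpow_le_rpow (by positivity) e4 hβ0.le
  rw [← rpow_mul hp0.le, mul_rpow (by positivity) hz0.le] at e5
  have e6 : p ^ ((γ - 1) * β) ≤ C2 * p ^ w := by
    rw [hC2]
    refine e5.trans ?_
    calc (6 * 2 ^ γ) ^ β * z ^ β ≤ (6 * 2 ^ γ) ^ β * (C1 * p ^ w) :=
          mul_le_mul_of_nonneg_left e3 (by positivity)
      _ = _ := by ring
  have e7 : p ^ κ ≤ C2 := by
    have g1 : p ^ ((γ - 1) * β) = p ^ κ * p ^ w := by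
      rw [show (γ - 1) * β = κ + w by rw [hκ]; ring, rpow_add hp0]
    rw [g1] at e6
    exact le_of_mul_le_mul_right e6 (rpow_pos_of_pos hp0 _)
  have e8 : C2 < p ^ κ := by
    calc C2 = (C2 ^ (1 / κ)) ^ κ := by
          rw [← rpow_mul hC20.le, one_div, inv_mul_cancel₀ hκ0.ne', rpow_one]
      _ < p ^ κ := rpow_lt_rpow (by positivity) hbY hκ0
  linarith

end Pool.Agent.Q95.NR
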