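import Pool.Agent.Q95.NR1

/-!
# Near relations at all scales of a window; criterion; counting
-/

set_option autoImplicit false

namespace Pool.Agent.Q95.NR

open Real Pool.Agent.Q252.EN

/-- **Near relations at all scales of a window come from one vector.** -/
theorem window {w c γ : ℝ} (hw : 0 ≤ w) (hc : 0 < c) (hγ : w + 1 < γ)
    (hγw : w < (γ - 1) * (γ - 1 - w)) :
    ∃ K : ℝ, 1 ≤ K ∧ ∀ x y : ℝ, MM w c x y → ∀ Y Z : ℝ, K ≤ Y → Y ≤ Z →
      (∀ X ∈ Set.Icc Y Z, ∃ v : Fin 3 → ℤ, v ≠ 0 ∧ (ht v : ℝ) ≤ X ∧ |LL x y v| ≤ X ^ (-γ)) →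
      ∃ v : Fin 3 → ℤ, v ≠ 0 ∧ (ht v : ℝ) ≤ Y ^ K ∧ |LL x y v| ≤ Z ^ (-γ) := by
  obtain ⟨C1, hC1, hcon⟩ := consec (w := w) γ hc
  obtain ⟨Y0, hthree⟩ := three hc hγ hγw
  obtain ⟨β, hβ⟩ : ∃ β, β = γ - 1 - w := ⟨_, rfl⟩
  have hβ0 : 0 < β := by linarith
  rw [← hβ] at hcon
  have hγ1 : 0 < γ - 1 := by linarith
  -- the final bound for the height
  obtain ⟨A0, hA0d⟩ : ∃ A : ℝ, A = 4 * 2 ^ γ * (4 * (C1 * 2 ^ w) ^ (1 / β)) ^ (w + 1) / c := ⟨_, rfl⟩
  have hA00 : 0 ≤ A0 := by rw [hA0d]; positivity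
  obtain ⟨A, hA⟩ : ∃ A : ℝ, A = A0 ^ (1 / (γ - 1)) := ⟨_, rfl⟩
  have hA0 : 0 ≤ A := by rw [hA]; positivity
  obtain ⟨κ, hκ⟩ : ∃ κ : ℝ, κ = (1 + w / β) * (w + 1) * (1 / (γ - 1)) := ⟨_, rfl⟩
  have hκ0 : 0 ≤ κ := by rw [hκ]; positivity
  refine ⟨max (max 2 Y0) (max A (κ + 1)) , le_trans (by norm_num)
    ((le_max_left 2 Y0).trans (le_max_left _ _)), fun x y hm Y Z hKY hYZ hyp => ?_⟩
  obtain ⟨K, hK⟩ : ∃ K, K = max (max 2 Y0) (max A (κ + 1)) := ⟨_, rfl⟩
  rw [← hK] at hKY ⊢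
  have hK2 : 2 ≤ K := by rw [hK]; exact (le_max_left 2 Y0).trans (le_max_left _ _)
  have hKY0 : Y0 ≤ K := by rw [hK]; exact (le_max_right 2 Y0).trans (le_max_left _ _)
  have hKA : A ≤ K := by rw [hK]; exact (le_max_left _ _).trans (le_max_right _ _)
  have hKκ : κ + 1 ≤ K := by rw [hK]; exact (le_max_right _ _).trans (le_max_right _ _)
  have hY2 : 2 ≤ Y := hK2.trans hKY
  have hYK : Y + 1 ≤ Y ^ K := by
    calc Y + 1 ≤ Y ^ (2 : ℝ) := by rw [rpow_two]; nlinarith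
      _ ≤ Y ^ K := rpow_le_rpow_of_exponent_le (by linarith) hK2
  obtain ⟨M, hM⟩ : ∃ M : ℕ, M = ⌈Y⌉₊ := ⟨_, rfl⟩
  have hMY : Y ≤ M := by rw [hM]; exact Nat.le_ceil Y
  have hMY1 : (M : ℝ) < Y + 1 := by rw [hM]; exact Nat.ceil_lt_add_one (by linarith)
  have hM2 : (2 : ℝ) ≤ M := hY2.trans hMY
  have hM0 : (0 : ℝ) < M := by linarith
  have hM1 : 1 ≤ M := by
    have : (1 : ℝ) ≤ M := by linarith
    exact_mod_cast this
  obtain ⟨E, hE⟩ : ∃ E : ℕ, E = ⌊Z⌋₊ := ⟨_, rfl⟩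
  have hEZ : (E : ℝ) ≤ Z := by rw [hE]; exact Nat.floor_le (by linarith)
  have hEZ1 : Z < E + 1 := by rw [hE]; exact Nat.lt_floor_add_one Z
  -- short windows
  rcases Nat.lt_or_ge E M with hEM | hEM
  · obtain ⟨v, hv0, hv1, hv2⟩ := hyp Z ⟨hYZ, le_refl _⟩
    refine ⟨v, hv0, hv1.trans (le_trans ?_ hYK), hv2⟩
    have : ((E + 1 : ℕ) : ℝ) ≤ M := by exact_mod_cast hEM
    push_cast at this
    linarith
  -- minimal points are near relations
  have hmin : ∀ N : ℕ, M ≤ N → N ≤ E → ∀ b, Mn x y N b → |LL x y b| ≤ (N : ℝ) ^ (-γ) := by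
    intro N h1 h2 b hb
    have h1' : (M : ℝ) ≤ N := by exact_mod_cast h1
    have h2' : (N : ℝ) ≤ E := by exact_mod_cast h2
    obtain ⟨v, hv0, hv1, hv2⟩ := hyp N ⟨by linarith, by linarith⟩
    exact (hb.2.2 v hv0 (by exact_mod_cast hv1)).trans hv2
  have hMw : (0 : ℝ) < (M : ℝ) ^ w := rpow_pos_of_pos hM0 _
  have hMw1 : (1 : ℝ) ≤ (M : ℝ) ^ w := one_le_rpow (by linarith) hw
  obtain ⟨P, hP⟩ : ∃ P : ℝ, P = M * (C1 * M ^ w) ^ (1 / β) := ⟨_, rfl⟩
  have hP1 : 1 ≤ P := by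
    rw [hP]
    have : (1 : ℝ) ≤ (C1 * (M : ℝ) ^ w) ^ (1 / β) := one_le_rpow (by nlinarith) (by positivity)
    nlinarith
  obtain ⟨σ, hσ⟩ : ∃ σ : ℝ, σ = c * (2 * P) ^ (-(w + 1)) := ⟨_, rfl⟩
  have hσ0 : 0 < σ := by rw [hσ]; positivity
  -- the induction
  have key : ∀ N : ℕ, M ≤ N → N ≤ E → (∃ b, Mn x y N b ∧ ht b ≤ M) ∨
      (∃ a b, Mn x y N b ∧ M < ht b ∧ ht a < ht b ∧ |LL x y b| < |LL x y a| ∧
        |LL x y a| ≤ 2 ^ γ * (ht b : ℝ) ^ (-γ) ∧
        ∀ n, n ≠ 0 → Par n (nr a b) → σ ≤ SS x y n) := by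
    intro N hMN
    induction N, hMN using Nat.le_induction with
    | base =>
      intro _
      obtain ⟨b, hb⟩ := exists_Mn x y hM1
      exact Or.inl ⟨b, hb, hb.2.1⟩
    | succ N hMN ih =>
      intro hNE
      have hN1 : 1 ≤ N := hM1.trans hMN
      rcases ih (by omega) with ⟨b, hb, hbM⟩ | ⟨a, b, hb, hMb, hab, hL, hLa, hpar⟩
      · by_cases hj : ∀ w : Fin 3 → ℤ, w ≠ 0 → ht w ≤ N + 1 → |LL x y b| ≤ |LL x y w|
        · exact Or.inl ⟨b, ⟨hb.1, by have := hb.2.1; omega, hj⟩, hbM⟩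
        · push Not at hj
          obtain ⟨w', hw0, hw1, hw2⟩ := hj
          obtain ⟨d, hd⟩ := exists_Mn x y (N := N + 1) (by omega)
          have hcb : |LL x y d| < |LL x y b| := (hd.2.2 w' hw0 hw1).trans_lt hw2
          have hcN : ht d = N + 1 := by
            by_contra h
            have h1 := hd.2.1
            have h2 := hb.2.2 d hd.1 (by omega)
            linarith
          have hbc : ht b < ht d := by have := hb.2.1; omega
          have hLb : |LL x y b| ≤ 2 ^ γ * (ht d : ℝ) ^ (-γ) := by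
            rw [hcN]
            exact step_bound γ (by linarith) _ N hN1 (hmin N hMN (by omega) b hb)
          refine Or.inr ⟨b, d, hd, by omega, hbc, hcb, hLb, fun n hn hpar => ?_⟩
          have hne := nr_ne_of_lt b d hbc hcb
          have h1 := hcon x y hm b d hne hbc.le hcb.le hLb
          have hbM' : (ht b : ℝ) ≤ M := by exact_mod_cast hbM
          have hc0 : (0 : ℝ) < ht d := by
            have := ht_pos hd.1
            exact_mod_cast this
          have h2 : (ht d : ℝ) ≤ (C1 * (M : ℝ) ^ w) ^ (1 / β) := by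
            calc (ht d : ℝ) = ((ht d : ℝ) ^ β) ^ (1 / β) := by
                  rw [← rpow_mul hc0.le, mul_one_div_cancel hβ0.ne', rpow_one]
              _ ≤ (C1 * (M : ℝ) ^ w) ^ (1 / β) := by
                  refine rpow_le_rpow (by positivity) (h1.trans ?_) (by positivity)
                  exact mul_le_mul_of_nonneg_left (rpow_le_rpow (by positivity) hbM' hw)
                    (by linarith)
          have h3 : (ht b * ht d : ℝ) ≤ P := by
            rw [hP]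
            exact mul_le_mul hbM' h2 hc0.le (by linarith)
          have h4 : ∀ j, |((nr b d j : ℤ) : ℝ)| ≤ 2 * P := fun j =>
            (nr_le b d j).trans (by linarith)
          have h5 := hm (nr b d) hne (2 * P) (by linarith) h4
          have h6 := SS_par (x := x) (y := y) hpar hn hne (2 * P) h4
          have h10 := h5.trans h6
          have h11 : 2 * P * σ = c * (2 * P) ^ (-w) := by
            have hP2 : 0 < 2 * P := by linarith
            rw [hσ, show -w = -(w + 1) + 1 by ring, rpow_add hP2, rpow_one]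
            ring
          rw [← h11] at h10
          exact le_of_mul_le_mul_left h10 (by linarith)
      · by_cases hj : ∀ w : Fin 3 → ℤ, w ≠ 0 → ht w ≤ N + 1 → |LL x y b| ≤ |LL x y w|
        · exact Or.inr ⟨a, b, ⟨hb.1, by have := hb.2.1; omega, hj⟩, hMb, hab, hL, hLa, hpar⟩
        · push Not at hj
          obtain ⟨w', hw0, hw1, hw2⟩ := hj
          obtain ⟨d, hd⟩ := exists_Mn x y (N := N + 1) (by omega)
          have hcb : |LL x y d| < |LL x y b| := (hd.2.2 w' hw0 hw1).trans_lt hw2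
          have hcN : ht d = N + 1 := by
            by_contra h
            have h1 := hd.2.1
            have h2 := hb.2.2 d hd.1 (by omega)
            linarith
          have hbc : ht b < ht d := by have := hb.2.1; omega
          have hLb : |LL x y b| ≤ 2 ^ γ * (ht d : ℝ) ^ (-γ) := by
            rw [hcN]
            exact step_bound γ (by linarith) _ N hN1 (hmin N hMN (by omega) b hb)
          have hMb' : (M : ℝ) < ht b := by exact_mod_cast hMb
          have hdt := hthree x y hm a b d (by linarith) hab hbc hL hcb hLa hLb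
          refine Or.inr ⟨b, d, hd, by omega, hbc, hcb, hLb, fun n hn hp => ?_⟩
          exact hpar n hn (hp.trans (par_of_dt hdt) (nr_ne_of_lt b d hbc hcb))
  -- the end
  obtain ⟨v, hv0, hv1, hv2⟩ := hyp Z ⟨hYZ, le_refl _⟩
  have hvE : ht v ≤ E := by
    rw [hE]
    exact Nat.le_floor hv1
  rcases key E hEM le_rfl with ⟨b, hb, hbM⟩ | ⟨a, b, hb, hMb, hab, hL, hLa, hpar⟩
  · refine ⟨b, hb.1, ?_, (hb.2.2 v hv0 hvE).trans hv2⟩
    have : (ht b : ℝ) ≤ M := by exact_mod_cast hbM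
    linarith
  · refine ⟨b, hb.1, ?_, (hb.2.2 v hv0 hvE).trans hv2⟩
    have hne := nr_ne_of_lt a b hab hL
    have h1 := hpar (nr a b) hne (Par.refl _)
    have h2 := SS_nr (x := x) (y := y) a b
    have hab' : (ht a : ℝ) < ht b := by exact_mod_cast hab
    have hb1 : (1 : ℝ) ≤ ht b := by exact_mod_cast ht_pos hb.1
    obtain ⟨z, hz⟩ : ∃ y : ℝ, y = ht b := ⟨_, rfl⟩
    rw [← hz] at h2 hab' hb1 hLa ⊢
    have hz0 : 0 < z := by linarith
    have h3 : (ht a : ℝ) * |LL x y b| ≤ z * |LL x y a| :=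
      mul_le_mul hab'.le hL.le (abs_nonneg _) hz0.le
    have h4 : z * |LL x y a| ≤ 2 ^ γ * z ^ (-(γ - 1)) := by
      calc z * |LL x y a| ≤ z * (2 ^ γ * z ^ (-γ)) := mul_le_mul_of_nonneg_left hLa hz0.le
        _ = 2 ^ γ * z ^ (-(γ - 1)) := by
          rw [show -(γ - 1) = -γ + 1 by ring, rpow_add hz0, rpow_one]
          ring
    have h5 : σ ≤ 4 * 2 ^ γ * z ^ (-(γ - 1)) := by linarith
    have hP2 : 0 < 2 * P := by linarith
    have hPw : 0 < (2 * P) ^ (w + 1) := rpow_pos_of_pos hP2 _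
    have hg : 0 < z ^ (γ - 1) := rpow_pos_of_pos hz0 _
    rw [hσ, rpow_neg hz0.le, rpow_neg hP2.le] at h5
    have h6 : z ^ (γ - 1) ≤ 4 * 2 ^ γ * (2 * P) ^ (w + 1) / c := by
      rw [le_div_iff₀ hc]
      have h7 := mul_le_mul_of_nonneg_right h5
        (by positivity : 0 ≤ (2 * P) ^ (w + 1) * z ^ (γ - 1))
      have e1 : c * ((2 * P) ^ (w + 1))⁻¹ * ((2 * P) ^ (w + 1) * z ^ (γ - 1)) =
          z ^ (γ - 1) * c := by field_simp
      have e2 : 4 * 2 ^ γ * (z ^ (γ - 1))⁻¹ * ((2 * P) ^ (w + 1) * z ^ (γ - 1)) =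
          4 * 2 ^ γ * (2 * P) ^ (w + 1) := by field_simp
      rw [e1, e2] at h7
      exact h7
    have hM2Y : (M : ℝ) ≤ 2 * Y := by linarith
    have h7 : 2 * P ≤ 4 * (C1 * 2 ^ w) ^ (1 / β) * Y ^ (1 + w / β) := by
      rw [hP]
      calc 2 * ((M : ℝ) * (C1 * M ^ w) ^ (1 / β)) ≤
            2 * ((2 * Y) * (C1 * (2 * Y) ^ w) ^ (1 / β)) := by
            refine mul_le_mul_of_nonneg_left ?_ (by norm_num)
            refine mul_le_mul hM2Y ?_ (by positivity) (by linarith)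
            refine rpow_le_rpow (by positivity) ?_ (by positivity)
            exact mul_le_mul_of_nonneg_left (rpow_le_rpow (by positivity) hM2Y hw) (by linarith)
        _ = _ := by
            have hY0 : 0 < Y := by linarith
            rw [mul_rpow (by norm_num) hY0.le, show C1 * (2 ^ w * Y ^ w) = (C1 * 2 ^ w) * Y ^ w by ring,
              mul_rpow (by positivity) (by positivity), ← rpow_mul hY0.le,
              rpow_add hY0, rpow_one, mul_one_div]
            ring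
    have h8 : z ^ (γ - 1) ≤ A0 * Y ^ ((1 + w / β) * (w + 1)) := by
      refine h6.trans ?_
      have hY0 : 0 < Y := by linarith
      have h9 : (2 * P) ^ (w + 1) ≤ (4 * (C1 * 2 ^ w) ^ (1 / β)) ^ (w + 1) *
          Y ^ ((1 + w / β) * (w + 1)) := by
        calc (2 * P) ^ (w + 1) ≤ (4 * (C1 * 2 ^ w) ^ (1 / β) * Y ^ (1 + w / β)) ^ (w + 1) :=
              rpow_le_rpow hP2.le h7 (by linarith)
          _ = _ := by
              rw [mul_rpow (by positivity) (by positivity), ← rpow_mul hY0.le]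
      calc 4 * 2 ^ γ * (2 * P) ^ (w + 1) / c ≤ 4 * 2 ^ γ *
            ((4 * (C1 * 2 ^ w) ^ (1 / β)) ^ (w + 1) * Y ^ ((1 + w / β) * (w + 1))) / c :=
            div_le_div_of_nonneg_right (mul_le_mul_of_nonneg_left h9 (by positivity)) hc.le
        _ = _ := by rw [hA0d]; ring
    have h11 : z ≤ A * Y ^ κ := by
      have hY0 : 0 < Y := by linarith
      calc z = (z ^ (γ - 1)) ^ (1 / (γ - 1)) := by
            rw [← rpow_mul hz0.le, mul_one_div_cancel hγ1.ne', rpow_one]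
        _ ≤ (A0 * Y ^ ((1 + w / β) * (w + 1))) ^ (1 / (γ - 1)) :=
            rpow_le_rpow (by positivity) h8 (by positivity)
        _ = A * Y ^ κ := by
            rw [mul_rpow hA00 (by positivity), ← rpow_mul hY0.le, hA, hκ]
    calc z ≤ A * Y ^ κ := h11
      _ ≤ Y * Y ^ κ := mul_le_mul_of_nonneg_right (hKA.trans hKY) (by positivity)
      _ = Y ^ (κ + 1) := by rw [rpow_add (by linarith), rpow_one]; ring
      _ ≤ Y ^ K := rpow_le_rpow_of_exponent_le (by linarith) hKκ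

/-- **Criterion for linear independence.** -/
theorem crit {w c γ : ℝ} (hw : 0 ≤ w) (hc : 0 < c) (hγ : w + 1 < γ)
    (hγw : w < (γ - 1) * (γ - 1 - w)) {x y : ℝ} (hm : MM w c x y) :
    LinearIndependent ℚ ![(1 : ℝ), x, y] ↔
      ∀ X0 : ℝ, ∃ X : ℝ, X0 ≤ X ∧ ∀ v : Fin 3 → ℤ, v ≠ 0 → (ht v : ℝ) ≤ X →
        X ^ (-γ) < |LL x y v| := by
  have hL : ∀ v : Fin 3 → ℤ, ∑ i, v i • (![(1 : ℝ), x, y] i) = LL x y v := by
    intro v
    rw [Fin.sum_univ_three]
    simp [LL, zsmul_eq_mul]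
  rw [← LinearIndependent.iff_fractionRing ℤ ℚ, Fintype.linearIndependent_iff]
  constructor
  · intro hli X0
    by_contra hcon
    push Not at hcon
    obtain ⟨K, hK1, hK⟩ := window hw hc hγ hγw
    obtain ⟨Y, hY⟩ : ∃ Y : ℝ, Y = max K X0 := ⟨_, rfl⟩
    have hKY : K ≤ Y := by rw [hY]; exact le_max_left _ _
    have hXY : X0 ≤ Y := by rw [hY]; exact le_max_right _ _
    have hY1 : 1 ≤ Y := hK1.trans hKY
    have hball : {v : Fin 3 → ℤ | v ≠ 0 ∧ (ht v : ℝ) ≤ Y ^ K}.Finite := by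
      refine (fin_ball ⌊Y ^ K⌋₊).subset fun v hv => ?_
      exact Nat.le_floor hv.2
    have hall : ∀ Z : ℝ, Y ≤ Z → ∃ v : Fin 3 → ℤ, v ≠ 0 ∧ (ht v : ℝ) ≤ Y ^ K ∧
        |LL x y v| ≤ Z ^ (-γ) := fun Z hZ => hK x y hm Y Z hKY hZ fun X hX => by
      obtain ⟨v, hv0, hv1, hv2⟩ := hcon X (hXY.trans hX.1)
      exact ⟨v, hv0, hv1, hv2⟩
    have hne : {v : Fin 3 → ℤ | v ≠ 0 ∧ (ht v : ℝ) ≤ Y ^ K}.Nonempty := by
      obtain ⟨v, hv0, hv1, _⟩ := hall Y le_rfl
      exact ⟨v, hv0, hv1⟩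
    obtain ⟨b, hb, hmin⟩ := Set.exists_min_image _ (fun v => |LL x y v|) hball hne
    have hb0 : 0 < |LL x y b| := by
      rw [abs_pos]
      intro h0
      apply hb.1
      rw [← hL] at h0
      exact funext (hli b h0)
    have hlim : Filter.Tendsto (fun Z : ℝ => Z ^ (-γ)) Filter.atTop (nhds 0) :=
      tendsto_rpow_neg_atTop (by linarith)
    obtain ⟨Z, hZ1, hZ2⟩ := ((hlim.eventually (gt_mem_nhds hb0)).and
      (Filter.eventually_ge_atTop Y)).exists
    obtain ⟨v, hv0, hv1, hv2⟩ := hall Z hZ2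
    have h3 : |LL x y b| ≤ |LL x y v| := hmin v ⟨hv0, hv1⟩
    linarith
  · intro h v hv
    by_contra hne
    have hv0 : v ≠ 0 := by
      intro h0
      apply hne
      intro i
      rw [h0]; rfl
    obtain ⟨X, hX1, hX2⟩ := h (max 1 (ht v))
    have h1 := hX2 v hv0 ((le_max_right _ _).trans hX1)
    rw [← hL, hv, abs_zero] at h1
    have h2 : 1 ≤ X := (le_max_left _ _).trans hX1
    have h3 : 0 < X ^ (-γ) := rpow_pos_of_pos (by linarith) _
    linarith

/-- the product inequality -/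
theorem product {w c : ℝ} {x y : ℝ} (hm : MM w c x y) (u v : Fin 3 → ℤ)
    (h : LinearIndependent ℤ ![u, v]) :
    c / 2 * 2 ^ (-w) * (ht u * ht v : ℝ) ^ (-(w + 1)) ≤ |LL x y u| / ht u + |LL x y v| / ht v := by
  have hn := nr_ne_of_li h
  obtain ⟨hu, hv⟩ := nr_ne hn
  have hu1 : (1 : ℝ) ≤ ht u := by exact_mod_cast ht_pos hu
  have hv1 : (1 : ℝ) ≤ ht v := by exact_mod_cast ht_pos hv
  have h1 := core hm u v hn
  have hP : (0 : ℝ) < ht u * ht v := by positivity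
  have e1 : |LL x y u| / ht u + |LL x y v| / ht v =
      (ht v * |LL x y u| + ht u * |LL x y v|) / (ht u * ht v) := by
    field_simp
  have e2 : c / 2 * 2 ^ (-w) * (ht u * ht v : ℝ) ^ (-(w + 1)) =
      (c * (2 * (ht u * ht v : ℝ)) ^ (-w) / 2) / (ht u * ht v) := by
    rw [mul_rpow (by norm_num) hP.le, neg_add, rpow_add hP, rpow_neg_one]
    ring
  rw [e1, e2]
  exact div_le_div_of_nonneg_right (by linarith) hP.le

end Pool.Agent.Q95.NR
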