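import Mathlib

/-!
# Schatten quasi-norms of square matrices over `ℝ` or `ℂ`: elementary facts
-/

open Matrix
open scoped ENNReal ComplexOrder

namespace Q95.Schatten

variable {𝕜 : Type*} [RCLike 𝕜] {N : ℕ}

/-- The `N` singular values of the `N × N` matrix `A` (in some order): the square roots of the
eigenvalues of `Aᴴ A`, with multiplicity. -/
noncomputable def sv (A : Matrix (Fin N) (Fin N) 𝕜) (j : Fin N) : ℝ :=
  √((isHermitian_conjTranspose_mul_self A).eigenvalues j)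

/-- The Schatten `p`-(quasi-)norm of `A`: the `ℓ_p`-(quasi-)norm of its singular values, and the
largest singular value for `p = ∞`. -/
noncomputable def schatten (p : ℝ≥0∞) (A : Matrix (Fin N) (Fin N) 𝕜) : ℝ :=
  if p = ∞ then ⨆ j, sv A j else (∑ j, sv A j ^ p.toReal) ^ (1 / p.toReal)

lemma sv_nonneg (A : Matrix (Fin N) (Fin N) 𝕜) (j : Fin N) : 0 ≤ sv A j := Real.sqrt_nonneg _

lemma eig_nonneg (A : Matrix (Fin N) (Fin N) 𝕜) (j : Fin N) :
    0 ≤ (isHermitian_conjTranspose_mul_self A).eigenvalues j :=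
  (posSemidef_conjTranspose_mul_self A).eigenvalues_nonneg j

lemma sv_sq (A : Matrix (Fin N) (Fin N) 𝕜) (j : Fin N) :
    sv A j ^ 2 = (isHermitian_conjTranspose_mul_self A).eigenvalues j :=
  Real.sq_sqrt (eig_nonneg A j)

lemma conjTranspose_mul_self_diag (A : Matrix (Fin N) (Fin N) 𝕜) (j : Fin N) :
    (Aᴴ * A) j j = ((∑ i, ‖A i j‖ ^ 2 : ℝ) : 𝕜) := by
  simp only [mul_apply, conjTranspose_apply]
  push_cast
  refine Finset.sum_congr rfl fun i _ => ?_
  rw [RCLike.star_def, RCLike.conj_mul]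

/-- The sum of the squares of the singular values is the sum of the squares of the entries. -/
lemma sum_sv_sq (A : Matrix (Fin N) (Fin N) 𝕜) :
    ∑ j, sv A j ^ 2 = ∑ j, ∑ i, ‖A i j‖ ^ 2 := by
  have h := (isHermitian_conjTranspose_mul_self A).trace_eq_sum_eigenvalues
  simp only [trace, diag_apply, conjTranspose_mul_self_diag] at h
  simp only [sv_sq]
  have h' : ((∑ j, ∑ i, ‖A i j‖ ^ 2 : ℝ) : 𝕜) =
      ((∑ j, (isHermitian_conjTranspose_mul_self A).eigenvalues j : ℝ) : 𝕜) := by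
    push_cast
    push_cast at h
    exact h
  exact (RCLike.ofReal_inj.mp h').symm

/-- A column of `A` has Euclidean norm at most any upper bound of the singular values. -/
lemma col_le {A : Matrix (Fin N) (Fin N) 𝕜} {s : ℝ} (hs : ∀ j, sv A j ≤ s) (j : Fin N) :
    ∑ i, ‖A i j‖ ^ 2 ≤ s ^ 2 := by
  set hA := isHermitian_conjTranspose_mul_self A with hAdef
  set U := hA.eigenvectorUnitary with hU
  have hsp := hA.spectral_theorem
  rw [Unitary.conjStarAlgAut_apply] at hsp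
  have hjj := congrFun (congrFun hsp j) j
  rw [conjTranspose_mul_self_diag] at hjj
  have hentry : ((U : Matrix (Fin N) (Fin N) 𝕜) * diagonal (RCLike.ofReal ∘ hA.eigenvalues) *
      (star (U : Matrix (Fin N) (Fin N) 𝕜) : Matrix (Fin N) (Fin N) 𝕜) : Matrix (Fin N) (Fin N) 𝕜) j j =
      ((∑ k, hA.eigenvalues k * ‖(U : Matrix (Fin N) (Fin N) 𝕜) j k‖ ^ 2 : ℝ) : 𝕜) := by
    rw [mul_apply]
    push_cast
    refine Finset.sum_congr rfl fun k _ => ?_
    rw [mul_diagonal, star_apply, Function.comp, ← RCLike.mul_conj, RCLike.star_def]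
    ring
  have h1 : ∑ i, ‖A i j‖ ^ 2 = ∑ k, hA.eigenvalues k * ‖(U : Matrix (Fin N) (Fin N) 𝕜) j k‖ ^ 2 := by
    have := hjj.trans hentry
    exact RCLike.ofReal_inj.mp this
  have hrow : ∑ k, ‖(U : Matrix (Fin N) (Fin N) 𝕜) j k‖ ^ 2 = 1 := by
    have hu : (U : Matrix (Fin N) (Fin N) 𝕜) * star (U : Matrix (Fin N) (Fin N) 𝕜) = 1 :=
      Unitary.coe_mul_star_self U
    have := congrFun (congrFun hu j) j
    rw [mul_apply, one_apply_eq] at this
    have h2 : ((∑ k, ‖(U : Matrix (Fin N) (Fin N) 𝕜) j k‖ ^ 2 : ℝ) : 𝕜) = ((1 : ℝ) : 𝕜) := by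
      push_cast
      rw [← this]
      refine Finset.sum_congr rfl fun k _ => ?_
      rw [star_apply, ← RCLike.mul_conj, RCLike.star_def]
    exact RCLike.ofReal_inj.mp h2
  rw [h1]
  calc ∑ k, hA.eigenvalues k * ‖(U : Matrix (Fin N) (Fin N) 𝕜) j k‖ ^ 2
      ≤ ∑ k, s ^ 2 * ‖(U : Matrix (Fin N) (Fin N) 𝕜) j k‖ ^ 2 := by
        refine Finset.sum_le_sum fun k _ => ?_
        refine mul_le_mul_of_nonneg_right ?_ (by positivity)
        rw [← sv_sq A k]
        exact pow_le_pow_left₀ (sv_nonneg A k) (hs k) 2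
    _ = s ^ 2 := by rw [← Finset.mul_sum, hrow, mul_one]

/-- An entry is at most any upper bound of the singular values. -/
lemma entry_le {A : Matrix (Fin N) (Fin N) 𝕜} {s : ℝ} (hs : ∀ j, sv A j ≤ s) (i j : Fin N) :
    ‖A i j‖ ≤ s := by
  have h := col_le hs j
  have h1 : ‖A i j‖ ^ 2 ≤ s ^ 2 :=
    (Finset.single_le_sum (f := fun i => ‖A i j‖ ^ 2) (fun _ _ => by positivity)
      (Finset.mem_univ i)).trans h
  exact le_of_sq_le_sq h1 ((sv_nonneg A j).trans (hs j))

/-- Each singular value is at most the Schatten `q`-quasi-norm. -/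
lemma sv_le_schatten (A : Matrix (Fin N) (Fin N) 𝕜) {q : ℝ≥0∞} (hq : q ≠ 0) (j : Fin N) :
    sv A j ≤ schatten q A := by
  unfold schatten
  split_ifs with h
  · exact le_ciSup (Set.finite_range _).bddAbove j
  · have hq' : 0 < q.toReal := ENNReal.toReal_pos hq h
    have h1 : sv A j ^ q.toReal ≤ ∑ k, sv A k ^ q.toReal :=
      Finset.single_le_sum (f := fun k => sv A k ^ q.toReal)
        (fun k _ => Real.rpow_nonneg (sv_nonneg A k) _) (Finset.mem_univ j)
    calc sv A j = (sv A j ^ q.toReal) ^ (1 / q.toReal) := by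
          rw [← Real.rpow_mul (sv_nonneg A j), mul_one_div_cancel hq'.ne', Real.rpow_one]
      _ ≤ _ := Real.rpow_le_rpow (Real.rpow_nonneg (sv_nonneg A j) _) h1 (by positivity)

lemma entry_le_schatten (A : Matrix (Fin N) (Fin N) 𝕜) {q : ℝ≥0∞} (hq : q ≠ 0) (i j : Fin N) :
    ‖A i j‖ ≤ schatten q A :=
  entry_le (fun k => sv_le_schatten A hq k) i j

/-- The number of nonzero singular values is the rank. -/
lemma card_sv_ne_zero (A : Matrix (Fin N) (Fin N) 𝕜) :
    (Finset.univ.filter fun j => sv A j ≠ 0).card = A.rank := by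
  rw [← rank_conjTranspose_mul_self, (isHermitian_conjTranspose_mul_self A).rank_eq_card_non_zero_eigs,
    Fintype.card_subtype]
  congr 1
  ext j
  simp only [Finset.mem_filter, Finset.mem_univ, true_and, ne_eq, ← sv_sq, pow_eq_zero_iff two_ne_zero]

/-- For `0 < p ≤ 2` and rank at most `M`: `‖A‖_{S_p} ≤ M^{1/p - 1/2} ‖A‖_{S_2}`. -/
lemma schatten_le_of_rank (A : Matrix (Fin N) (Fin N) 𝕜) {p : ℝ≥0∞} (hp0 : p ≠ 0) (hp2 : p ≤ 2)
    {M : ℕ} (hM : A.rank ≤ M) :
    schatten p A ≤ (M : ℝ) ^ (1 / p.toReal - 1 / 2) * √(∑ j, ∑ i, ‖A i j‖ ^ 2) := by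
  have hpt : p ≠ ∞ := fun h => by rw [h] at hp2; exact absurd hp2 (by simp)
  have hp' : 0 < p.toReal := ENNReal.toReal_pos hp0 hpt
  have hp2' : p.toReal ≤ 2 := by
    have := ENNReal.toReal_mono (by simp) hp2
    simpa using this
  unfold schatten
  rw [if_neg hpt]
  set r := p.toReal with hr
  set S := Finset.univ.filter fun j => sv A j ≠ 0 with hS
  have hsum : ∑ j, sv A j ^ r = ∑ j ∈ S, sv A j ^ r := by
    refine (Finset.sum_subset (Finset.subset_univ S) fun j _ hj => ?_).symm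
    have : sv A j = 0 := by simpa [hS] using hj
    rw [this, Real.zero_rpow hp'.ne']
  have hsum2 : ∑ j, sv A j ^ 2 = ∑ j ∈ S, sv A j ^ 2 := by
    refine (Finset.sum_subset (Finset.subset_univ S) fun j _ hj => ?_).symm
    have : sv A j = 0 := by simpa [hS] using hj
    rw [this]; ring
  have hcard : (S.card : ℝ) ≤ M := by
    rw [hS, card_sv_ne_zero]; exact_mod_cast hM
  have h1r : 1 ≤ 2 / r := by rw [le_div_iff₀ hp']; linarith
  have key := Real.rpow_sum_le_const_mul_sum_rpow_of_nonneg (s := S)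
    (f := fun j => sv A j ^ r) h1r (fun j _ => Real.rpow_nonneg (sv_nonneg A j) _)
  have hpow : ∀ j, (sv A j ^ r) ^ (2 / r) = sv A j ^ 2 := fun j => by
    rw [← Real.rpow_mul (sv_nonneg A j), mul_div_cancel₀ _ hp'.ne', Real.rpow_two]
  simp only [hpow] at key
  have hX : 0 ≤ ∑ j ∈ S, sv A j ^ r :=
    Finset.sum_nonneg fun j _ => Real.rpow_nonneg (sv_nonneg A j) _
  have hY : 0 ≤ ∑ j ∈ S, sv A j ^ 2 := Finset.sum_nonneg fun j _ => by positivity
  rw [hsum, ← sum_sv_sq, hsum2]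
  have hle : (∑ j ∈ S, sv A j ^ r) ^ (2 / r) ≤ (M : ℝ) ^ (2 / r - 1) * ∑ j ∈ S, sv A j ^ 2 :=
    key.trans (mul_le_mul_of_nonneg_right
      (Real.rpow_le_rpow (by positivity) hcard (by linarith)) hY)
  have h2 := Real.rpow_le_rpow (Real.rpow_nonneg hX _) hle (by norm_num : (0 : ℝ) ≤ 1 / 2)
  rw [← Real.rpow_mul hX, Real.mul_rpow (by positivity) hY, ← Real.rpow_mul (by positivity),
    ← Real.sqrt_eq_rpow (∑ j ∈ S, sv A j ^ 2)] at h2
  have e1 : 2 / r * (1 / 2) = 1 / r := by ring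
  have e2 : (2 / r - 1) * (1 / 2) = 1 / r - 1 / 2 := by ring
  rwa [e1, e2] at h2

end Q95.Schatten
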