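import Mathlib

/-!
# Moving a segment across a prism (helper for MP_9fae52_an)
-/

open Set
open scoped ENNReal

noncomputable section

namespace Q95.Prism

/-! ### Curves on a sphere of radius `√2` -/

section sphere

variable {E : Type*} [NormedAddCommGroup E] [InnerProductSpace ℝ E]

/-- A curve on a sphere has a point which is far from both ends. -/
lemma exists_mid {X : ℝ → E} {c : E} {a b : ℝ} (hab : a ≤ b) (hX : ContinuousOn X (Icc a b))
    (hs : ∀ t ∈ Icc a b, ‖X t - c‖ ^ 2 = 2) :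
    ∃ t ∈ Icc a b, ‖X t - X a‖ ^ 2 = ‖X t - X b‖ ^ 2 ∧
      ‖X a - X b‖ ^ 2 / 4 + (‖X a - X b‖ ^ 2) ^ 2 / 128 ≤ ‖X t - X a‖ ^ 2 := by
  set f : ℝ → ℝ := fun t => ‖X t - X a‖ ^ 2 - ‖X t - X b‖ ^ 2 with hf
  have hfc : ContinuousOn f (Icc a b) := by
    apply ContinuousOn.sub
    · exact ((hX.sub continuousOn_const).norm).pow 2
    · exact ((hX.sub continuousOn_const).norm).pow 2
  have h0 : (0 : ℝ) ∈ Icc (f a) (f b) := by
    simp only [hf, sub_self, norm_zero]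
    constructor
    · nlinarith [sq_nonneg ‖X a - X b‖]
    · nlinarith [sq_nonneg ‖X b - X a‖]
  obtain ⟨t, ht, hft⟩ := intermediate_value_Icc hab hfc h0
  have heq : ‖X t - X a‖ ^ 2 = ‖X t - X b‖ ^ 2 := by
    simp only [hf] at hft
    linarith
  refine ⟨t, ht, heq, ?_⟩
  have ha := hs a (left_mem_Icc.mpr hab)
  have hb := hs b (right_mem_Icc.mpr hab)
  have ht' := hs t ht
  set U := X a - c with hU
  set V := X b - c with hV
  set W := X t - c with hW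
  have e1 : X t - X a = W - U := by simp [hW, hU]
  have e2 : X t - X b = W - V := by simp [hW, hV]
  have e3 : X a - X b = U - V := by simp [hU, hV]
  rw [e1] at heq ⊢
  rw [e2] at heq
  rw [e3]
  have n1 : ‖W - U‖ ^ 2 = 4 - 2 * inner ℝ W U := by
    rw [norm_sub_sq_real]; linarith
  have n2 : ‖W - V‖ ^ 2 = 4 - 2 * inner ℝ W V := by
    rw [norm_sub_sq_real]; linarith
  have n3 : ‖U - V‖ ^ 2 = 4 - 2 * inner ℝ U V := by
    rw [norm_sub_sq_real]; linarith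
  have n4 : ‖U + V‖ ^ 2 = 4 + 2 * inner ℝ U V := by
    rw [norm_add_sq_real]; linarith
  have n5 : inner ℝ W (U + V) ≤ ‖W‖ * ‖U + V‖ := real_inner_le_norm _ _
  rw [inner_add_right] at n5
  set δ := ‖W - U‖ ^ 2 with hδ
  set D := ‖U - V‖ ^ 2 with hD
  have n6 : (4 - δ) ≤ ‖W‖ * ‖U + V‖ := by linarith
  have hD0 : 0 ≤ D := sq_nonneg _
  have hD8 : D ≤ 8 := by nlinarith [sq_nonneg ‖U + V‖]
  by_contra hlt
  push Not at hlt
  have h7 : 0 < 4 - (D / 4 + D ^ 2 / 128) := by nlinarith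
  have h8 : 4 - (D / 4 + D ^ 2 / 128) < ‖W‖ * ‖U + V‖ := by linarith
  have h9 : (4 - (D / 4 + D ^ 2 / 128)) ^ 2 < (‖W‖ * ‖U + V‖) ^ 2 := by
    apply pow_lt_pow_left₀ h8 h7.le (by norm_num)
  rw [mul_pow, ht', n4] at h9
  have h10 : inner ℝ U V = (4 - D) / 2 := by linarith
  rw [h10] at h9
  have hD3 : 0 ≤ D ^ 3 := by positivity
  have hD4 : 0 ≤ D ^ 4 := by positivity
  nlinarith

/-- Length of a curve on a sphere of radius `√2` with end points at squared distance `≥ 4x²`. -/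
lemma sphere_length {X : ℝ → E} {c : E} {a b : ℝ} (hab : a ≤ b) (hX : ContinuousOn X (Icc a b))
    (hs : ∀ t ∈ Icc a b, ‖X t - c‖ ^ 2 = 2) {x : ℝ} (hx0 : 0 ≤ x) (hx1 : x ≤ 1)
    (hd : ‖X a - X b‖ ^ 2 = 4 * x ^ 2) :
    ENNReal.ofReal (2 * x + 3 / 20 * x ^ 3) ≤ eVariationOn X (Icc a b) := by
  -- two chords
  have two : ∀ {a' b' : ℝ} (_ : a' ≤ b') (_ : Icc a' b' ⊆ Icc a b) {d : ℝ} (_ : 0 ≤ d)
      (_ : x ^ 2 + x ^ 4 / 8 ≤ ‖X a' - X b'‖ ^ 2),
      ENNReal.ofReal (2 * (x / 2 + 3 / 80 * x ^ 3)) ≤ eVariationOn X (Icc a' b') := by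
    intro a' b' hab' hsub d _ hd'
    obtain ⟨t, ht, heq, hle⟩ := exists_mid hab' (hX.mono hsub) (fun t ht => hs t (hsub ht))
    set δ := ‖X a' - X b'‖ ^ 2 with hδ
    have h1 : (x / 2 + 3 / 80 * x ^ 3) ^ 2 ≤ ‖X t - X a'‖ ^ 2 := by
      refine le_trans ?_ hle
      have h2 : x ^ 2 / 4 + x ^ 4 / 32 + x ^ 4 / 128 ≤ δ / 4 + δ ^ 2 / 128 := by
        have h3 : x ^ 4 ≤ δ ^ 2 := by
          have : x ^ 2 ≤ δ := by nlinarith [pow_nonneg hx0 4]
          calc x ^ 4 = (x ^ 2) ^ 2 := by ring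
            _ ≤ δ ^ 2 := by
              apply pow_le_pow_left₀ (by positivity) this
        nlinarith
      refine le_trans ?_ h2
      have h4 : x ^ 6 ≤ x ^ 4 := pow_le_pow_of_le_one hx0 hx1 (by norm_num)
      nlinarith
    have h5 : x / 2 + 3 / 80 * x ^ 3 ≤ dist (X t) (X a') := by
      rw [dist_eq_norm]
      exact (sq_le_sq₀ (by positivity) (norm_nonneg _)).mp h1
    have h6 : x / 2 + 3 / 80 * x ^ 3 ≤ dist (X t) (X b') := by
      rw [dist_eq_norm]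
      rw [heq] at h1
      exact (sq_le_sq₀ (by positivity) (norm_nonneg _)).mp h1
    have h7 : ENNReal.ofReal (x / 2 + 3 / 80 * x ^ 3) ≤ eVariationOn X (Icc a' t) := by
      refine le_trans ?_ (eVariationOn.edist_le X (right_mem_Icc.mpr ht.1) (left_mem_Icc.mpr ht.1))
      rw [edist_dist]
      exact ENNReal.ofReal_le_ofReal h5
    have h8 : ENNReal.ofReal (x / 2 + 3 / 80 * x ^ 3) ≤ eVariationOn X (Icc t b') := by
      refine le_trans ?_ (eVariationOn.edist_le X (left_mem_Icc.mpr ht.2) (right_mem_Icc.mpr ht.2))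
      rw [edist_dist]
      exact ENNReal.ofReal_le_ofReal h6
    have h9 := eVariationOn.Icc_add_Icc X (s := univ) ht.1 ht.2 (mem_univ t)
    simp only [univ_inter] at h9
    rw [← h9, two_mul, ENNReal.ofReal_add (by positivity) (by positivity)]
    exact add_le_add h7 h8
  obtain ⟨t, ht, heq, hle⟩ := exists_mid hab hX hs
  rw [hd] at hle
  have h1 : x ^ 2 + x ^ 4 / 8 ≤ ‖X t - X a‖ ^ 2 := by nlinarith
  have h2 : x ^ 2 + x ^ 4 / 8 ≤ ‖X t - X b‖ ^ 2 := by rw [← heq]; exact h1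
  have h3 := two ht.1 (Icc_subset_Icc_right ht.2) hx0 (by rwa [norm_sub_rev])
  have h4 := two ht.2 (Icc_subset_Icc_left ht.1) hx0 h2
  have h9 := eVariationOn.Icc_add_Icc X (s := univ) ht.1 ht.2 (mem_univ t)
  simp only [univ_inter] at h9
  rw [← h9]
  have h10 : 2 * x + 3 / 20 * x ^ 3 =
      2 * (x / 2 + 3 / 80 * x ^ 3) + 2 * (x / 2 + 3 / 80 * x ^ 3) := by ring
  rw [h10, ENNReal.ofReal_add (by positivity) (by positivity)]
  exact add_le_add h3 h4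

end sphere

/-! ### Real inequalities -/

lemma poly_pos {x : ℝ} (h0 : 1 / 4 ≤ x) (h1 : x ≤ 1) :
    (1123 / 500 - (2 * x + 3 / 20 * x ^ 3)) ^ 2 ≤ 5 - 8 * x + 4 * x ^ 3 + x ^ 5 := by
  nlinarith [sq_nonneg (x - 2 / 5), sq_nonneg (x * (x - 2 / 5)), mul_nonneg (sub_nonneg.mpr h0) (sub_nonneg.mpr h1),
    mul_nonneg (by linarith : (0 : ℝ) ≤ x) (sq_nonneg (x - 2 / 5)), pow_nonneg (by linarith : (0 : ℝ) ≤ x) 3,
    pow_nonneg (by linarith : (0 : ℝ) ≤ x) 5]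

/-- The case `sin θ ≥ 1/2`. -/
lemma main_ineq {x s c : ℝ} (hx0 : 0 ≤ x) (hc : c = 1 - 2 * x ^ 2) (hsc : s ^ 2 + c ^ 2 = 1)
    (hs : 1 / 2 ≤ s) : 1123 / 500 ≤ (2 * x + 3 / 20 * x ^ 3) + √(5 - 4 * s) := by
  subst hc
  have hs2 : s ^ 2 = 4 * x ^ 2 * (1 - x ^ 2) := by linarith [hsc, (by ring : (1 - 2 * x ^ 2) ^ 2 = 1 - 4 * x ^ 2 * (1 - x ^ 2))]
  have hx1 : x ≤ 1 := by
    by_contra h
    push Not at h
    have h1 : 0 < 4 * x ^ 2 := by positivity
    have h2 : 1 - x ^ 2 < 0 := by nlinarith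
    have h3 := mul_neg_of_pos_of_neg h1 h2
    have h4 := sq_nonneg s
    linarith
  have hx4 : 1 / 4 ≤ x := by
    by_contra h
    push Not at h
    nlinarith [sq_nonneg x, mul_nonneg hx0 hx0]
  have hsle : s ≤ 2 * x - x ^ 3 - x ^ 5 / 4 := by
    have h1 : 0 ≤ 2 * x - x ^ 3 - x ^ 5 / 4 := by
      have h2 : x ^ 3 ≤ x := by nlinarith [mul_nonneg hx0 hx0]
      have h3 : x ^ 5 ≤ x := by
        calc x ^ 5 = x ^ 3 * x ^ 2 := by ring
          _ ≤ x * 1 := by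
            apply mul_le_mul h2 _ (by positivity) hx0
            nlinarith
          _ = x := by ring
      linarith
    have h4 : s ^ 2 ≤ (2 * x - x ^ 3 - x ^ 5 / 4) ^ 2 := by
      rw [hs2]
      have : (2 * x - x ^ 3 - x ^ 5 / 4) ^ 2 = 4 * x ^ 2 * (1 - x ^ 2) + 4 * x ^ 2 * (x ^ 6 / 8 + x ^ 8 / 64) := by
        ring
      rw [this]
      have : 0 ≤ 4 * x ^ 2 * (x ^ 6 / 8 + x ^ 8 / 64) := by positivity
      linarith
    exact (sq_le_sq₀ (by linarith) h1).mp h4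
  have h5 : (1123 / 500 - (2 * x + 3 / 20 * x ^ 3)) ^ 2 ≤ 5 - 4 * s := by
    refine (poly_pos hx4 hx1).trans ?_
    linarith
  have h6 := Real.le_sqrt_of_sq_le h5
  linarith

/-- Inadmissibility for `-1/3 < sin θ < 1/2`. -/
lemma inadmissible {s t₁ t₂ : ℝ} (h12 : t₁ ≤ t₂) (hs1 : -1 / 3 < s) (hs2 : s < 1 / 2)
    {a b : ℝ → ℝ} (ha : ContinuousOn a (Icc t₁ t₂)) (hb : ContinuousOn b (Icc t₁ t₂))
    (hab : ∀ t ∈ Icc t₁ t₂, 0 ≤ a t ∧ 0 ≤ b t)
    (h0 : a t₁ = 0 ∧ b t₁ = 0) (h1 : a t₂ = 1 ∧ b t₂ = 1)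
    (hF : ∀ t ∈ Icc t₁ t₂, a t ^ 2 * (5 - 4 * s) - 2 * a t * ((1 + 2 * s - 2 * s ^ 2) +
      b t * (3 - 4 * s + 2 * s ^ 2)) + b t ^ 2 * (5 - 4 * s) - 2 * b t * (1 - 2 * s) = 0) : False := by
  have hD : 0 < 5 - 4 * s := by linarith
  have hκ : 0 < 1 + 2 * s - 2 * s ^ 2 := by nlinarith
  have hl : 0 < 3 - 4 * s + 2 * s ^ 2 := by nlinarith [sq_nonneg (s - 1)]
  set η : ℝ := min ((1 + 2 * s - 2 * s ^ 2) / (5 - 4 * s)) ((1 - 2 * s) / (5 - 4 * s)) with hη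
  have hη0 : 0 < η := by
    apply lt_min
    · positivity
    · apply div_pos (by linarith) hD
  have hη1 : η * (5 - 4 * s) ≤ 1 + 2 * s - 2 * s ^ 2 := by
    have := min_le_left ((1 + 2 * s - 2 * s ^ 2) / (5 - 4 * s)) ((1 - 2 * s) / (5 - 4 * s))
    rw [← hη] at this
    rwa [le_div_iff₀ hD] at this
  have hη2 : η * (5 - 4 * s) ≤ 1 - 2 * s := by
    have := min_le_right ((1 + 2 * s - 2 * s ^ 2) / (5 - 4 * s)) ((1 - 2 * s) / (5 - 4 * s))
    rw [← hη] at this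
    rwa [le_div_iff₀ hD] at this
  have hη3 : η ≤ 2 := by
    by_contra h
    push Not at h
    nlinarith
  have hmem : η ∈ Icc ((fun t => a t + b t) t₁) ((fun t => a t + b t) t₂) := by
    simp only [h0.1, h0.2, h1.1, h1.2]
    constructor <;> linarith
  obtain ⟨t, ht, hft⟩ := intermediate_value_Icc h12 (ha.add hb) hmem
  have hft' : a t + b t = η := hft
  obtain ⟨hat, hbt⟩ := hab t ht
  have hFt := hF t ht
  have ha1 : a t ≤ η := by linarith
  have hb1 : b t ≤ η := by linarith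
  set A := a t with hA
  set B := b t with hB
  -- F < 0 unless a = b = 0
  have hAη : A * (5 - 4 * s) ≤ 1 + 2 * s - 2 * s ^ 2 :=
    (mul_le_mul_of_nonneg_right ha1 hD.le).trans hη1
  have hBη : B * (5 - 4 * s) ≤ 1 - 2 * s := (mul_le_mul_of_nonneg_right hb1 hD.le).trans hη2
  have h2 : A * (A * (5 - 4 * s) - 2 * (1 + 2 * s - 2 * s ^ 2)) ≤ 0 :=
    mul_nonpos_of_nonneg_of_nonpos hat (by linarith)
  have h3 : B * (B * (5 - 4 * s) - 2 * (1 - 2 * s)) ≤ 0 :=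
    mul_nonpos_of_nonneg_of_nonpos hbt (by linarith)
  have h4 : 0 ≤ A * B * (3 - 4 * s + 2 * s ^ 2) := by positivity
  have hsum : A * (A * (5 - 4 * s) - 2 * (1 + 2 * s - 2 * s ^ 2)) +
      B * (B * (5 - 4 * s) - 2 * (1 - 2 * s)) - 2 * (A * B * (3 - 4 * s + 2 * s ^ 2)) = 0 := by
    rw [← hFt]; ring
  have h5 : A * (A * (5 - 4 * s) - 2 * (1 + 2 * s - 2 * s ^ 2)) = 0 := by linarith
  have h6 : B * (B * (5 - 4 * s) - 2 * (1 - 2 * s)) = 0 := by linarith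
  have h7 : A = 0 := by
    rcases mul_eq_zero.mp h5 with h | h
    · exact h
    · linarith
  have h8 : B = 0 := by
    rcases mul_eq_zero.mp h6 with h | h
    · exact h
    · linarith
  linarith

/-! ### The rational parametrisation of the middle stage -/

/-- progress along the two segments -/
def bb (n : ℝ) : ℝ := 8 * n / (9 * n ^ 2 - 10 * n + 9)

lemma den_pos (n : ℝ) : 0 < 9 * n ^ 2 - 10 * n + 9 := by nlinarith [sq_nonneg (9 * n - 5)]

lemma bb_zero : bb 0 = 0 := by simp [bb]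

lemma bb_one : bb 1 = 1 := by norm_num [bb]

lemma bb_mono : MonotoneOn bb (Icc 0 1) := by
  intro n hn m hm hnm
  unfold bb
  rw [div_le_div_iff₀ (den_pos n) (den_pos m)]
  have h1 : n * m ≤ 1 := by nlinarith [hn.1, hn.2, hm.1, hm.2]
  nlinarith [mul_nonneg (sub_nonneg.mpr hnm) (sub_nonneg.mpr h1)]

lemma bb_cont : Continuous bb := by
  unfold bb
  exact (by fun_prop : Continuous fun n : ℝ => 8 * n).div (by fun_prop) fun n => (den_pos n).ne'

lemma bb_eq (n : ℝ) : 9 * ((n * bb n) ^ 2 + (bb n) ^ 2) = 8 * (n * bb n) + 10 * (n * bb n) * bb n := by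
  have h : bb n * (9 * n ^ 2 - 10 * n + 9) = 8 * n := by
    unfold bb
    exact div_mul_cancel₀ _ (den_pos n).ne'
  have : 9 * ((n * bb n) ^ 2 + (bb n) ^ 2) - (8 * (n * bb n) + 10 * (n * bb n) * bb n) =
      bb n * (bb n * (9 * n ^ 2 - 10 * n + 9) - 8 * n) := by ring
  rw [h] at this
  linarith [this, (by ring : bb n * (8 * n - 8 * n) = 0)]

end Q95.Prism
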