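import Mathlib

/-!
# A space with two Schreier levels

`‖x‖ = max (sup_{F ∈ S₁} ∑_F |x|) (θ · sup_{G ∈ S₂} ∑_G |x|)` on `c₀₀`, and its completion.
-/

namespace Q95.Sch

open Filter Topology

/-- Schreier sets. -/
def S1 (F : Finset ℕ) : Prop := ∀ g ∈ F, F.card ≤ g + 1

/-- Second order Schreier sets: `c` numbers the consecutive pieces. -/
def S2 (G : Finset ℕ) : Prop :=
  ∃ (p : ℕ) (c : ℕ → ℕ), (∀ g ∈ G, ∀ g' ∈ G, g ≤ g' → c g ≤ c g') ∧
    (∀ g ∈ G, c g < p ∧ p ≤ g + 1) ∧ ∀ q, S1 (G.filter (fun g => c g = q))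

lemma S1.mono {F F' : Finset ℕ} (h : S1 F) (hs : F' ⊆ F) : S1 F' := fun g hg =>
  (Finset.card_le_card hs).trans (h g (hs hg))

lemma S1_empty : S1 ∅ := by intro g hg; simp at hg

lemma S1_singleton (k : ℕ) : S1 {k} := by
  intro g _; simp

lemma S1.S2 {F : Finset ℕ} (h : S1 F) : S2 F :=
  ⟨1, fun _ => 0, fun _ _ _ _ _ => le_rfl, fun g _ => ⟨one_pos, by omega⟩,
    fun _ => h.mono (Finset.filter_subset _ _)⟩

open Classical in
/-- The weight of a set in the norm. -/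
noncomputable def wt (θ : ℝ) (F : Finset ℕ) : ℝ := if S1 F then 1 else θ

/-- The norm of a finitely supported sequence. -/
noncomputable def nrm (θ : ℝ) (x : ℕ →₀ ℝ) : ℝ :=
  ⨆ F : {F : Finset ℕ // S2 F}, wt θ F.1 * ∑ i ∈ F.1, |x i|

section Norm

variable {θ : ℝ}

lemma wt_nonneg (h0 : 0 < θ) (F : Finset ℕ) : 0 ≤ wt θ F := by
  unfold wt; split <;> linarith

lemma wt_le (h1 : θ < 1) (F : Finset ℕ) : wt θ F ≤ 1 := by
  unfold wt; split <;> linarith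

lemma wt_ge (h1 : θ < 1) (F : Finset ℕ) : θ ≤ wt θ F := by
  unfold wt; split <;> linarith

lemma bdd (h1 : θ < 1) (x : ℕ →₀ ℝ) :
    BddAbove (Set.range fun F : {F : Finset ℕ // S2 F} => wt θ F.1 * ∑ i ∈ F.1, |x i|) := by
  refine ⟨∑ i ∈ x.support, |x i|, ?_⟩
  rintro _ ⟨F, rfl⟩
  show wt θ F.1 * ∑ i ∈ F.1, |x i| ≤ _
  have h2 : ∑ i ∈ F.1, |x i| = ∑ i ∈ F.1 ∩ x.support, |x i| := by
    rw [← Finset.sum_subset (Finset.inter_subset_left : F.1 ∩ x.support ⊆ F.1)]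
    intro i hi hi'
    have : i ∉ x.support := fun h => hi' (Finset.mem_inter.mpr ⟨hi, h⟩)
    simp [Finsupp.notMem_support_iff.mp this]
  have h3 : ∑ i ∈ F.1 ∩ x.support, |x i| ≤ ∑ i ∈ x.support, |x i| :=
    Finset.sum_le_sum_of_subset_of_nonneg Finset.inter_subset_right (fun _ _ _ => abs_nonneg _)
  have h4 : 0 ≤ ∑ i ∈ F.1, |x i| := Finset.sum_nonneg fun _ _ => abs_nonneg _
  calc wt θ F.1 * ∑ i ∈ F.1, |x i| ≤ 1 * ∑ i ∈ F.1, |x i| :=
        mul_le_mul_of_nonneg_right (wt_le h1 _) h4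
    _ ≤ _ := by rw [one_mul, h2]; exact h3

instance : Nonempty {F : Finset ℕ // S2 F} := ⟨⟨∅, S1_empty.S2⟩⟩

lemma le_nrm1 (_h0 : 0 < θ) (h1 : θ < 1) (x : ℕ →₀ ℝ) {F : Finset ℕ} (hF : S1 F) :
    ∑ i ∈ F, |x i| ≤ nrm θ x := by
  have := le_ciSup (bdd h1 x) ⟨F, hF.S2⟩
  have hw : wt θ F = 1 := by simp [wt, hF]
  rw [hw, one_mul] at this
  exact this

lemma le_nrm2 (_h0 : 0 < θ) (h1 : θ < 1) (x : ℕ →₀ ℝ) {F : Finset ℕ} (hF : S2 F) :
    θ * ∑ i ∈ F, |x i| ≤ nrm θ x := by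
  have := le_ciSup (bdd h1 x) ⟨F, hF⟩
  refine le_trans ?_ this
  exact mul_le_mul_of_nonneg_right (wt_ge h1 _) (Finset.sum_nonneg fun _ _ => abs_nonneg _)

lemma nrm_le {x : ℕ →₀ ℝ} {r : ℝ} (hr1 : ∀ F, S1 F → ∑ i ∈ F, |x i| ≤ r)
    (hr2 : ∀ F, S2 F → θ * ∑ i ∈ F, |x i| ≤ r) : nrm θ x ≤ r := by
  refine ciSup_le fun F => ?_
  unfold wt
  split
  · rw [one_mul]; exact hr1 _ ‹_›
  · exact hr2 _ F.2

lemma coord_le (h0 : 0 < θ) (h1 : θ < 1) (x : ℕ →₀ ℝ) (k : ℕ) : |x k| ≤ nrm θ x := by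
  simpa using le_nrm1 h0 h1 x (S1_singleton k)

lemma nrm_nonneg (h0 : 0 < θ) (h1 : θ < 1) (x : ℕ →₀ ℝ) : 0 ≤ nrm θ x :=
  (abs_nonneg _).trans (coord_le h0 h1 x 0)

lemma nrm_mono (h0 : 0 < θ) (h1 : θ < 1) {x y : ℕ →₀ ℝ} (h : ∀ i, |x i| ≤ |y i|) :
    nrm θ x ≤ nrm θ y := by
  apply nrm_le
  · intro F hF
    exact (Finset.sum_le_sum fun i _ => h i).trans (le_nrm1 h0 h1 y hF)
  · intro F hF
    exact (mul_le_mul_of_nonneg_left (Finset.sum_le_sum fun i _ => h i) h0.le).trans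
      (le_nrm2 h0 h1 y hF)

end Norm

/-- `c₀₀`, to be normed by `nrm θ`, `θ ∈ (0,1)`. -/
def C00 (_θ : Set.Ioo (0 : ℝ) 1) : Type := ℕ →₀ ℝ

section Space

variable {θ : Set.Ioo (0 : ℝ) 1}

noncomputable instance : AddCommGroup (C00 θ) := inferInstanceAs (AddCommGroup (ℕ →₀ ℝ))
noncomputable instance : Module ℝ (C00 θ) := inferInstanceAs (Module ℝ (ℕ →₀ ℝ))
noncomputable instance : Norm (C00 θ) := ⟨fun x => nrm θ (x : ℕ →₀ ℝ)⟩

/-- The finitely supported function underlying an element of `C00`. -/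
noncomputable def toF : C00 θ →ₗ[ℝ] (ℕ →₀ ℝ) := LinearMap.id

/-- The element of `C00` given by a finitely supported function. -/
noncomputable def ofF : (ℕ →₀ ℝ) →ₗ[ℝ] C00 θ := LinearMap.id

@[simp] lemma toF_ofF (x : ℕ →₀ ℝ) : toF (ofF x : C00 θ) = x := rfl
@[simp] lemma ofF_toF (x : C00 θ) : ofF (toF x) = x := rfl

lemma norm_def (x : C00 θ) : ‖x‖ = nrm θ (toF x) := rfl

lemma norm_ofF (x : ℕ →₀ ℝ) : ‖(ofF x : C00 θ)‖ = nrm θ x := rfl

lemma core : NormedSpace.Core ℝ (C00 θ) where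
  norm_nonneg x := nrm_nonneg θ.2.1 θ.2.2 (toF x)
  norm_smul c x := by
    show nrm θ (toF (c • x)) = ‖c‖ * nrm θ (toF x)
    unfold nrm
    rw [Real.mul_iSup_of_nonneg (norm_nonneg c)]
    congr 1
    funext F
    rw [mul_left_comm]
    congr 1
    rw [Finset.mul_sum]
    apply Finset.sum_congr rfl
    intro i _
    rw [map_smul, Finsupp.smul_apply, smul_eq_mul, abs_mul, Real.norm_eq_abs]
  norm_triangle x y := by
    show nrm θ (toF (x + y)) ≤ nrm θ (toF x) + nrm θ (toF y)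
    have key : ∀ F : Finset ℕ, ∑ i ∈ F, |(toF (x + y)) i|
        ≤ ∑ i ∈ F, |toF x i| + ∑ i ∈ F, |toF y i| := by
      intro F
      rw [← Finset.sum_add_distrib]
      apply Finset.sum_le_sum
      intro i _
      rw [map_add, Finsupp.add_apply]
      exact abs_add_le _ _
    apply nrm_le
    · intro F hF
      exact (key F).trans (add_le_add (le_nrm1 θ.2.1 θ.2.2 _ hF) (le_nrm1 θ.2.1 θ.2.2 _ hF))
    · intro F hF
      refine (mul_le_mul_of_nonneg_left (key F) θ.2.1.le).trans ?_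
      rw [mul_add]
      exact add_le_add (le_nrm2 θ.2.1 θ.2.2 _ hF) (le_nrm2 θ.2.1 θ.2.2 _ hF)
  norm_eq_zero_iff x := by
    show nrm θ (toF x) = 0 ↔ x = 0
    constructor
    · intro h
      have : toF x = 0 := by
        ext k
        have := coord_le θ.2.1 θ.2.2 (toF x) k
        rw [h] at this
        simpa using le_antisymm this (abs_nonneg _)
      exact this
    · rintro rfl
      apply le_antisymm _ (nrm_nonneg θ.2.1 θ.2.2 _)
      apply nrm_le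
      · intro F _; simp
      · intro F _; simp

noncomputable instance : NormedAddCommGroup (C00 θ) := NormedAddCommGroup.ofCore core
noncomputable instance : NormedSpace ℝ (C00 θ) := NormedSpace.ofCore core

variable (θ) in
/-- The space. -/
abbrev XX : Type := UniformSpace.Completion (C00 θ)

/-- The inclusion of finitely supported sequences. -/
noncomputable def inc : (ℕ →₀ ℝ) →ₗ[ℝ] XX θ :=
  (UniformSpace.Completion.toComplL (𝕜 := ℝ) (E := C00 θ) : C00 θ →ₗ[ℝ] XX θ).comp ofF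

lemma norm_inc (x : ℕ →₀ ℝ) : ‖(inc x : XX θ)‖ = nrm θ x := by
  show ‖((ofF x : C00 θ) : XX θ)‖ = _
  rw [UniformSpace.Completion.norm_coe]; rfl

lemma exists_inc (y : XX θ) {ε : ℝ} (hε : 0 < ε) : ∃ x : ℕ →₀ ℝ, ‖y - inc x‖ < ε := by
  obtain ⟨z, hz⟩ := (UniformSpace.Completion.denseRange_coe (α := C00 θ)).exists_dist_lt y hε
  exact ⟨toF z, by rwa [dist_eq_norm] at hz⟩

/-- The coordinate functional on `C00`. -/
noncomputable def coord0 (k : ℕ) : C00 θ →L[ℝ] ℝ :=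
  LinearMap.mkContinuous ((Finsupp.lapply k : (ℕ →₀ ℝ) →ₗ[ℝ] ℝ).comp toF) 1 (fun x => by
    rw [one_mul]
    exact coord_le θ.2.1 θ.2.2 (toF x) k)

/-- The coordinate functional. -/
noncomputable def coord (k : ℕ) : XX θ →L[ℝ] ℝ :=
  (coord0 k).extend (UniformSpace.Completion.toComplL (𝕜 := ℝ) (E := C00 θ))

lemma coord_inc (k : ℕ) (x : ℕ →₀ ℝ) : coord k (inc x : XX θ) = x k := by
  unfold coord
  have := ContinuousLinearMap.extend_eq (coord0 (θ := θ) k)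
    (e := UniformSpace.Completion.toComplL (𝕜 := ℝ) (E := C00 θ))
    UniformSpace.Completion.denseRange_coe (UniformSpace.Completion.isUniformInducing_coe _)
    (ofF x)
  exact this

end Space

end Q95.Sch
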