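import Pool.Agent.Q95.SchreierA

/-!
# Averages: the upper estimate
-/

namespace Q95.Sch

open Filter Topology

lemma k_mono {k s : ℕ → ℕ} (hk : ∀ j, k (j + 1) = k j + s j) : Monotone k :=
  monotone_nat_of_le_succ fun j => by rw [hk]; exact Nat.le_add_right _ _

lemma k_strict {k s : ℕ → ℕ} (hk : ∀ j, k (j + 1) = k j + s j) (hs : ∀ j, 0 < s j) :
    StrictMono k := strictMono_nat_of_lt_succ fun j => by rw [hk]; have := hs j; omega

lemma avg_bound {k s : ℕ → ℕ} (hk : ∀ j, k (j + 1) = k j + s j) (hs : ∀ j, 0 < s j)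
    {c : ℕ → ℝ} (hc0 : ∀ i, 0 ≤ c i) {i0 : ℕ} (hci : ∀ i < i0, c i = 0) {C' τ C a : ℝ}
    (hC' : ∀ i, c i ≤ C') (hτ : 0 ≤ τ) (hC : 0 ≤ C)
    (hsum : ∀ I : Finset ℕ, ∑ i ∈ I, c i ≤ τ * I.card + C * a)
    (hgrow : ∀ j, i0 < k j → 2 ^ j * a ≤ s j) {b : ℕ → ℝ} {β : ℝ} (hb0 : ∀ j, 0 ≤ b j)
    (hbβ : ∀ j, b j ≤ β) (n : ℕ) :
    ∑ j ∈ Finset.range n, b j * ((1 / s j) * ∑ i ∈ Finset.Ico (k j) (k (j + 1)), c i)
      ≤ τ * ∑ j ∈ Finset.range n, b j + β * (C' + 2 * C) := by
  have hC'0 : 0 ≤ C' := (hc0 0).trans (hC' 0)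
  have hβ0 : 0 ≤ β := (hb0 0).trans (hbβ 0)
  have hcard : ∀ j, (Finset.Ico (k j) (k (j + 1))).card = s j := by
    intro j; rw [Nat.card_Ico, hk]; omega
  set ind : ℕ → ℝ := fun j => if k j ≤ i0 ∧ i0 < k (j + 1) then 1 else 0 with hind
  have hind0 : ∀ j, 0 ≤ ind j := by intro j; simp only [hind]; split <;> norm_num
  have term : ∀ j, (1 / (s j : ℝ)) * ∑ i ∈ Finset.Ico (k j) (k (j + 1)), c i
      ≤ τ + C' * ind j + C * (1 / 2) ^ j := by
    intro j
    have hsj : (0 : ℝ) < s j := by exact_mod_cast hs j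
    have hp : (0 : ℝ) ≤ C * (1 / 2) ^ j := by positivity
    rcases Nat.lt_or_ge i0 (k j) with h1 | h1
    · -- the block starts after `i0`
      have h2 := hsum (Finset.Ico (k j) (k (j + 1)))
      rw [hcard] at h2
      have h3 := hgrow j h1
      have h4 : a ≤ s j * (1 / 2) ^ j := by
        rw [one_div, inv_pow, ← div_eq_mul_inv, le_div_iff₀ (by positivity)]
        linarith
      have h5 : C * a ≤ C * (s j * (1 / 2) ^ j) := mul_le_mul_of_nonneg_left h4 hC
      have h6 : 0 ≤ C' * ind j := mul_nonneg hC'0 (hind0 j)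
      rw [one_div, inv_mul_le_iff₀ hsj]
      nlinarith [mul_nonneg hsj.le h6]
    · rcases Nat.lt_or_ge i0 (k (j + 1)) with h2 | h2
      · -- the block contains `i0`
        have hi : ind j = 1 := by simp [hind, h1, h2]
        rw [hi, mul_one]
        have h3 : ∑ i ∈ Finset.Ico (k j) (k (j + 1)), c i ≤ s j * C' := by
          calc _ ≤ ∑ _i ∈ Finset.Ico (k j) (k (j + 1)), C' :=
                Finset.sum_le_sum fun i _ => hC' i
            _ = s j * C' := by rw [Finset.sum_const, hcard, nsmul_eq_mul]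
        have h4 : (1 / (s j : ℝ)) * ∑ i ∈ Finset.Ico (k j) (k (j + 1)), c i ≤ C' := by
          rw [one_div, inv_mul_le_iff₀ hsj]; exact h3
        linarith
      · -- the block ends before `i0`
        have h3 : ∑ i ∈ Finset.Ico (k j) (k (j + 1)), c i = 0 := by
          apply Finset.sum_eq_zero
          intro i hi
          exact hci i (lt_of_lt_of_le (Finset.mem_Ico.mp hi).2 h2)
        rw [h3, mul_zero]
        have h6 : 0 ≤ C' * ind j := mul_nonneg hC'0 (hind0 j)
        linarith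
  have hindsum : ∑ j ∈ Finset.range n, b j * ind j ≤ β := by
    by_cases hex : ∃ j ∈ Finset.range n, k j ≤ i0 ∧ i0 < k (j + 1)
    · obtain ⟨j0, hj0, h1, h2⟩ := hex
      have : ∀ j ∈ Finset.range n, j ≠ j0 → b j * ind j = 0 := by
        intro j _ hne
        have : ¬ (k j ≤ i0 ∧ i0 < k (j + 1)) := by
          rintro ⟨h3, h4⟩
          rcases lt_or_gt_of_ne hne with h | h
          · have := k_mono hk (show j + 1 ≤ j0 by omega)
            omega
          · have := k_mono hk (show j0 + 1 ≤ j by omega)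
            omega
        simp [hind, this]
      rw [Finset.sum_eq_single_of_mem j0 hj0 this]
      have : ind j0 = 1 := by simp [hind, h1, h2]
      rw [this, mul_one]
      exact hbβ j0
    · push Not at hex
      have : ∑ j ∈ Finset.range n, b j * ind j = 0 := by
        apply Finset.sum_eq_zero
        intro j hj
        have : ¬ (k j ≤ i0 ∧ i0 < k (j + 1)) := fun h => absurd h.2 (not_lt.mpr (hex j hj h.1))
        simp [hind, this]
      rw [this]; exact hβ0
  have hgeom : ∑ j ∈ Finset.range n, b j * (1 / 2 : ℝ) ^ j ≤ β * 2 := by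
    calc ∑ j ∈ Finset.range n, b j * (1 / 2 : ℝ) ^ j
        ≤ ∑ j ∈ Finset.range n, β * (1 / 2 : ℝ) ^ j :=
          Finset.sum_le_sum fun j _ => mul_le_mul_of_nonneg_right (hbβ j) (by positivity)
      _ = β * ∑ j ∈ Finset.range n, (1 / 2 : ℝ) ^ j := by rw [Finset.mul_sum]
      _ ≤ β * 2 := by
          apply mul_le_mul_of_nonneg_left _ hβ0
          rw [geom_sum_eq (by norm_num)]
          have : (0 : ℝ) < (1 / 2) ^ n := by positivity
          rw [div_le_iff_of_neg (by norm_num)]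
          linarith
  calc ∑ j ∈ Finset.range n, b j * ((1 / s j) * ∑ i ∈ Finset.Ico (k j) (k (j + 1)), c i)
      ≤ ∑ j ∈ Finset.range n, b j * (τ + C' * ind j + C * (1 / 2) ^ j) :=
        Finset.sum_le_sum fun j _ => mul_le_mul_of_nonneg_left (term j) (hb0 j)
    _ = τ * ∑ j ∈ Finset.range n, b j + C' * ∑ j ∈ Finset.range n, b j * ind j
        + C * ∑ j ∈ Finset.range n, b j * (1 / 2 : ℝ) ^ j := by
        rw [Finset.mul_sum, Finset.mul_sum, Finset.mul_sum, ← Finset.sum_add_distrib,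
          ← Finset.sum_add_distrib]
        apply Finset.sum_congr rfl
        intro j _; ring
    _ ≤ _ := by nlinarith [mul_le_mul_of_nonneg_left hindsum hC'0,
        mul_le_mul_of_nonneg_left hgeom hC]

variable {θ : ℝ}

/-- The hypotheses on a block sequence. -/
structure Blocks (θ : ℝ) (r : ℝ) (N : ℕ → ℕ) (v : ℕ → ℕ →₀ ℝ) : Prop where
  mono : Monotone N
  supp : ∀ i g, v i g ≠ 0 → N i ≤ g ∧ g < N (i + 1)
  norm : ∀ i, nrm θ (v i) ≤ r

/-- The mass of the `i`-th vector on `G`. -/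
noncomputable def mass (v : ℕ → ℕ →₀ ℝ) (G : Finset ℕ) (i : ℕ) : ℝ := ∑ g ∈ G, |v i g|

lemma mass_nonneg (v : ℕ → ℕ →₀ ℝ) (G : Finset ℕ) (i : ℕ) : 0 ≤ mass v G i :=
  Finset.sum_nonneg fun _ _ => abs_nonneg _

lemma mass_S1 (h0 : 0 < θ) (h1 : θ < 1) {r : ℝ} {N : ℕ → ℕ} {v : ℕ → ℕ →₀ ℝ}
    (hB : Blocks θ r N v) {G : Finset ℕ} (hG : S1 G) (i : ℕ) : mass v G i ≤ r :=
  (le_nrm1 h0 h1 (v i) hG).trans (hB.norm i)

lemma mass_S2 (h0 : 0 < θ) (h1 : θ < 1) {r : ℝ} {N : ℕ → ℕ} {v : ℕ → ℕ →₀ ℝ}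
    (hB : Blocks θ r N v) {G : Finset ℕ} (hG : S2 G) (i : ℕ) : mass v G i ≤ r / θ := by
  rw [le_div_iff₀ h0, mul_comm]
  exact (le_nrm2 h0 h1 (v i) hG).trans (hB.norm i)

lemma one_block {r : ℝ} {N : ℕ → ℕ} {v : ℕ → ℕ →₀ ℝ} (hB : Blocks θ r N v) {i i' g : ℕ}
    (h : v i g ≠ 0) (h' : v i' g ≠ 0) : i = i' := by
  have a := hB.supp i g h
  have b := hB.supp i' g h'
  rcases Nat.lt_trichotomy i i' with hl | hl | hl
  · have := hB.mono (show i + 1 ≤ i' by omega); omega
  · exact hl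
  · have := hB.mono (show i' + 1 ≤ i by omega); omega

lemma sum_mass_S1 (h0 : 0 < θ) (h1 : θ < 1) {r : ℝ} (hr : 0 ≤ r) {N : ℕ → ℕ}
    {v : ℕ → ℕ →₀ ℝ} (hB : Blocks θ r N v) (G : Finset ℕ) (I : Finset ℕ) :
    ∑ i ∈ I, mass v G i ≤ r * G.card := by
  unfold mass
  rw [Finset.sum_comm]
  calc ∑ g ∈ G, ∑ i ∈ I, |v i g| ≤ ∑ _g ∈ G, r := by
        apply Finset.sum_le_sum
        intro g _
        by_cases hex : ∃ i0 ∈ I, v i0 g ≠ 0
        · obtain ⟨i0, hi0, hne⟩ := hex
          rw [Finset.sum_eq_single_of_mem i0 hi0]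
          · exact (coord_le h0 h1 (v i0) g).trans (hB.norm i0)
          · intro i _ hii
            by_contra hcc
            exact hii (one_block hB (fun h => hcc (by rw [h, abs_zero])) hne)
        · push Not at hex
          rw [Finset.sum_eq_zero]
          · exact hr
          · intro i hi; rw [hex i hi, abs_zero]
    _ = r * G.card := by rw [Finset.sum_const, nsmul_eq_mul, mul_comm]

lemma sum_mass_S2 (h0 : 0 < θ) (h1 : θ < 1) {r : ℝ} (hr : 0 ≤ r) {N : ℕ → ℕ}
    {v : ℕ → ℕ →₀ ℝ} (hB : Blocks θ r N v) {G : Finset ℕ} {p : ℕ} {c : ℕ → ℕ}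
    (hc : ∀ g ∈ G, ∀ g' ∈ G, g ≤ g' → c g ≤ c g') (hp : ∀ g ∈ G, c g < p)
    (hS : ∀ q, S1 (G.filter (fun g => c g = q))) (hG : S2 G) (I : Finset ℕ) :
    ∑ i ∈ I, mass v G i ≤ r * I.card + (r / θ) * p := by
  classical
  -- bad indices
  set bad : ℕ → Prop := fun i => ∃ g ∈ G, ∃ g' ∈ G, N i ≤ g ∧ g' < N (i + 1) ∧ c g < c g'
    with hbad
  have good : ∀ i, ¬ bad i → mass v G i ≤ r := by
    intro i hi
    set G' := G.filter (fun g => N i ≤ g ∧ g < N (i + 1)) with hG'
    have e : mass v G i = ∑ g ∈ G', |v i g| := by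
      unfold mass
      rw [← Finset.sum_subset (Finset.filter_subset _ _ : G' ⊆ G)]
      intro g hg hg'
      by_contra hne
      apply hg'
      rw [Finset.mem_filter]
      exact ⟨hg, hB.supp i g (fun h => hne (by rw [h, abs_zero]))⟩
    rw [e]
    refine le_trans (le_nrm1 h0 h1 (v i) ?_) (hB.norm i)
    rcases G'.eq_empty_or_nonempty with hem | ⟨g0, hg0⟩
    · rw [hem]; exact S1_empty
    · apply (hS (c g0)).mono
      intro g hg
      rw [hG', Finset.mem_filter] at hg hg0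
      rw [Finset.mem_filter]
      refine ⟨hg.1, ?_⟩
      by_contra hne
      rcases lt_or_gt_of_ne hne with h | h
      · exact hi ⟨g, hg.1, g0, hg0.1, hg.2.1, hg0.2.2, h⟩
      · exact hi ⟨g0, hg0.1, g, hg.1, hg0.2.1, hg.2.2, h⟩
  -- the bad ones are at most `p`
  have hcardbad : (I.filter bad).card ≤ p := by
    have hsel : ∀ i ∈ I.filter bad, ∃ g ∈ G, ∃ g' ∈ G, N i ≤ g ∧ g' < N (i + 1) ∧ c g < c g' :=
      fun i hi => (Finset.mem_filter.mp hi).2
    choose! g hgG g' hg'G h3 h4 h5 using hsel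
    have hinj : Set.InjOn (fun i => c (g i)) (I.filter bad : Finset ℕ) := by
      have key : ∀ i ∈ I.filter bad, ∀ i' ∈ I.filter bad, i < i' → c (g i) < c (g i') := by
        intro i hi i' hi' hlt
        refine lt_of_lt_of_le (h5 i hi) (hc _ (hg'G i hi) _ (hgG i' hi') ?_)
        have := hB.mono (show i + 1 ≤ i' by omega)
        have a1 := h4 i hi
        have a2 := h3 i' hi'
        omega
      intro i hi i' hi' he
      have he' : c (g i) = c (g i') := he
      rcases Nat.lt_trichotomy i i' with hl | hl | hl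
      · exact absurd he' (key i hi i' hi' hl).ne
      · exact hl
      · exact absurd he' (key i' hi' i hi hl).ne'
    have hsub : (I.filter bad).image (fun i => c (g i)) ⊆ Finset.range p := by
      intro q hq
      obtain ⟨i, hi, rfl⟩ := Finset.mem_image.mp hq
      exact Finset.mem_range.mpr (hp _ (hgG i hi))
    have := Finset.card_le_card hsub
    rwa [Finset.card_image_of_injOn hinj, Finset.card_range] at this
  have split : ∑ i ∈ I, mass v G i = ∑ i ∈ I.filter bad, mass v G i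
      + ∑ i ∈ I.filter (fun i => ¬ bad i), mass v G i :=
    (Finset.sum_filter_add_sum_filter_not I bad _).symm
  rw [split]
  have b1 : ∑ i ∈ I.filter bad, mass v G i ≤ (r / θ) * p := by
    calc _ ≤ ∑ _i ∈ I.filter bad, r / θ := Finset.sum_le_sum fun i _ => mass_S2 h0 h1 hB hG i
      _ = (r / θ) * (I.filter bad).card := by rw [Finset.sum_const, nsmul_eq_mul, mul_comm]
      _ ≤ (r / θ) * p := by
          apply mul_le_mul_of_nonneg_left _ (by positivity)
          exact_mod_cast hcardbad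
  have b2 : ∑ i ∈ I.filter (fun i => ¬ bad i), mass v G i ≤ r * I.card := by
    calc _ ≤ ∑ _i ∈ I.filter (fun i => ¬ bad i), r :=
          Finset.sum_le_sum fun i hi => good i (Finset.mem_filter.mp hi).2
      _ = r * (I.filter (fun i => ¬ bad i)).card := by
          rw [Finset.sum_const, nsmul_eq_mul, mul_comm]
      _ ≤ r * I.card := by
          apply mul_le_mul_of_nonneg_left _ hr
          exact_mod_cast Finset.card_filter_le _ _
  linarith

lemma abs_comb_le (v : ℕ → ℕ →₀ ℝ) (k s : ℕ → ℕ) (b : ℕ → ℝ) (n : ℕ) (F : Finset ℕ) :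
    ∑ g ∈ F, |(∑ j ∈ Finset.range n, b j • ((1 / (s j : ℝ)) •
        ∑ i ∈ Finset.Ico (k j) (k (j + 1)), v i)) g|
      ≤ ∑ j ∈ Finset.range n, |b j| * ((1 / s j) *
        ∑ i ∈ Finset.Ico (k j) (k (j + 1)), mass v F i) := by
  have h1 : ∀ g, |(∑ j ∈ Finset.range n, b j • ((1 / (s j : ℝ)) •
        ∑ i ∈ Finset.Ico (k j) (k (j + 1)), v i)) g|
      ≤ ∑ j ∈ Finset.range n, |b j| * ((1 / s j) *
        ∑ i ∈ Finset.Ico (k j) (k (j + 1)), |v i g|) := by
    intro g
    rw [Finsupp.finsetSum_apply]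
    refine (Finset.abs_sum_le_sum_abs _ _).trans (Finset.sum_le_sum fun j _ => ?_)
    rw [Finsupp.smul_apply, Finsupp.smul_apply, smul_eq_mul, smul_eq_mul, abs_mul, abs_mul,
      Finsupp.finsetSum_apply, abs_of_nonneg (by positivity : (0 : ℝ) ≤ 1 / s j)]
    gcongr
    exact Finset.abs_sum_le_sum_abs _ _
  refine (Finset.sum_le_sum fun g _ => h1 g).trans (le_of_eq ?_)
  rw [Finset.sum_comm]
  apply Finset.sum_congr rfl
  intro j _
  rw [← Finset.mul_sum, ← Finset.mul_sum]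
  congr 2
  rw [Finset.sum_comm]
  rfl

theorem upper (h0 : 0 < θ) (h1 : θ < 1) {r : ℝ} (hr : 0 ≤ r) {N : ℕ → ℕ}
    {v : ℕ → ℕ →₀ ℝ} (hB : Blocks θ r N v) {k s : ℕ → ℕ} (hk : ∀ j, k (j + 1) = k j + s j)
    (hs : ∀ j, 0 < s j) (hgrow : ∀ j, 0 < k j → 2 ^ j * N (k j) ≤ s j) {b : ℕ → ℝ} {β : ℝ}
    (hbβ : ∀ j, |b j| ≤ β) (n : ℕ) :
    nrm θ (∑ j ∈ Finset.range n, b j • ((1 / (s j : ℝ)) •
        ∑ i ∈ Finset.Ico (k j) (k (j + 1)), v i))
      ≤ θ * r * ∑ j ∈ Finset.range n, |b j| + 3 * r * β := by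
  classical
  have hβ0 : 0 ≤ β := (abs_nonneg _).trans (hbβ 0)
  have hB0 : 0 ≤ ∑ j ∈ Finset.range n, |b j| := Finset.sum_nonneg fun _ _ => abs_nonneg _
  have hθr : 0 ≤ θ * r * ∑ j ∈ Finset.range n, |b j| := by positivity
  have h3 : 0 ≤ 3 * r * β := by positivity
  -- the first index touched by `F`
  have hfirst : ∀ F : Finset ℕ, (∃ i, ∃ g ∈ F, g < N (i + 1)) →
      ∃ i0, (∀ i < i0, mass v F i = 0) ∧ (∃ g ∈ F, g < N (i0 + 1)) := by
    intro F hex
    refine ⟨Nat.find hex, fun i hi => ?_, Nat.find_spec hex⟩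
    have hmin := Nat.find_min hex hi
    push Not at hmin
    apply Finset.sum_eq_zero
    intro g hg
    by_contra hne
    have := (hB.supp i g (fun h => hne (by rw [h, abs_zero]))).2
    exact absurd this (not_lt.mpr (hmin g hg))
  have hnone : ∀ F : Finset ℕ, ¬ (∃ i, ∃ g ∈ F, g < N (i + 1)) → ∀ i, mass v F i = 0 := by
    intro F hex i
    push Not at hex
    apply Finset.sum_eq_zero
    intro g hg
    by_contra hne
    have := (hB.supp i g (fun h => hne (by rw [h, abs_zero]))).2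
    exact absurd this (not_lt.mpr (hex i g hg))
  have hg : ∀ i0 : ℕ, ∀ j, i0 < k j → (2 : ℝ) ^ j * (N (i0 + 1) : ℝ) ≤ s j := by
    intro i0 j hj
    have a1 := hgrow j (by omega)
    have a2 : N (i0 + 1) ≤ N (k j) := hB.mono (by omega)
    have a3 : 2 ^ j * N (i0 + 1) ≤ s j := (Nat.mul_le_mul_left _ a2).trans a1
    exact_mod_cast a3
  apply nrm_le
  · intro F hF
    refine (abs_comb_le v k s b n F).trans ?_
    by_cases hex : ∃ i, ∃ g ∈ F, g < N (i + 1)
    · obtain ⟨i0, hz, g0, hg0, hgN⟩ := hfirst F hex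
      have hcard : (F.card : ℝ) ≤ N (i0 + 1) := by
        have := hF g0 hg0
        exact_mod_cast (by omega : F.card ≤ N (i0 + 1))
      have := avg_bound hk hs (mass_nonneg v F) hz (C' := r) (τ := 0) (C := r)
        (a := N (i0 + 1)) (mass_S1 h0 h1 hB hF) le_rfl hr (fun I => by
          have := sum_mass_S1 h0 h1 hr hB F I
          have h5 := mul_le_mul_of_nonneg_left hcard hr
          linarith) (hg i0) (b := fun j => |b j|) (fun j => abs_nonneg _) hbβ n
      linarith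
    · have hz := hnone F hex
      simp only [hz, Finset.sum_const_zero, mul_zero]
      linarith
  · intro F hF
    refine (mul_le_mul_of_nonneg_left (abs_comb_le v k s b n F) h0.le).trans ?_
    by_cases hex : ∃ i, ∃ g ∈ F, g < N (i + 1)
    · obtain ⟨i0, hz, g0, hg0, hgN⟩ := hfirst F hex
      have hF' := hF
      obtain ⟨p, c, hc, hp, hS⟩ := hF
      have hp' : (p : ℝ) ≤ N (i0 + 1) := by
        have := (hp g0 hg0).2
        exact_mod_cast (by omega : p ≤ N (i0 + 1))
      have := avg_bound hk hs (mass_nonneg v F) hz (C' := r / θ) (τ := r) (C := r / θ)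
        (a := N (i0 + 1)) (mass_S2 h0 h1 hB hF') hr (by positivity) (fun I => by
          have := sum_mass_S2 h0 h1 hr hB hc (fun g hg => (hp g hg).1) hS hF' I
          have h5 := mul_le_mul_of_nonneg_left hp' (by positivity : 0 ≤ r / θ)
          linarith) (hg i0) (b := fun j => |b j|) (fun j => abs_nonneg _) hbβ n
      have h6 := mul_le_mul_of_nonneg_left this h0.le
      have h7 : θ * (r / θ) = r := by field_simp
      have h8 : θ * (β * (r / θ + 2 * (r / θ))) = 3 * r * β := by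
        calc θ * (β * (r / θ + 2 * (r / θ))) = 3 * β * (θ * (r / θ)) := by ring
          _ = 3 * r * β := by rw [h7]; ring
      rw [mul_add, h8] at h6
      linarith
    · have hz := hnone F hex
      simp only [hz, Finset.sum_const_zero, mul_zero]
      linarith

end Q95.Sch
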