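import Pool.Agent.Q95.SchreierB

/-!
# Weakly convergent sequences of the space: the upper estimate
-/

namespace Q95.Sch

open Filter Topology

variable {θ : Set.Ioo (0 : ℝ) 1}

/-- The projection on the first `N` coordinates. -/
noncomputable def proj (N : ℕ) : XX θ →L[ℝ] XX θ :=
  ∑ i ∈ Finset.range N, (coord i).smulRight (inc (Finsupp.single i 1) : XX θ)

/-- Truncation of a finitely supported sequence. -/
noncomputable def trunc (N : ℕ) (z : ℕ →₀ ℝ) : ℕ →₀ ℝ := z.filter (fun g => g < N)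

lemma trunc_apply (N : ℕ) (z : ℕ →₀ ℝ) (g : ℕ) : trunc N z g = if g < N then z g else 0 := by
  unfold trunc
  rw [Finsupp.filter_apply]

lemma proj_apply (N : ℕ) (y : XX θ) :
    proj N y = ∑ i ∈ Finset.range N, coord i y • (inc (Finsupp.single i 1) : XX θ) := by
  simp [proj]

lemma proj_inc (N : ℕ) (z : ℕ →₀ ℝ) : proj N (inc z : XX θ) = inc (trunc N z) := by
  rw [proj_apply]
  have : trunc N z = ∑ i ∈ Finset.range N, z i • Finsupp.single i (1 : ℝ) := by
    ext g
    rw [trunc_apply, Finsupp.finsetSum_apply]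
    simp only [Finsupp.smul_apply, Finsupp.single_apply, smul_eq_mul, mul_ite, mul_one, mul_zero]
    rw [Finset.sum_ite_eq']
    simp
  rw [this, map_sum]
  apply Finset.sum_congr rfl
  intro i _
  rw [coord_inc, map_smul]

lemma norm_proj_le (N : ℕ) (y : XX θ) : ‖proj N y‖ ≤ ‖y‖ := by
  induction y using UniformSpace.Completion.induction_on with
  | hp =>
    exact isClosed_le ((proj N).continuous.norm) continuous_norm
  | ih a =>
    have e : (a : XX θ) = inc (toF a) := rfl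
    rw [e, proj_inc, norm_inc, norm_inc]
    apply nrm_mono θ.2.1 θ.2.2
    intro i
    rw [trunc_apply]
    split
    · exact le_rfl
    · simp

lemma extract {x : ℕ → XX θ} {l : XX θ}
    (hw : ∀ f : XX θ →L[ℝ] ℝ, Tendsto (fun k => f (x k)) atTop (𝓝 (f l)))
    (hx : ∀ k, ‖x k‖ ≤ 1) {ε : ℝ} (hε : 0 < ε) :
    ∃ N0 : ℕ, ∀ N, N0 ≤ N → ∀ K : ℕ, ∃ k, K ≤ k ∧ ∃ v : ℕ →₀ ℝ, (∀ g, v g ≠ 0 → N ≤ g) ∧
      nrm θ v ≤ 1 + ε ∧ ‖x k - l - inc v‖ ≤ ε := by
  obtain ⟨z, hz⟩ := exists_inc l (show (0 : ℝ) < ε / 8 by positivity)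
  refine ⟨z.support.sup id + 1, fun N hN K => ?_⟩
  have hPz : proj N (inc z : XX θ) = inc z := by
    rw [proj_inc]
    congr 1
    ext g
    rw [trunc_apply]
    split
    · rfl
    · rename_i hg
      by_contra hne
      have : g ∈ z.support := Finsupp.mem_support_iff.mpr (Ne.symm hne)
      have := Finset.le_sup (f := id) this
      simp only [id] at this
      omega
  have hlim : Tendsto (fun k => ‖proj N (x k) - proj N l‖) atTop (𝓝 0) := by
    have h1 : Tendsto (fun k => proj N (x k)) atTop (𝓝 (proj N l)) := by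
      simp only [proj_apply]
      apply tendsto_finsetSum
      intro i _
      exact (hw (coord i)).smul_const _
    exact (tendsto_iff_norm_sub_tendsto_zero).mp h1
  have hev : ∀ᶠ k in atTop, ‖proj N (x k) - proj N l‖ < ε / 8 :=
    hlim.eventually (gt_mem_nhds (by positivity))
  obtain ⟨k, hk, hkK⟩ := (hev.and (eventually_ge_atTop K)).exists
  obtain ⟨w, hw'⟩ := exists_inc (x k) (show (0 : ℝ) < ε / 8 by positivity)
  refine ⟨k, hkK, w - trunc N w, ?_, ?_, ?_⟩
  · intro g hg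
    by_contra hlt
    apply hg
    rw [Finsupp.sub_apply, trunc_apply, if_pos (by omega), sub_self]
  · have h1 : nrm θ (w - trunc N w) ≤ nrm θ w := by
      apply nrm_mono θ.2.1 θ.2.2
      intro g
      rw [Finsupp.sub_apply, trunc_apply]
      split
      · simp
      · simp
    have h2 : nrm θ w ≤ ‖x k‖ + ‖x k - inc w‖ := by
      rw [← norm_inc]
      have := norm_sub_le (x k) (x k - inc w)
      rwa [sub_sub_cancel] at this
    have := hx k
    linarith
  · have e : x k - l - inc (w - trunc N w)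
        = (x k - inc w) - proj N (x k - inc w) + (proj N (x k) - proj N l)
          - ((l - inc z) - proj N (l - inc z)) := by
      rw [map_sub inc, ← proj_inc N w, map_sub, map_sub, hPz]
      abel
    rw [e]
    have a1 := norm_proj_le N (x k - inc w)
    have a2 := norm_proj_le N (l - inc z)
    have a3 := norm_sub_le ((x k - inc w) - proj N (x k - inc w) + (proj N (x k) - proj N l))
      ((l - inc z) - proj N (l - inc z))
    have a4 := norm_add_le ((x k - inc w) - proj N (x k - inc w)) (proj N (x k) - proj N l)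
    have a5 := norm_sub_le (x k - inc w) (proj N (x k - inc w))
    have a6 := norm_sub_le (l - inc z) (proj N (l - inc z))
    linarith

/-- The upper estimate for a suitable sparse set of indices. -/
theorem upperX {x : ℕ → XX θ} {l : XX θ}
    (hw : ∀ f : XX θ →L[ℝ] ℝ, Tendsto (fun k => f (x k)) atTop (𝓝 (f l)))
    (hx : ∀ k, ‖x k‖ ≤ 1) {ε : ℝ} (hε : 0 < ε) :
    ∃ m : ℕ → ℕ, StrictMono m ∧ 0 < m 0 ∧ ∀ (k : ℕ → ℕ), (∀ j, k (j + 1) = k j + m (k j)) →
      ∀ (b : ℕ → ℝ) (β : ℝ) (n : ℕ), (∀ j, |b j| ≤ β) → ∑ j ∈ Finset.range n, b j = 0 →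
      ∑ j ∈ Finset.range n, |b j| ≤ 2 →
      ‖∑ j ∈ Finset.range n, b j • ((1 / (m (k j) : ℝ)) •
        ∑ i ∈ Finset.Ico (k j) (k (j + 1)), x (m i))‖ ≤ 2 * θ * (1 + ε) + 3 * (1 + ε) * β + 2 * ε := by
  obtain ⟨N0, hN0⟩ := extract hw hx hε
  have hN0' : ∀ (N : ℕ) (K : ℕ), ∃ k, ∃ v : ℕ →₀ ℝ, N0 ≤ N → (K ≤ k ∧ (∀ g, v g ≠ 0 → N ≤ g) ∧
      nrm θ v ≤ 1 + ε ∧ ‖x k - l - inc v‖ ≤ ε) := by
    intro N K
    by_cases hN : N0 ≤ N
    · obtain ⟨k, h1, v, h2⟩ := hN0 N hN K
      exact ⟨k, v, fun _ => ⟨h1, h2⟩⟩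
    · exact ⟨0, 0, fun h => absurd h hN⟩
  choose κ ν hκν using hN0'
  -- the state `(N, K)`
  let st : ℕ → ℕ × ℕ := fun i => Nat.rec (N0, 1) (fun i q =>
    (max q.1 ((ν q.1 q.2).support.sup id + 1),
      max (κ q.1 q.2 + 1) (2 ^ (i + 1) * max q.1 ((ν q.1 q.2).support.sup id + 1)))) i
  set N : ℕ → ℕ := fun i => (st i).1 with hN
  set K : ℕ → ℕ := fun i => (st i).2 with hK
  set m : ℕ → ℕ := fun i => κ (N i) (K i) with hm
  set v : ℕ → ℕ →₀ ℝ := fun i => ν (N i) (K i) with hv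
  have hNs : ∀ i, N (i + 1) = max (N i) ((v i).support.sup id + 1) := fun i => rfl
  have hKs : ∀ i, K (i + 1) = max (m i + 1) (2 ^ (i + 1) * N (i + 1)) := fun i => rfl
  have hNmono : Monotone N := monotone_nat_of_le_succ fun i => by rw [hNs]; exact le_max_left _ _
  have hNge : ∀ i, N0 ≤ N i := fun i => hNmono (Nat.zero_le i)
  have hprop : ∀ i, K i ≤ m i ∧ (∀ g, v i g ≠ 0 → N i ≤ g) ∧ nrm θ (v i) ≤ 1 + ε ∧
      ‖x (m i) - l - inc (v i)‖ ≤ ε := fun i => hκν (N i) (K i) (hNge i)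
  have hmono : StrictMono m := strictMono_nat_of_lt_succ fun i => by
    have h1 := (hprop (i + 1)).1
    rw [hKs] at h1
    have := le_trans (le_max_left _ _) h1
    omega
  have hm0 : 0 < m 0 := (hprop 0).1
  have hgrow : ∀ i, 0 < i → 2 ^ i * N i ≤ m i := by
    intro i hi
    obtain ⟨i', rfl⟩ : ∃ i', i = i' + 1 := ⟨i - 1, by omega⟩
    have h1 := (hprop (i' + 1)).1
    rw [hKs] at h1
    exact le_trans (le_max_right _ _) h1
  have hB : Blocks (θ : ℝ) (1 + ε) N v :=
    { mono := hNmono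
      supp := by
        intro i g hg
        refine ⟨(hprop i).2.1 g hg, ?_⟩
        have h1 : g ∈ (v i).support := Finsupp.mem_support_iff.mpr hg
        have h2 := Finset.le_sup (f := id) h1
        have h3 := le_max_right (N i) ((v i).support.sup id + 1)
        rw [← hNs] at h3
        simp only [id] at h2
        omega
      norm := fun i => (hprop i).2.2.1 }
  refine ⟨m, hmono, hm0, fun k hk b β n hbβ hsum habs => ?_⟩
  have hspos : ∀ j, 0 < m (k j) := fun j => lt_of_lt_of_le hm0 (hmono.monotone (Nat.zero_le _))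
  have hkstrict : StrictMono k := k_strict (s := fun j => m (k j)) hk hspos
  have hjk : ∀ j, j ≤ k j := fun j => hkstrict.id_le j
  have hup := upper θ.2.1 θ.2.2 (by positivity : (0 : ℝ) ≤ 1 + ε) hB (s := fun j => m (k j)) hk
    hspos (fun j hj => by
      have h1 := hgrow (k j) hj
      have h2 : 2 ^ j ≤ 2 ^ (k j) := Nat.pow_le_pow_right (by norm_num) (hjk j)
      exact (Nat.mul_le_mul_right _ h2).trans h1) hbβ n
  set e : ℕ → XX θ := fun i => x (m i) - l - inc (v i) with he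
  have hxe : ∀ i, x (m i) = l + inc (v i) + e i := by intro i; simp [he]
  have hcard : ∀ j, ((Finset.Ico (k j) (k (j + 1))).card : ℝ) = m (k j) := by
    intro j; rw [Nat.card_Ico, hk]; simp
  have hdecomp : ∑ j ∈ Finset.range n, b j • ((1 / (m (k j) : ℝ)) •
        ∑ i ∈ Finset.Ico (k j) (k (j + 1)), x (m i))
      = inc (∑ j ∈ Finset.range n, b j • ((1 / (m (k j) : ℝ)) •
        ∑ i ∈ Finset.Ico (k j) (k (j + 1)), v i))
        + ∑ j ∈ Finset.range n, b j • ((1 / (m (k j) : ℝ)) •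
        ∑ i ∈ Finset.Ico (k j) (k (j + 1)), e i) := by
    have h1 : ∀ j, b j • ((1 / (m (k j) : ℝ)) •
        ∑ i ∈ Finset.Ico (k j) (k (j + 1)), x (m i))
        = b j • l + (b j • ((1 / (m (k j) : ℝ)) •
          ∑ i ∈ Finset.Ico (k j) (k (j + 1)), (inc (v i) : XX θ))
          + b j • ((1 / (m (k j) : ℝ)) • ∑ i ∈ Finset.Ico (k j) (k (j + 1)), e i)) := by
      intro j
      have h2 : ∑ i ∈ Finset.Ico (k j) (k (j + 1)), x (m i)
          = (m (k j) : ℝ) • l + (∑ i ∈ Finset.Ico (k j) (k (j + 1)), (inc (v i) : XX θ)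
            + ∑ i ∈ Finset.Ico (k j) (k (j + 1)), e i) := by
        rw [← hcard j]
        simp only [hxe]
        rw [Finset.sum_add_distrib, Finset.sum_add_distrib, Finset.sum_const, ← Nat.cast_smul_eq_nsmul ℝ]
        abel
      have hne : (m (k j) : ℝ) ≠ 0 := by exact_mod_cast (hspos j).ne'
      have h3 : (1 / (m (k j) : ℝ)) • ((m (k j) : ℝ) • l) = l := by
        rw [smul_smul, one_div, inv_mul_cancel₀ hne, one_smul]
      rw [h2, smul_add (1 / (m (k j) : ℝ)), h3, smul_add (1 / (m (k j) : ℝ)), smul_add, smul_add]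
    rw [Finset.sum_congr rfl fun j _ => h1 j, Finset.sum_add_distrib, ← Finset.sum_smul, hsum,
      zero_smul, zero_add, Finset.sum_add_distrib, map_sum]
    congr 1
    apply Finset.sum_congr rfl
    intro j _
    rw [map_smul, map_smul, map_sum]
  rw [hdecomp]
  have herr : ‖∑ j ∈ Finset.range n, b j • ((1 / (m (k j) : ℝ)) •
        ∑ i ∈ Finset.Ico (k j) (k (j + 1)), e i)‖ ≤ 2 * ε := by
    calc _ ≤ ∑ j ∈ Finset.range n, ‖b j • ((1 / (m (k j) : ℝ)) •
          ∑ i ∈ Finset.Ico (k j) (k (j + 1)), e i)‖ := norm_sum_le _ _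
      _ ≤ ∑ j ∈ Finset.range n, |b j| * ε := by
          apply Finset.sum_le_sum
          intro j _
          have hpos : (0 : ℝ) < m (k j) := by exact_mod_cast hspos j
          rw [norm_smul, norm_smul, Real.norm_eq_abs, Real.norm_eq_abs,
            abs_of_nonneg (by positivity : (0 : ℝ) ≤ 1 / (m (k j) : ℝ))]
          apply mul_le_mul_of_nonneg_left _ (abs_nonneg _)
          rw [one_div, inv_mul_le_iff₀ hpos]
          calc _ ≤ ∑ i ∈ Finset.Ico (k j) (k (j + 1)), ‖e i‖ := norm_sum_le _ _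
            _ ≤ ∑ _i ∈ Finset.Ico (k j) (k (j + 1)), ε :=
              Finset.sum_le_sum fun i _ => (hprop i).2.2.2
            _ = m (k j) * ε := by rw [Finset.sum_const, nsmul_eq_mul, hcard]
      _ = (∑ j ∈ Finset.range n, |b j|) * ε := by rw [Finset.sum_mul]
      _ ≤ 2 * ε := mul_le_mul_of_nonneg_right habs hε.le
  have h1 := norm_add_le (inc (∑ j ∈ Finset.range n, b j • ((1 / (m (k j) : ℝ)) •
        ∑ i ∈ Finset.Ico (k j) (k (j + 1)), v i)) : XX θ) (∑ j ∈ Finset.range n, b j •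
        ((1 / (m (k j) : ℝ)) • ∑ i ∈ Finset.Ico (k j) (k (j + 1)), e i))
  rw [norm_inc] at h1
  have h2 : (θ : ℝ) * (1 + ε) * ∑ j ∈ Finset.range n, |b j| ≤ θ * (1 + ε) * 2 :=
    mul_le_mul_of_nonneg_left habs (mul_nonneg θ.2.1.le (by positivity))
  linarith

end Q95.Sch
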