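import Pool.Agent.Q95.SchreierC

/-!
# The lower estimate for the unit vectors
-/

namespace Q95.Sch

open Filter Topology

variable {θ : ℝ}

lemma exists_block {k s : ℕ → ℕ} (hk0 : k 0 = 0) (hk : ∀ j, k (j + 1) = k j + s j)
    (hs : ∀ j, 0 < s j) (i : ℕ) : ∃ j, k j ≤ i ∧ i < k (j + 1) := by
  have hst := k_strict hk hs
  refine ⟨Nat.findGreatest (fun j => k j ≤ i) i, ?_, ?_⟩
  · exact Nat.findGreatest_spec (P := fun j => k j ≤ i) (Nat.zero_le i) (by simp [hk0])
  · by_contra hc
    push Not at hc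
    have h1 : Nat.findGreatest (fun j => k j ≤ i) i + 1 ≤ i := (hst.id_le _).trans hc
    have := Nat.le_findGreatest (P := fun j => k j ≤ i) h1 hc
    omega

lemma block_unique {k s : ℕ → ℕ} (hk : ∀ j, k (j + 1) = k j + s j) {i j j' : ℕ}
    (h : k j ≤ i ∧ i < k (j + 1)) (h' : k j' ≤ i ∧ i < k (j' + 1)) : j = j' := by
  rcases Nat.lt_trichotomy j j' with hl | hl | hl
  · have := k_mono hk (show j + 1 ≤ j' by omega); omega
  · exact hl
  · have := k_mono hk (show j' + 1 ≤ j by omega); omega

/-- The average of the unit vectors over a block. -/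
noncomputable def yy (m k : ℕ → ℕ) (j : ℕ) : ℕ →₀ ℝ :=
  (1 / (m (k j) : ℝ)) • ∑ i ∈ Finset.Ico (k j) (k (j + 1)), Finsupp.single (m i) 1

lemma yy_apply {m k : ℕ → ℕ} (hm : StrictMono m) (j i : ℕ) :
    yy m k j (m i) = if k j ≤ i ∧ i < k (j + 1) then 1 / (m (k j) : ℝ) else 0 := by
  unfold yy
  rw [Finsupp.smul_apply, Finsupp.finsetSum_apply, smul_eq_mul]
  have : ∀ i', (Finsupp.single (m i') (1 : ℝ)) (m i) = if i' = i then 1 else 0 := by
    intro i'
    rw [Finsupp.single_apply]
    simp [hm.injective.eq_iff]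
  simp only [this]
  rw [Finset.sum_ite_eq']
  simp only [Finset.mem_Ico]
  split <;> simp

theorem lower (h0 : 0 < θ) (h1 : θ < 1) {m k : ℕ → ℕ} (hm : StrictMono m) (hm0 : 0 < m 0)
    (hk0 : k 0 = 0) (hk : ∀ j, k (j + 1) = k j + m (k j)) {t n l : ℕ} (htn : t ≤ n)
    (hn : 0 < n) (hnl : n ≤ l) (hl : l ≤ m (k t)) :
    θ * (((n : ℝ) - t) / n - (1 / l) * (((n : ℝ) - t) - (l - n)))
      ≤ nrm θ ((1 / (n : ℝ)) • ∑ j ∈ Finset.range n, yy m k j
          - (1 / (l : ℝ)) • ∑ j ∈ Finset.range l, yy m k j) := by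
  classical
  have hs : ∀ j, 0 < m (k j) := fun j => lt_of_lt_of_le hm0 (hm.monotone (Nat.zero_le _))
  have hst : StrictMono k := k_strict (s := fun j => m (k j)) hk hs
  set G : Finset ℕ := (Finset.Ico (k t) (k l)).image m with hG
  set c : ℕ → ℕ := fun g => ((Finset.Ico (t + 1) l).filter (fun j => m (k j) ≤ g)).card with hc
  have hblock : ∀ i ∈ Finset.Ico (k t) (k l), ∃ j, t ≤ j ∧ j < l ∧ k j ≤ i ∧ i < k (j + 1) := by
    intro i hi
    rw [Finset.mem_Ico] at hi
    obtain ⟨j, h2, h3⟩ := exists_block (s := fun j => m (k j)) hk0 hk hs i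
    refine ⟨j, ?_, ?_, h2, h3⟩
    · by_contra hlt
      have := hst.monotone (show j + 1 ≤ t by omega)
      omega
    · by_contra hlt
      have := hst.monotone (show l ≤ j by omega)
      omega
  have hcval : ∀ i j, t ≤ j → j < l → k j ≤ i → i < k (j + 1) → c (m i) = j - t := by
    intro i j h2 h3 h4 h5
    have : (Finset.Ico (t + 1) l).filter (fun j' => m (k j') ≤ m i) = Finset.Ico (t + 1) (j + 1) := by
      ext j'
      rw [Finset.mem_filter, Finset.mem_Ico, Finset.mem_Ico, hm.le_iff_le]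
      constructor
      · rintro ⟨⟨h6, h7⟩, h8⟩
        refine ⟨h6, ?_⟩
        by_contra hlt
        have := hst.monotone (show j + 1 ≤ j' by omega)
        omega
      · rintro ⟨h6, h7⟩
        refine ⟨⟨h6, by omega⟩, ?_⟩
        exact (hst.monotone (show j' ≤ j by omega)).trans h4
    simp only [hc, this, Nat.card_Ico]
    omega
  have hS2 : S2 G := by
    refine ⟨l, c, ?_, ?_, ?_⟩
    · intro g _ g' _ hgg
      apply Finset.card_le_card
      intro j hj
      rw [Finset.mem_filter] at hj ⊢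
      exact ⟨hj.1, hj.2.trans hgg⟩
    · intro g hg
      obtain ⟨i, hi, rfl⟩ := Finset.mem_image.mp hg
      constructor
      · calc c (m i) ≤ (Finset.Ico (t + 1) l).card := Finset.card_filter_le _ _
          _ < l := by rw [Nat.card_Ico]; omega
      · have := hm.monotone (Finset.mem_Ico.mp hi).1
        omega
    · intro q g hg
      rw [Finset.mem_filter] at hg
      obtain ⟨i, hi, rfl⟩ := Finset.mem_image.mp hg.1
      obtain ⟨j, h2, h3, h4, h5⟩ := hblock i hi
      have hq := hg.2
      rw [hcval i j h2 h3 h4 h5] at hq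
      have hsub : (G.filter (fun g => c g = q)) ⊆ (Finset.Ico (k j) (k (j + 1))).image m := by
        intro g' hg'
        rw [Finset.mem_filter] at hg'
        obtain ⟨i', hi', rfl⟩ := Finset.mem_image.mp hg'.1
        obtain ⟨j', h2', h3', h4', h5'⟩ := hblock i' hi'
        have hq' := hg'.2
        rw [hcval i' j' h2' h3' h4' h5'] at hq'
        have : j' = j := by omega
        subst this
        exact Finset.mem_image_of_mem m (Finset.mem_Ico.mpr ⟨h4', h5'⟩)
      have h6 := Finset.card_le_card hsub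
      have h7 := Finset.card_image_le (s := Finset.Ico (k j) (k (j + 1))) (f := m)
      have h9 : (Finset.Ico (k j) (k (j + 1))).card = m (k j) := by
        rw [Nat.card_Ico, hk]; omega
      rw [h9] at h7
      have h8 := hm.monotone h4
      omega
  set σ : ℕ → ℝ := fun i => if i < k n then 1 else -1 with hσ
  have hσabs : ∀ i, |σ i| = 1 := by intro i; simp only [hσ]; split <;> simp
  set φ : (ℕ →₀ ℝ) →ₗ[ℝ] ℝ := ∑ i ∈ Finset.Ico (k t) (k l), σ i • Finsupp.lapply (m i) with hφ
  have hφa : ∀ D : ℕ →₀ ℝ, φ D = ∑ i ∈ Finset.Ico (k t) (k l), σ i * D (m i) := by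
    intro D; simp [hφ, LinearMap.sum_apply]
  have hφle : ∀ D : ℕ →₀ ℝ, θ * φ D ≤ nrm θ D := by
    intro D
    refine le_trans (mul_le_mul_of_nonneg_left ?_ h0.le) (le_nrm2 h0 h1 D hS2)
    rw [hφa, hG, Finset.sum_image (fun a _ b _ h => hm.injective h)]
    apply Finset.sum_le_sum
    intro i _
    calc σ i * D (m i) ≤ |σ i * D (m i)| := le_abs_self _
      _ = |D (m i)| := by rw [abs_mul, hσabs, one_mul]
  have hφy : ∀ j, j < l → φ (yy m k j) = if t ≤ j then (if j < n then 1 else -1) else 0 := by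
    intro j hj
    rw [hφa]
    simp only [yy_apply hm]
    have hne : (m (k j) : ℝ) ≠ 0 := by exact_mod_cast (hs j).ne'
    by_cases htj : t ≤ j
    · rw [if_pos htj]
      have hsub : Finset.Ico (k j) (k (j + 1)) ⊆ Finset.Ico (k t) (k l) := by
        intro i hi
        rw [Finset.mem_Ico] at hi ⊢
        have a1 := hst.monotone htj
        have a2 := hst.monotone (show j + 1 ≤ l by omega)
        omega
      rw [← Finset.sum_subset hsub]
      · have : ∀ i ∈ Finset.Ico (k j) (k (j + 1)), σ i * (if k j ≤ i ∧ i < k (j + 1)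
            then 1 / (m (k j) : ℝ) else 0) = (if j < n then 1 else -1) * (1 / (m (k j) : ℝ)) := by
          intro i hi
          rw [Finset.mem_Ico] at hi
          rw [if_pos hi]
          congr 1
          simp only [hσ]
          by_cases hjn : j < n
          · have := hst.monotone (show j + 1 ≤ n by omega)
            rw [if_pos hjn, if_pos (by omega)]
          · have := hst.monotone (show n ≤ j by omega)
            rw [if_neg hjn, if_neg (by omega)]
        rw [Finset.sum_congr rfl this, Finset.sum_const, Nat.card_Ico, nsmul_eq_mul, hk]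
        have e1 : ((k j + m (k j) - k j : ℕ) : ℝ) = m (k j) := by simp
        rw [e1]
        field_simp
      · intro i _ hi
        rw [Finset.mem_Ico] at hi
        rw [if_neg hi, mul_zero]
    · rw [if_neg htj]
      apply Finset.sum_eq_zero
      intro i hi
      rw [Finset.mem_Ico] at hi
      rw [if_neg, mul_zero]
      intro h2
      have := hst.monotone (show j + 1 ≤ t by omega)
      omega
  have sum1 : φ (∑ j ∈ Finset.range n, yy m k j) = (n : ℝ) - t := by
    rw [map_sum]
    have e : ∀ j ∈ Finset.range n, φ (yy m k j) = if t ≤ j then (1 : ℝ) else 0 := by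
      intro j hj
      rw [Finset.mem_range] at hj
      rw [hφy j (by omega), if_pos hj]
    rw [Finset.sum_congr rfl e, ← Finset.sum_filter]
    have : (Finset.range n).filter (fun j => t ≤ j) = Finset.Ico t n := by
      ext j; simp only [Finset.mem_filter, Finset.mem_range, Finset.mem_Ico]; omega
    rw [this, Finset.sum_const, Nat.card_Ico, nsmul_eq_mul, mul_one, Nat.cast_sub htn]
  have sum2 : φ (∑ j ∈ Finset.range l, yy m k j) = ((n : ℝ) - t) - (l - n) := by
    have hsplit : ∑ j ∈ Finset.range l, yy m k j = ∑ j ∈ Finset.range n, yy m k j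
        + ∑ j ∈ Finset.Ico n l, yy m k j := (Finset.sum_range_add_sum_Ico _ hnl).symm
    rw [hsplit, map_add, sum1, map_sum]
    have e : ∀ j ∈ Finset.Ico n l, φ (yy m k j) = -1 := by
      intro j hj
      rw [Finset.mem_Ico] at hj
      rw [hφy j hj.2, if_pos (by omega), if_neg (by omega)]
    rw [Finset.sum_congr rfl e, Finset.sum_const, Nat.card_Ico, nsmul_eq_mul, Nat.cast_sub hnl]
    ring
  have key := hφle ((1 / (n : ℝ)) • ∑ j ∈ Finset.range n, yy m k j
          - (1 / (l : ℝ)) • ∑ j ∈ Finset.range l, yy m k j)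
  rw [map_sub, map_smul, map_smul, sum1, sum2, smul_eq_mul, smul_eq_mul] at key
  refine le_trans (le_of_eq ?_) key
  ring

/-- The blocks grow at least like powers of two. -/
lemma block_growth {m k : ℕ → ℕ} (hm : StrictMono m) (hm0 : 0 < m 0)
    (hk : ∀ j, k (j + 1) = k j + m (k j)) (j : ℕ) : 2 ^ j ≤ m (k j) := by
  induction j with
  | zero =>
    have := hm.monotone (Nat.zero_le (k 0))
    simpa using (by omega : 1 ≤ m (k 0))
  | succ j ih =>
    have h1 : m (k j) + m (k j) ≤ m (k (j + 1)) := by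
      rw [hk]
      have : ∀ d, m (k j) + d ≤ m (k j + d) := by
        intro d
        induction d with
        | zero => simp
        | succ d ihd =>
          have := hm (show k j + d < k j + (d + 1) by omega)
          omega
      exact this _
    rw [pow_succ]
    omega

/-- The lower estimate, in the form in which it is used. -/
theorem lower' (h0 : 0 < θ) (h1 : θ < 1) {m k : ℕ → ℕ} (hm : StrictMono m) (hm0 : 0 < m 0)
    (hk0 : k 0 = 0) (hk : ∀ j, k (j + 1) = k j + m (k j)) (Q : ℕ) (hQ : 0 < Q) (n0 : ℕ) :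
    ∃ n l : ℕ, n0 ≤ n ∧ n0 ≤ l ∧ 0 < n ∧ 0 < l ∧ θ * (2 - 4 / Q) ≤
      nrm θ ((1 / (n : ℝ)) • ∑ j ∈ Finset.range n, yy m k j
          - (1 / (l : ℝ)) • ∑ j ∈ Finset.range l, yy m k j) := by
  -- choose t large
  obtain ⟨t, ht1, ht2, ht3⟩ : ∃ t, n0 ≤ t ∧ 0 < t ∧ Q * (Q * t) ≤ 2 ^ t := by
    have key : ∀ u : ℕ, u * u ≤ 2 ^ (u + 4) := by
      intro u
      induction u with
      | zero => simp
      | succ u ih =>
        have hu : u < 2 ^ u := Nat.lt_two_pow_self
        have : 2 ^ (u + 4) = 16 * 2 ^ u := by rw [pow_add]; norm_num; ring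
        rw [show u + 1 + 4 = (u + 4) + 1 by ring, pow_succ]
        nlinarith
    refine ⟨Q * Q + n0 + 8, by omega, by omega, ?_⟩
    set t := Q * Q + n0 + 8 with ht
    -- `t * t ≤ 2 ^ t`
    have h2 : ∀ u : ℕ, 4 ≤ u → u * u ≤ 2 ^ u := by
      intro u hu
      induction u, hu using Nat.le_induction with
      | base => norm_num
      | succ u hu ih =>
        rw [pow_succ]
        nlinarith
    have h3 := h2 t (by omega)
    have h4 : Q * Q ≤ t := by omega
    calc Q * (Q * t) = (Q * Q) * t := by ring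
      _ ≤ t * t := Nat.mul_le_mul_right _ h4
      _ ≤ 2 ^ t := h3
  have hgr := block_growth hm hm0 hk t
  have hQt : t ≤ Q * t := Nat.le_mul_of_pos_left t hQ
  have hQQt : Q * t ≤ Q * (Q * t) := Nat.le_mul_of_pos_left _ hQ
  have hpos : 0 < Q * t := Nat.mul_pos hQ ht2
  have hpos2 : 0 < Q * (Q * t) := Nat.mul_pos hQ hpos
  refine ⟨Q * t, Q * (Q * t), by omega, by omega, hpos, hpos2, ?_⟩
  refine le_trans (mul_le_mul_of_nonneg_left ?_ h0.le)
    (lower h0 h1 hm hm0 hk0 hk hQt hpos hQQt (ht3.trans hgr))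
  have hQr : (0 : ℝ) < Q := by exact_mod_cast hQ
  have htr : (0 : ℝ) < t := by exact_mod_cast ht2
  push_cast
  have e : ((Q : ℝ) * t - t) / (Q * t) - 1 / (Q * (Q * t)) * ((Q * t - t) - (Q * (Q * t) - Q * t))
      = 2 - 3 / Q + 1 / (Q * Q) := by
    field_simp
    ring
  rw [e]
  have : 0 < 1 / ((Q : ℝ) * Q) := by positivity
  have h5 : (3 : ℝ) / Q ≤ 4 / Q := by gcongr; norm_num
  linarith

end Q95.Sch
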