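import Pool.Agent.Q95.SchreierD

/-!
# The unit vectors are weakly null
-/

namespace Q95.Sch

open Filter Topology

/-- The total mass. -/
noncomputable def tot : (ℕ →₀ ℝ) →ₗ[ℝ] ℝ := Finsupp.linearCombination ℝ (fun _ : ℕ => (1 : ℝ))

lemma tot_eq (w : ℕ →₀ ℝ) : tot w = ∑ g ∈ w.support, w g := by
  simp [tot, Finsupp.linearCombination_apply, Finsupp.sum]

lemma sum_le_tot {w : ℕ →₀ ℝ} (hw : ∀ g, 0 ≤ w g) (A : Finset ℕ) : ∑ g ∈ A, w g ≤ tot w := by
  rw [tot_eq]
  calc ∑ g ∈ A, w g = ∑ g ∈ A ∩ w.support, w g := by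
        rw [← Finset.sum_subset (Finset.inter_subset_left : A ∩ w.support ⊆ A)]
        intro g hg hg'
        by_contra hne
        exact hg' (Finset.mem_inter.mpr ⟨hg, Finsupp.mem_support_iff.mpr hne⟩)
    _ ≤ _ := Finset.sum_le_sum_of_subset_of_nonneg Finset.inter_subset_right fun g _ _ => hw g

/-- Probability vectors on `L`, far out, which are small on the sets of the family `A`. -/
def HH (L : Set ℕ) (A : Finset ℕ → Prop) : Prop :=
  ∀ (N : ℕ) (η : ℝ), 0 < η → ∃ w : ℕ →₀ ℝ, (∀ g, 0 ≤ w g) ∧ (∀ g, w g ≠ 0 → g ∈ L ∧ N ≤ g) ∧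
    tot w = 1 ∧ ∀ F, A F → ∑ g ∈ F, w g ≤ η

lemma step {L : Set ℕ} {A B : Finset ℕ → Prop} (hA : HH L A)
    (hAB : ∀ w : ℕ →₀ ℝ, (∀ g, 0 ≤ w g) → ∀ η : ℝ, 0 ≤ η → (∀ F, A F → ∑ g ∈ F, w g ≤ η) →
      ∀ (F : Finset ℕ) (N : ℕ), B F → (∃ g ∈ F, g < N) → ∑ g ∈ F, w g ≤ N * η) : HH L B := by
  have ind : ∀ n : ℕ, ∀ (N : ℕ) (η : ℝ), 0 < η → ∃ w : ℕ →₀ ℝ, (∀ g, 0 ≤ w g) ∧
      (∀ g, w g ≠ 0 → g ∈ L ∧ N ≤ g) ∧ tot w = n ∧ (∀ F, A F → ∑ g ∈ F, w g ≤ η) ∧
      ∀ F, B F → ∑ g ∈ F, w g ≤ 2 := by
    intro n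
    induction n with
    | zero =>
      intro N η hη
      refine ⟨0, fun g => le_rfl, fun g hg => absurd rfl hg, by simp, fun F _ => by simpa using hη.le,
        fun F _ => by simp⟩
    | succ n ih =>
      intro N η hη
      obtain ⟨w1, a1, a2, a3, a4⟩ := hA N (η / 2) (by positivity)
      set N' : ℕ := max N (w1.support.sup id + 1) with hN'
      obtain ⟨w2, b1, b2, b3, b4, b5⟩ := ih N' (min (η / 2) (1 / (N' + 1)))
        (lt_min (by positivity) (by positivity))
      refine ⟨w1 + w2, fun g => ?_, fun g hg => ?_, ?_, fun F hF => ?_, fun F hF => ?_⟩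
      · rw [Finsupp.add_apply]; exact add_nonneg (a1 g) (b1 g)
      · by_cases h1 : w1 g = 0
        · have h2 : w2 g ≠ 0 := by
            intro h2; apply hg; rw [Finsupp.add_apply, h1, h2, add_zero]
          have := b2 g h2
          exact ⟨this.1, (le_max_left _ _).trans this.2⟩
        · exact a2 g h1
      · rw [map_add, a3, b3]; push_cast; ring
      · have h1 := a4 F hF
        have h2 := (b4 F hF).trans (min_le_left _ _)
        simp only [Finsupp.add_apply]
        rw [Finset.sum_add_distrib]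
        linarith
      · simp only [Finsupp.add_apply]
        rw [Finset.sum_add_distrib]
        by_cases hex : ∃ g ∈ F, g < N'
        · have h1 := sum_le_tot a1 F
          rw [a3] at h1
          have h2 := hAB w2 b1 (min (η / 2) (1 / (N' + 1)))
            (le_min (by positivity) (by positivity)) b4 F N' hF hex
          have h3 : (N' : ℝ) * min (η / 2) (1 / (N' + 1)) ≤ 1 := by
            calc (N' : ℝ) * min (η / 2) (1 / (N' + 1)) ≤ N' * (1 / (N' + 1)) :=
                  mul_le_mul_of_nonneg_left (min_le_right _ _) (by positivity)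
              _ ≤ 1 := by
                  rw [mul_one_div, div_le_one (by positivity)]
                  linarith
          linarith
        · push Not at hex
          have h1 : ∑ g ∈ F, w1 g = 0 := by
            apply Finset.sum_eq_zero
            intro g hg
            by_contra hne
            have h2 := hex g hg
            have h3 := Finset.le_sup (f := id) (Finsupp.mem_support_iff.mpr hne)
            have h4 := le_max_right N (w1.support.sup id + 1)
            simp only [id] at h3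
            omega
          rw [h1, zero_add]
          exact b5 F hF
  intro N η hη
  obtain ⟨n, hn⟩ := exists_nat_gt (2 / η)
  have hnpos : (0 : ℝ) < n := lt_trans (by positivity) hn
  obtain ⟨w, c1, c2, c3, -, c5⟩ := ind n N 1 one_pos
  refine ⟨(1 / (n : ℝ)) • w, fun g => ?_, fun g hg => ?_, ?_, fun F hF => ?_⟩
  · rw [Finsupp.smul_apply, smul_eq_mul]
    exact mul_nonneg (by positivity) (c1 g)
  · apply c2 g
    intro h; apply hg; rw [Finsupp.smul_apply, h, smul_zero]
  · rw [map_smul, c3, smul_eq_mul]; field_simp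
  · simp only [Finsupp.smul_apply, smul_eq_mul]
    rw [← Finset.mul_sum]
    have := c5 F hF
    rw [one_div, inv_mul_le_iff₀ hnpos]
    rw [div_lt_iff₀ hη] at hn
    linarith

lemma base {L : Set ℕ} (hL : L.Infinite) : HH L (fun F => F.card ≤ 1) := by
  intro N η hη
  obtain ⟨n, hn⟩ := exists_nat_gt (1 / η)
  have hnpos : (0 : ℝ) < n := lt_trans (by positivity) hn
  have hinf : (L ∩ Set.Ici N).Infinite := by
    have : (L \ Set.Iio N).Infinite := hL.sdiff (Set.finite_Iio N)
    refine this.mono fun g hg => ⟨hg.1, ?_⟩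
    have := hg.2
    simpa using this
  obtain ⟨F, hF, hcard⟩ := hinf.exists_subset_card_eq n
  refine ⟨(1 / (n : ℝ)) • ∑ g ∈ F, Finsupp.single g 1, fun g => ?_, fun g hg => ?_, ?_,
    fun A hA => ?_⟩
  · rw [Finsupp.smul_apply, Finsupp.finsetSum_apply, smul_eq_mul]
    apply mul_nonneg (by positivity)
    apply Finset.sum_nonneg
    intro g' _
    rw [Finsupp.single_apply]; split <;> norm_num
  · have hgF : g ∈ F := by
      by_contra hgF
      apply hg
      rw [Finsupp.smul_apply, Finsupp.finsetSum_apply, Finset.sum_eq_zero, smul_zero]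
      intro g' hg'
      rw [Finsupp.single_apply, if_neg]
      rintro rfl
      exact hgF hg'
    have := hF hgF
    exact ⟨this.1, this.2⟩
  · rw [map_smul, map_sum]
    have : ∀ g, tot (Finsupp.single g 1) = 1 := by
      intro g; simp [tot]
    simp only [this]
    rw [Finset.sum_const, hcard, smul_eq_mul, nsmul_eq_mul]
    field_simp
  · have hval : ∀ g, ((1 / (n : ℝ)) • ∑ g' ∈ F, Finsupp.single g' (1 : ℝ)) g ≤ 1 / n := by
      intro g
      rw [Finsupp.smul_apply, Finsupp.finsetSum_apply, smul_eq_mul]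
      have : ∑ g' ∈ F, (Finsupp.single g' (1 : ℝ)) g ≤ 1 := by
        simp only [Finsupp.single_apply]
        rw [Finset.sum_ite_eq']
        split <;> norm_num
      calc (1 / (n : ℝ)) * _ ≤ (1 / n) * 1 := mul_le_mul_of_nonneg_left this (by positivity)
        _ = 1 / n := mul_one _
    have h1 : (1 : ℝ) / n ≤ η := by
      rw [div_le_iff₀ hnpos]
      rw [div_lt_iff₀ hη] at hn
      linarith
    calc _ ≤ ∑ _g ∈ A, (1 / (n : ℝ)) := Finset.sum_le_sum fun g _ => hval g
      _ = A.card * (1 / n) := by rw [Finset.sum_const, nsmul_eq_mul]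
      _ ≤ 1 * (1 / n) := by
          apply mul_le_mul_of_nonneg_right _ (by positivity)
          exact_mod_cast hA
      _ ≤ η := by rw [one_mul]; exact h1

lemma HH_S1 {L : Set ℕ} (hL : L.Infinite) : HH L S1 := by
  apply step (base hL)
  rintro w hw η hη hA F N hF ⟨g0, hg0, hgN⟩
  have hcard : F.card ≤ N := by
    have := hF g0 hg0; omega
  calc ∑ g ∈ F, w g ≤ ∑ _g ∈ F, η := by
        apply Finset.sum_le_sum
        intro g _
        simpa using hA {g} (by simp)
    _ = F.card * η := by rw [Finset.sum_const, nsmul_eq_mul]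
    _ ≤ N * η := mul_le_mul_of_nonneg_right (by exact_mod_cast hcard) hη

lemma HH_S2 {L : Set ℕ} (hL : L.Infinite) : HH L S2 := by
  apply step (HH_S1 hL)
  rintro w hw η hη hA F N ⟨p, c, -, hp, hS⟩ ⟨g0, hg0, hgN⟩
  have hpN : p ≤ N := by
    have := (hp g0 hg0).2; omega
  rw [← Finset.sum_fiberwise_of_maps_to (s := F) (t := Finset.range p) (g := c)
    (fun g hg => Finset.mem_range.mpr (hp g hg).1)]
  calc ∑ q ∈ Finset.range p, ∑ g ∈ F.filter (fun g => c g = q), w g
      ≤ ∑ _q ∈ Finset.range p, η := Finset.sum_le_sum fun q _ => hA _ (hS q)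
    _ = p * η := by rw [Finset.sum_const, Finset.card_range, nsmul_eq_mul]
    _ ≤ N * η := mul_le_mul_of_nonneg_right (by exact_mod_cast hpN) hη

variable {θ : Set.Ioo (0 : ℝ) 1}

/-- The unit vectors are weakly null. -/
theorem weakly_null (f : XX θ →L[ℝ] ℝ) :
    Tendsto (fun k => f (inc (Finsupp.single k 1))) atTop (𝓝 (f 0)) := by
  rw [map_zero]
  by_contra hcon
  rw [Metric.tendsto_atTop] at hcon
  push Not at hcon
  obtain ⟨ε, hε, hcon⟩ := hcon
  set L : Set ℕ := {k | ε ≤ |f (inc (Finsupp.single k 1))|} with hL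
  have hinf : L.Infinite := by
    apply Set.infinite_of_not_bddAbove
    rintro ⟨b, hb⟩
    obtain ⟨k, hk, hk'⟩ := hcon (b + 1)
    have : k ∈ L := by simpa [hL, Real.dist_eq] using hk'
    have := hb this
    omega
  obtain ⟨w, w1, w2, w3, w4⟩ := HH_S2 hinf 0 (ε / (2 * (‖f‖ + 1))) (by positivity)
  set sg : ℕ → ℝ := fun g => if 0 ≤ f (inc (Finsupp.single g 1)) then 1 else -1 with hsg
  set z : ℕ →₀ ℝ := ∑ g ∈ w.support, Finsupp.single g (sg g * w g) with hz
  have hza : ∀ g, |z g| ≤ |w g| := by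
    intro g
    rw [hz, Finsupp.finsetSum_apply]
    simp only [Finsupp.single_apply]
    rw [Finset.sum_ite_eq']
    split
    · rw [abs_mul]
      have : |sg g| = 1 := by simp only [hsg]; split <;> simp
      rw [this, one_mul]
    · simp
  have hfz : ε ≤ f (inc z) := by
    rw [hz, map_sum, map_sum]
    calc ε = ε * tot w := by rw [w3, mul_one]
      _ = ∑ g ∈ w.support, ε * w g := by rw [tot_eq, Finset.mul_sum]
      _ ≤ ∑ g ∈ w.support, f (inc (Finsupp.single g (sg g * w g))) := by
          apply Finset.sum_le_sum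
          intro g hg
          have e : Finsupp.single g (sg g * w g) = (sg g * w g) • Finsupp.single g (1 : ℝ) := by
            rw [Finsupp.smul_single, smul_eq_mul, mul_one]
          rw [e, map_smul, map_smul, smul_eq_mul]
          have h1 : ε ≤ |f (inc (Finsupp.single g 1))| :=
            (w2 g (Finsupp.mem_support_iff.mp hg)).1
          have h2 : sg g * f (inc (Finsupp.single g 1)) = |f (inc (Finsupp.single g 1))| := by
            simp only [hsg]
            split
            · rw [one_mul, abs_of_nonneg ‹_›]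
            · rw [abs_of_neg (not_le.mp ‹_›)]; ring
          calc ε * w g ≤ |f (inc (Finsupp.single g 1))| * w g :=
                mul_le_mul_of_nonneg_right h1 (w1 g)
            _ = _ := by rw [← h2]; ring
  have hnz : ‖(inc z : XX θ)‖ ≤ ε / (2 * (‖f‖ + 1)) := by
    rw [norm_inc]
    refine (nrm_mono θ.2.1 θ.2.2 hza).trans ?_
    have key : ∀ F, S2 F → ∑ g ∈ F, |w g| ≤ ε / (2 * (‖f‖ + 1)) := by
      intro F hF
      have := w4 F hF
      simpa [abs_of_nonneg (w1 _)] using this
    apply nrm_le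
    · intro F hF; exact key F hF.S2
    · intro F hF
      have h1 := key F hF
      have h2 : 0 ≤ ∑ g ∈ F, |w g| := Finset.sum_nonneg fun _ _ => abs_nonneg _
      have h3 := θ.2.2
      nlinarith
  have h1 := f.le_opNorm (inc z)
  have h2 : f (inc z) ≤ ‖f (inc z)‖ := le_abs_self _
  have h3 : ‖f‖ * ‖(inc z : XX θ)‖ ≤ ‖f‖ * (ε / (2 * (‖f‖ + 1))) :=
    mul_le_mul_of_nonneg_left hnz (norm_nonneg _)
  have h4 : ‖f‖ * (ε / (2 * (‖f‖ + 1))) ≤ ε / 2 := by
    have : ‖f‖ / (‖f‖ + 1) ≤ 1 := by
      rw [div_le_one (by positivity)]; linarith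
    calc ‖f‖ * (ε / (2 * (‖f‖ + 1))) = (ε / 2) * (‖f‖ / (‖f‖ + 1)) := by
          field_simp
      _ ≤ (ε / 2) * 1 := mul_le_mul_of_nonneg_left this (by positivity)
      _ = ε / 2 := mul_one _
  linarith

end Q95.Sch
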