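import Mathlib

/-!
# Gaussian flows of periodic functions

`C21 a b f ft fx fxx`: `f` is one-periodic in the first variable, continuous on `ℝ × [a, b]`, with
continuous partial derivatives `ft, fx, fxx` on `ℝ × (a, b)`. The derivative along backward heat
flow (a Gaussian average with variance `2 ε (T - s)`) is the average of `ft - ε fxx`.
-/

set_option autoImplicit false

namespace Pool.Agent.Q95.VV

open MeasureTheory Filter Topology Set ProbabilityTheory

/-- the standard Gaussian measure -/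
noncomputable abbrev γ : Measure ℝ := gaussianReal 0 1

/-- `f` is one-periodic in the first variable, continuous on `ℝ × [a, b]`, and `ft, fx, fxx` are its
continuous partial derivatives on `ℝ × (a, b)`. -/
structure C21 (a b : ℝ) (f ft fx fxx : ℝ → ℝ → ℝ) : Prop where
  per : ∀ x t, f (x + 1) t = f x t
  cont : ContinuousOn (fun p : ℝ × ℝ => f p.1 p.2) (univ ×ˢ Icc a b)
  ht : ∀ x, ∀ t ∈ Ioo a b, HasDerivAt (fun s => f x s) (ft x t) t
  hx : ∀ x, ∀ t ∈ Ioo a b, HasDerivAt (fun y => f y t) (fx x t) x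
  hxx : ∀ x, ∀ t ∈ Ioo a b, HasDerivAt (fun y => fx y t) (fxx x t) x
  ct : ContinuousOn (fun p : ℝ × ℝ => ft p.1 p.2) (univ ×ˢ Ioo a b)
  cx : ContinuousOn (fun p : ℝ × ℝ => fx p.1 p.2) (univ ×ˢ Ioo a b)
  cxx : ContinuousOn (fun p : ℝ × ℝ => fxx p.1 p.2) (univ ×ˢ Ioo a b)

theorem per_fract {f : ℝ → ℝ} (h : ∀ x, f (x + 1) = f x) (x : ℝ) : f (Int.fract x) = f x := by
  have hp : Function.Periodic f 1 := h
  have h1 := hp.sub_int_mul_eq ⌊x⌋ (x := x)
  rw [mul_one] at h1
  rw [← h1]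
  rfl

theorem bdd_of_per {f : ℝ → ℝ → ℝ} {K : Set ℝ} (hK : IsCompact K)
    (hp : ∀ x, ∀ t ∈ K, f (x + 1) t = f x t)
    (hc : ContinuousOn (fun p : ℝ × ℝ => f p.1 p.2) (univ ×ˢ K)) :
    ∃ M, 0 ≤ M ∧ ∀ x, ∀ t ∈ K, |f x t| ≤ M := by
  have h1 : IsCompact (Icc (0 : ℝ) 1 ×ˢ K) := isCompact_Icc.prod hK
  obtain ⟨M, hM⟩ := h1.exists_bound_of_continuousOn
    (hc.mono (prod_mono (subset_univ _) subset_rfl))
  refine ⟨max M 0, le_max_right _ _, fun x t ht => ?_⟩
  have h2 := hM (Int.fract x, t) ⟨⟨Int.fract_nonneg x, (Int.fract_lt_one x).le⟩, ht⟩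
  have h3 : f (Int.fract x) t = f x t := per_fract (f := fun x => f x t) (fun x => hp x t ht) x
  simp only [h3, Real.norm_eq_abs] at h2
  exact h2.trans (le_max_left _ _)

theorem C21.pert {a b : ℝ} {f ft fx fxx : ℝ → ℝ → ℝ} (h : C21 a b f ft fx fxx) (x : ℝ) {t : ℝ}
    (ht : t ∈ Ioo a b) : ft (x + 1) t = ft x t := by
  have h1 := h.ht (x + 1) t ht
  have h2 := h.ht x t ht
  have h3 : (fun s => f (x + 1) s) = fun s => f x s := funext fun s => h.per x s
  rw [h3] at h1
  exact h1.unique h2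

theorem C21.perx {a b : ℝ} {f ft fx fxx : ℝ → ℝ → ℝ} (h : C21 a b f ft fx fxx) (x : ℝ) {t : ℝ}
    (ht : t ∈ Ioo a b) : fx (x + 1) t = fx x t := by
  have h1 := (h.hx (x + 1) t ht).comp_add_const x 1
  have h2 := h.hx x t ht
  have h3 : (fun y => f (y + 1) t) = fun y => f y t := funext fun y => h.per y t
  rw [h3] at h1
  exact h1.unique h2

theorem C21.perxx {a b : ℝ} {f ft fx fxx : ℝ → ℝ → ℝ} (h : C21 a b f ft fx fxx) (x : ℝ) {t : ℝ}
    (ht : t ∈ Ioo a b) : fxx (x + 1) t = fxx x t := by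
  have h1 := (h.hxx (x + 1) t ht).comp_add_const x 1
  have h2 := h.hxx x t ht
  have h3 : (fun y => fx (y + 1) t) = fun y => fx y t := funext fun y => h.perx y ht
  rw [h3] at h1
  exact h1.unique h2

theorem integrable_of_bdd {h : ℝ → ℝ} (hc : Continuous h) {M : ℝ} (hM : ∀ x, |h x| ≤ M) :
    Integrable h γ :=
  Integrable.of_bound hc.aestronglyMeasurable M (Eventually.of_forall fun x => by
    rw [Real.norm_eq_abs]; exact hM x)

theorem integrable_abs_id : Integrable (fun z : ℝ => |z|) γ := by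
  have h := (memLp_id_gaussianReal (μ := 0) (v := 1) 1)
  have h1 : Integrable (id : ℝ → ℝ) γ := memLp_one_iff_integrable.1 (by simpa using h)
  exact h1.abs

theorem pdf_eq (x : ℝ) : gaussianPDFReal 0 1 x = (√(2 * Real.pi))⁻¹ * Real.exp (-(1 / 2) * x ^ 2) := by
  rw [gaussianPDFReal_def]
  simp only [NNReal.coe_one, mul_one, sub_zero]
  congr 2
  ring

theorem stein {h h' : ℝ → ℝ} (hd : ∀ x, HasDerivAt h (h' x) x) (hc : Continuous h') {M : ℝ}
    (hM : ∀ x, |h x| ≤ M) (hM' : ∀ x, |h' x| ≤ M) :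
    ∫ z, z * h z ∂γ = ∫ z, h' z ∂γ := by
  have hcont : Continuous h := continuous_iff_continuousAt.2 fun x => (hd x).continuousAt
  set p : ℝ → ℝ := gaussianPDFReal 0 1 with hp
  have hpd : ∀ x, HasDerivAt p (-x * p x) x := by
    intro x
    have h1 : HasDerivAt (fun x : ℝ => (√(2 * Real.pi))⁻¹ * Real.exp (-(1 / 2) * x ^ 2))
        ((√(2 * Real.pi))⁻¹ * (Real.exp (-(1 / 2) * x ^ 2) * (-(1 / 2) * (2 * x)))) x := by
      have h2 : HasDerivAt (fun x : ℝ => -(1 / 2) * x ^ 2) (-(1 / 2) * (2 * x)) x := by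
        have := (hasDerivAt_pow 2 x).const_mul (-(1 / 2 : ℝ))
        simpa using this
      exact (h2.exp).const_mul _
    have h3 : p = fun x : ℝ => (√(2 * Real.pi))⁻¹ * Real.exp (-(1 / 2) * x ^ 2) := funext pdf_eq
    rw [h3]
    refine h1.congr_deriv ?_
    simp only
    ring
  have hpi : Integrable p := integrable_gaussianPDFReal 0 1
  have hxp : Integrable (fun x => x * p x) := by
    have h1 := (integrable_mul_exp_neg_mul_sq (b := 1 / 2) (by norm_num)).const_mul (√(2 * Real.pi))⁻¹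
    refine h1.congr (Eventually.of_forall fun x => ?_)
    simp only [hp, pdf_eq]
    ring
  have i1 : Integrable (h * fun x => -x * p x) := by
    have := (hxp.neg).bdd_mul (c := M) hcont.aestronglyMeasurable
      (Eventually.of_forall fun x => by rw [Real.norm_eq_abs]; exact hM x)
    refine this.congr (Eventually.of_forall fun x => ?_)
    simp [Pi.mul_apply]
  have i2 : Integrable (h' * p) :=
    hpi.bdd_mul (c := M) hc.aestronglyMeasurable
      (Eventually.of_forall fun x => by rw [Real.norm_eq_abs]; exact hM' x)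
  have i3 : Integrable (h * p) :=
    hpi.bdd_mul (c := M) hcont.aestronglyMeasurable
      (Eventually.of_forall fun x => by rw [Real.norm_eq_abs]; exact hM x)
  have key := integral_mul_deriv_eq_deriv_mul_of_integrable (u := h) (v := p) (u' := h')
    (v' := fun x => -x * p x) (fun x _ => hd x) (fun x _ => hpd x) i1 i2 i3
  rw [integral_gaussianReal_eq_integral_smul (by norm_num),
    integral_gaussianReal_eq_integral_smul (by norm_num)]
  simp only [smul_eq_mul]
  have e1 : ∫ x, p x * (x * h x) = - ∫ x, h x * (-x * p x) := by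
    rw [← integral_neg]
    refine integral_congr_ae (Eventually.of_forall fun x => ?_)
    simp only
    ring
  have e2 : ∫ x, p x * h' x = ∫ x, h' x * p x := by
    refine integral_congr_ae (Eventually.of_forall fun x => ?_)
    simp only
    ring
  rw [e1, e2, key, neg_neg]

/-- chain rule along a curve -/
theorem C21.chain {a b : ℝ} {f ft fx fxx : ℝ → ℝ → ℝ} (h : C21 a b f ft fx fxx) {y : ℝ → ℝ}
    {y' s : ℝ} (hs : s ∈ Ioo a b) (hy : HasDerivAt y y' s) :
    HasDerivAt (fun s => f (y s) s) (ft (y s) s + fx (y s) s * y') s := by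
  have hop : IsOpen (univ ×ˢ Ioo a b : Set (ℝ × ℝ)) := isOpen_univ.prod isOpen_Ioo
  have hmem : ∀ x : ℝ, (x, s) ∈ (univ ×ˢ Ioo a b : Set (ℝ × ℝ)) := fun x => ⟨mem_univ _, hs⟩
  have h1 := hasStrictFDerivAt_uncurry_coprod (𝕜 := ℝ) (u := (y s, s)) (f := f)
    (f₁ := fun x t => ContinuousLinearMap.toSpanSingleton ℝ (fx x t))
    (f₂ := fun x t => ContinuousLinearMap.toSpanSingleton ℝ (ft x t))
    (by
      filter_upwards [hop.mem_nhds (hmem (y s))] with v hv
      exact (h.hx v.1 v.2 hv.2).hasFDerivAt)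
    (by
      filter_upwards [hop.mem_nhds (hmem (y s))] with v hv
      exact (h.ht v.1 v.2 hv.2).hasFDerivAt)
    (by
      have h2 := (h.cx).continuousAt (hop.mem_nhds (hmem (y s)))
      exact ((ContinuousLinearMap.toSpanSingletonCLE (𝕜 := ℝ) (E := ℝ)).continuous.continuousAt.comp
        h2))
    (by
      have h2 := (h.ct).continuousAt (hop.mem_nhds (hmem (y s)))
      exact ((ContinuousLinearMap.toSpanSingletonCLE (𝕜 := ℝ) (E := ℝ)).continuous.continuousAt.comp
        h2))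
  have h2 : HasDerivAt (fun s => (y s, s)) (y', 1) s := hy.prodMk (hasDerivAt_id s)
  have h3 := HasFDerivAt.comp_hasDerivAt (l := fun v : ℝ × ℝ => f v.1 v.2)
    (f := fun s => (y s, s)) s h1.hasFDerivAt h2
  refine h3.congr_deriv ?_
  rw [ContinuousLinearMap.coprod_apply]
  change (ContinuousLinearMap.toSpanSingleton ℝ (fx (y s) s)) y' +
    (ContinuousLinearMap.toSpanSingleton ℝ (ft (y s) s)) 1 = _
  simp only [ContinuousLinearMap.toSpanSingleton_apply, smul_eq_mul]
  ring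

/-- local bounds for the partial derivatives -/
theorem C21.bounds {a b : ℝ} {f ft fx fxx : ℝ → ℝ → ℝ} (h : C21 a b f ft fx fxx) {c d : ℝ}
    (hc : a < c) (hd : d < b) : ∃ M, 0 ≤ M ∧ ∀ x, ∀ t ∈ Icc c d,
      |f x t| ≤ M ∧ |ft x t| ≤ M ∧ |fx x t| ≤ M ∧ |fxx x t| ≤ M := by
  have hsub : Icc c d ⊆ Ioo a b := fun t ht => ⟨hc.trans_le ht.1, ht.2.trans_lt hd⟩
  obtain ⟨M1, h1, hM1⟩ := bdd_of_per (f := f) isCompact_Icc (fun x t _ => h.per x t)
    (h.cont.mono (prod_mono subset_rfl (hsub.trans Ioo_subset_Icc_self)))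
  obtain ⟨M2, h2, hM2⟩ := bdd_of_per (f := ft) isCompact_Icc (fun x t ht => h.pert x (hsub ht))
    (h.ct.mono (prod_mono subset_rfl hsub))
  obtain ⟨M3, h3, hM3⟩ := bdd_of_per (f := fx) isCompact_Icc (fun x t ht => h.perx x (hsub ht))
    (h.cx.mono (prod_mono subset_rfl hsub))
  obtain ⟨M4, h4, hM4⟩ := bdd_of_per (f := fxx) isCompact_Icc (fun x t ht => h.perxx x (hsub ht))
    (h.cxx.mono (prod_mono subset_rfl hsub))
  refine ⟨M1 + M2 + M3 + M4, by positivity, fun x t ht => ⟨?_, ?_, ?_, ?_⟩⟩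
  · have := hM1 x t ht
    linarith
  · have := hM2 x t ht
    linarith
  · have := hM3 x t ht
    linarith
  · have := hM4 x t ht
    linarith

theorem cont_slice {K : Set ℝ} {f : ℝ → ℝ → ℝ} (h : ContinuousOn (fun p : ℝ × ℝ => f p.1 p.2)
    (univ ×ˢ K)) {t : ℝ} (ht : t ∈ K) : Continuous fun x => f x t := by
  have h1 : ContinuousOn (fun x : ℝ => f x t) univ :=
    h.comp (f := fun x : ℝ => (x, t)) (by fun_prop) (fun x _ => ⟨mem_univ _, ht⟩)
  exact continuousOn_univ.1 h1

/-- the derivative of the Gaussian average with variance `A + B s` -/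
theorem flow_deriv {a b : ℝ} {f ft fx fxx : ℝ → ℝ → ℝ} (h : C21 a b f ft fx fxx) (x0 A B : ℝ)
    {s : ℝ} (hs : s ∈ Ioo a b) (hv : 0 < A + B * s) :
    HasDerivAt (fun s => ∫ ζ, f (x0 + √(A + B * s) * ζ) s ∂γ)
      (∫ ζ, (ft (x0 + √(A + B * s) * ζ) s + B / 2 * fxx (x0 + √(A + B * s) * ζ) s) ∂γ) s := by
  -- a neighbourhood
  have hcv : Continuous fun s : ℝ => A + B * s := by fun_prop
  have hnb : {s' : ℝ | (A + B * s) / 2 < A + B * s'} ∈ 𝓝 s :=
    (isOpen_lt continuous_const hcv).mem_nhds (by simp only [mem_setOf_eq]; linarith)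
  have hnb2 : Ioo a b ∈ 𝓝 s := isOpen_Ioo.mem_nhds hs
  obtain ⟨δ, hδ, hsub⟩ := Metric.mem_nhds_iff.1 (inter_mem hnb hnb2)
  have hI : Icc (s - δ / 2) (s + δ / 2) ⊆ Metric.ball s δ := by
    intro t ht
    rw [Real.ball_eq_Ioo]
    exact ⟨by linarith [ht.1], by linarith [ht.2]⟩
  have hsI : Metric.ball s (δ / 2) ⊆ Icc (s - δ / 2) (s + δ / 2) := by
    rw [Real.ball_eq_Ioo]
    exact Ioo_subset_Icc_self
  obtain ⟨M, hM0, hM⟩ := h.bounds (c := s - δ / 2) (d := s + δ / 2)
    (hsub (hI ⟨le_rfl, by linarith⟩)).2.1 (hsub (hI ⟨by linarith, le_rfl⟩)).2.2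
  set m := (A + B * s) / 2 with hm
  have hmpos : 0 < m := by positivity
  have hpos : ∀ t ∈ Icc (s - δ / 2) (s + δ / 2), m < A + B * t := fun t ht => (hsub (hI ht)).1
  have hIoo : ∀ t ∈ Icc (s - δ / 2) (s + δ / 2), t ∈ Ioo a b := fun t ht => (hsub (hI ht)).2
  have hsm : s ∈ Icc (s - δ / 2) (s + δ / 2) := ⟨by linarith, by linarith⟩
  have hdsq : ∀ t ∈ Icc (s - δ / 2) (s + δ / 2),
      HasDerivAt (fun t => √(A + B * t)) (B / (2 * √(A + B * t))) t := by
    intro t ht
    have h1 : HasDerivAt (fun t => A + B * t) B t := by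
      simpa using ((hasDerivAt_id t).const_mul B).const_add A
    exact h1.sqrt (hmpos.trans (hpos t ht)).ne'
  have hcf : ∀ t ∈ Icc (s - δ / 2) (s + δ / 2),
      Continuous fun ζ => f (x0 + √(A + B * t) * ζ) t := fun t ht =>
    (cont_slice h.cont (Ioo_subset_Icc_self (hIoo t ht))).comp (by fun_prop)
  have hcft : Continuous fun ζ => ft (x0 + √(A + B * s) * ζ) s :=
    (cont_slice h.ct (hIoo s hsm)).comp (by fun_prop)
  have hcfx : Continuous fun ζ => fx (x0 + √(A + B * s) * ζ) s :=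
    (cont_slice h.cx (hIoo s hsm)).comp (by fun_prop)
  have hcfxx : Continuous fun ζ => fxx (x0 + √(A + B * s) * ζ) s :=
    (cont_slice h.cxx (hIoo s hsm)).comp (by fun_prop)
  have key := hasDerivAt_integral_of_dominated_loc_of_deriv_le (μ := γ) (𝕜 := ℝ)
    (F := fun s ζ => f (x0 + √(A + B * s) * ζ) s)
    (F' := fun s ζ => ft (x0 + √(A + B * s) * ζ) s + fx (x0 + √(A + B * s) * ζ) s *
      (B / (2 * √(A + B * s)) * ζ))
    (x₀ := s) (s := Metric.ball s (δ / 2)) (bound := fun ζ => M + M * (|B| / (2 * √m) * |ζ|))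
    (Metric.ball_mem_nhds s (by positivity))
    (by
      filter_upwards [Metric.ball_mem_nhds s (show 0 < δ / 2 by positivity)] with t ht
      exact (hcf t (hsI ht)).aestronglyMeasurable)
    (integrable_of_bdd (hcf s hsm) (fun ζ => (hM _ s hsm).1))
    (by
      have h1 : Continuous fun ζ => ft (x0 + √(A + B * s) * ζ) s +
          fx (x0 + √(A + B * s) * ζ) s * (B / (2 * √(A + B * s)) * ζ) :=
        hcft.add (hcfx.mul (by fun_prop))
      exact h1.aestronglyMeasurable)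
    (by
      refine Eventually.of_forall fun ζ t ht => ?_
      have ht' := hsI ht
      obtain ⟨-, b1, b2, -⟩ := hM (x0 + √(A + B * t) * ζ) t ht'
      rw [Real.norm_eq_abs]
      refine (abs_add_le _ _).trans (add_le_add b1 ?_)
      rw [abs_mul]
      refine mul_le_mul b2 ?_ (abs_nonneg _) hM0
      rw [abs_mul, abs_div]
      refine mul_le_mul_of_nonneg_right ?_ (abs_nonneg _)
      have h2 : √m ≤ √(A + B * t) := Real.sqrt_le_sqrt (hpos t ht').le
      have h3 : 0 < √m := Real.sqrt_pos.2 hmpos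
      rw [abs_of_pos (show 0 < 2 * √(A + B * t) by linarith)]
      exact div_le_div_of_nonneg_left (abs_nonneg _) (by positivity) (by linarith))
    (by
      exact (integrable_const M).add ((integrable_abs_id.const_mul _).const_mul _))
    (by
      refine Eventually.of_forall fun ζ t ht => ?_
      have ht' := hsI ht
      have h1 : HasDerivAt (fun t => x0 + √(A + B * t) * ζ) (B / (2 * √(A + B * t)) * ζ) t :=
        ((hdsq t ht').mul_const ζ).const_add x0
      exact h.chain (hIoo t ht') h1)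
  refine key.2.congr_deriv ?_
  have hr0 : 0 < √(A + B * s) := Real.sqrt_pos.2 hv
  have i1 : Integrable (fun ζ => ft (x0 + √(A + B * s) * ζ) s) γ :=
    integrable_of_bdd hcft (fun ζ => (hM _ s hsm).2.1)
  have i2 : Integrable (fun ζ => fx (x0 + √(A + B * s) * ζ) s * (B / (2 * √(A + B * s)) * ζ)) γ := by
    have h1 : Integrable (fun ζ : ℝ => B / (2 * √(A + B * s)) * ζ) γ := by
      have h2 : Integrable (fun ζ : ℝ => ζ) γ := by
        have h3 := integrable_abs_id
        refine h3.mono' (by fun_prop) (Eventually.of_forall fun ζ => ?_)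
        rw [Real.norm_eq_abs]
      exact h2.const_mul _
    exact h1.bdd_mul (c := M) hcfx.aestronglyMeasurable
      (Eventually.of_forall fun ζ => by rw [Real.norm_eq_abs]; exact (hM _ s hsm).2.2.1)
  have i3 : Integrable (fun ζ => B / 2 * fxx (x0 + √(A + B * s) * ζ) s) γ :=
    (integrable_of_bdd hcfxx (fun ζ => (hM _ s hsm).2.2.2)).const_mul _
  rw [integral_add i1 i2, integral_add i1 i3]
  congr 1
  have st := stein (h := fun ζ => fx (x0 + √(A + B * s) * ζ) s)
    (h' := fun ζ => √(A + B * s) * fxx (x0 + √(A + B * s) * ζ) s)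
    (M := max M (√(A + B * s) * M))
    (by
      intro ζ
      have h1 : HasDerivAt (fun ζ => x0 + √(A + B * s) * ζ) (√(A + B * s)) ζ := by
        simpa using ((hasDerivAt_id ζ).const_mul (√(A + B * s))).const_add x0
      have h2 := (h.hxx (x0 + √(A + B * s) * ζ) s (hIoo s hsm)).comp ζ h1
      refine h2.congr_deriv ?_
      ring)
    (continuous_const.mul hcfxx)
    (fun ζ => ((hM _ s hsm).2.2.1).trans (le_max_left _ _))
    (fun ζ => by
      rw [abs_mul, abs_of_pos hr0]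
      exact (mul_le_mul_of_nonneg_left (hM _ s hsm).2.2.2 hr0.le).trans (le_max_right _ _))
  have e1 : ∫ ζ, fx (x0 + √(A + B * s) * ζ) s * (B / (2 * √(A + B * s)) * ζ) ∂γ =
      B / (2 * √(A + B * s)) * ∫ ζ, ζ * fx (x0 + √(A + B * s) * ζ) s ∂γ := by
    rw [← integral_const_mul]
    refine integral_congr_ae (Eventually.of_forall fun ζ => ?_)
    simp only
    ring
  rw [e1, st, ← integral_const_mul]
  refine integral_congr_ae (Eventually.of_forall fun ζ => ?_)
  simp only
  field_simp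

/-- continuity up to the end points -/
theorem flow_cont {a b : ℝ} {f : ℝ → ℝ → ℝ} (hp : ∀ x t, f (x + 1) t = f x t)
    (hc : ContinuousOn (fun p : ℝ × ℝ => f p.1 p.2) (univ ×ˢ Icc a b)) (x0 A B : ℝ) :
    ContinuousOn (fun s => ∫ ζ, f (x0 + √(A + B * s) * ζ) s ∂γ) (Icc a b) := by
  obtain ⟨M, hM0, hM⟩ := bdd_of_per (f := f) isCompact_Icc (fun x t _ => hp x t) hc
  refine continuousOn_of_dominated (bound := fun _ => M) ?_ ?_ (integrable_const M) ?_
  · intro t ht
    exact ((cont_slice hc ht).comp (by fun_prop)).aestronglyMeasurable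
  · intro t ht
    exact Eventually.of_forall fun ζ => by rw [Real.norm_eq_abs]; exact hM _ t ht
  · refine Eventually.of_forall fun ζ => ?_
    exact hc.comp (f := fun s : ℝ => (x0 + √(A + B * s) * ζ, s)) (by fun_prop)
      (fun s hs => ⟨mem_univ _, hs⟩)

/-- the heat equation determines the solution -/
theorem heat_unique {b ε : ℝ} (hε : 0 < ε) {w wt wx wxx : ℝ → ℝ → ℝ} (h : C21 0 b w wt wx wxx)
    (heq : ∀ x, ∀ t ∈ Ioo 0 b, wt x t = ε * wxx x t) (x t : ℝ) (ht : t ∈ Ioo 0 b) :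
    w x t = ∫ ζ, w (x + √(2 * ε * t) * ζ) 0 ∂γ := by
  have hc : ContinuousOn (fun s => ∫ ζ, w (x + √(2 * ε * t + (-(2 * ε)) * s) * ζ) s ∂γ)
      (Icc 0 t) := (flow_cont h.per h.cont x (2 * ε * t) (-(2 * ε))).mono
      (Icc_subset_Icc le_rfl ht.2.le)
  obtain ⟨c, hcm, hcd⟩ := exists_hasDerivAt_eq_slope
    (fun s => ∫ ζ, w (x + √(2 * ε * t + (-(2 * ε)) * s) * ζ) s ∂γ)
    (fun s => ∫ ζ, (wt (x + √(2 * ε * t + (-(2 * ε)) * s) * ζ) s +
      (-(2 * ε)) / 2 * wxx (x + √(2 * ε * t + (-(2 * ε)) * s) * ζ) s) ∂γ) ht.1 hc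
    (fun s hs => flow_deriv h x _ _ ⟨hs.1, hs.2.trans ht.2⟩ (by nlinarith [hs.2]))
  have h0 : ∫ ζ, (wt (x + √(2 * ε * t + (-(2 * ε)) * c) * ζ) c +
      (-(2 * ε)) / 2 * wxx (x + √(2 * ε * t + (-(2 * ε)) * c) * ζ) c) ∂γ = 0 := by
    rw [← integral_zero ℝ ℝ (μ := γ)]
    refine integral_congr_ae (Eventually.of_forall fun ζ => ?_)
    simp only
    rw [heq _ c ⟨hcm.1, hcm.2.trans ht.2⟩]
    ring
  rw [h0] at hcd
  have ht0 : t - 0 ≠ 0 := by simpa using ht.1.ne'
  have h1 := (div_eq_zero_iff.1 hcd.symm).resolve_right ht0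
  have e1 : 2 * ε * t + (-(2 * ε)) * t = 0 := by ring
  have e2 : 2 * ε * t + (-(2 * ε)) * 0 = 2 * ε * t := by ring
  simp only [e1, e2, Real.sqrt_zero, zero_mul, add_zero, integral_const, probReal_univ,
    smul_eq_mul, one_mul] at h1
  linarith

end Pool.Agent.Q95.VV
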