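import Pool.Agent.Q95.VV1

/-!
# The viscous Hamilton-Jacobi equation with quadratic Hamiltonian

Closure of `C21` under products and compositions, the heat evolution of a periodic function.
-/

set_option autoImplicit false

namespace Pool.Agent.Q95.VV

open MeasureTheory Filter Topology Set ProbabilityTheory

/-- a one-periodic function with its first two derivatives -/
structure P2 (f f1 f2 : ℝ → ℝ) : Prop where
  per : ∀ x, f (x + 1) = f x
  d1 : ∀ x, HasDerivAt f (f1 x) x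
  d2 : ∀ x, HasDerivAt f1 (f2 x) x
  c2 : Continuous f2

theorem P2.c0 {f f1 f2 : ℝ → ℝ} (h : P2 f f1 f2) : Continuous f :=
  continuous_iff_continuousAt.2 fun x => (h.d1 x).continuousAt

theorem P2.c1 {f f1 f2 : ℝ → ℝ} (h : P2 f f1 f2) : Continuous f1 :=
  continuous_iff_continuousAt.2 fun x => (h.d2 x).continuousAt

theorem P2.c21 {f f1 f2 : ℝ → ℝ} (h : P2 f f1 f2) (a b : ℝ) :
    C21 a b (fun x _ => f x) (fun _ _ => 0) (fun x _ => f1 x) (fun x _ => f2 x) where
  per := fun x _ => h.per x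
  cont := (h.c0.comp continuous_fst).continuousOn
  ht := fun x t _ => hasDerivAt_const t (f x)
  hx := fun x _ _ => h.d1 x
  hxx := fun x _ _ => h.d2 x
  ct := continuousOn_const
  cx := (h.c1.comp continuous_fst).continuousOn
  cxx := (h.c2.comp continuous_fst).continuousOn

theorem P2.per1 {f f1 f2 : ℝ → ℝ} (h : P2 f f1 f2) (x : ℝ) : f1 (x + 1) = f1 x :=
  (h.c21 0 1).perx x (t := 1 / 2) ⟨by norm_num, by norm_num⟩

theorem P2.per2 {f f1 f2 : ℝ → ℝ} (h : P2 f f1 f2) (x : ℝ) : f2 (x + 1) = f2 x :=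
  (h.c21 0 1).perxx x (t := 1 / 2) ⟨by norm_num, by norm_num⟩

theorem bdd_per {f : ℝ → ℝ} (hp : ∀ x, f (x + 1) = f x) (hc : Continuous f) :
    ∃ M, 0 ≤ M ∧ ∀ x, |f x| ≤ M := by
  obtain ⟨M, h0, hM⟩ := bdd_of_per (f := fun x _ => f x) (K := {0}) isCompact_singleton
    (fun x _ _ => hp x) (hc.comp continuous_fst).continuousOn
  exact ⟨M, h0, fun x => hM x 0 rfl⟩

/-- the heat semigroup -/
noncomputable def heat (ε : ℝ) (f : ℝ → ℝ) (x t : ℝ) : ℝ := ∫ ζ, f (x + √(2 * ε * t) * ζ) ∂γ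

theorem heat_cont (ε : ℝ) {f : ℝ → ℝ} (hp : ∀ x, f (x + 1) = f x) (hc : Continuous f) :
    Continuous fun p : ℝ × ℝ => heat ε f p.1 p.2 := by
  obtain ⟨M, h0, hM⟩ := bdd_per hp hc
  refine continuous_of_dominated (bound := fun _ => M) ?_ ?_ (integrable_const M) ?_
  · intro p
    exact (hc.comp (by fun_prop)).aestronglyMeasurable
  · intro p
    exact Eventually.of_forall fun ζ => by rw [Real.norm_eq_abs]; exact hM _
  · exact Eventually.of_forall fun ζ => hc.comp (by fun_prop)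

theorem heat_dx (ε : ℝ) {f f1 : ℝ → ℝ} (hp : ∀ x, f (x + 1) = f x)
    (hd : ∀ x, HasDerivAt f (f1 x) x) (hp1 : ∀ x, f1 (x + 1) = f1 x) (hc : Continuous f1)
    (x t : ℝ) : HasDerivAt (fun x => heat ε f x t) (heat ε f1 x t) x := by
  have hc0 : Continuous f := continuous_iff_continuousAt.2 fun x => (hd x).continuousAt
  obtain ⟨M, h0, hM⟩ := bdd_per hp hc0
  obtain ⟨M1, h01, hM1⟩ := bdd_per hp1 hc
  refine (hasDerivAt_integral_of_dominated_loc_of_deriv_le (μ := γ) (𝕜 := ℝ)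
    (F := fun x ζ => f (x + √(2 * ε * t) * ζ)) (F' := fun x ζ => f1 (x + √(2 * ε * t) * ζ))
    (x₀ := x) (s := univ) (bound := fun ζ => M1) univ_mem
    (Eventually.of_forall fun y => (hc0.comp (by fun_prop)).aestronglyMeasurable)
    (integrable_of_bdd (hc0.comp (by fun_prop)) (fun ζ => hM _))
    (hc.comp (by fun_prop)).aestronglyMeasurable
    (Eventually.of_forall fun ζ y _ => by rw [Real.norm_eq_abs]; exact hM1 _)
    (integrable_const M1) ?_).2
  refine Eventually.of_forall fun ζ y _ => ?_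
  have h1 : HasDerivAt (fun y => y + √(2 * ε * t) * ζ) 1 y := (hasDerivAt_id y).add_const _
  have h2 := (hd (y + √(2 * ε * t) * ζ)).comp y h1
  rw [mul_one] at h2
  exact h2

theorem heat_per (ε : ℝ) {f : ℝ → ℝ} (hp : ∀ x, f (x + 1) = f x) (x t : ℝ) :
    heat ε f (x + 1) t = heat ε f x t := by
  unfold heat
  refine integral_congr_ae (Eventually.of_forall fun ζ => ?_)
  simp only
  rw [← hp (x + √(2 * ε * t) * ζ)]
  congr 1
  ring

theorem heat_zero (ε : ℝ) (f : ℝ → ℝ) (x : ℝ) : heat ε f x 0 = f x := by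
  simp [heat]

/-- the heat evolution of a periodic `C²` function -/
theorem heat_c21 {ε : ℝ} (hε : 0 < ε) {f f1 f2 : ℝ → ℝ} (h : P2 f f1 f2) (b : ℝ) :
    C21 0 b (heat ε f) (fun x t => ε * heat ε f2 x t) (heat ε f1) (heat ε f2) where
  per := heat_per ε h.per
  cont := (heat_cont ε h.per h.c0).continuousOn
  ht := by
    intro x t ht
    have h1 := flow_deriv (h.c21 (-1) (b + 1)) x 0 (2 * ε) (s := t)
      ⟨by linarith [ht.1], by linarith [ht.2]⟩ (by have := ht.1; positivity)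
    simp only [zero_add] at h1
    refine h1.congr_deriv ?_
    rw [heat, ← integral_const_mul]
    refine integral_congr_ae (Eventually.of_forall fun ζ => ?_)
    simp only
    ring
  hx := fun x t _ => heat_dx ε h.per h.d1 h.per1 h.c1 x t
  hxx := fun x t _ => heat_dx ε h.per1 h.d2 h.per2 h.c2 x t
  ct := (continuous_const.mul (heat_cont ε h.per2 h.c2)).continuousOn
  cx := (heat_cont ε h.per1 h.c1).continuousOn
  cxx := (heat_cont ε h.per2 h.c2).continuousOn

theorem C21.mul {a b : ℝ} {f ft fx fxx h ht hx hxx : ℝ → ℝ → ℝ} (hf : C21 a b f ft fx fxx)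
    (hh : C21 a b h ht hx hxx) :
    C21 a b (fun x t => f x t * h x t) (fun x t => ft x t * h x t + f x t * ht x t)
      (fun x t => fx x t * h x t + f x t * hx x t)
      (fun x t => (fxx x t * h x t + fx x t * hx x t) + (fx x t * hx x t + f x t * hxx x t)) where
  per := fun x t => by rw [hf.per, hh.per]
  cont := hf.cont.mul hh.cont
  ht := fun x t htt => (hf.ht x t htt).mul (hh.ht x t htt)
  hx := fun x t htt => (hf.hx x t htt).mul (hh.hx x t htt)
  hxx := fun x t htt => ((hf.hxx x t htt).mul (hh.hx x t htt)).add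
    ((hf.hx x t htt).mul (hh.hxx x t htt))
  ct := by
    have hs : (univ ×ˢ Ioo a b : Set (ℝ × ℝ)) ⊆ univ ×ˢ Icc a b :=
      prod_mono subset_rfl Ioo_subset_Icc_self
    exact (hf.ct.mul (hh.cont.mono hs)).add ((hf.cont.mono hs).mul hh.ct)
  cx := by
    have hs : (univ ×ˢ Ioo a b : Set (ℝ × ℝ)) ⊆ univ ×ˢ Icc a b :=
      prod_mono subset_rfl Ioo_subset_Icc_self
    exact (hf.cx.mul (hh.cont.mono hs)).add ((hf.cont.mono hs).mul hh.cx)
  cxx := by
    have hs : (univ ×ˢ Ioo a b : Set (ℝ × ℝ)) ⊆ univ ×ˢ Icc a b :=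
      prod_mono subset_rfl Ioo_subset_Icc_self
    exact ((hf.cxx.mul (hh.cont.mono hs)).add (hf.cx.mul hh.cx)).add
      ((hf.cx.mul hh.cx).add ((hf.cont.mono hs).mul hh.cxx))

theorem C21.comp {a b : ℝ} {f ft fx fxx : ℝ → ℝ → ℝ} (hf : C21 a b f ft fx fxx) {S : Set ℝ}
    (hS : ∀ x, ∀ t ∈ Icc a b, f x t ∈ S) {G G1 G2 : ℝ → ℝ} (hG : ∀ y ∈ S, HasDerivAt G (G1 y) y)
    (hG1 : ∀ y ∈ S, HasDerivAt G1 (G2 y) y) (hG2 : ContinuousOn G2 S) :
    C21 a b (fun x t => G (f x t)) (fun x t => G1 (f x t) * ft x t)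
      (fun x t => G1 (f x t) * fx x t)
      (fun x t => G2 (f x t) * fx x t * fx x t + G1 (f x t) * fxx x t) where
  per := fun x t => by rw [hf.per]
  cont := by
    have h1 : ContinuousOn G S := fun y hy => (hG y hy).continuousAt.continuousWithinAt
    exact h1.comp hf.cont (fun p hp => hS p.1 p.2 hp.2)
  ht := fun x t htt => (hG _ (hS x t (Ioo_subset_Icc_self htt))).comp t (hf.ht x t htt)
  hx := fun x t htt => (hG _ (hS x t (Ioo_subset_Icc_self htt))).comp x (hf.hx x t htt)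
  hxx := fun x t htt =>
    ((hG1 _ (hS x t (Ioo_subset_Icc_self htt))).comp x (hf.hx x t htt)).mul (hf.hxx x t htt)
  ct := by
    have hs : (univ ×ˢ Ioo a b : Set (ℝ × ℝ)) ⊆ univ ×ˢ Icc a b :=
      prod_mono subset_rfl Ioo_subset_Icc_self
    have h1 : ContinuousOn G1 S := fun y hy => (hG1 y hy).continuousAt.continuousWithinAt
    exact (h1.comp (hf.cont.mono hs) (fun p hp => hS p.1 p.2 (hs hp).2)).mul hf.ct
  cx := by
    have hs : (univ ×ˢ Ioo a b : Set (ℝ × ℝ)) ⊆ univ ×ˢ Icc a b :=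
      prod_mono subset_rfl Ioo_subset_Icc_self
    have h1 : ContinuousOn G1 S := fun y hy => (hG1 y hy).continuousAt.continuousWithinAt
    exact (h1.comp (hf.cont.mono hs) (fun p hp => hS p.1 p.2 (hs hp).2)).mul hf.cx
  cxx := by
    have hs : (univ ×ˢ Ioo a b : Set (ℝ × ℝ)) ⊆ univ ×ˢ Icc a b :=
      prod_mono subset_rfl Ioo_subset_Icc_self
    have h1 : ContinuousOn G1 S := fun y hy => (hG1 y hy).continuousAt.continuousWithinAt
    have h2 := (h1.comp (hf.cont.mono hs) (fun p hp => hS p.1 p.2 (hs hp).2))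
    have h3 := (hG2.comp (hf.cont.mono hs) (fun p hp => hS p.1 p.2 (hs hp).2))
    exact ((h3.mul hf.cx).mul hf.cx).add (h2.mul hf.cxx)

theorem C21.const_mul {a b : ℝ} {f ft fx fxx : ℝ → ℝ → ℝ} (hf : C21 a b f ft fx fxx) (k : ℝ) :
    C21 a b (fun x t => k * f x t) (fun x t => k * ft x t) (fun x t => k * fx x t)
      (fun x t => k * fxx x t) where
  per := fun x t => by rw [hf.per]
  cont := continuousOn_const.mul hf.cont
  ht := fun x t htt => (hf.ht x t htt).const_mul k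
  hx := fun x t htt => (hf.hx x t htt).const_mul k
  hxx := fun x t htt => (hf.hxx x t htt).const_mul k
  ct := continuousOn_const.mul hf.ct
  cx := continuousOn_const.mul hf.cx
  cxx := continuousOn_const.mul hf.cxx

end Pool.Agent.Q95.VV
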