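import Pool.Agent.Q95.VV2

/-!
# Solutions of the viscous Hamilton-Jacobi equation and of the adjoint equation

`IsViscous` and `IsAdjoint` are the equations of the problem in one space dimension. For the
Hamiltonian `p ^ 2 / 2` the Hopf-Cole transform gives existence and explicit formulas.
-/

set_option autoImplicit false

namespace Pool.Agent.Q95.VV

open MeasureTheory Filter Topology Set ProbabilityTheory

/-- `u` (with spatial derivative `ux`) is the one-periodic classical solution of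
`u_t + H(x, u_x) = ε u_xx` for `t > 0`, `u(·, 0) = g`. -/
def IsViscous (H : ℝ → ℝ → ℝ) (g : ℝ → ℝ) (ε : ℝ) (u ux : ℝ → ℝ → ℝ) : Prop :=
  (∃ ut uxx : ℝ → ℝ → ℝ, (∀ b > 0, C21 0 b u ut ux uxx) ∧
    ∀ x, ∀ t > 0, ut x t + H x (ux x t) = ε * uxx x t) ∧ ∀ x, u x 0 = g x

/-- `σ t` is a family of probability measures on `[0, 1)` (that is, on the circle) solving
`-σ_t - (D_pH(x, u_x) σ)_x = ε σ_xx` on `(0, T)`, `σ T = δ_z`, tested against every `f` of
class `C21` on `[0, T]`. -/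
def IsAdjoint (H : ℝ → ℝ → ℝ) (ε T z : ℝ) (ux : ℝ → ℝ → ℝ) (σ : ℝ → Measure ℝ) : Prop :=
  (∀ t ∈ Icc 0 T, IsProbabilityMeasure (σ t) ∧ σ t (Ico 0 1)ᶜ = 0) ∧
  ∀ f ft fx fxx : ℝ → ℝ → ℝ, C21 0 T f ft fx fxx →
    ContinuousOn (fun t => ∫ x, f x t ∂σ t) (Icc 0 T) ∧ ∫ x, f x T ∂σ T = f z T ∧
    ∀ t ∈ Ioo 0 T, HasDerivAt (fun t => ∫ x, f x t ∂σ t)
      (∫ x, (ft x t + deriv (H x) (ux x t) * fx x t - ε * fxx x t) ∂σ t) t

/-- the quadratic Hamiltonian -/
noncomputable def HQ (_ p : ℝ) : ℝ := p ^ 2 / 2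

theorem deriv_HQ (x p : ℝ) : deriv (HQ x) p = p := by
  have h : HasDerivAt (HQ x) p p := by
    have := (hasDerivAt_pow 2 p).div_const 2
    refine this.congr_deriv ?_
    simp
  exact h.deriv

/-- `exp(-g/2ε)` -/
noncomputable def ph (ε : ℝ) (g : ℝ → ℝ) (x : ℝ) : ℝ := Real.exp (-(g x / (2 * ε)))

noncomputable def ph1 (ε : ℝ) (g g1 : ℝ → ℝ) (x : ℝ) : ℝ := -(g1 x / (2 * ε)) * ph ε g x

noncomputable def ph2 (ε : ℝ) (g g1 g2 : ℝ → ℝ) (x : ℝ) : ℝ :=
  -(g2 x / (2 * ε)) * ph ε g x + -(g1 x / (2 * ε)) * ph1 ε g g1 x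

theorem ph_p2 (ε : ℝ) {g g1 g2 : ℝ → ℝ} (hg : P2 g g1 g2) :
    P2 (ph ε g) (ph1 ε g g1) (ph2 ε g g1 g2) := by
  have h0 : ∀ x, HasDerivAt (ph ε g) (ph1 ε g g1 x) x := by
    intro x
    have h : HasDerivAt (fun x => -(g x / (2 * ε))) (-(g1 x / (2 * ε))) x :=
      ((hg.d1 x).div_const (2 * ε)).neg
    refine h.exp.congr_deriv ?_
    unfold ph1 ph
    ring
  refine ⟨fun x => by unfold ph; rw [hg.per], h0, fun x => ?_, ?_⟩
  · exact ((hg.d2 x).div_const (2 * ε)).neg.mul (h0 x)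
  · have c0 : Continuous (ph ε g) := continuous_iff_continuousAt.2 fun x => (h0 x).continuousAt
    have c1 : Continuous (ph1 ε g g1) := ((hg.c1.div_const _).neg).mul c0
    exact (((hg.c2.div_const _).neg).mul c0).add (((hg.c1.div_const _).neg).mul c1)

theorem ph_pos (ε : ℝ) (g : ℝ → ℝ) (x : ℝ) : 0 < ph ε g x := Real.exp_pos _

theorem heat_pos (ε : ℝ) {f : ℝ → ℝ} (hp : ∀ x, f (x + 1) = f x) (hc : Continuous f)
    (hf : ∀ x, 0 < f x) (x t : ℝ) : 0 < heat ε f x t := by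
  obtain ⟨M, h0, hM⟩ := bdd_per hp hc
  unfold heat
  have hi : Integrable (fun ζ => f (x + √(2 * ε * t) * ζ)) γ :=
    integrable_of_bdd (hc.comp (by fun_prop)) (fun ζ => hM _)
  rw [integral_pos_iff_support_of_nonneg (fun ζ => (hf _).le) hi]
  have : Function.support (fun ζ => f (x + √(2 * ε * t) * ζ)) = univ := by
    ext ζ
    simpa using (hf _).ne'
  rw [this]
  simp

theorem C21.of_P2mul {f f1 f2 h h1 h2 : ℝ → ℝ} (hf : P2 f f1 f2) (hh : P2 h h1 h2) :
    P2 (fun x => f x * h x) (fun x => f1 x * h x + f x * h1 x)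
      (fun x => (f2 x * h x + f1 x * h1 x) + (f1 x * h1 x + f x * h2 x)) where
  per := fun x => by rw [hf.per, hh.per]
  d1 := fun x => (hf.d1 x).mul (hh.d1 x)
  d2 := fun x => ((hf.d2 x).mul (hh.d1 x)).add ((hf.d1 x).mul (hh.d2 x))
  c2 := ((hf.c2.mul hh.c0).add (hf.c1.mul hh.c1)).add ((hf.c1.mul hh.c1).add (hf.c0.mul hh.c2))

section HopfCole

variable {g g1 g2 : ℝ → ℝ} (hg : P2 g g1 g2) {ε : ℝ} (hε : 0 < ε)
include hg hε

omit hε in
theorem heat_ph_pos (x t : ℝ) : 0 < heat ε (ph ε g) x t :=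
  heat_pos ε (ph_p2 ε hg).per (ph_p2 ε hg).c0 (ph_pos ε g) x t

/-- existence of the viscous solution -/
theorem viscous_exists : IsViscous HQ g ε (fun x t => -(2 * ε) * Real.log (heat ε (ph ε g) x t))
    (fun x t => -(2 * ε) * (heat ε (ph1 ε g g1) x t / heat ε (ph ε g) x t)) := by
  have hP := ph_p2 ε hg
  have hpos := heat_ph_pos hg (ε := ε)
  refine ⟨⟨fun x t => -(2 * ε) * (ε * heat ε (ph2 ε g g1 g2) x t / heat ε (ph ε g) x t),
    fun x t => -(2 * ε) * (heat ε (ph2 ε g g1 g2) x t / heat ε (ph ε g) x t -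
      heat ε (ph1 ε g g1) x t ^ 2 / heat ε (ph ε g) x t ^ 2), ?_, ?_⟩, ?_⟩
  · intro b hb
    have h1 := ((heat_c21 hε hP b).comp (S := Ioi 0) (fun x t _ => hpos x t)
      (G := Real.log) (G1 := fun y => y⁻¹) (G2 := fun y => -(y ^ 2)⁻¹)
      (fun y hy => Real.hasDerivAt_log (ne_of_gt hy)) (fun y hy => hasDerivAt_inv (ne_of_gt hy))
      (by
        refine ContinuousOn.neg (ContinuousOn.inv₀ (by fun_prop) fun y hy => ?_)
        exact (pow_pos (show (0 : ℝ) < y from hy) 2).ne')).const_mul (-(2 * ε))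
    have e1 : (fun x t => -(2 * ε) * ((heat ε (ph ε g) x t)⁻¹ * (ε * heat ε (ph2 ε g g1 g2) x t))) =
        fun x t => -(2 * ε) * (ε * heat ε (ph2 ε g g1 g2) x t / heat ε (ph ε g) x t) := by
      funext x t
      rw [div_eq_inv_mul]
    have e2 : (fun x t => -(2 * ε) * ((heat ε (ph ε g) x t)⁻¹ * heat ε (ph1 ε g g1) x t)) =
        fun x t => -(2 * ε) * (heat ε (ph1 ε g g1) x t / heat ε (ph ε g) x t) := by
      funext x t
      rw [div_eq_inv_mul]
    have e3 : (fun x t => -(2 * ε) * (-(heat ε (ph ε g) x t ^ 2)⁻¹ * heat ε (ph1 ε g g1) x t *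
        heat ε (ph1 ε g g1) x t + (heat ε (ph ε g) x t)⁻¹ * heat ε (ph2 ε g g1 g2) x t)) =
        fun x t => -(2 * ε) * (heat ε (ph2 ε g g1 g2) x t / heat ε (ph ε g) x t -
          heat ε (ph1 ε g g1) x t ^ 2 / heat ε (ph ε g) x t ^ 2) := by
      funext x t
      have := (hpos x t).ne'
      field_simp
      ring
    simp only [e1, e2, e3] at h1
    exact h1
  · intro x t _
    have := (hpos x t).ne'
    unfold HQ
    field_simp
    ring
  · intro x
    simp only [heat_zero, ph, Real.log_exp]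
    field_simp

/-- the Hopf-Cole formula for every solution -/
theorem viscous_formula {u ux : ℝ → ℝ → ℝ} (hu : IsViscous HQ g ε u ux) (x : ℝ) {t : ℝ}
    (ht : 0 < t) :
    ux x t = -(2 * ε) * (heat ε (ph1 ε g g1) x t / heat ε (ph ε g) x t) := by
  obtain ⟨⟨ut, uxx, hC, heq⟩, h0⟩ := hu
  have hP := ph_p2 ε hg
  have hpos := heat_ph_pos hg (ε := ε)
  have h1 := (hC (t + 1) (by linarith)).comp (S := univ) (fun x t _ => mem_univ _)
      (G := fun y => Real.exp (-(y / (2 * ε))))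
      (G1 := fun y => -(1 / (2 * ε)) * Real.exp (-(y / (2 * ε))))
      (G2 := fun y => -(1 / (2 * ε)) * (-(1 / (2 * ε)) * Real.exp (-(y / (2 * ε)))))
      (fun y _ => by
        have h : HasDerivAt (fun y : ℝ => -(y / (2 * ε))) (-(1 / (2 * ε))) y :=
          ((hasDerivAt_id y).div_const (2 * ε)).neg
        refine h.exp.congr_deriv ?_
        ring)
      (fun y _ => by
        have h : HasDerivAt (fun y : ℝ => -(y / (2 * ε))) (-(1 / (2 * ε))) y :=
          ((hasDerivAt_id y).div_const (2 * ε)).neg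
        refine (h.exp.const_mul (-(1 / (2 * ε)))).congr_deriv ?_
        ring)
      (by fun_prop)
  have key : ∀ y, Real.exp (-(u y t / (2 * ε))) = heat ε (ph ε g) y t := by
    intro y
    have h2 := heat_unique hε h1 (by
      intro x s hs
      have h3 := heq x s hs.1
      have h4 : ut x s = ε * uxx x s - ux x s ^ 2 / 2 := by
        unfold HQ at h3
        linarith
      simp only [h4]
      field_simp
      ring) y t ⟨ht, by linarith⟩
    rw [h2, heat]
    refine integral_congr_ae (Eventually.of_forall fun ζ => ?_)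
    simp only [h0, ph]
  have h5 : HasDerivAt (fun y => heat ε (ph ε g) y t)
      (-(1 / (2 * ε)) * Real.exp (-(u x t / (2 * ε))) * ux x t) x := by
    have h6 := h1.hx x t ⟨ht, by linarith⟩
    have h7 : (fun y => Real.exp (-(u y t / (2 * ε)))) = fun y => heat ε (ph ε g) y t :=
      funext key
    rw [h7] at h6
    exact h6
  have h8 := h5.unique (heat_dx ε hP.per hP.d1 hP.per1 hP.c1 x t)
  rw [← h8, key]
  have := (hpos x t).ne'
  field_simp

/-- the gradient bound -/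
theorem viscous_bound {u ux : ℝ → ℝ → ℝ} (hu : IsViscous HQ g ε u ux) {M : ℝ}
    (hM : ∀ x, |g1 x| ≤ M) (x : ℝ) {t : ℝ} (ht : 0 < t) : |ux x t| ≤ M := by
  have hP := ph_p2 ε hg
  have hpos := heat_ph_pos hg (ε := ε) x t
  rw [viscous_formula hg hε hu x ht, abs_mul, abs_neg, abs_of_pos (show 0 < 2 * ε by positivity),
    abs_div, abs_of_pos hpos, ← mul_div_assoc, div_le_iff₀ hpos]
  obtain ⟨K, hK0, hK⟩ := bdd_per hP.per hP.c0
  have h1 : |heat ε (ph1 ε g g1) x t| ≤ M / (2 * ε) * heat ε (ph ε g) x t := by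
    unfold heat
    rw [← integral_const_mul, ← Real.norm_eq_abs]
    refine norm_integral_le_of_norm_le ?_ (Eventually.of_forall fun ζ => ?_)
    · exact (integrable_of_bdd (hP.c0.comp (by fun_prop)) (fun ζ => hK _)).const_mul _
    · rw [Real.norm_eq_abs, ph1, abs_mul, abs_neg, abs_div,
        abs_of_pos (show 0 < 2 * ε by positivity), abs_of_pos (ph_pos _ _ _)]
      exact mul_le_mul_of_nonneg_right (div_le_div_of_nonneg_right (hM _) (by positivity))
        (ph_pos _ _ _).le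
  calc 2 * ε * |heat ε (ph1 ε g g1) x t| ≤ 2 * ε * (M / (2 * ε) * heat ε (ph ε g) x t) :=
        mul_le_mul_of_nonneg_left h1 (by positivity)
    _ = M * heat ε (ph ε g) x t := by field_simp

/-- the space-time function `heat (χ φ₀) / heat φ₀` -/
theorem ratio_c21 {χ χ1 χ2 : ℝ → ℝ} (hχ : P2 χ χ1 χ2) (T : ℝ) : ∃ ft fx fxx : ℝ → ℝ → ℝ,
    C21 0 T (fun x t => heat ε (fun y => χ y * ph ε g y) x t * (heat ε (ph ε g) x t)⁻¹) ft fx fxx ∧
    ∀ x, ∀ t ∈ Ioo 0 T, ft x t + (-(2 * ε) * (heat ε (ph1 ε g g1) x t / heat ε (ph ε g) x t)) *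
      fx x t - ε * fxx x t = 0 := by
  have hP := ph_p2 ε hg
  have hpos := heat_ph_pos hg (ε := ε)
  have hprod := C21.of_P2mul hχ hP
  have h1 := (heat_c21 hε hP T).comp (S := Ioi 0) (fun x t _ => hpos x t)
      (G := fun y => y⁻¹) (G1 := fun y => -(y ^ 2)⁻¹) (G2 := fun y => 2 * (y ^ 3)⁻¹)
      (fun y hy => hasDerivAt_inv (ne_of_gt hy))
      (fun y hy => by
        have hy0 : y ≠ 0 := ne_of_gt hy
        refine ((hasDerivAt_pow 2 y).inv (pow_ne_zero 2 hy0)).neg.congr_deriv ?_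
        field_simp
        norm_num
        ring)
      (by
        refine ContinuousOn.mul continuousOn_const (ContinuousOn.inv₀ (by fun_prop) fun y hy => ?_)
        exact (pow_pos (show (0 : ℝ) < y from hy) 3).ne')
  refine ⟨_, _, _, (heat_c21 hε hprod T).mul h1, ?_⟩
  intro x t _
  have := (hpos x t).ne'
  field_simp
  ring

/-- the measure at time zero of every solution of the adjoint equation -/
theorem adjoint_formula {u ux : ℝ → ℝ → ℝ} (hu : IsViscous HQ g ε u ux) {T z : ℝ} (hT : 0 < T)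
    {σ : ℝ → Measure ℝ} (hσ : IsAdjoint HQ ε T z ux σ) {χ χ1 χ2 : ℝ → ℝ} (hχ : P2 χ χ1 χ2) :
    ∫ x, χ x ∂σ 0 = heat ε (fun y => χ y * ph ε g y) z T / heat ε (ph ε g) z T := by
  obtain ⟨ft, fx, fxx, hC, hz⟩ := ratio_c21 hg hε hχ T
  obtain ⟨hc, hT1, hd⟩ := hσ.2 _ _ _ _ hC
  obtain ⟨c, hcm, hcd⟩ := exists_hasDerivAt_eq_slope _ _ hT hc hd
  have h0 : ∫ x, (ft x c + deriv (HQ x) (ux x c) * fx x c - ε * fxx x c) ∂σ c = 0 := by
    rw [← integral_zero ℝ ℝ (μ := σ c)]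
    refine integral_congr_ae (Eventually.of_forall fun x => ?_)
    simp only
    rw [deriv_HQ, viscous_formula hg hε hu x hcm.1]
    exact hz x c hcm
  rw [h0] at hcd
  have h1 := (div_eq_zero_iff.1 hcd.symm).resolve_right (by simpa using hT.ne')
  have h2 : ∫ x, heat ε (fun y => χ y * ph ε g y) x 0 * (heat ε (ph ε g) x 0)⁻¹ ∂σ 0 =
      ∫ x, χ x ∂σ 0 := by
    refine integral_congr_ae (Eventually.of_forall fun x => ?_)
    simp only [heat_zero]
    rw [mul_assoc, mul_inv_cancel₀ (ph_pos ε g x).ne', mul_one]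
  rw [h2, hT1] at h1
  rw [div_eq_mul_inv]
  linarith

/-- the integrals against a fixed function are Lipschitz in time -/
theorem adjoint_lip (hε1 : ε < 1) {u ux : ℝ → ℝ → ℝ} (hu : IsViscous HQ g ε u ux) {T z : ℝ}
    {σ : ℝ → Measure ℝ} (hσ : IsAdjoint HQ ε T z ux σ) {χ χ1 χ2 : ℝ → ℝ} (hχ : P2 χ χ1 χ2)
    {M M1 M2 : ℝ} (hM : ∀ x, |g1 x| ≤ M) (hM1 : ∀ x, |χ1 x| ≤ M1) (hM2 : ∀ x, |χ2 x| ≤ M2)
    {t : ℝ} (ht0 : 0 ≤ t) (htT : t ≤ T) :
    |∫ x, χ x ∂σ t - ∫ x, χ x ∂σ 0| ≤ (M * M1 + M2) * t := by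
  rcases ht0.eq_or_lt with h | h
  · rw [← h]
    simp
  obtain ⟨hc, hT1, hd⟩ := hσ.2 _ _ _ _ (hχ.c21 0 T)
  obtain ⟨c, hcm, hcd⟩ := exists_hasDerivAt_eq_slope _ _ h
    (hc.mono (Icc_subset_Icc le_rfl htT)) (fun s hs => hd s ⟨hs.1, hs.2.trans_le htT⟩)
  have hprob := (hσ.1 c ⟨hcm.1.le, hcm.2.le.trans htT⟩).1
  have hb : |∫ x, (0 + deriv (HQ x) (ux x c) * χ1 x - ε * χ2 x) ∂σ c| ≤ M * M1 + M2 := by
    rw [← Real.norm_eq_abs]
    refine (norm_integral_le_of_norm_le_const (C := M * M1 + M2)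
      (Eventually.of_forall fun x => ?_)).trans_eq ?_
    · rw [deriv_HQ, Real.norm_eq_abs, zero_add]
      refine (abs_sub _ _).trans (add_le_add ?_ ?_)
      · rw [abs_mul]
        have hm0 : 0 ≤ M := (abs_nonneg _).trans (hM 0)
        exact mul_le_mul (viscous_bound hg hε hu hM x hcm.1) (hM1 x) (abs_nonneg _) hm0
      · rw [abs_mul, abs_of_pos hε]
        calc ε * |χ2 x| ≤ 1 * |χ2 x| := mul_le_mul_of_nonneg_right hε1.le (abs_nonneg _)
          _ ≤ M2 := by rw [one_mul]; exact hM2 x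
    · simp
  rw [hcd, sub_zero, abs_div, abs_of_pos h, div_le_iff₀ h] at hb
  exact hb


/-- the solution of the adjoint equation -/
noncomputable def sig (ε T z : ℝ) (g : ℝ → ℝ) (t : ℝ) : Measure ℝ :=
  ((γ.withDensity fun ζ => ENNReal.ofReal
    (heat ε (ph ε g) (z + √(2 * ε * T + (-(2 * ε)) * t) * ζ) t / heat ε (ph ε g) z T)).map
      fun ζ => Int.fract (z + √(2 * ε * T + (-(2 * ε)) * t) * ζ))

omit hε in
theorem sig_integral (T z t : ℝ) {h : ℝ → ℝ} (hp : ∀ x, h (x + 1) = h x) (hc : Continuous h) :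
    ∫ x, h x ∂(sig ε T z g t) =
      (∫ ζ, heat ε (ph ε g) (z + √(2 * ε * T + (-(2 * ε)) * t) * ζ) t *
        h (z + √(2 * ε * T + (-(2 * ε)) * t) * ζ) ∂γ) / heat ε (ph ε g) z T := by
  have hP := ph_p2 ε hg
  have hcφ : Continuous fun ζ =>
      heat ε (ph ε g) (z + √(2 * ε * T + (-(2 * ε)) * t) * ζ) t :=
    (heat_cont ε hP.per hP.c0).comp (g := fun p : ℝ × ℝ => heat ε (ph ε g) p.1 p.2)
      (f := fun ζ : ℝ => (z + √(2 * ε * T + (-(2 * ε)) * t) * ζ, t)) (by fun_prop)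
  unfold sig
  rw [integral_map (by fun_prop) hc.aestronglyMeasurable]
  have h1 : ∀ ζ, h (Int.fract (z + √(2 * ε * T + (-(2 * ε)) * t) * ζ)) =
      h (z + √(2 * ε * T + (-(2 * ε)) * t) * ζ) := fun ζ => per_fract hp _
  simp only [h1]
  have h2 := integral_withDensity_eq_integral_toReal_smul (μ := γ) (f := fun ζ => ENNReal.ofReal
    (heat ε (ph ε g) (z + √(2 * ε * T + (-(2 * ε)) * t) * ζ) t / heat ε (ph ε g) z T))
    (by exact (hcφ.div_const _).measurable.ennreal_ofReal)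
    (Eventually.of_forall fun ζ => ENNReal.ofReal_lt_top)
    (fun ζ => h (z + √(2 * ε * T + (-(2 * ε)) * t) * ζ))
  rw [h2, ← integral_div]
  refine integral_congr_ae (Eventually.of_forall fun ζ => ?_)
  simp only [smul_eq_mul]
  rw [ENNReal.toReal_ofReal (div_nonneg (heat_ph_pos hg _ _).le (heat_ph_pos hg _ _).le)]
  ring

omit hg in
theorem flow_const {T : ℝ} {w wt wx wxx : ℝ → ℝ → ℝ} (h : C21 0 T w wt wx wxx)
    (heq : ∀ x, ∀ t ∈ Ioo 0 T, wt x t = ε * wxx x t) (z t : ℝ) (ht : t ∈ Icc 0 T) :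
    ∫ ζ, w (z + √(2 * ε * T + (-(2 * ε)) * t) * ζ) t ∂γ = w z T := by
  rcases ht.2.eq_or_lt with h1 | h1
  · rw [h1]
    simp
  have hc : ContinuousOn (fun s => ∫ ζ, w (z + √(2 * ε * T + (-(2 * ε)) * s) * ζ) s ∂γ)
      (Icc t T) := (flow_cont h.per h.cont z (2 * ε * T) (-(2 * ε))).mono
      (Icc_subset_Icc ht.1 le_rfl)
  obtain ⟨c, hcm, hcd⟩ := exists_hasDerivAt_eq_slope
    (fun s => ∫ ζ, w (z + √(2 * ε * T + (-(2 * ε)) * s) * ζ) s ∂γ)
    (fun s => ∫ ζ, (wt (z + √(2 * ε * T + (-(2 * ε)) * s) * ζ) s +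
      (-(2 * ε)) / 2 * wxx (z + √(2 * ε * T + (-(2 * ε)) * s) * ζ) s) ∂γ) h1 hc
    (fun s hs => flow_deriv h z _ _ ⟨ht.1.trans_lt hs.1, hs.2⟩ (by nlinarith [hs.2]))
  have h0 : ∫ ζ, (wt (z + √(2 * ε * T + (-(2 * ε)) * c) * ζ) c +
      (-(2 * ε)) / 2 * wxx (z + √(2 * ε * T + (-(2 * ε)) * c) * ζ) c) ∂γ = 0 := by
    rw [← integral_zero ℝ ℝ (μ := γ)]
    refine integral_congr_ae (Eventually.of_forall fun ζ => ?_)
    simp only
    rw [heq _ c ⟨ht.1.trans_lt hcm.1, hcm.2⟩]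
    ring
  rw [h0] at hcd
  have h2 := (div_eq_zero_iff.1 hcd.symm).resolve_right (sub_pos.2 h1).ne'
  have e1 : 2 * ε * T + (-(2 * ε)) * T = 0 := by ring
  simp only [e1, Real.sqrt_zero, zero_mul, add_zero, integral_const, probReal_univ,
    smul_eq_mul, one_mul] at h2
  linarith

/-- existence of the solution of the adjoint equation -/
theorem adjoint_exists {T : ℝ} (hT : 0 < T) (z : ℝ) {u ux : ℝ → ℝ → ℝ}
    (hu : IsViscous HQ g ε u ux) : IsAdjoint HQ ε T z ux (sig ε T z g) := by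
  have hP := ph_p2 ε hg
  have hφ := heat_c21 hε hP T
  have hpos := heat_ph_pos hg (ε := ε)
  have hcφ : ∀ t, Continuous fun ζ =>
      heat ε (ph ε g) (z + √(2 * ε * T + (-(2 * ε)) * t) * ζ) t := fun t =>
    (heat_cont ε hP.per hP.c0).comp (g := fun p : ℝ × ℝ => heat ε (ph ε g) p.1 p.2)
      (f := fun ζ : ℝ => (z + √(2 * ε * T + (-(2 * ε)) * t) * ζ, t)) (by fun_prop)
  refine ⟨fun t ht => ⟨⟨?_⟩, ?_⟩, fun f ft fx fxx hf => ?_⟩
  · -- total mass
    unfold sig
    rw [Measure.map_apply (by fun_prop) MeasurableSet.univ, preimage_univ,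
      withDensity_apply _ MeasurableSet.univ, Measure.restrict_univ]
    obtain ⟨M, hM0, hM⟩ := bdd_per (f := fun x => heat ε (ph ε g) x t)
      (fun x => heat_per ε hP.per x t) ((heat_cont ε hP.per hP.c0).comp
        (g := fun p : ℝ × ℝ => heat ε (ph ε g) p.1 p.2) (f := fun x : ℝ => (x, t)) (by fun_prop))
    have hi : Integrable (fun ζ => heat ε (ph ε g) (z + √(2 * ε * T + (-(2 * ε)) * t) * ζ) t /
        heat ε (ph ε g) z T) γ :=
      (integrable_of_bdd (hcφ t) (fun ζ => hM _)).div_const _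
    rw [← ofReal_integral_eq_lintegral_ofReal hi
      (Eventually.of_forall fun ζ => div_nonneg (hpos _ _).le (hpos _ _).le), integral_div,
      flow_const hε hφ (fun x t _ => rfl) z t ht, div_self (hpos _ _).ne', ENNReal.ofReal_one]
  · unfold sig
    rw [Measure.map_apply (by fun_prop) (measurableSet_Ico.compl)]
    convert measure_empty
    · ext ζ
      simp only [mem_preimage, mem_compl_iff, mem_Ico, mem_empty_iff_false, iff_false, not_not]
      exact ⟨Int.fract_nonneg _, Int.fract_lt_one _⟩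
    · infer_instance
  · have hprod := hφ.mul hf
    have e0 : ∀ t ∈ Icc 0 T, ∫ x, f x t ∂(sig ε T z g t) =
        (∫ ζ, heat ε (ph ε g) (z + √(2 * ε * T + (-(2 * ε)) * t) * ζ) t *
          f (z + √(2 * ε * T + (-(2 * ε)) * t) * ζ) t ∂γ) / heat ε (ph ε g) z T :=
      fun t ht => sig_integral hg T z t (fun x => hf.per x t) (cont_slice hf.cont ht)
    refine ⟨?_, ?_, ?_⟩
    · refine ContinuousOn.congr ?_ e0
      exact (flow_cont (f := fun x t => heat ε (ph ε g) x t * f x t) hprod.per hprod.cont z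
        (2 * ε * T) (-(2 * ε))).div_const _
    · rw [e0 T ⟨hT.le, le_rfl⟩]
      have e1 : 2 * ε * T + (-(2 * ε)) * T = 0 := by ring
      simp only [e1, Real.sqrt_zero, zero_mul, add_zero, integral_const, probReal_univ,
        smul_eq_mul, one_mul]
      rw [mul_div_assoc, mul_div_left_comm, div_self (hpos _ _).ne', mul_one]
    · intro t ht
      have h1 := (flow_deriv hprod z (2 * ε * T) (-(2 * ε)) ht (by nlinarith [ht.2])).div_const
        (heat ε (ph ε g) z T)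
      have h2 : (fun t => ∫ x, f x t ∂(sig ε T z g t)) =ᶠ[𝓝 t] fun t =>
          (∫ ζ, heat ε (ph ε g) (z + √(2 * ε * T + (-(2 * ε)) * t) * ζ) t *
          f (z + √(2 * ε * T + (-(2 * ε)) * t) * ζ) t ∂γ) / heat ε (ph ε g) z T := by
        filter_upwards [Ioo_mem_nhds ht.1 ht.2] with s hs
        exact e0 s (Ioo_subset_Icc_self hs)
      refine (h1.congr_of_eventuallyEq h2).congr_deriv ?_
      obtain ⟨⟨ut, uxx, hC, heq⟩, h00⟩ := hu
      have hCT := hC T hT
      have hu' : IsViscous HQ g ε u ux := ⟨⟨ut, uxx, hC, heq⟩, h00⟩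
      have hc1 : Continuous fun x => ft x t + deriv (HQ x) (ux x t) * fx x t - ε * fxx x t := by
        simp only [deriv_HQ]
        exact ((cont_slice hf.ct ht).add ((cont_slice hCT.cx ht).mul (cont_slice hf.cx ht))).sub
          (continuous_const.mul (cont_slice hf.cxx ht))
      rw [sig_integral hg T z t (h := fun x => ft x t + deriv (HQ x) (ux x t) * fx x t -
        ε * fxx x t) (fun x => by
          simp only [deriv_HQ]
          rw [hf.pert x ht, hf.perx x ht, hf.perxx x ht, hCT.perx x ht]) hc1]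
      congr 1
      refine integral_congr_ae (Eventually.of_forall fun ζ => ?_)
      simp only [deriv_HQ]
      rw [viscous_formula hg hε hu' _ ht.1]
      generalize z + √(2 * ε * T + (-(2 * ε)) * t) * ζ = y
      have := (hpos y t).ne'
      field_simp
      ring

end HopfCole

end Pool.Agent.Q95.VV
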