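import Pool.Agent.Q95.VV3

/-!
# The initial datum

`gg` is a `C²` one-periodic function such that `gg y + y ^ 2 / 2` vanishes exactly at `± 1 / 4`,
to order four, with an oscillating coefficient at `1 / 4`.
-/

set_option autoImplicit false

namespace Pool.Agent.Q95.VV

open MeasureTheory Filter Topology Set ProbabilityTheory

/-- `c ^ n h(log c²)` -/
noncomputable def lp (n : ℕ) (h : ℝ → ℝ) (c : ℝ) : ℝ := c ^ n * h (Real.log (c ^ 2))

theorem lp_tendsto_zero (n : ℕ) {h : ℝ → ℝ} {M : ℝ} (hM : ∀ L, |h L| ≤ M) :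
    Tendsto (lp (n + 1) h) (𝓝 0) (𝓝 0) := by
  have h1 : Tendsto (fun c : ℝ => |c| ^ (n + 1) * M) (𝓝 0) (𝓝 0) := by
    have h2 : Continuous fun c : ℝ => |c| ^ (n + 1) * M := by fun_prop
    have h3 := h2.tendsto 0
    simpa using h3
  refine squeeze_zero_norm (fun c => ?_) h1
  rw [lp, Real.norm_eq_abs, abs_mul, abs_pow]
  exact mul_le_mul_of_nonneg_left (hM _) (by positivity)

theorem lp_cont (n : ℕ) {h : ℝ → ℝ} {M : ℝ} (hM : ∀ L, |h L| ≤ M) (hc : Continuous h) :
    Continuous (lp (n + 1) h) := by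
  rw [continuous_iff_continuousAt]
  intro c
  by_cases hc0 : c = 0
  · rw [hc0, ContinuousAt]
    have h1 : lp (n + 1) h 0 = 0 := by simp [lp]
    rw [h1]
    exact lp_tendsto_zero n hM
  · refine (by fun_prop : ContinuousAt (fun c : ℝ => c ^ (n + 1)) c).mul ?_
    refine hc.continuousAt.comp ?_
    exact ContinuousAt.log (by fun_prop) (pow_ne_zero 2 hc0)

theorem lp_deriv (n : ℕ) {h h' : ℝ → ℝ} (hd : ∀ L, HasDerivAt h (h' L) L) {M : ℝ}
    (hM : ∀ L, |h L| ≤ M) (c : ℝ) :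
    HasDerivAt (lp (n + 2) h) (lp (n + 1) (fun L => (n + 2) * h L + 2 * h' L) c) c := by
  by_cases hc0 : c = 0
  · rw [hc0]
    have h1 : lp (n + 1) (fun L => (n + 2) * h L + 2 * h' L) 0 = 0 := by simp [lp]
    rw [h1, hasDerivAt_iff_isLittleO]
    have h2 : lp (n + 2) h 0 = 0 := by simp [lp]
    simp only [h2, sub_zero, smul_zero]
    have h3 : (fun c => lp (n + 2) h c) = fun c => lp (n + 1) h c * c := by
      funext c
      simp only [lp]
      ring
    rw [h3]
    have h4 : (fun c => lp (n + 1) h c) =o[𝓝 0] fun _ => (1 : ℝ) :=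
      (Asymptotics.isLittleO_one_iff ℝ).2 (lp_tendsto_zero n hM)
    simpa using h4.mul_isBigO (Asymptotics.isBigO_refl (fun c : ℝ => c) (𝓝 0))
  · have h1 : HasDerivAt (fun c : ℝ => Real.log (c ^ 2)) (((2 : ℕ) : ℝ) * c ^ (2 - 1) / c ^ 2) c :=
      (hasDerivAt_pow 2 c).log (pow_ne_zero 2 hc0)
    have h2 := (hasDerivAt_pow (n + 2) c).mul ((hd (Real.log (c ^ 2))).comp c h1)
    refine h2.congr_deriv ?_
    simp only [lp, Function.comp]
    have e : n + 2 - 1 = n + 1 := rfl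
    rw [e]
    push_cast
    field_simp
    ring

theorem cd2 {f f1 f2 : ℝ → ℝ} (d1 : ∀ x, HasDerivAt f (f1 x) x) (d2 : ∀ x, HasDerivAt f1 (f2 x) x)
    (c : Continuous f2) : ContDiff ℝ 2 f := by
  have e1 : deriv f = f1 := funext fun x => (d1 x).deriv
  have e2 : deriv f1 = f2 := funext fun x => (d2 x).deriv
  have h1 : ContDiff ℝ 1 f1 := contDiff_one_iff_deriv.2
    ⟨fun x => (d2 x).differentiableAt, by rw [e2]; exact c⟩
  have h2 : ContDiff ℝ (1 + 1) f := contDiff_succ_iff_deriv.2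
    ⟨fun x => (d1 x).differentiableAt, by simp, by rw [e1]; exact h1⟩
  simpa [one_add_one_eq_two] using h2

theorem P2.of_contDiff {f : ℝ → ℝ} (hc : ContDiff ℝ 2 f) (hp : ∀ x, f (x + 1) = f x) :
    P2 f (deriv f) (deriv (deriv f)) := by
  have h2 : ContDiff ℝ (1 + 1) f := by simpa [one_add_one_eq_two] using hc
  obtain ⟨h3, -, h4⟩ := contDiff_succ_iff_deriv.1 h2
  obtain ⟨h5, h6⟩ := contDiff_one_iff_deriv.1 h4
  exact ⟨hp, fun x => (h3 x).hasDerivAt, fun x => (h5 x).hasDerivAt, h6⟩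

/-- the slowly oscillating function -/
noncomputable def f0 (L : ℝ) : ℝ := Real.sin (Real.log (1 + L ^ 2))

noncomputable def f0' (L : ℝ) : ℝ := Real.cos (Real.log (1 + L ^ 2)) * (2 * L / (1 + L ^ 2))

noncomputable def f0'' (L : ℝ) : ℝ :=
  -Real.sin (Real.log (1 + L ^ 2)) * (2 * L / (1 + L ^ 2)) * (2 * L / (1 + L ^ 2)) +
    Real.cos (Real.log (1 + L ^ 2)) * ((2 * (1 + L ^ 2) - 2 * L * (2 * L)) / (1 + L ^ 2) ^ 2)

theorem hlog (L : ℝ) : HasDerivAt (fun L : ℝ => Real.log (1 + L ^ 2)) (2 * L / (1 + L ^ 2)) L := by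
  have h1 : HasDerivAt (fun L : ℝ => 1 + L ^ 2) (2 * L) L := by
    simpa using (hasDerivAt_pow 2 L).const_add 1
  exact h1.log (by positivity)

theorem f0_deriv (L : ℝ) : HasDerivAt f0 (f0' L) L := (hlog L).sin

theorem f0'_deriv (L : ℝ) : HasDerivAt f0' (f0'' L) L := by
  have h1 : HasDerivAt (fun L : ℝ => 1 + L ^ 2) (2 * L) L := by
    simpa using (hasDerivAt_pow 2 L).const_add 1
  have h2 : HasDerivAt (fun L : ℝ => 2 * L) 2 L := by
    simpa using (hasDerivAt_id L).const_mul 2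
  exact (hlog L).cos.mul (h2.div h1 (by positivity))

theorem f0_bd (L : ℝ) : |f0 L| ≤ 1 := Real.abs_sin_le_one _

theorem aux_bd (L : ℝ) : |2 * L / (1 + L ^ 2)| ≤ 1 := by
  have h : 0 < 1 + L ^ 2 := by positivity
  rw [abs_div, abs_of_pos h, div_le_one h, abs_le]
  constructor <;> nlinarith [sq_nonneg (L - 1), sq_nonneg (L + 1)]

theorem f0'_bd (L : ℝ) : |f0' L| ≤ 1 := by
  rw [f0', abs_mul]
  calc _ ≤ (1 : ℝ) * 1 := mul_le_mul (Real.abs_cos_le_one _) (aux_bd L) (abs_nonneg _) zero_le_one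
    _ = 1 := one_mul 1

theorem f0''_bd (L : ℝ) : |f0'' L| ≤ 3 := by
  have h : 0 < 1 + L ^ 2 := by positivity
  have h1 : |-Real.sin (Real.log (1 + L ^ 2)) * (2 * L / (1 + L ^ 2)) * (2 * L / (1 + L ^ 2))| ≤ 1 := by
    rw [abs_mul, abs_mul, abs_neg]
    calc _ ≤ (1 : ℝ) * 1 * 1 := mul_le_mul (mul_le_mul (Real.abs_sin_le_one _) (aux_bd L)
          (abs_nonneg _) zero_le_one) (aux_bd L) (abs_nonneg _) (by norm_num)
      _ = 1 := by norm_num
  have h2 : |(2 * (1 + L ^ 2) - 2 * L * (2 * L)) / (1 + L ^ 2) ^ 2| ≤ 2 := by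
    rw [abs_div, abs_of_pos (show 0 < (1 + L ^ 2) ^ 2 by positivity), div_le_iff₀ (by positivity),
      abs_le]
    constructor <;> nlinarith [sq_nonneg L, sq_nonneg (L ^ 2)]
  rw [f0'']
  refine (abs_add_le _ _).trans ?_
  rw [abs_mul (Real.cos _)]
  have h3 : |Real.cos (Real.log (1 + L ^ 2))| * |(2 * (1 + L ^ 2) - 2 * L * (2 * L)) / (1 + L ^ 2) ^ 2|
      ≤ 1 * 2 := mul_le_mul (Real.abs_cos_le_one _) h2 (abs_nonneg _) zero_le_one
  linarith

theorem f0''_cont : Continuous f0'' := by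
  have h : ∀ L : ℝ, 1 + L ^ 2 ≠ 0 := fun L => by positivity
  unfold f0''
  have h1 : Continuous fun L : ℝ => Real.log (1 + L ^ 2) := by
    exact Continuous.log (by fun_prop) h
  have h2 : Continuous fun L : ℝ => 2 * L / (1 + L ^ 2) := Continuous.div (by fun_prop) (by fun_prop) h
  have h3 : Continuous fun L : ℝ => (2 * (1 + L ^ 2) - 2 * L * (2 * L)) / (1 + L ^ 2) ^ 2 :=
    Continuous.div (by fun_prop) (by fun_prop) (fun L => pow_ne_zero 2 (h L))
  exact ((((Real.continuous_sin.comp h1).neg).mul h2).mul h2).add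
    ((Real.continuous_cos.comp h1).mul h3)

theorem lp_contDiff : ContDiff ℝ 2 (lp 4 f0) := by
  have hc1 : Continuous f0' := continuous_iff_continuousAt.2 fun x => (f0'_deriv x).continuousAt
  have hc0 : Continuous f0 := continuous_iff_continuousAt.2 fun x => (f0_deriv x).continuousAt
  refine cd2 (f1 := lp 3 (fun L => ((2 : ℕ) + 2) * f0 L + 2 * f0' L))
    (f2 := lp 2 (fun L => ((1 : ℕ) + 2) * (((2 : ℕ) + 2) * f0 L + 2 * f0' L) +
      2 * (((2 : ℕ) + 2) * f0' L + 2 * f0'' L))) (lp_deriv 2 f0_deriv f0_bd)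
    (lp_deriv 1 (fun L => ((f0_deriv L).const_mul _).add ((f0'_deriv L).const_mul _)) (M := 6) ?_) ?_
  · intro L
    have h1 := abs_le.1 (f0_bd L)
    have h2 := abs_le.1 (f0'_bd L)
    rw [abs_le]
    push_cast
    constructor <;> linarith
  · refine lp_cont 1 (M := 40) ?_ ?_
    · intro L
      have h1 := abs_le.1 (f0_bd L)
      have h2 := abs_le.1 (f0'_bd L)
      have h3 := abs_le.1 (f0''_bd L)
      rw [abs_le]
      push_cast
      constructor <;> linarith
    · have := f0''_cont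
      fun_prop

/-- the cut-off -/
noncomputable def chi (y : ℝ) : ℝ := Real.smoothTransition (Real.sin (2 * Real.pi * y) + 1 / 2)

/-- `ρ(c) arccos(c) ^ 2` -/
noncomputable def ra (c : ℝ) : ℝ := Real.smoothTransition (2 - 3 * c ^ 2) * Real.arccos c ^ 2

/-- the initial datum -/
noncomputable def gg (y : ℝ) : ℝ :=
  2 * Real.cos (2 * Real.pi * y) ^ 4 - ra (Real.cos (2 * Real.pi * y)) / (8 * Real.pi ^ 2) +
    chi y * lp 4 f0 (Real.cos (2 * Real.pi * y))

theorem ra_contDiff : ContDiff ℝ 2 ra := by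
  rw [contDiff_iff_contDiffAt]
  intro c
  by_cases hc : c ^ 2 < 1
  · have h1 : c ≠ -1 := by rintro rfl; norm_num at hc
    have h2 : c ≠ 1 := by rintro rfl; norm_num at hc
    have h3 : ContDiffAt ℝ 2 Real.arccos c := Real.contDiffAt_arccos h1 h2
    have h4 : ContDiffAt ℝ 2 (fun c : ℝ => Real.smoothTransition (2 - 3 * c ^ 2)) c :=
      (Real.smoothTransition.contDiff.comp (by fun_prop : ContDiff ℝ 2 fun c : ℝ => 2 - 3 * c ^ 2)).contDiffAt
    exact h4.mul (h3.pow 2)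
  · have h1 : {c : ℝ | 2 / 3 < c ^ 2} ∈ 𝓝 c :=
      (isOpen_lt continuous_const (by fun_prop)).mem_nhds (by
        show 2 / 3 < c ^ 2
        linarith)
    have h2 : ra =ᶠ[𝓝 c] fun _ => 0 := by
      filter_upwards [h1] with c' hc'
      have h3 : 2 / 3 < c' ^ 2 := hc'
      rw [ra, Real.smoothTransition.zero_of_nonpos (by linarith), zero_mul]
    exact contDiffAt_const.congr_of_eventuallyEq h2

theorem chi_contDiff : ContDiff ℝ 2 chi :=
  Real.smoothTransition.contDiff.comp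
    (by fun_prop : ContDiff ℝ 2 fun y : ℝ => Real.sin (2 * Real.pi * y) + 1 / 2)

theorem gg_contDiff : ContDiff ℝ 2 gg := by
  have hc : ContDiff ℝ 2 fun y : ℝ => Real.cos (2 * Real.pi * y) := by fun_prop
  exact (((contDiff_const.mul (hc.pow 4))).sub ((ra_contDiff.comp hc).div_const _)).add
    (chi_contDiff.mul (lp_contDiff.comp hc))

theorem cos_per (y : ℝ) : Real.cos (2 * Real.pi * (y + 1)) = Real.cos (2 * Real.pi * y) := by
  rw [mul_add, mul_one, Real.cos_add_two_pi]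

theorem sin_per (y : ℝ) : Real.sin (2 * Real.pi * (y + 1)) = Real.sin (2 * Real.pi * y) := by
  rw [mul_add, mul_one, Real.sin_add_two_pi]

theorem chi_per (y : ℝ) : chi (y + 1) = chi y := by rw [chi, chi, sin_per]

theorem gg_per (y : ℝ) : gg (y + 1) = gg y := by rw [gg, gg, cos_per, chi_per]

theorem chi_nonneg (y : ℝ) : 0 ≤ chi y := Real.smoothTransition.nonneg _

theorem chi_le_one (y : ℝ) : chi y ≤ 1 := Real.smoothTransition.le_one _

/-- the full exponent -/
noncomputable def FF (y : ℝ) : ℝ := gg y + y ^ 2 / 2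

theorem lp4_bd (c : ℝ) : |lp 4 f0 c| ≤ c ^ 4 := by
  rw [lp, abs_mul, abs_of_nonneg (show 0 ≤ c ^ 4 by positivity)]
  exact mul_le_of_le_one_right (by positivity) (f0_bd _)

theorem FF_lb (y : ℝ) : (y ^ 2 - (Real.arccos (Real.cos (2 * Real.pi * y)) / (2 * Real.pi)) ^ 2) / 2 +
    Real.cos (2 * Real.pi * y) ^ 4 ≤ FF y := by
  set c := Real.cos (2 * Real.pi * y) with hc
  have h1 : ra c / (8 * Real.pi ^ 2) ≤ (Real.arccos c / (2 * Real.pi)) ^ 2 / 2 := by
    have e : (Real.arccos c / (2 * Real.pi)) ^ 2 / 2 = Real.arccos c ^ 2 / (8 * Real.pi ^ 2) := by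
      field_simp
      norm_num
    rw [e]
    refine div_le_div_of_nonneg_right ?_ (by positivity)
    exact mul_le_of_le_one_left (by positivity) (Real.smoothTransition.le_one _)
  have h2 : -(c ^ 4) ≤ chi y * lp 4 f0 c := by
    have h3 := abs_le.1 (lp4_bd c)
    have h4 := chi_nonneg y
    have h5 := chi_le_one y
    nlinarith [show 0 ≤ c ^ 4 by positivity]
  unfold FF gg
  rw [← hc]
  linarith

end Pool.Agent.Q95.VV
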