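import Pool.Agent.Q95.VV4

/-!
# Laplace asymptotics for the initial datum
-/

set_option autoImplicit false

namespace Pool.Agent.Q95.VV

open MeasureTheory Filter Topology Set ProbabilityTheory

/-- the lower bound for the exponent -/
noncomputable def lbf (y : ℝ) : ℝ :=
  (y ^ 2 - (Real.arccos (Real.cos (2 * Real.pi * y)) / (2 * Real.pi)) ^ 2) / 2 +
    Real.cos (2 * Real.pi * y) ^ 4

theorem lbf_neg (y : ℝ) : lbf (-y) = lbf y := by
  unfold lbf
  rw [mul_neg, Real.cos_neg, neg_sq]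

theorem arccos_eq {y : ℝ} (hy : |y| ≤ 1 / 2) :
    Real.arccos (Real.cos (2 * Real.pi * y)) = 2 * Real.pi * |y| := by
  have hpi := Real.pi_pos
  have h1 : Real.cos (2 * Real.pi * y) = Real.cos (2 * Real.pi * |y|) := by
    rw [← Real.cos_abs (2 * Real.pi * y), abs_mul, abs_of_pos (show 0 < 2 * Real.pi by positivity)]
  rw [h1, Real.arccos_cos (by positivity)]
  nlinarith

theorem lbf_near {y : ℝ} (hy : |y| ≤ 1 / 2) : lbf y = Real.cos (2 * Real.pi * y) ^ 4 := by
  have hpi := Real.pi_pos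
  unfold lbf
  rw [arccos_eq hy, mul_div_cancel_left₀ _ (by positivity), sq_abs]
  ring

theorem lbf_far {y : ℝ} : (y ^ 2 - 1 / 4) / 2 + Real.cos (2 * Real.pi * y) ^ 4 ≤ lbf y := by
  have hpi := Real.pi_pos
  unfold lbf
  have h1 : Real.arccos (Real.cos (2 * Real.pi * y)) / (2 * Real.pi) ≤ 1 / 2 := by
    rw [div_le_iff₀ (by positivity)]
    linarith [Real.arccos_le_pi (Real.cos (2 * Real.pi * y))]
  have h2 : 0 ≤ Real.arccos (Real.cos (2 * Real.pi * y)) / (2 * Real.pi) :=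
    div_nonneg (Real.arccos_nonneg _) (by positivity)
  nlinarith

theorem cosbound1 {y : ℝ} (hy : |y| ≤ 1 / 2) (hs : -(1 / 2) < Real.sin (2 * Real.pi * y)) :
    |y - 1 / 4| / 2 ≤ |Real.cos (2 * Real.pi * y)| := by
  have hpi := Real.pi_pos
  obtain ⟨hy1, hy2⟩ := abs_le.1 hy
  have h34 : |y - 1 / 4| ≤ 3 / 4 := by rw [abs_le]; constructor <;> linarith
  set c := Real.cos (2 * Real.pi * y) with hc
  set s := Real.sin (2 * Real.pi * y) with hsd
  rcases le_or_gt (1 / 2) |c| with h | h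
  · linarith
  have hc2 : c ^ 2 < 1 / 4 := by
    rw [← sq_abs]
    nlinarith [abs_nonneg c]
  have hsc : s ^ 2 + c ^ 2 = 1 := Real.sin_sq_add_cos_sq _
  have hs0 : 0 < s := by
    by_contra hcon
    push Not at hcon
    nlinarith
  have e1 : Real.cos (2 * Real.pi * (y - 1 / 4)) = s := by
    rw [hsd, ← Real.cos_sub_pi_div_two]
    congr 1
    ring
  have e2 : |Real.sin (2 * Real.pi * (y - 1 / 4))| = |c| := by
    rw [hc, show 2 * Real.pi * (y - 1 / 4) = 2 * Real.pi * y - Real.pi / 2 by ring,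
      Real.sin_sub_pi_div_two, abs_neg]
  have h3 : -(Real.pi / 2) ≤ 2 * Real.pi * (y - 1 / 4) := by
    by_contra hcon
    push Not at hcon
    have h4 := Real.cos_nonpos_of_pi_div_two_le_of_le (x := -(2 * Real.pi * (y - 1 / 4)))
      (by linarith) (by nlinarith)
    rw [Real.cos_neg, e1] at h4
    linarith
  have h5 : |2 * Real.pi * (y - 1 / 4)| ≤ Real.pi / 2 := by
    rw [abs_le]
    constructor
    · exact h3
    · nlinarith
  have h6 := Real.mul_abs_le_abs_sin h5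
  rw [e2, abs_mul, abs_of_pos (show 0 < 2 * Real.pi by positivity)] at h6
  have h7 : 2 / Real.pi * (2 * Real.pi * |y - 1 / 4|) = 4 * |y - 1 / 4| := by
    field_simp
    norm_num
  rw [h7] at h6
  linarith [abs_nonneg (y - 1 / 4)]

theorem cosbound2 {y : ℝ} (hy : 1 / 2 ≤ |y|) (hy2 : |y| ≤ 5 / 8) :
    1 / 4 ≤ Real.cos (2 * Real.pi * y) ^ 4 := by
  have hpi := Real.pi_pos
  have h1 : Real.cos (2 * (2 * Real.pi * y)) = Real.cos (4 * Real.pi * |y| - 2 * Real.pi) := by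
    rw [Real.cos_sub_two_pi, ← Real.cos_abs (2 * (2 * Real.pi * y)),
      show 2 * (2 * Real.pi * y) = 4 * Real.pi * y by ring, abs_mul,
      abs_of_pos (show 0 < 4 * Real.pi by positivity)]
  have h2 : 0 ≤ Real.cos (4 * Real.pi * |y| - 2 * Real.pi) :=
    Real.cos_nonneg_of_neg_pi_div_two_le_of_le (by nlinarith) (by nlinarith)
  have h3 : 1 / 2 ≤ Real.cos (2 * Real.pi * y) ^ 2 := by
    rw [Real.cos_sq, h1]
    linarith
  nlinarith

theorem lbf_lb {y : ℝ} (hs : -(1 / 2) < Real.sin (2 * Real.pi * y)) :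
    1 / 16 * min ((y - 1 / 4) ^ 4) ((y - 1 / 4) ^ 2) ≤ lbf y := by
  rcases le_or_gt |y| (1 / 2) with h | h
  · rw [lbf_near h]
    have h1 := cosbound1 h hs
    have h2 : (|y - 1 / 4| / 2) ^ 4 ≤ |Real.cos (2 * Real.pi * y)| ^ 4 :=
      pow_le_pow_left₀ (by positivity) h1 4
    rw [div_pow, Even.pow_abs (by decide), Even.pow_abs (by decide)] at h2
    have h3 := min_le_left ((y - 1 / 4) ^ 4) ((y - 1 / 4) ^ 2)
    linarith
  rcases le_or_gt |y| (5 / 8) with h' | h'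
  · have h1 := cosbound2 h.le h'
    have h2 := lbf_far (y := y)
    have h3 : 1 / 4 ≤ y ^ 2 := by
      rw [← sq_abs]
      nlinarith
    have h4 : (y - 1 / 4) ^ 2 ≤ 1 := by
      obtain ⟨h5, h6⟩ := abs_le.1 h'
      nlinarith
    have h5 := min_le_right ((y - 1 / 4) ^ 4) ((y - 1 / 4) ^ 2)
    linarith
  · have h2 := lbf_far (y := y)
    have h3 : 0 ≤ Real.cos (2 * Real.pi * y) ^ 4 := by positivity
    have h5 := min_le_right ((y - 1 / 4) ^ 4) ((y - 1 / 4) ^ 2)
    have h6 : -|y| ≤ y := neg_abs_le y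
    have h7 : |y| ^ 2 = y ^ 2 := sq_abs y
    nlinarith

theorem chi_ne_zero {y : ℝ} (h : chi y ≠ 0) : -(1 / 2) < Real.sin (2 * Real.pi * y) := by
  by_contra hcon
  push Not at hcon
  exact h (Real.smoothTransition.zero_of_nonpos (by linarith))

theorem one_sub_chi_ne_zero {y : ℝ} (h : 1 - chi y ≠ 0) :
    Real.sin (2 * Real.pi * y) < 1 / 2 := by
  by_contra hcon
  push Not at hcon
  refine h ?_
  rw [chi, Real.smoothTransition.one_of_one_le (by linarith), sub_self]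

theorem FF_pos {y : ℝ} (h : chi y ≠ 0) :
    1 / 16 * min ((y - 1 / 4) ^ 4) ((y - 1 / 4) ^ 2) ≤ FF y :=
  (lbf_lb (chi_ne_zero h)).trans (FF_lb y)

theorem FF_neg {y : ℝ} (h : 1 - chi y ≠ 0) :
    1 / 16 * min ((y - -(1 / 4)) ^ 4) ((y - -(1 / 4)) ^ 2) ≤ FF y := by
  have h1 := one_sub_chi_ne_zero h
  have h2 := lbf_lb (y := -y) (by rw [mul_neg, Real.sin_neg]; linarith)
  rw [lbf_neg] at h2
  have e1 : (-y - 1 / 4) ^ 4 = (y - -(1 / 4)) ^ 4 := by ring
  have e2 : (-y - 1 / 4) ^ 2 = (y - -(1 / 4)) ^ 2 := by ring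
  rw [e1, e2] at h2
  exact h2.trans (FF_lb y)

theorem FF_near {y : ℝ} (hy : |y| ≤ 1 / 2) (hc : Real.cos (2 * Real.pi * y) ^ 2 ≤ 1 / 3) :
    FF y = Real.cos (2 * Real.pi * y) ^ 4 *
      (2 + chi y * f0 (Real.log (Real.cos (2 * Real.pi * y) ^ 2))) := by
  have hpi := Real.pi_pos
  unfold FF gg ra
  rw [Real.smoothTransition.one_of_one_le (by linarith), arccos_eq hy, one_mul, mul_pow, sq_abs, lp]
  field_simp
  ring

/-! ### pointwise limits -/

theorem log_slow {L ℓ : ℕ → ℝ} (hL : Tendsto L atTop atBot) {l : ℝ} (hl : Tendsto ℓ atTop (𝓝 l)) :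
    Tendsto (fun k => Real.log (1 + (L k + ℓ k) ^ 2) - Real.log (1 + L k ^ 2)) atTop (𝓝 0) := by
  have h1 : Tendsto (fun k => (L k)⁻¹) atTop (𝓝 0) := tendsto_inv_atBot_zero.comp hL
  have h2 : Tendsto (fun k => ((L k)⁻¹ ^ 2 + (1 + ℓ k * (L k)⁻¹) ^ 2) / ((L k)⁻¹ ^ 2 + 1)) atTop
      (𝓝 (((0 : ℝ) ^ 2 + (1 + l * 0) ^ 2) / (0 ^ 2 + 1))) := by
    refine Tendsto.div ((h1.pow 2).add (((hl.mul h1).const_add 1).pow 2)) ((h1.pow 2).add_const 1) ?_
    norm_num
  have h3 : (((0 : ℝ) ^ 2 + (1 + l * 0) ^ 2) / (0 ^ 2 + 1)) = 1 := by norm_num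
  rw [h3] at h2
  have h4 : Tendsto (fun k => Real.log (((L k)⁻¹ ^ 2 + (1 + ℓ k * (L k)⁻¹) ^ 2) /
      ((L k)⁻¹ ^ 2 + 1))) atTop (𝓝 0) := by
    have := (Real.continuousAt_log (one_ne_zero)).tendsto.comp h2
    simpa [Function.comp_def] using this
  refine h4.congr' ?_
  filter_upwards [hL.eventually (eventually_lt_atBot 0)] with k hk
  have hk0 : L k ≠ 0 := hk.ne
  rw [← Real.log_div (by positivity) (by positivity)]
  congr 1
  field_simp

theorem f0_slow {L ℓ : ℕ → ℝ} (hL : Tendsto L atTop atBot) {l : ℝ} (hl : Tendsto ℓ atTop (𝓝 l))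
    {ω : ℝ} (hω : ∀ k, f0 (L k) = ω) : Tendsto (fun k => f0 (L k + ℓ k)) atTop (𝓝 ω) := by
  have h1 := log_slow hL hl
  have h2 : Tendsto (fun k => Real.cos (Real.log (1 + (L k + ℓ k) ^ 2) -
      Real.log (1 + L k ^ 2))) atTop (𝓝 1) := by
    have := (Real.continuous_cos.tendsto 0).comp h1
    simpa [Function.comp_def] using this
  have h3 : Tendsto (fun k => Real.sin (Real.log (1 + (L k + ℓ k) ^ 2) -
      Real.log (1 + L k ^ 2))) atTop (𝓝 0) := by
    have := (Real.continuous_sin.tendsto 0).comp h1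
    simpa [Function.comp_def] using this
  have h4 : Tendsto (fun k => Real.cos (Real.log (1 + L k ^ 2)) *
      Real.sin (Real.log (1 + (L k + ℓ k) ^ 2) - Real.log (1 + L k ^ 2))) atTop (𝓝 0) := by
    refine squeeze_zero_norm (fun k => ?_) (by simpa using h3.abs)
    rw [Real.norm_eq_abs, abs_mul]
    exact mul_le_of_le_one_left (abs_nonneg _) (Real.abs_cos_le_one _)
  have h5 := (h2.const_mul ω).add h4
  rw [mul_one, add_zero] at h5
  refine h5.congr fun k => ?_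
  rw [← hω k, f0, f0, ← Real.sin_add]
  congr 1
  ring

theorem FF_limit {r : ℕ → ℝ} (hr : ∀ k, 0 < r k) (hr0 : Tendsto r atTop (𝓝 0)) {ω : ℝ}
    (hω : ∀ k, f0 (Real.log (r k ^ 2)) = ω) {y0 : ℝ} (hy0 : y0 = 1 / 4 ∨ y0 = -(1 / 4)) {x : ℝ}
    (hx : x ≠ 0) : Tendsto (fun k => FF (y0 + r k * x) / (2 * r k ^ 4)) atTop
      (𝓝 ((2 + chi y0 * ω) / 2 * (2 * Real.pi * x) ^ 4)) := by
  have hpi := Real.pi_pos
  set L : ℕ → ℝ := fun k => Real.log (r k ^ 2) with hLdef
  have hL : Tendsto L atTop atBot := by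
    have h1 : Tendsto (fun k => r k ^ 2) atTop (𝓝[>] 0) := by
      refine tendsto_nhdsWithin_iff.2 ⟨by simpa using hr0.pow 2, ?_⟩
      exact Eventually.of_forall fun k => pow_pos (hr k) 2
    exact Real.tendsto_log_nhdsGT_zero.comp h1
  have hrne : Tendsto r atTop (𝓝[≠] 0) :=
    tendsto_nhdsWithin_iff.2 ⟨hr0, Eventually.of_forall fun k => (hr k).ne'⟩
  -- the slope of the sine
  have hq : Tendsto (fun k => Real.sin (2 * Real.pi * (r k * x)) / r k) atTop
      (𝓝 (2 * Real.pi * x)) := by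
    have h1 : HasDerivAt (fun r : ℝ => Real.sin (2 * Real.pi * (r * x))) (2 * Real.pi * x) 0 := by
      have h2 : HasDerivAt (fun r : ℝ => 2 * Real.pi * (r * x)) (2 * Real.pi * x) 0 := by
        have := ((hasDerivAt_id (0 : ℝ)).mul_const x).const_mul (2 * Real.pi)
        simpa using this
      have := h2.sin
      simpa using this
    have h3 := hasDerivAt_iff_tendsto_slope_zero.1 h1
    have h4 := h3.comp hrne
    refine h4.congr fun k => ?_
    simp only [Function.comp, zero_add, zero_mul, mul_zero, Real.sin_zero, sub_zero, smul_eq_mul]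
    rw [div_eq_inv_mul]
  have hxp : 2 * Real.pi * x ≠ 0 := by positivity
  set q : ℕ → ℝ := fun k => Real.sin (2 * Real.pi * (r k * x)) / r k with hqdef
  have hqne : ∀ᶠ k in atTop, q k ≠ 0 := hq.eventually_ne hxp
  have hlq : Tendsto (fun k => Real.log (q k ^ 2)) atTop
      (𝓝 (Real.log ((2 * Real.pi * x) ^ 2))) :=
    (hq.pow 2).log (pow_ne_zero 2 hxp)
  have hf := f0_slow hL hlq hω
  have hry : Tendsto (fun k => y0 + r k * x) atTop (𝓝 y0) := by
    simpa using (hr0.mul_const x).const_add y0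
  have hchi : Tendsto (fun k => chi (y0 + r k * x)) atTop (𝓝 (chi y0)) :=
    (chi_contDiff.continuous.tendsto y0).comp hry
  have hmain := ((hq.pow 4).mul ((hchi.mul hf).const_add 2)).div_const 2
  have e0 : (2 * Real.pi * x) ^ 4 * (2 + chi y0 * ω) / 2 =
      (2 + chi y0 * ω) / 2 * (2 * Real.pi * x) ^ 4 := by ring
  rw [e0] at hmain
  refine hmain.congr' ?_
  -- the formula for FF near y0
  have hcs : ∀ k, Real.cos (2 * Real.pi * (y0 + r k * x)) ^ 2 =
      Real.sin (2 * Real.pi * (r k * x)) ^ 2 := by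
    intro k
    rcases hy0 with h | h
    · rw [h, show 2 * Real.pi * (1 / 4 + r k * x) = 2 * Real.pi * (r k * x) + Real.pi / 2 by ring,
        Real.cos_add_pi_div_two, neg_sq]
    · rw [h, show 2 * Real.pi * (-(1 / 4) + r k * x) = 2 * Real.pi * (r k * x) - Real.pi / 2 by ring,
        Real.cos_sub_pi_div_two]
  have hy0' : |y0| < 1 / 2 := by
    rcases hy0 with h | h <;> rw [h, abs_lt] <;> constructor <;> norm_num
  have hE1 : ∀ᶠ k in atTop, |y0 + r k * x| ≤ 1 / 2 :=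
    (hry.abs.eventually_lt_const hy0').mono fun k hk => hk.le
  have hE2 : ∀ᶠ k in atTop, Real.cos (2 * Real.pi * (y0 + r k * x)) ^ 2 ≤ 1 / 3 := by
    have h1 : Tendsto (fun k => Real.cos (2 * Real.pi * (y0 + r k * x)) ^ 2) atTop (𝓝 0) := by
      have h2 : Tendsto (fun k => Real.sin (2 * Real.pi * (r k * x)) ^ 2) atTop (𝓝 0) := by
        have h3 : Continuous fun r : ℝ => Real.sin (2 * Real.pi * (r * x)) ^ 2 := by fun_prop
        have := (h3.tendsto 0).comp hr0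
        simpa [Function.comp_def] using this
      exact h2.congr fun k => (hcs k).symm
    exact (h1.eventually_lt_const (show (0 : ℝ) < 1 / 3 by norm_num)).mono fun k hk => hk.le
  filter_upwards [hE1, hE2, hqne] with k h1 h2 h3
  rw [FF_near h1 h2]
  have hrk := (hr k).ne'
  have e1 : Real.cos (2 * Real.pi * (y0 + r k * x)) ^ 2 = r k ^ 2 * q k ^ 2 := by
    rw [hcs, hqdef]
    field_simp
  have e2 : Real.cos (2 * Real.pi * (y0 + r k * x)) ^ 4 = r k ^ 4 * q k ^ 4 := by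
    calc Real.cos (2 * Real.pi * (y0 + r k * x)) ^ 4 =
        (Real.cos (2 * Real.pi * (y0 + r k * x)) ^ 2) ^ 2 := by ring
      _ = _ := by rw [e1]; ring
  rw [e1, e2, Real.log_mul (pow_ne_zero 2 hrk) (pow_ne_zero 2 h3)]
  field_simp
  rfl

end Pool.Agent.Q95.VV
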