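import Pool.Agent.Q95.VV5

/-!
# Non-convergence of the averaged adjoint measures
-/

set_option autoImplicit false

namespace Pool.Agent.Q95.VV

open MeasureTheory Filter Topology Set ProbabilityTheory

theorem FF_cont : Continuous FF := gg_contDiff.continuous.add (by fun_prop)

theorem dct {w : ℝ → ℝ} (hw0 : ∀ y, 0 ≤ w y) (hw1 : ∀ y, w y ≤ 1) (hwc : Continuous w) {y0 : ℝ}
    (hlb : ∀ y, w y ≠ 0 → 1 / 16 * min ((y - y0) ^ 4) ((y - y0) ^ 2) ≤ FF y) {r : ℕ → ℝ}
    (hr : ∀ k, 0 < r k) (hr1 : ∀ k, r k < 1) (hr0 : Tendsto r atTop (𝓝 0)) (hwy : w y0 = 1)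
    {a : ℝ} (hlim : ∀ x ≠ 0, Tendsto (fun k => FF (y0 + r k * x) / (2 * r k ^ 4)) atTop
      (𝓝 (a * (2 * Real.pi * x) ^ 4))) :
    Tendsto (fun k => ∫ x, w (y0 + r k * x) * Real.exp (-(FF (y0 + r k * x) / (2 * r k ^ 4))))
      atTop (𝓝 (∫ x, Real.exp (-(a * (2 * Real.pi * x) ^ 4)))) := by
  refine tendsto_integral_of_dominated_convergence
    (fun x => Real.exp (1 / 32) * Real.exp (-(1 / 32) * x ^ 2)) ?_ ?_ ?_ ?_
  · intro k
    have h1 := FF_cont
    exact (by fun_prop : Continuous fun x =>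
      w (y0 + r k * x) * Real.exp (-(FF (y0 + r k * x) / (2 * r k ^ 4)))).aestronglyMeasurable
  · exact (integrable_exp_neg_mul_sq (by norm_num)).const_mul _
  · intro k
    refine Eventually.of_forall fun x => ?_
    have hrk := hr k
    have hr4 : 0 < r k ^ 4 := by positivity
    rw [Real.norm_eq_abs, abs_mul, abs_of_nonneg (hw0 _), abs_of_pos (Real.exp_pos _)]
    by_cases hw : w (y0 + r k * x) = 0
    · rw [hw, zero_mul]
      positivity
    · have h1 := hlb _ hw
      have e1 : y0 + r k * x - y0 = r k * x := by ring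
      rw [e1] at h1
      have h2 : (x ^ 2 - 1) * r k ^ 4 ≤ min ((r k * x) ^ 4) ((r k * x) ^ 2) := by
        refine le_min ?_ ?_
        · rw [mul_pow]
          have h3 : x ^ 2 - 1 ≤ x ^ 4 := by nlinarith [sq_nonneg (x ^ 2 - 1), sq_nonneg x]
          nlinarith
        · rw [mul_pow]
          have h3 : r k ^ 2 ≤ 1 := by nlinarith [hr1 k]
          have h4 : r k ^ 4 = r k ^ 2 * r k ^ 2 := by ring
          have h5 : 0 ≤ r k ^ 2 := sq_nonneg _
          have h6 : r k ^ 4 ≤ r k ^ 2 := by nlinarith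
          nlinarith [sq_nonneg x]
      have h3 : (x ^ 2 - 1) / 32 ≤ FF (y0 + r k * x) / (2 * r k ^ 4) := by
        rw [le_div_iff₀ (by positivity)]
        linarith
      calc w (y0 + r k * x) * Real.exp (-(FF (y0 + r k * x) / (2 * r k ^ 4)))
          ≤ 1 * Real.exp (-((x ^ 2 - 1) / 32)) := by
            refine mul_le_mul (hw1 _) (Real.exp_le_exp.2 (by linarith)) (Real.exp_pos _).le
              zero_le_one
        _ = Real.exp (1 / 32) * Real.exp (-(1 / 32) * x ^ 2) := by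
            rw [one_mul, ← Real.exp_add]
            congr 1
            ring
  · have h0 : ∀ᵐ x : ℝ, x ≠ 0 := by
      rw [ae_iff]
      simp
    filter_upwards [h0] with x hx
    have h1 : Tendsto (fun k => w (y0 + r k * x)) atTop (𝓝 1) := by
      have h2 : Tendsto (fun k => y0 + r k * x) atTop (𝓝 y0) := by
        simpa using (hr0.mul_const x).const_add y0
      rw [← hwy]
      exact (hwc.tendsto y0).comp h2
    have h2 := h1.mul ((Real.continuous_exp.tendsto _).comp (hlim x hx).neg)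
    rw [one_mul] at h2
    exact h2

theorem scale {r : ℝ} (hr : 0 < r) (y0 : ℝ) (G : ℝ → ℝ) :
    ∫ y, G y = r * ∫ x, G (y0 + r * x) := by
  have h1 := Measure.integral_comp_mul_left (fun u => G (y0 + u)) r
  have h2 : ∫ u, G (y0 + u) = ∫ y, G y := integral_add_left_eq_self G y0
  rw [h1, h2, abs_of_pos (inv_pos.2 hr), smul_eq_mul, ← mul_assoc, mul_inv_cancel₀ hr.ne', one_mul]

theorem heat_formula {ε : ℝ} (hε : 0 < ε) (w : ℝ → ℝ) :
    heat ε (fun y => w y * ph ε gg y) 0 1 =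
      (√(2 * Real.pi))⁻¹ * (√(2 * ε))⁻¹ * ∫ y, w y * Real.exp (-(FF y / (2 * ε))) := by
  have ha : 0 < √(2 * ε) := Real.sqrt_pos.2 (by positivity)
  have ha2 : √(2 * ε) ^ 2 = 2 * ε := Real.sq_sqrt (by positivity)
  have e0 : (√(2 * Real.pi))⁻¹ * (√(2 * ε))⁻¹ * ∫ y, w y * Real.exp (-(FF y / (2 * ε))) =
      ∫ x, (√(2 * Real.pi))⁻¹ *
        (w (0 + √(2 * ε) * x) * Real.exp (-(FF (0 + √(2 * ε) * x) / (2 * ε)))) := by
    rw [scale ha 0 (fun y => w y * Real.exp (-(FF y / (2 * ε)))), integral_const_mul]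
    field_simp
  rw [e0, heat, integral_gaussianReal_eq_integral_smul (by norm_num)]
  refine integral_congr_ae (Eventually.of_forall fun ζ => ?_)
  simp only [smul_eq_mul, mul_one]
  rw [pdf_eq, ph, FF]
  have e1 : -((gg (0 + √(2 * ε) * ζ) + (0 + √(2 * ε) * ζ) ^ 2 / 2) / (2 * ε)) =
      -(1 / 2) * ζ ^ 2 + -(gg (0 + √(2 * ε) * ζ) / (2 * ε)) := by
    rw [zero_add, mul_pow, ha2]
    field_simp
    ring
  rw [e1, Real.exp_add]
  ring

theorem gg_P2 : P2 gg (deriv gg) (deriv (deriv gg)) := P2.of_contDiff gg_contDiff gg_per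

theorem chi_P2 : P2 chi (deriv chi) (deriv (deriv chi)) := P2.of_contDiff chi_contDiff chi_per

theorem heat_split (ε : ℝ) :
    heat ε (ph ε gg) 0 1 = heat ε (fun y => chi y * ph ε gg y) 0 1 +
      heat ε (fun y => (1 - chi y) * ph ε gg y) 0 1 := by
  have hP := ph_p2 ε gg_P2
  obtain ⟨M, hM0, hM⟩ := bdd_per hP.per hP.c0
  have hcc := chi_contDiff.continuous
  have hpc := hP.c0
  have i1 : Integrable (fun ζ => chi (0 + √(2 * ε * 1) * ζ) * ph ε gg (0 + √(2 * ε * 1) * ζ)) γ :=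
    integrable_of_bdd (M := M) (by fun_prop) (fun ζ => by
      rw [abs_mul, abs_of_nonneg (chi_nonneg _)]
      exact (mul_le_of_le_one_left (abs_nonneg _) (chi_le_one _)).trans (hM _))
  have i2 : Integrable
      (fun ζ => (1 - chi (0 + √(2 * ε * 1) * ζ)) * ph ε gg (0 + √(2 * ε * 1) * ζ)) γ :=
    integrable_of_bdd (M := M) (by fun_prop) (fun ζ => by
      rw [abs_mul, abs_of_nonneg (sub_nonneg.2 (chi_le_one _))]
      exact (mul_le_of_le_one_left (abs_nonneg _)
        (by linarith [chi_nonneg (0 + √(2 * ε * 1) * ζ)])).trans (hM _))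
  unfold heat
  rw [← integral_add i1 i2]
  refine integral_congr_ae (Eventually.of_forall fun ζ => ?_)
  simp only
  ring

/-- the two limit integrals -/
noncomputable def JJ (a : ℝ) : ℝ := ∫ x, Real.exp (-(a * (2 * Real.pi * x) ^ 4))

theorem JJ_integrable {a : ℝ} (ha : 0 < a) :
    Integrable fun x : ℝ => Real.exp (-(a * (2 * Real.pi * x) ^ 4)) := by
  have hpi := Real.pi_pos
  refine ((integrable_exp_neg_mul_sq (b := a * (2 * Real.pi) ^ 2) (by positivity)).const_mul
    (Real.exp a)).mono' (by fun_prop) (Eventually.of_forall fun x => ?_)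
  rw [Real.norm_eq_abs, abs_of_pos (Real.exp_pos _), ← Real.exp_add]
  refine Real.exp_le_exp.2 ?_
  have h1 : (2 * Real.pi * x) ^ 2 - 1 ≤ (2 * Real.pi * x) ^ 4 := by
    nlinarith [sq_nonneg ((2 * Real.pi * x) ^ 2 - 1), sq_nonneg (2 * Real.pi * x)]
  have h2 : (2 * Real.pi * x) ^ 2 = (2 * Real.pi) ^ 2 * x ^ 2 := by ring
  nlinarith

theorem JJ_pos {a : ℝ} (ha : 0 < a) : 0 < JJ a := by
  unfold JJ
  rw [integral_pos_iff_support_of_nonneg (fun x => (Real.exp_pos _).le) (JJ_integrable ha)]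
  have : Function.support (fun x : ℝ => Real.exp (-(a * (2 * Real.pi * x) ^ 4))) = univ := by
    ext x
    simp
  rw [this]
  simp

theorem JJ_lt {a b : ℝ} (ha : 0 < a) (hab : a < b) : JJ b < JJ a := by
  have hpi := Real.pi_pos
  have hi := (JJ_integrable ha).sub (JJ_integrable (ha.trans hab))
  have h0 : ∀ x : ℝ, 0 ≤ Real.exp (-(a * (2 * Real.pi * x) ^ 4)) -
      Real.exp (-(b * (2 * Real.pi * x) ^ 4)) := by
    intro x
    have h1 : 0 ≤ (2 * Real.pi * x) ^ 4 := by positivity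
    exact sub_nonneg.2 (Real.exp_le_exp.2 (by nlinarith))
  have h2 : 0 < ∫ x : ℝ, (Real.exp (-(a * (2 * Real.pi * x) ^ 4)) -
      Real.exp (-(b * (2 * Real.pi * x) ^ 4))) := by
    rw [integral_pos_iff_support_of_nonneg h0 hi]
    have h3 : ({0}ᶜ : Set ℝ) ⊆ Function.support (fun x : ℝ =>
        Real.exp (-(a * (2 * Real.pi * x) ^ 4)) - Real.exp (-(b * (2 * Real.pi * x) ^ 4))) := by
      intro x hx
      have hx0 : x ≠ 0 := hx
      have h4 : 0 < (2 * Real.pi * x) ^ 4 := by positivity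
      exact (sub_pos.2 (Real.exp_lt_exp.2 (by nlinarith))).ne'
    refine lt_of_lt_of_le ?_ (measure_mono h3)
    have h5 : volume ({0}ᶜ : Set ℝ) = ⊤ := by
      rw [measure_compl (measurableSet_singleton 0) (by simp)]
      simp
    rw [h5]
    exact ENNReal.zero_lt_top
  rw [integral_sub (JJ_integrable ha) (JJ_integrable (ha.trans hab))] at h2
  unfold JJ
  linarith

theorem chi_quarter : chi (1 / 4) = 1 := by
  rw [chi, show 2 * Real.pi * (1 / 4) = Real.pi / 2 by ring, Real.sin_pi_div_two]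
  exact Real.smoothTransition.one_of_one_le (by norm_num)

theorem chi_neg_quarter : chi (-(1 / 4)) = 0 := by
  rw [chi, show 2 * Real.pi * (-(1 / 4)) = -(Real.pi / 2) by ring, Real.sin_neg,
    Real.sin_pi_div_two]
  exact Real.smoothTransition.zero_of_nonpos (by norm_num)

/-- the limit of the ratio along a sequence -/
theorem ratio_limit {r : ℕ → ℝ} (hr : ∀ k, 0 < r k) (hr1 : ∀ k, r k < 1)
    (hr0 : Tendsto r atTop (𝓝 0)) {ω : ℝ} (hω : ∀ k, f0 (Real.log (r k ^ 2)) = ω)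
    (hω1 : -1 ≤ ω) :
    Tendsto (fun k => heat (r k ^ 4) (fun y => chi y * ph (r k ^ 4) gg y) 0 1 /
      heat (r k ^ 4) (ph (r k ^ 4) gg) 0 1) atTop
      (𝓝 (JJ ((2 + ω) / 2) / (JJ ((2 + ω) / 2) + JJ 1))) := by
  have hA := dct (w := chi) chi_nonneg chi_le_one chi_contDiff.continuous (y0 := 1 / 4)
    (fun y hy => FF_pos hy) hr hr1 hr0 chi_quarter (a := (2 + ω) / 2) (fun x hx => by
      have := FF_limit hr hr0 hω (Or.inl rfl) hx
      rwa [chi_quarter, one_mul] at this)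
  have hcc := chi_contDiff.continuous
  have hB := dct (w := fun y => 1 - chi y) (fun y => sub_nonneg.2 (chi_le_one y))
    (fun y => by linarith [chi_nonneg y]) (by fun_prop) (y0 := -(1 / 4))
    (fun y hy => FF_neg hy) hr hr1 hr0 (by rw [chi_neg_quarter, sub_zero]) (a := 1)
    (fun x hx => by
      have := FF_limit hr hr0 hω (Or.inr rfl) hx
      rw [chi_neg_quarter, zero_mul, add_zero] at this
      simpa using this)
  have hJ1 : 0 < JJ ((2 + ω) / 2) := JJ_pos (by linarith)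
  have hJ2 : 0 < JJ 1 := JJ_pos one_pos
  have h := hA.div (hA.add hB) (by
    change JJ ((2 + ω) / 2) + JJ 1 ≠ 0
    positivity)
  refine h.congr fun k => ?_
  have hk := hr k
  have hε : 0 < r k ^ 4 := by positivity
  rw [Pi.div_apply, heat_split (r k ^ 4), heat_formula hε, heat_formula hε,
    scale hk (1 / 4) (fun y => chi y * Real.exp (-(FF y / (2 * r k ^ 4)))),
    scale hk (-(1 / 4)) (fun y => (1 - chi y) * Real.exp (-(FF y / (2 * r k ^ 4))))]
  have hK : (√(2 * Real.pi))⁻¹ * (√(2 * r k ^ 4))⁻¹ * r k ≠ 0 := by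
    have := Real.pi_pos
    positivity
  rw [← mul_assoc, ← mul_assoc, ← mul_add, mul_div_mul_left _ _ hK]

/-- the sequence of scales -/
noncomputable def rs (θ : ℝ) (k : ℕ) : ℝ := Real.exp (-(√(Real.exp (θ + k * (2 * Real.pi)) - 1) / 2))

theorem rs_props {θ : ℝ} (hθ : 0 < θ) : (∀ k, 0 < rs θ k) ∧ (∀ k, rs θ k < 1) ∧
    Tendsto (rs θ) atTop (𝓝 0) ∧ ∀ k, f0 (Real.log (rs θ k ^ 2)) = Real.sin θ := by
  have hpi := Real.pi_pos
  have h1 : ∀ k : ℕ, 0 < Real.exp (θ + k * (2 * Real.pi)) - 1 := by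
    intro k
    have : 0 < θ + k * (2 * Real.pi) := by positivity
    linarith [Real.one_lt_exp_iff.2 this]
  refine ⟨fun k => Real.exp_pos _, fun k => ?_, ?_, fun k => ?_⟩
  · rw [rs, Real.exp_lt_one_iff]
    have := Real.sqrt_pos.2 (h1 k)
    linarith
  · have h2 : Tendsto (fun k : ℕ => θ + k * (2 * Real.pi)) atTop atTop :=
      tendsto_atTop_add_const_left _ _
        (tendsto_natCast_atTop_atTop.atTop_mul_const (by positivity))
    have h3 : Tendsto (fun k : ℕ => Real.exp (θ + k * (2 * Real.pi)) - 1) atTop atTop :=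
      tendsto_atTop_add_const_right _ _ (Real.tendsto_exp_atTop.comp h2)
    have h4 : Tendsto (fun k : ℕ => √(Real.exp (θ + k * (2 * Real.pi)) - 1) / 2) atTop atTop :=
      (Real.tendsto_sqrt_atTop.comp h3).atTop_div_const (by norm_num)
    exact Real.tendsto_exp_atBot.comp (tendsto_neg_atTop_atBot.comp h4)
  · rw [Real.log_pow, rs, Real.log_exp, f0]
    have h2 : (1 : ℝ) + (((2 : ℕ) : ℝ) * -(√(Real.exp (θ + k * (2 * Real.pi)) - 1) / 2)) ^ 2 =
        Real.exp (θ + k * (2 * Real.pi)) := by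
      have h3 := Real.sq_sqrt (h1 k).le
      push_cast
      nlinarith
    rw [h2, Real.log_exp, Real.sin_add_nat_mul_two_pi]

end Pool.Agent.Q95.VV
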