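import Mathlib

/-!
# No six vectors of `ℝ⁴` do weak phase retrieval

The proof works with the ten partitions of the six vectors into two triples, the normals of the
two hyperplanes, and the seven patterns of signs which relate these normals.
-/

namespace Q95.WPR

open Matrix

/-- The key algebraic consequence of weak phase retrieval. -/
def Star (x : Fin 6 → Fin 4 → ℝ) : Prop :=
  ∀ u v : Fin 4 → ℝ, (∀ j, x j ⬝ᵥ u = 0 ∨ x j ⬝ᵥ v = 0) →
    ∀ k l, (u k) ^ 2 * (v l) ^ 2 = (u l) ^ 2 * (v k) ^ 2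

lemma exists_perp3 (a b c : Fin 4 → ℝ) :
    ∃ v : Fin 4 → ℝ, v ≠ 0 ∧ a ⬝ᵥ v = 0 ∧ b ⬝ᵥ v = 0 ∧ c ⬝ᵥ v = 0 := by
  have hdet : (Matrix.of ![a, b, c, 0] : Matrix (Fin 4) (Fin 4) ℝ).det = 0 :=
    Matrix.det_eq_zero_of_row_eq_zero 3 (fun j => by simp [Matrix.of_apply])
  obtain ⟨v, hv0, hv⟩ := Matrix.exists_mulVec_eq_zero_iff.mpr hdet
  refine ⟨v, hv0, ?_, ?_, ?_⟩
  · simpa [Matrix.mulVec] using congrFun hv 0
  · simpa [Matrix.mulVec] using congrFun hv 1
  · simpa [Matrix.mulVec] using congrFun hv 2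

lemma exists_perp2 (a b : Fin 3 → ℝ) :
    ∃ v : Fin 3 → ℝ, v ≠ 0 ∧ a ⬝ᵥ v = 0 ∧ b ⬝ᵥ v = 0 := by
  have hdet : (Matrix.of ![a, b, 0] : Matrix (Fin 3) (Fin 3) ℝ).det = 0 :=
    Matrix.det_eq_zero_of_row_eq_zero 2 (fun j => by simp [Matrix.of_apply])
  obtain ⟨v, hv0, hv⟩ := Matrix.exists_mulVec_eq_zero_iff.mpr hdet
  refine ⟨v, hv0, ?_, ?_⟩
  · simpa [Matrix.mulVec] using congrFun hv 0
  · simpa [Matrix.mulVec] using congrFun hv 1

lemma exists_perp4 (a b c d : Fin 5 → ℝ) :
    ∃ v : Fin 5 → ℝ, v ≠ 0 ∧ a ⬝ᵥ v = 0 ∧ b ⬝ᵥ v = 0 ∧ c ⬝ᵥ v = 0 ∧ d ⬝ᵥ v = 0 := by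
  have hdet : (Matrix.of ![a, b, c, d, 0] : Matrix (Fin 5) (Fin 5) ℝ).det = 0 :=
    Matrix.det_eq_zero_of_row_eq_zero 4 (fun j => by simp [Matrix.of_apply])
  obtain ⟨v, hv0, hv⟩ := Matrix.exists_mulVec_eq_zero_iff.mpr hdet
  refine ⟨v, hv0, ?_, ?_, ?_, ?_⟩
  · simpa [Matrix.mulVec] using congrFun hv 0
  · simpa [Matrix.mulVec] using congrFun hv 1
  · simpa [Matrix.mulVec] using congrFun hv 2
  · simpa [Matrix.mulVec] using congrFun hv 3

/-- Full spark: a vector orthogonal to four of the six is zero. -/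
lemma spark {x : Fin 6 → Fin 4 → ℝ} (h : Star x) (p q : Fin 6) (u : Fin 4 → ℝ)
    (hu : ∀ j, j ≠ p → j ≠ q → x j ⬝ᵥ u = 0) : u = 0 := by
  by_contra hne
  obtain ⟨k0, hk0⟩ : ∃ k, u k ≠ 0 := by
    by_contra hc
    push Not at hc
    exact hne (funext hc)
  obtain ⟨v, hv0, h1, h2, h3⟩ := exists_perp3 (x p) (x q) (Pi.single k0 1)
  have hvk : v k0 = 0 := by simpa using h3
  apply hv0
  funext l
  have := h u v (fun j => by
    by_cases hp : j = p
    · right; rw [hp]; exact h1
    · by_cases hq : j = q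
      · right; rw [hq]; exact h2
      · left; exact hu j hp hq) k0 l
  rw [hvk] at this
  have h0 : (u k0) ^ 2 * (v l) ^ 2 = 0 := by rw [this]; ring
  have hu2 : (u k0) ^ 2 ≠ 0 := pow_ne_zero 2 hk0
  have hv2 : (v l) ^ 2 = 0 := by
    rcases mul_eq_zero.mp h0 with h | h
    · exact absurd h hu2
    · exact h
  simpa using hv2

/-- The sign attached to a bit. -/
def sg (b : Bool) : ℝ := if b then -1 else 1

lemma sg_mul_self (b : Bool) : sg b * sg b = 1 := by cases b <;> simp [sg]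

lemma sg_not (b : Bool) : sg (!b) = - sg b := by cases b <;> simp [sg]

/-- The action of a pattern of signs. -/
def act (D : Fin 4 → Bool) (u : Fin 4 → ℝ) : Fin 4 → ℝ := fun k => sg (D k) * u k

lemma act_act (D : Fin 4 → Bool) (u : Fin 4 → ℝ) : act D (act D u) = u := by
  funext k
  simp only [act]
  rw [← mul_assoc, sg_mul_self, one_mul]

lemma act_ne_zero {D : Fin 4 → Bool} {u : Fin 4 → ℝ} (h : u ≠ 0) : act D u ≠ 0 := by
  intro h0
  apply h
  have : act D (act D u) = act D 0 := by rw [h0]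
  rw [act_act] at this
  rw [this]
  funext k
  simp [act]

lemma act_dot (D : Fin 4 → Bool) (u y : Fin 4 → ℝ) : y ⬝ᵥ act D u = act D y ⬝ᵥ u := by
  simp only [dotProduct, act]
  apply Finset.sum_congr rfl
  intro k _
  ring

lemma act_add (D : Fin 4 → Bool) (u v : Fin 4 → ℝ) : act D (u + v) = act D u + act D v := by
  funext k; simp [act]; ring

lemma act_smul (D : Fin 4 → Bool) (c : ℝ) (u : Fin 4 → ℝ) : act D (c • u) = c • act D u := by
  funext k; simp [act]; ring

/-- The ten partitions into two triples. -/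
def S : Fin 10 → Fin 6 → Bool :=
  ![![true, true, true, false, false, false],
    ![true, true, false, true, false, false],
    ![true, true, false, false, true, false],
    ![true, true, false, false, false, true],
    ![true, false, true, true, false, false],
    ![true, false, true, false, true, false],
    ![true, false, true, false, false, true],
    ![true, false, false, true, true, false],
    ![true, false, false, true, false, true],
    ![true, false, false, false, true, true]]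

/-- `u` is a witness that the pattern `D` relates the two hyperplanes of the partition `i`. -/
def Wit (x : Fin 6 → Fin 4 → ℝ) (i : Fin 10) (D : Fin 4 → Bool) (u : Fin 4 → ℝ) : Prop :=
  u ≠ 0 ∧ (∀ j, S i j = true → x j ⬝ᵥ u = 0) ∧ (∀ j, S i j = false → x j ⬝ᵥ act D u = 0)

/-- The pattern `D` is admissible for the partition `i`. -/
def Adm (x : Fin 6 → Fin 4 → ℝ) (i : Fin 10) (D : Fin 4 → Bool) : Prop := ∃ u, Wit x i D u

lemma S_true (i : Fin 10) : ∃ a b c : Fin 6, ∀ j, S i j = true → j = a ∨ j = b ∨ j = c := by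
  revert i; decide

lemma S_false (i : Fin 10) : ∃ a b c : Fin 6, ∀ j, S i j = false → j = a ∨ j = b ∨ j = c := by
  revert i; decide

lemma exists_wit {x : Fin 6 → Fin 4 → ℝ} (h : Star x) (i : Fin 10) :
    ∃ D : Fin 4 → Bool, D 0 = false ∧ Adm x i D := by
  obtain ⟨a, b, c, habc⟩ := S_true i
  obtain ⟨d, e, f, hdef⟩ := S_false i
  obtain ⟨u, hu0, hua, hub, huc⟩ := exists_perp3 (x a) (x b) (x c)
  obtain ⟨v, hv0, hvd, hve, hvf⟩ := exists_perp3 (x d) (x e) (x f)
  have hu : ∀ j, S i j = true → x j ⬝ᵥ u = 0 := by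
    intro j hj
    rcases habc j hj with rfl | rfl | rfl <;> assumption
  have hv : ∀ j, S i j = false → x j ⬝ᵥ v = 0 := by
    intro j hj
    rcases hdef j hj with rfl | rfl | rfl <;> assumption
  have hst := h u v (fun j => by
    cases hS : S i j with
    | true => left; exact hu j hS
    | false => right; exact hv j hS)
  obtain ⟨k0, hk0⟩ : ∃ k, u k ≠ 0 := by
    by_contra hc
    push Not at hc
    exact hu0 (funext hc)
  have hvk0 : v k0 ≠ 0 := by
    intro h0
    apply hv0
    funext l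
    have := hst k0 l
    rw [h0] at this
    have h0' : (u k0) ^ 2 * (v l) ^ 2 = 0 := by rw [this]; ring
    rcases mul_eq_zero.mp h0' with h | h
    · exact absurd h (pow_ne_zero 2 hk0)
    · simpa using h
  set r : ℝ := u k0 / v k0 with hr
  have hr0 : r ≠ 0 := div_ne_zero hk0 hvk0
  set w : Fin 4 → ℝ := r • v with hw
  have hw2 : ∀ l, (w l) ^ 2 = (u l) ^ 2 := by
    intro l
    have := hst k0 l
    simp only [hw, Pi.smul_apply, smul_eq_mul, hr]
    field_simp
    linarith
  have hwv : ∀ j, S i j = false → x j ⬝ᵥ w = 0 := by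
    intro j hj
    rw [hw, dotProduct_smul, hv j hj, smul_zero]
  classical
  set D : Fin 4 → Bool := fun l => decide (w l ≠ u l) with hD
  have hDw : act D u = w := by
    funext l
    simp only [act, hD]
    by_cases hl : w l = u l
    · simp [hl, sg]
    · have h2 := hw2 l
      have : w l = - u l := by
        rcases sq_eq_sq_iff_eq_or_eq_neg.mp h2 with h | h
        · exact absurd h hl
        · exact h
      have hne : - u l ≠ u l := by rw [← this]; exact hl
      rw [this]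
      simp [hne, sg]
  by_cases hD0 : D 0 = false
  · exact ⟨D, hD0, u, hu0, hu, fun j hj => by rw [hDw]; exact hwv j hj⟩
  · refine ⟨fun l => !(D l), by simpa using hD0, u, hu0, hu, fun j hj => ?_⟩
    have : act (fun l => !(D l)) u = - w := by
      rw [← hDw]
      funext l
      simp only [act, Pi.neg_apply]
      rw [sg_not]
      ring
    rw [this, dotProduct_neg, hwv j hj, neg_zero]

/-- No vector of the configuration lies on both hyperplanes of a partition. -/
lemma not_both {x : Fin 6 → Fin 4 → ℝ} (h : Star x) {i : Fin 10} {D : Fin 4 → Bool}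
    {u : Fin 4 → ℝ} (hw : Wit x i D u) (j : Fin 6) (h1 : x j ⬝ᵥ u = 0)
    (h2 : x j ⬝ᵥ act D u = 0) : False := by
  obtain ⟨hu0, ht, hf⟩ := hw
  have comb : ∀ (i : Fin 10) (j : Fin 6),
      (∃ p q : Fin 6, ∀ k, k ≠ p → k ≠ q → S i k = true ∨ k = j) ∨
      (∃ p q : Fin 6, ∀ k, k ≠ p → k ≠ q → S i k = false ∨ k = j) := by decide
  rcases comb i j with ⟨p, q, hpq⟩ | ⟨p, q, hpq⟩
  · apply hu0
    apply spark h p q
    intro k hp hq
    rcases hpq k hp hq with h' | h'
    · exact ht k h'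
    · rw [h']; exact h1
  · apply act_ne_zero (D := D) hu0
    apply spark h p q
    intro k hp hq
    rcases hpq k hp hq with h' | h'
    · exact hf k h'
    · rw [h']; exact h2

lemma adm_const {x : Fin 6 → Fin 4 → ℝ} (h : Star x) (i : Fin 10) :
    ¬ Adm x i (fun _ => false) := by
  rintro ⟨u, hw⟩
  have ha : act (fun _ => false) u = u := by funext k; simp [act, sg]
  have : ∀ j, x j ⬝ᵥ u = 0 := by
    intro j
    cases hS : S i j with
    | true => exact hw.2.1 j hS
    | false => have := hw.2.2 j hS; rwa [ha] at this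
  exact not_both h hw 0 (this 0) (by rw [ha]; exact this 0)

/-- The hyperplane of one partition is not a hyperplane of another one. -/
lemma ne_smul {x : Fin 6 → Fin 4 → ℝ} (h : Star x) {i i' : Fin 10} (hii : i ≠ i')
    {D D' : Fin 4 → Bool} {u u' : Fin 4 → ℝ} (hw : Wit x i D u) (hw' : Wit x i' D' u') (c : ℝ) :
    u' ≠ c • u ∧ u' ≠ c • act D u := by
  obtain ⟨hu0, ht, hf⟩ := hw
  obtain ⟨hu0', ht', hf'⟩ := hw'
  have comb1 : ∀ i i' : Fin 10, i ≠ i' →
      ∃ p q : Fin 6, ∀ k, k ≠ p → k ≠ q → S i k = true ∨ S i' k = true := by decide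
  have comb2 : ∀ i i' : Fin 10, i ≠ i' →
      ∃ p q : Fin 6, ∀ k, k ≠ p → k ≠ q → S i k = false ∨ S i' k = true := by decide
  constructor
  · intro he
    obtain ⟨p, q, hpq⟩ := comb1 i i' hii
    apply hu0'
    apply spark h p q
    intro k hp hq
    rcases hpq k hp hq with h' | h'
    · rw [he, dotProduct_smul, ht k h', smul_zero]
    · exact ht' k h'
  · intro he
    obtain ⟨p, q, hpq⟩ := comb2 i i' hii
    apply hu0'
    apply spark h p q
    intro k hp hq
    rcases hpq k hp hq with h' | h'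
    · rw [he, dotProduct_smul, hf k h', smul_zero]
    · exact ht' k h'

/-- A pattern which singles out one coordinate is admissible for at most one partition. -/
lemma single_unique {x : Fin 6 → Fin 4 → ℝ} (h : Star x) {i i' : Fin 10} (hii : i ≠ i')
    {D : Fin 4 → Bool} (k : Fin 4) (hD : ∀ l, l ≠ k → D l = !(D k)) (ha : Adm x i D)
    (ha' : Adm x i' D) : False := by
  obtain ⟨u, hw⟩ := ha
  obtain ⟨w, hw'⟩ := ha'
  set s : ℝ := sg (!(D k)) with hs
  have hss : s * s = 1 := sg_mul_self _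
  have hDk : sg (D k) = - s := by rw [hs, sg_not]; ring
  have hDl : ∀ l, l ≠ k → sg (D l) = s := fun l hl => by rw [hD l hl]
  have hact : ∀ z : Fin 4 → ℝ, z k = 0 → act D z = s • z := by
    intro z hz
    funext l
    simp only [act, Pi.smul_apply, smul_eq_mul]
    by_cases hl : l = k
    · rw [hl, hz]; ring
    · rw [hDl l hl]
  have hs0 : s ≠ 0 := by intro h0; rw [h0] at hss; norm_num at hss
  have huk : ∀ {i : Fin 10} {u : Fin 4 → ℝ}, Wit x i D u → u k ≠ 0 := by
    intro i u hw h0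
    have h1 := hact u h0
    have hex : ∀ i : Fin 10, ∃ j, S i j = true := by decide
    obtain ⟨j, hj⟩ := hex i
    refine not_both h hw j (hw.2.1 j hj) ?_
    rw [h1, dotProduct_smul, hw.2.1 j hj, smul_zero]
  have hu := huk hw
  have hwk := huk hw'
  -- normalised combinations
  set z1 : Fin 4 → ℝ := w k • u - u k • w with hz1
  set z2 : Fin 4 → ℝ := w k • u + (s * u k) • act D w with hz2
  have hz1k : z1 k = 0 := by simp [hz1]; ring
  have hz2k : z2 k = 0 := by
    simp only [hz2, Pi.add_apply, Pi.smul_apply, smul_eq_mul, act, hDk]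
    linear_combination (- u k * w k) * hss
  have hA1 : act D z1 = w k • act D u - u k • act D w := by
    funext l; simp [hz1, act]; ring
  have hA2 : act D z2 = w k • act D u + (s * u k) • w := by
    rw [hz2, act_add, act_smul, act_smul, act_act]
  have h1a : ∀ j, S i j = true → S i' j = true → x j ⬝ᵥ z1 = 0 := by
    intro j hj hj'
    rw [hz1, dotProduct_sub, dotProduct_smul, dotProduct_smul, hw.2.1 j hj, hw'.2.1 j hj']
    simp
  have h1b : ∀ j, S i j = false → S i' j = false → x j ⬝ᵥ z1 = 0 := by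
    intro j hj hj'
    have : x j ⬝ᵥ act D z1 = 0 := by
      rw [hA1, dotProduct_sub, dotProduct_smul, dotProduct_smul, hw.2.2 j hj, hw'.2.2 j hj']
      simp
    rw [hact z1 hz1k, dotProduct_smul, smul_eq_mul] at this
    exact (mul_eq_zero.mp this).resolve_left hs0
  have h2a : ∀ j, S i j = true → S i' j = false → x j ⬝ᵥ z2 = 0 := by
    intro j hj hj'
    rw [hz2, dotProduct_add, dotProduct_smul, dotProduct_smul, hw.2.1 j hj, hw'.2.2 j hj']
    simp
  have h2b : ∀ j, S i j = false → S i' j = true → x j ⬝ᵥ z2 = 0 := by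
    intro j hj hj'
    have : x j ⬝ᵥ act D z2 = 0 := by
      rw [hA2, dotProduct_add, dotProduct_smul, dotProduct_smul, hw.2.2 j hj, hw'.2.1 j hj']
      simp
    rw [hact z2 hz2k, dotProduct_smul, smul_eq_mul] at this
    exact (mul_eq_zero.mp this).resolve_left hs0
  have comb : ∀ i i' : Fin 10, i ≠ i' →
      (∃ p q : Fin 6, ∀ k, k ≠ p → k ≠ q → S i k = S i' k) ∨
      (∃ p q : Fin 6, ∀ k, k ≠ p → k ≠ q → S i k = !(S i' k)) := by decide
  rcases comb i i' hii with ⟨p, q, hpq⟩ | ⟨p, q, hpq⟩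
  · have hz : z1 = 0 := by
      apply spark h p q
      intro j hp hq
      have := hpq j hp hq
      cases hS : S i' j with
      | true => rw [hS] at this; exact h1a j this hS
      | false => rw [hS] at this; exact h1b j this hS
    have he : w = (w k / u k) • u := by
      funext l
      have := congrFun hz l
      simp only [hz1, Pi.sub_apply, Pi.smul_apply, smul_eq_mul, Pi.zero_apply] at this
      simp only [Pi.smul_apply, smul_eq_mul]
      field_simp
      linarith
    exact (ne_smul h hii hw hw' (w k / u k)).1 he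
  · have hz : z2 = 0 := by
      apply spark h p q
      intro j hp hq
      have := hpq j hp hq
      cases hS : S i' j with
      | true => rw [hS] at this; exact h2b j this hS
      | false => rw [hS] at this; exact h2a j this hS
    have hz' : act D z2 = 0 := by rw [hz]; funext l; simp [act]
    have he : w = (- (w k / (s * u k))) • act D u := by
      funext l
      have := congrFun hz' l
      rw [hA2] at this
      simp only [Pi.add_apply, Pi.smul_apply, smul_eq_mul, Pi.zero_apply] at this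
      simp only [Pi.smul_apply, smul_eq_mul]
      field_simp
      linarith
    exact (ne_smul h hii hw hw' _).2 he


/-! ### Three partitions with the same pattern -/

/-- `u` or its image under the pattern. -/
def cv (D : Fin 4 → Bool) (s : Bool) (u : Fin 4 → ℝ) : Fin 4 → ℝ := if s then u else act D u

lemma act_cv (D : Fin 4 → Bool) (s : Bool) (u : Fin 4 → ℝ) :
    act D (cv D s u) = cv D (!s) u := by
  cases s with
  | true => simp [cv]
  | false => simp [cv, act_act]

lemma cv_ne_zero {D : Fin 4 → Bool} (s : Bool) {u : Fin 4 → ℝ} (h : u ≠ 0) :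
    cv D s u ≠ 0 := by
  cases s with
  | true => simpa [cv] using h
  | false => simpa [cv] using act_ne_zero h

lemma dot_cv {x : Fin 6 → Fin 4 → ℝ} {i : Fin 10} {D : Fin 4 → Bool} {u : Fin 4 → ℝ}
    (hw : Wit x i D u) (j : Fin 6) : x j ⬝ᵥ cv D (S i j) u = 0 := by
  cases hS : S i j with
  | true => simpa [cv] using hw.2.1 j hS
  | false => simpa [cv] using hw.2.2 j hS

lemma not_both_cv {x : Fin 6 → Fin 4 → ℝ} (h : Star x) {i : Fin 10} {D : Fin 4 → Bool}
    {u : Fin 4 → ℝ} (hw : Wit x i D u) (s : Bool) (j : Fin 6) (h1 : x j ⬝ᵥ cv D s u = 0)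
    (h2 : x j ⬝ᵥ cv D (!s) u = 0) : False := by
  cases s with
  | true => exact not_both h hw j (by simpa [cv] using h1) (by simpa [cv] using h2)
  | false => exact not_both h hw j (by simpa [cv] using h2) (by simpa [cv] using h1)

lemma pair_indep {x : Fin 6 → Fin 4 → ℝ} (h : Star x) {i i' : Fin 10} (hii : i ≠ i')
    {D : Fin 4 → Bool} {u u' : Fin 4 → ℝ} (hw : Wit x i D u) (hw' : Wit x i' D u')
    (s s' : Bool) (α β : ℝ) (he : α • cv D s u + β • cv D s' u' = 0) : α = 0 ∧ β = 0 := by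
  have hβ : β = 0 := by
    by_contra hβ
    have he' : cv D s' u' = (-(α / β)) • cv D s u := by
      funext l
      have := congrFun he l
      simp only [Pi.add_apply, Pi.smul_apply, smul_eq_mul, Pi.zero_apply] at this ⊢
      field_simp
      linarith
    cases s' with
    | true =>
      cases s with
      | true =>
        exact (ne_smul h hii hw hw' (-(α / β))).1 (by simpa [cv] using he')
      | false =>
        exact (ne_smul h hii hw hw' (-(α / β))).2 (by simpa [cv] using he')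
    | false =>
      have he2 : u' = (-(α / β)) • cv D (!s) u := by
        have h1 : act D (cv D false u') = act D ((-(α / β)) • cv D s u) := by rw [he']
        rw [act_smul, act_cv, act_cv] at h1
        simpa [cv] using h1
      cases s with
      | true =>
        exact (ne_smul h hii hw hw' (-(α / β))).2 (by simpa [cv] using he2)
      | false =>
        exact (ne_smul h hii hw hw' (-(α / β))).1 (by simpa [cv] using he2)
  refine ⟨?_, hβ⟩
  rw [hβ, zero_smul, add_zero] at he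
  rcases smul_eq_zero.mp he with h' | h'
  · exact h'
  · exact absurd h' (cv_ne_zero s hw.1)

/-- Normals of three different partitions with one pattern are independent. -/
lemma triple_indep {x : Fin 6 → Fin 4 → ℝ} (h : Star x) {i1 i2 i3 : Fin 10} (h12 : i1 ≠ i2)
    (h13 : i1 ≠ i3) (h23 : i2 ≠ i3) {D : Fin 4 → Bool} {u1 u2 u3 : Fin 4 → ℝ}
    (hw1 : Wit x i1 D u1) (hw2 : Wit x i2 D u2) (hw3 : Wit x i3 D u3) (s1 s2 s3 : Bool)
    (a b c : ℝ) (he : a • cv D s1 u1 + b • cv D s2 u2 + c • cv D s3 u3 = 0) :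
    a = 0 ∧ b = 0 ∧ c = 0 := by
  have he' : a • cv D (!s1) u1 + b • cv D (!s2) u2 + c • cv D (!s3) u3 = 0 := by
    have h1 : act D (a • cv D s1 u1 + b • cv D s2 u2 + c • cv D s3 u3) = act D 0 := by rw [he]
    rw [act_add, act_add, act_smul, act_smul, act_smul, act_cv, act_cv, act_cv] at h1
    rw [h1]; funext l; simp [act]
  by_cases ha : a = 0
  · rw [ha, zero_smul, zero_add] at he
    have := pair_indep h h23 hw2 hw3 s2 s3 b c he
    exact ⟨ha, this.1, this.2⟩
  by_cases hb : b = 0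
  · rw [hb, zero_smul, add_zero] at he
    have := pair_indep h h13 hw1 hw3 s1 s3 a c he
    exact absurd this.1 ha
  exfalso
  have comb : ∀ i1 i2 : Fin 10, i1 ≠ i2 → ∀ s1 s2 : Bool,
      ∃ k : Fin 6, (S i1 k = s1 ∧ S i2 k = !s2) ∨ (S i1 k = !s1 ∧ S i2 k = s2) := by decide
  obtain ⟨k, hk⟩ := comb i1 i2 h12 s1 s2
  have e1 := dot_cv hw1 k
  have e2 := dot_cv hw2 k
  have e3 := dot_cv hw3 k
  have d1 : a * (x k ⬝ᵥ cv D s1 u1) + b * (x k ⬝ᵥ cv D s2 u2) + c * (x k ⬝ᵥ cv D s3 u3) = 0 := by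
    have := congrArg (fun z => x k ⬝ᵥ z) he
    simpa [dotProduct_add, dotProduct_smul] using this
  have d2 : a * (x k ⬝ᵥ cv D (!s1) u1) + b * (x k ⬝ᵥ cv D (!s2) u2)
      + c * (x k ⬝ᵥ cv D (!s3) u3) = 0 := by
    have := congrArg (fun z => x k ⬝ᵥ z) he'
    simpa [dotProduct_add, dotProduct_smul] using this
  have hs3 : S i3 k = s3 ∨ S i3 k = !s3 := by
    cases S i3 k <;> cases s3 <;> simp
  rcases hk with ⟨k1, k2⟩ | ⟨k1, k2⟩
  · rw [k1] at e1
    rw [k2] at e2
    rcases hs3 with k3 | k3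
    · rw [k3] at e3
      rw [e1, e3] at d1
      have : x k ⬝ᵥ cv D s2 u2 = 0 := by
        have : b * (x k ⬝ᵥ cv D s2 u2) = 0 := by linarith
        exact (mul_eq_zero.mp this).resolve_left hb
      exact not_both_cv h hw2 s2 k this e2
    · rw [k3] at e3
      rw [e2, e3] at d2
      have : x k ⬝ᵥ cv D (!s1) u1 = 0 := by
        have : a * (x k ⬝ᵥ cv D (!s1) u1) = 0 := by linarith
        exact (mul_eq_zero.mp this).resolve_left ha
      exact not_both_cv h hw1 s1 k e1 this
  · rw [k1] at e1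
    rw [k2] at e2
    rcases hs3 with k3 | k3
    · rw [k3] at e3
      rw [e2, e3] at d1
      have : x k ⬝ᵥ cv D s1 u1 = 0 := by
        have : a * (x k ⬝ᵥ cv D s1 u1) = 0 := by linarith
        exact (mul_eq_zero.mp this).resolve_left ha
      exact not_both_cv h hw1 s1 k this e1
    · rw [k3] at e3
      rw [e1, e3] at d2
      have : x k ⬝ᵥ cv D (!s2) u2 = 0 := by
        have : b * (x k ⬝ᵥ cv D (!s2) u2) = 0 := by linarith
        exact (mul_eq_zero.mp this).resolve_left hb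
      exact not_both_cv h hw2 s2 k e2 this

/-- Two vectors of the configuration never have the same three signs. -/
lemma no_same {x : Fin 6 → Fin 4 → ℝ} (h : Star x) {i1 i2 i3 : Fin 10} (h12 : i1 ≠ i2)
    (h13 : i1 ≠ i3) (h23 : i2 ≠ i3) {D : Fin 4 → Bool} {u1 u2 u3 : Fin 4 → ℝ}
    (hw1 : Wit x i1 D u1) (hw2 : Wit x i2 D u2) (hw3 : Wit x i3 D u3) (j j' : Fin 6)
    (hj : j ≠ j') (e1 : S i1 j = S i1 j') (e2 : S i2 j = S i2 j') (e3 : S i3 j = S i3 j') :
    False := by
  have comb : ∀ j j' : Fin 6, j ≠ j' → ∃ a b p q : Fin 6, ∀ k, k ≠ p → k ≠ q →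
      k = j ∨ k = j' ∨ k = a ∨ k = b := by decide
  obtain ⟨a, b, p, q, hpq⟩ := comb j j' hj
  set c1 := cv D (S i1 j) u1 with hc1
  set c2 := cv D (S i2 j) u2 with hc2
  set c3 := cv D (S i3 j) u3 with hc3
  obtain ⟨t, ht0, hta, htb⟩ := exists_perp2 ![x a ⬝ᵥ c1, x a ⬝ᵥ c2, x a ⬝ᵥ c3]
    ![x b ⬝ᵥ c1, x b ⬝ᵥ c2, x b ⬝ᵥ c3]
  have hsum : t 0 • c1 + t 1 • c2 + t 2 • c3 = 0 := by
    apply spark h p q
    intro k hp hq
    rw [dotProduct_add, dotProduct_add, dotProduct_smul, dotProduct_smul, dotProduct_smul]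
    rcases hpq k hp hq with rfl | rfl | rfl | rfl
    · rw [hc1, hc2, hc3, dot_cv hw1, dot_cv hw2, dot_cv hw3]; simp
    · rw [hc1, hc2, hc3, e1, e2, e3, dot_cv hw1, dot_cv hw2, dot_cv hw3]; simp
    · simp [dotProduct, Fin.sum_univ_three] at hta ⊢
      linarith
    · simp [dotProduct, Fin.sum_univ_three] at htb ⊢
      linarith
  obtain ⟨z0, z1, z2⟩ := triple_indep h h12 h13 h23 hw1 hw2 hw3 _ _ _ (t 0) (t 1) (t 2) hsum
  apply ht0
  funext l
  fin_cases l
  · exact z0
  · exact z1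
  · exact z2

lemma x_ne_zero {x : Fin 6 → Fin 4 → ℝ} (h : Star x) (j : Fin 6) : x j ≠ 0 := by
  intro h0
  have comb : ∀ j : Fin 6, ∃ a b c p q : Fin 6, ∀ k, k ≠ p → k ≠ q →
      k = j ∨ k = a ∨ k = b ∨ k = c := by decide
  obtain ⟨a, b, c, p, q, hpq⟩ := comb j
  obtain ⟨z, hz0, h1, h2, h3⟩ := exists_perp3 (x a) (x b) (x c)
  apply hz0
  apply spark h p q
  intro k hp hq
  rcases hpq k hp hq with rfl | rfl | rfl | rfl
  · rw [h0]; simp
  · exact h1
  · exact h2
  · exact h3

/-- If four vectors are orthogonal to a common nonzero vector then they are dependent. -/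
lemma exists_rel (c1 c2 c3 z y : Fin 4 → ℝ) (hy : y ≠ 0) (h1 : y ⬝ᵥ c1 = 0) (h2 : y ⬝ᵥ c2 = 0)
    (h3 : y ⬝ᵥ c3 = 0) (h4 : y ⬝ᵥ z = 0) :
    ∃ m : Fin 4 → ℝ, m ≠ 0 ∧ m 0 • c1 + m 1 • c2 + m 2 • c3 + m 3 • z = 0 := by
  have hdet : (Matrix.of ![c1, c2, c3, z] : Matrix (Fin 4) (Fin 4) ℝ).det = 0 := by
    apply Matrix.exists_mulVec_eq_zero_iff.mp
    refine ⟨y, hy, ?_⟩
    funext l
    fin_cases l
    · simpa [Matrix.mulVec, dotProduct_comm] using h1
    · simpa [Matrix.mulVec, dotProduct_comm] using h2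
    · simpa [Matrix.mulVec, dotProduct_comm] using h3
    · simpa [Matrix.mulVec, dotProduct_comm] using h4
  obtain ⟨m, hm0, hm⟩ := Matrix.exists_vecMul_eq_zero_iff.mpr hdet
  refine ⟨m, hm0, ?_⟩
  funext l
  have := congrFun hm l
  simpa [Matrix.vecMul, dotProduct, Fin.sum_univ_four] using this

/-- The vector with the three opposite signs is the mirror image. -/
lemma partner {x : Fin 6 → Fin 4 → ℝ} (h : Star x) {i1 i2 i3 : Fin 10} (h12 : i1 ≠ i2)
    (h13 : i1 ≠ i3) (h23 : i2 ≠ i3) {D : Fin 4 → Bool} {u1 u2 u3 : Fin 4 → ℝ}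
    (hw1 : Wit x i1 D u1) (hw2 : Wit x i2 D u2) (hw3 : Wit x i3 D u3) (j j' : Fin 6)
    (e1 : S i1 j' = !(S i1 j)) (e2 : S i2 j' = !(S i2 j)) (e3 : S i3 j' = !(S i3 j))
    (z : Fin 4 → ℝ) : x j' ⬝ᵥ z = 0 ↔ x j ⬝ᵥ act D z = 0 := by
  have key : ∀ (y1 y2 : Fin 4 → ℝ), y1 ≠ 0 →
      (y1 ⬝ᵥ cv D (!(S i1 j)) u1 = 0) → (y1 ⬝ᵥ cv D (!(S i2 j)) u2 = 0) →
      (y1 ⬝ᵥ cv D (!(S i3 j)) u3 = 0) →
      (y2 ⬝ᵥ cv D (!(S i1 j)) u1 = 0) → (y2 ⬝ᵥ cv D (!(S i2 j)) u2 = 0) →
      (y2 ⬝ᵥ cv D (!(S i3 j)) u3 = 0) → y1 ⬝ᵥ z = 0 → y2 ⬝ᵥ z = 0 := by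
    intro y1 y2 hy a1 a2 a3 b1 b2 b3 hz
    obtain ⟨m, hm0, hm⟩ := exists_rel _ _ _ z y1 hy a1 a2 a3 hz
    have hm3 : m 3 ≠ 0 := by
      intro h0
      rw [h0, zero_smul, add_zero] at hm
      obtain ⟨z0, z1, z2⟩ := triple_indep h h12 h13 h23 hw1 hw2 hw3 _ _ _ _ _ _ hm
      apply hm0
      funext l
      fin_cases l
      · exact z0
      · exact z1
      · exact z2
      · exact h0
    have := congrArg (fun w => y2 ⬝ᵥ w) hm
    simp only [dotProduct_add, dotProduct_smul, b1, b2, b3, smul_eq_mul, mul_zero, zero_add,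
      dotProduct_zero] at this
    exact (mul_eq_zero.mp this).resolve_left hm3
  have f1 := dot_cv hw1 j'
  have f2 := dot_cv hw2 j'
  have f3 := dot_cv hw3 j'
  rw [e1] at f1
  rw [e2] at f2
  rw [e3] at f3
  have g : ∀ {i : Fin 10} {u : Fin 4 → ℝ}, Wit x i D u →
      act D (x j) ⬝ᵥ cv D (!(S i j)) u = 0 := by
    intro i u hw
    rw [← act_dot, act_cv, Bool.not_not]
    exact dot_cv hw j
  rw [act_dot]
  constructor
  · exact key _ _ (x_ne_zero h j') f1 f2 f3 (g hw1) (g hw2) (g hw3)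
  · exact key _ _ (act_ne_zero (x_ne_zero h j)) (g hw1) (g hw2) (g hw3) f1 f2 f3

end Q95.WPR
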