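import Pool.Agent.Q95.WeakPhase

/-!
# Three mirror pairs are impossible; a double pattern belongs to at most two partitions
-/

namespace Q95.WPR

open Matrix

lemma par2 {p0 p1 q0 q1 r0 r1 : ℝ} (hr : r0 ≠ 0 ∨ r1 ≠ 0) (h1 : p0 * r0 + p1 * r1 = 0)
    (h2 : q0 * r0 + q1 * r1 = 0) : p0 * q1 = p1 * q0 := by
  rcases hr with hr | hr
  · apply mul_right_cancel₀ hr
    linear_combination q1 * h1 - p1 * h2
  · apply mul_right_cancel₀ hr
    linear_combination p0 * h2 - q0 * h1

lemma perp_of_par {p0 p1 q0 q1 r0 r1 : ℝ} (hp : p0 ≠ 0 ∨ p1 ≠ 0) (hpar : p0 * q1 = p1 * q0)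
    (h1 : p0 * r0 + p1 * r1 = 0) : q0 * r0 + q1 * r1 = 0 := by
  rcases hp with hp | hp
  · apply mul_left_cancel₀ hp
    linear_combination q0 * h1 + r1 * hpar
  · apply mul_left_cancel₀ hp
    linear_combination q1 * h1 - r0 * hpar

lemma double_of {x : Fin 6 → Fin 4 → ℝ} (h : Star x) {a a' b b' c c' : Fin 6}
    (hcov : ∀ k, k = a ∨ k = a' ∨ k = b ∨ k = b' ∨ k = c ∨ k = c') (z : Fin 4 → ℝ)
    (ha : x a ⬝ᵥ z = 0) (ha' : x a' ⬝ᵥ z = 0) (hb : x b ⬝ᵥ z = 0) (hb' : x b' ⬝ᵥ z = 0) :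
    z = 0 := by
  apply spark h c c'
  intro k hc hc'
  rcases hcov k with rfl | rfl | rfl | rfl | rfl | rfl
  · exact ha
  · exact ha'
  · exact hb
  · exact hb'
  · exact absurd rfl hc
  · exact absurd rfl hc'

/-- The six vectors do not consist of three mirror pairs of a pattern with two signs. -/
lemma pairs_contra {x : Fin 6 → Fin 4 → ℝ} (h : Star x) {D : Fin 4 → Bool}
    (k0 k1 k2 k3 : Fin 4)
    (hsum : ∀ f : Fin 4 → ℝ, ∑ l, f l = f k0 + f k1 + f k2 + f k3)
    (hall : ∀ l, l = k0 ∨ l = k1 ∨ l = k2 ∨ l = k3)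
    (h0 : D k0 = false) (h1 : D k1 = false) (h2 : D k2 = true) (h3 : D k3 = true)
    (a a' b b' c c' : Fin 6)
    (hcov : ∀ k, k = a ∨ k = a' ∨ k = b ∨ k = b' ∨ k = c ∨ k = c')
    (pa : ∀ z, x a' ⬝ᵥ z = 0 ↔ x a ⬝ᵥ act D z = 0)
    (pb : ∀ z, x b' ⬝ᵥ z = 0 ↔ x b ⬝ᵥ act D z = 0)
    (pc : ∀ z, x c' ⬝ᵥ z = 0 ↔ x c ⬝ᵥ act D z = 0) : False := by
  -- coverings with other orders
  have cov2 : ∀ k, k = a ∨ k = a' ∨ k = c ∨ k = c' ∨ k = b ∨ k = b' := by
    intro k; rcases hcov k with h | h | h | h | h | h <;> simp [h]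
  have cov3 : ∀ k, k = b ∨ k = b' ∨ k = c ∨ k = c' ∨ k = a ∨ k = a' := by
    intro k; rcases hcov k with h | h | h | h | h | h <;> simp [h]
  have hkne : k0 ≠ k1 := by
    intro he
    have := hsum (fun l => if l = k0 then 1 else 0)
    simp [he] at this
    have e2 : k2 ≠ k1 := by intro h'; rw [h', h1] at h2; exact absurd h2 (by decide)
    have e3 : k3 ≠ k1 := by intro h'; rw [h', h1] at h3; exact absurd h3 (by decide)
    simp [e2, e3] at this
  have hk20 : k2 ≠ k0 := by intro h'; rw [h', h0] at h2; exact absurd h2 (by decide)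
  have hk30 : k3 ≠ k0 := by intro h'; rw [h', h0] at h3; exact absurd h3 (by decide)
  have hk21 : k2 ≠ k1 := by intro h'; rw [h', h1] at h2; exact absurd h2 (by decide)
  have hk31 : k3 ≠ k1 := by intro h'; rw [h', h1] at h3; exact absurd h3 (by decide)
  -- vectors supported on the first block
  have hA : ∀ z : Fin 4 → ℝ, z k2 = 0 → z k3 = 0 → act D z = z := by
    intro z z2 z3
    funext l
    simp only [act]
    rcases hall l with rfl | rfl | rfl | rfl
    · simp [h0, sg]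
    · simp [h1, sg]
    · rw [z2]; ring
    · rw [z3]; ring
  have hB : ∀ z : Fin 4 → ℝ, z k0 = 0 → z k1 = 0 → act D z = - z := by
    intro z z0 z1
    funext l
    simp only [act, Pi.neg_apply]
    rcases hall l with rfl | rfl | rfl | rfl
    · rw [z0]; ring
    · rw [z1]; ring
    · simp [h2, sg]
    · simp [h3, sg]
  -- the part on the first block
  set bl : ℝ → ℝ → Fin 4 → ℝ := fun s t l => if l = k0 then s else if l = k1 then t else 0
    with hbl
  have bl0 : ∀ s t, bl s t k0 = s := by intro s t; simp [hbl]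
  have bl1 : ∀ s t, bl s t k1 = t := by intro s t; simp [hbl, hkne.symm]
  have bl2 : ∀ s t, bl s t k2 = 0 := by intro s t; simp [hbl, hk20, hk21]
  have bl3 : ∀ s t, bl s t k3 = 0 := by intro s t; simp [hbl, hk30, hk31]
  have dbl : ∀ (y : Fin 4 → ℝ) s t, y ⬝ᵥ bl s t = y k0 * s + y k1 * t := by
    intro y s t
    rw [dotProduct, hsum, bl0, bl1, bl2, bl3]; ring
  have abl : ∀ s t, act D (bl s t) = bl s t := fun s t => hA _ (bl2 s t) (bl3 s t)
  -- killers
  have kill : ∀ {a a' b b' c c' : Fin 6},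
      (∀ k, k = a ∨ k = a' ∨ k = b ∨ k = b' ∨ k = c ∨ k = c') →
      (∀ z, x a' ⬝ᵥ z = 0 ↔ x a ⬝ᵥ act D z = 0) →
      (∀ z, x b' ⬝ᵥ z = 0 ↔ x b ⬝ᵥ act D z = 0) →
      ∀ s t : ℝ, x a k0 * s + x a k1 * t = 0 → x b k0 * s + x b k1 * t = 0 → s = 0 ∧ t = 0 := by
    intro a a' b b' c c' hcov pa pb s t e1 e2
    have : bl s t = 0 := by
      apply double_of h hcov
      · rw [dbl]; exact e1
      · rw [pa, abl, dbl]; exact e1
      · rw [dbl]; exact e2
      · rw [pb, abl, dbl]; exact e2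
    exact ⟨by rw [← bl0 s t, this]; rfl, by rw [← bl1 s t, this]; rfl⟩
  -- a normal has a nonzero part on the first block
  have prne : ∀ {a a' b b' c c' : Fin 6},
      (∀ k, k = a ∨ k = a' ∨ k = b ∨ k = b' ∨ k = c ∨ k = c') →
      (∀ z, x b' ⬝ᵥ z = 0 ↔ x b ⬝ᵥ act D z = 0) →
      ∀ z : Fin 4 → ℝ, z ≠ 0 → x a ⬝ᵥ z = 0 → x a' ⬝ᵥ z = 0 → x b ⬝ᵥ z = 0 →
      z k0 ≠ 0 ∨ z k1 ≠ 0 := by
    intro a a' b b' c c' hcov pb z hz ea ea' eb
    by_contra hc
    push Not at hc
    apply hz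
    apply double_of h hcov z ea ea' eb
    rw [pb, hB z hc.1 hc.2, dotProduct_neg, eb, neg_zero]
  -- a vector orthogonal to a mirror pair
  have par : ∀ {a a' : Fin 6}, (∀ z, x a' ⬝ᵥ z = 0 ↔ x a ⬝ᵥ act D z = 0) →
      ∀ z : Fin 4 → ℝ, x a ⬝ᵥ z = 0 → x a' ⬝ᵥ z = 0 → x a k0 * z k0 + x a k1 * z k1 = 0 := by
    intro a a' pa z e1 e2
    rw [pa] at e2
    rw [dotProduct, hsum] at e1 e2
    simp only [act, h0, h1, h2, h3, sg] at e2
    simp at e2
    linarith
  obtain ⟨u, hu0, hua, hua', hub⟩ := exists_perp3 (x a) (x a') (x b)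
  obtain ⟨v, hv0, hvb', hvc, hvc'⟩ := exists_perp3 (x b') (x c) (x c')
  obtain ⟨u', hu0', hua2, hua2', huc⟩ := exists_perp3 (x a) (x a') (x c)
  obtain ⟨v', hv0', hvc2', hvb2, hvb2'⟩ := exists_perp3 (x c') (x b) (x b')
  have nu := prne hcov pb u hu0 hua hua' hub
  have nu' := prne cov2 pc u' hu0' hua2 hua2' huc
  have covv : ∀ k, k = c ∨ k = c' ∨ k = b' ∨ k = b ∨ k = a ∨ k = a' := by
    intro k; rcases hcov k with h | h | h | h | h | h <;> simp [h]
  have covv' : ∀ k, k = b ∨ k = b' ∨ k = c' ∨ k = c ∨ k = a ∨ k = a' := by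
    intro k; rcases hcov k with h | h | h | h | h | h <;> simp [h]
  have pb' : ∀ z, x b ⬝ᵥ z = 0 ↔ x b' ⬝ᵥ act D z = 0 := by
    intro z; rw [pb, act_act]
  have pc' : ∀ z, x c ⬝ᵥ z = 0 ↔ x c' ⬝ᵥ act D z = 0 := by
    intro z; rw [pc, act_act]
  have nv := prne covv pb' v hv0 hvc hvc' hvb'
  have nv' := prne covv' pc' v' hv0' hvb2 hvb2' hvc2'
  have ru := par pa u hua hua'
  have ru' := par pa u' hua2 hua2'
  have rv := par pc v hvc hvc'
  have rv' := par pb v' hvb2 hvb2'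
  -- the part of x a on the first block does not vanish
  have xa : x a k0 ≠ 0 ∨ x a k1 ≠ 0 := by
    by_contra hc
    push Not at hc
    by_cases hb : x b k0 = 0 ∧ x b k1 = 0
    · have := kill hcov pa pb 1 0 (by rw [hc.1, hc.2]; ring) (by rw [hb.1, hb.2]; ring)
      exact one_ne_zero this.1
    · have := kill hcov pa pb (x b k1) (- x b k0) (by rw [hc.1, hc.2]; ring) (by ring)
      exact hb ⟨by linarith [this.2], this.1⟩
  have e1 : u k0 * u' k1 = u k1 * u' k0 :=
    par2 xa (by linarith) (by linarith)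
  have st1 := h u v (fun j => by
    rcases hcov j with rfl | rfl | rfl | rfl | rfl | rfl <;> simp [hua, hua', hub, hvb', hvc, hvc'])
      k0 k1
  have st2 := h u' v' (fun j => by
    rcases hcov j with rfl | rfl | rfl | rfl | rfl | rfl <;>
      simp [hua2, hua2', huc, hvc2', hvb2, hvb2']) k0 k1
  have f1 : u k0 * v k1 = - (u k1 * v k0) := by
    have : (u k0 * v k1 - u k1 * v k0) * (u k0 * v k1 + u k1 * v k0) = 0 := by
      linear_combination st1
    rcases mul_eq_zero.mp this with h' | h'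
    · exfalso
      have hva : v k0 * x a k0 + v k1 * x a k1 = 0 :=
        perp_of_par nu (by linarith) (by linarith)
      have := kill cov2 pa pc (v k0) (v k1) (by linarith) rv
      rcases nv with h'' | h''
      · exact h'' this.1
      · exact h'' this.2
    · linarith
  have f2 : u' k0 * v' k1 = - (u' k1 * v' k0) := by
    have : (u' k0 * v' k1 - u' k1 * v' k0) * (u' k0 * v' k1 + u' k1 * v' k0) = 0 := by
      linear_combination st2
    rcases mul_eq_zero.mp this with h' | h'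
    · exfalso
      have hva : v' k0 * x a k0 + v' k1 * x a k1 = 0 :=
        perp_of_par nu' (by linarith) (by linarith)
      have := kill hcov pa pb (v' k0) (v' k1) (by linarith) rv'
      rcases nv' with h'' | h''
      · exact h'' this.1
      · exact h'' this.2
    · linarith
  -- both are orthogonal to the swapped vector
  have g2 : v' k1 * u k0 + v' k0 * u k1 = 0 := by
    have := perp_of_par (p0 := u' k0) (p1 := u' k1) (q0 := u k0) (q1 := u k1) (r0 := v' k1)
      (r1 := v' k0) nu' (by linarith) (by linarith)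
    linarith
  have g1 : v k1 * u k0 + v k0 * u k1 = 0 := by linarith
  have g3 : v k1 * v' k0 = v k0 * v' k1 := par2 nu g1 g2
  have hvc2 : v' k0 * x c k0 + v' k1 * x c k1 = 0 :=
    perp_of_par nv (by linarith) (by linarith)
  have := kill cov3 pb pc (v' k0) (v' k1) rv' (by linarith)
  rcases nv' with h'' | h''
  · exact h'' this.1
  · exact h'' this.2

end Q95.WPR
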