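import Pool.Agent.Q95.WeakPhase2

/-!
# Counting the patterns, and the end of the proof
-/

namespace Q95.WPR

open Matrix

/-- The three signs of `a` and `b` are equal. -/
def same3 (i1 i2 i3 : Fin 10) (a b : Fin 6) : Bool :=
  (S i1 a == S i1 b) && (S i2 a == S i2 b) && (S i3 a == S i3 b)

/-- The three signs of `a` and `b` are opposite. -/
def anti3 (i1 i2 i3 : Fin 10) (a b : Fin 6) : Bool :=
  (S i1 b == !(S i1 a)) && (S i2 b == !(S i2 a)) && (S i3 b == !(S i3 a))

/-- The six indices are all the indices. -/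
def cover6 (a a' b b' c c' : Fin 6) : Prop :=
  ∀ k : Fin 6, k = a ∨ k = a' ∨ k = b ∨ k = b' ∨ k = c ∨ k = c'

instance (a a' b b' c c' : Fin 6) : Decidable (cover6 a a' b b' c c') := by
  unfold cover6; infer_instance

/-- Three mirror pairs. -/
def Pairs3 (i1 i2 i3 : Fin 10) : Prop :=
  ∃ a' : Fin 6, anti3 i1 i2 i3 0 a' = true ∧ ∃ b : Fin 6, (b ≠ 0 ∧ b ≠ a') ∧
    ∃ b' : Fin 6, anti3 i1 i2 i3 b b' = true ∧ ∃ c : Fin 6, (c ≠ 0 ∧ c ≠ a' ∧ c ≠ b ∧ c ≠ b') ∧
      ∃ c' : Fin 6, anti3 i1 i2 i3 c c' = true ∧ cover6 0 a' b b' c c'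

instance (i1 i2 i3 : Fin 10) : Decidable (Pairs3 i1 i2 i3) := by
  unfold Pairs3; infer_instance

lemma comb_triple : ∀ i1 i2 i3 : Fin 10, i1 ≠ i2 → i1 ≠ i3 → i2 ≠ i3 →
    (∃ j j' : Fin 6, j ≠ j' ∧ same3 i1 i2 i3 j j' = true) ∨ Pairs3 i1 i2 i3 := by
  decide +kernel

lemma same3_iff {i1 i2 i3 : Fin 10} {a b : Fin 6} (h : same3 i1 i2 i3 a b = true) :
    S i1 a = S i1 b ∧ S i2 a = S i2 b ∧ S i3 a = S i3 b := by
  simpa [same3, and_assoc] using h

lemma anti3_iff {i1 i2 i3 : Fin 10} {a b : Fin 6} (h : anti3 i1 i2 i3 a b = true) :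
    S i1 b = !(S i1 a) ∧ S i2 b = !(S i2 a) ∧ S i3 b = !(S i3 a) := by
  simp only [anti3, Bool.and_eq_true, beq_iff_eq, and_assoc] at h
  exact h

/-- A pattern with two equal pairs of signs is admissible for at most two partitions. -/
lemma double_le_two {x : Fin 6 → Fin 4 → ℝ} (h : Star x) {i1 i2 i3 : Fin 10} (h12 : i1 ≠ i2)
    (h13 : i1 ≠ i3) (h23 : i2 ≠ i3) {D : Fin 4 → Bool}
    (k0 k1 k2 k3 : Fin 4)
    (hsum : ∀ f : Fin 4 → ℝ, ∑ l, f l = f k0 + f k1 + f k2 + f k3)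
    (hall : ∀ l, l = k0 ∨ l = k1 ∨ l = k2 ∨ l = k3)
    (d0 : D k0 = false) (d1 : D k1 = false) (d2 : D k2 = true) (d3 : D k3 = true)
    (a1 : Adm x i1 D) (a2 : Adm x i2 D) (a3 : Adm x i3 D) : False := by
  obtain ⟨u1, hw1⟩ := a1
  obtain ⟨u2, hw2⟩ := a2
  obtain ⟨u3, hw3⟩ := a3
  rcases comb_triple i1 i2 i3 h12 h13 h23 with ⟨j, j', hj, he⟩ |
    ⟨a', ha, b, -, b', hb, c, -, c', hc, hcov⟩
  · obtain ⟨e1, e2, e3⟩ := same3_iff he
    exact no_same h h12 h13 h23 hw1 hw2 hw3 j j' hj e1 e2 e3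
  · obtain ⟨p1, p2, p3⟩ := anti3_iff ha
    obtain ⟨q1, q2, q3⟩ := anti3_iff hb
    obtain ⟨r1, r2, r3⟩ := anti3_iff hc
    exact pairs_contra h k0 k1 k2 k3 hsum hall d0 d1 d2 d3 0 a' b b' c c' hcov
      (partner h h12 h13 h23 hw1 hw2 hw3 0 a' p1 p2 p3)
      (partner h h12 h13 h23 hw1 hw2 hw3 b b' q1 q2 q3)
      (partner h h12 h13 h23 hw1 hw2 hw3 c c' r1 r2 r3)

/-- The eight patterns which start with the sign `+`. -/
def col : Fin 8 → Fin 4 → Bool :=
  ![![false, false, false, false],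
    ![false, false, false, true],
    ![false, false, true, false],
    ![false, false, true, true],
    ![false, true, false, false],
    ![false, true, false, true],
    ![false, true, true, false],
    ![false, true, true, true]]

lemma col_surj : ∀ D : Fin 4 → Bool, D 0 = false → ∃ t, D = col t := by decide

lemma col_zero (t : Fin 8) : col t 0 = false := by revert t; decide

/-- How many partitions can have a given pattern. -/
def cap : Fin 8 → ℕ := ![0, 1, 1, 2, 1, 2, 2, 1]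

open Classical in
/-- The partitions with the pattern `col t`. -/
noncomputable def N (x : Fin 6 → Fin 4 → ℝ) (t : Fin 8) : Finset (Fin 10) :=
  Finset.univ.filter (fun i => Adm x i (col t))

lemma mem_N {x : Fin 6 → Fin 4 → ℝ} {t : Fin 8} {i : Fin 10} :
    i ∈ N x t ↔ Adm x i (col t) := by simp [N]

lemma card_le_one_of {s : Finset (Fin 10)} (h : ∀ i ∈ s, ∀ j ∈ s, i ≠ j → False) :
    s.card ≤ 1 := by
  rw [Finset.card_le_one]
  intro a ha b hb
  by_contra hne
  exact h a ha b hb hne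

lemma card_le_two_of {s : Finset (Fin 10)}
    (h : ∀ i ∈ s, ∀ j ∈ s, ∀ k ∈ s, i ≠ j → i ≠ k → j ≠ k → False) : s.card ≤ 2 := by
  by_contra hc
  push Not at hc
  obtain ⟨a, b, c, ha, hb, hc', hab, hac, hbc⟩ := Finset.two_lt_card_iff.mp hc
  exact h a ha b hb c hc' hab hac hbc

lemma card_N_le {x : Fin 6 → Fin 4 → ℝ} (h : Star x) (t : Fin 8) : (N x t).card ≤ cap t := by
  have single : ∀ (t : Fin 8) (k : Fin 4), (∀ l, l ≠ k → col t l = !(col t k)) →
      (N x t).card ≤ 1 := by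
    intro t k hk
    apply card_le_one_of
    intro i hi j hj hij
    exact single_unique h hij k hk (mem_N.mp hi) (mem_N.mp hj)
  have double : ∀ (t : Fin 8) (k0 k1 k2 k3 : Fin 4),
      (∀ f : Fin 4 → ℝ, ∑ l, f l = f k0 + f k1 + f k2 + f k3) →
      (∀ l, l = k0 ∨ l = k1 ∨ l = k2 ∨ l = k3) →
      col t k0 = false → col t k1 = false → col t k2 = true → col t k3 = true →
      (N x t).card ≤ 2 := by
    intro t k0 k1 k2 k3 hsum hall d0 d1 d2 d3
    apply card_le_two_of
    intro i hi j hj k hk hij hik hjk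
    exact double_le_two h hij hik hjk k0 k1 k2 k3 hsum hall d0 d1 d2 d3
      (mem_N.mp hi) (mem_N.mp hj) (mem_N.mp hk)
  fin_cases t
  · show (N x 0).card ≤ 0
    rw [Nat.le_zero, Finset.card_eq_zero, Finset.eq_empty_iff_forall_notMem]
    intro i hi
    apply adm_const h i
    have : (fun _ => false : Fin 4 → Bool) = col 0 := by decide
    rw [this]
    exact mem_N.mp hi
  · exact single 1 3 (by decide)
  · exact single 2 2 (by decide)
  · exact double 3 0 1 2 3 (fun f => by rw [Fin.sum_univ_four]) (by decide) rfl rfl rfl rfl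
  · exact single 4 1 (by decide)
  · exact double 5 0 2 1 3 (fun f => by rw [Fin.sum_univ_four]; ring) (by decide) rfl rfl rfl rfl
  · exact double 6 0 3 1 2 (fun f => by rw [Fin.sum_univ_four]; ring) (by decide) rfl rfl rfl rfl
  · exact single 7 0 (by decide)

lemma sum_card_N (x : Fin 6 → Fin 4 → ℝ) :
    ∑ t, (N x t).card = ∑ i : Fin 10, (Finset.univ.filter (fun t => i ∈ N x t)).card := by
  simp only [Finset.card_filter]
  rw [Finset.sum_comm]
  apply Finset.sum_congr rfl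
  intro t _
  simp

lemma one_le_cover {x : Fin 6 → Fin 4 → ℝ} (h : Star x) (i : Fin 10) :
    1 ≤ (Finset.univ.filter (fun t => i ∈ N x t)).card := by
  rw [Nat.one_le_iff_ne_zero, Finset.card_ne_zero]
  obtain ⟨D, hD0, hD⟩ := exists_wit h i
  obtain ⟨t, ht⟩ := col_surj D hD0
  exact ⟨t, by simp [mem_N, ← ht, hD]⟩

lemma sum_cap : ∑ t, cap t = 10 := by decide

lemma card_N_eq {x : Fin 6 → Fin 4 → ℝ} (h : Star x) (t : Fin 8) : (N x t).card = cap t := by
  have h1 : ∑ t, cap t ≤ ∑ t, (N x t).card := by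
    rw [sum_cap, sum_card_N]
    calc 10 = ∑ _i : Fin 10, 1 := by simp
      _ ≤ _ := Finset.sum_le_sum (fun i _ => one_le_cover h i)
  have h2 : ∑ t, (N x t).card ≤ ∑ t, cap t := Finset.sum_le_sum (fun t _ => card_N_le h t)
  have h3 := (Finset.sum_eq_sum_iff_of_le (fun t (_ : t ∈ Finset.univ) => card_N_le h t)).mp
    (le_antisymm h2 h1)
  exact h3 t (Finset.mem_univ t)

lemma pattern_unique {x : Fin 6 → Fin 4 → ℝ} (h : Star x) {i : Fin 10} {t t' : Fin 8}
    (ht : i ∈ N x t) (ht' : i ∈ N x t') : t = t' := by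
  have h1 : ∑ i : Fin 10, (Finset.univ.filter (fun t => i ∈ N x t)).card = ∑ _i : Fin 10, 1 := by
    rw [← sum_card_N]
    have : ∑ t, (N x t).card = ∑ t, cap t := Finset.sum_congr rfl (fun t _ => card_N_eq h t)
    rw [this, sum_cap]; simp
  have h3 := (Finset.sum_eq_sum_iff_of_le
    (fun i (_ : i ∈ Finset.univ) => one_le_cover h i)).mp h1.symm
  have h4 := h3 i (Finset.mem_univ i)
  have h5 := Finset.card_le_one.mp (le_of_eq h4.symm)
  exact h5 t (by simp [ht]) t' (by simp [ht'])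

/-- All coordinates of a normal are different from zero. -/
lemma entries_ne {x : Fin 6 → Fin 4 → ℝ} (h : Star x) {i : Fin 10} {t : Fin 8}
    {u : Fin 4 → ℝ} (hw : Wit x i (col t) u) (k : Fin 4) : u k ≠ 0 := by
  intro h0
  have comb : ∀ (t : Fin 8) (k : Fin 4), ∃ t' : Fin 8, t ≠ t' ∧
      ((∀ l, l ≠ k → col t' l = col t l) ∨ (∀ l, l ≠ k → col t' l = !(col t l))) := by decide
  obtain ⟨t', hne, hcol⟩ := comb t k
  apply hne
  apply pattern_unique h (mem_N.mpr ⟨u, hw⟩) (mem_N.mpr ⟨u, ?_⟩)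
  refine ⟨hw.1, hw.2.1, ?_⟩
  rcases hcol with hc | hc
  · have : act (col t') u = act (col t) u := by
      funext l
      simp only [act]
      by_cases hl : l = k
      · rw [hl, h0]; ring
      · rw [hc l hl]
    rw [this]; exact hw.2.2
  · have : act (col t') u = - act (col t) u := by
      funext l
      simp only [act, Pi.neg_apply]
      by_cases hl : l = k
      · rw [hl, h0]; ring
      · rw [hc l hl, sg_not]; ring
    intro j hj
    rw [this, dotProduct_neg, hw.2.2 j hj, neg_zero]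

/-- A quadric through the six points with four more vanishing conditions is zero. -/
lemma quad_zero {x : Fin 6 → Fin 4 → ℝ} (h : Star x) (M : Matrix (Fin 4) (Fin 4) ℝ)
    (hM : Mᵀ = M) (hq : ∀ j, x j ⬝ᵥ M *ᵥ x j = 0)
    (h03 : x 0 ⬝ᵥ M *ᵥ x 3 = 0) (h12 : x 1 ⬝ᵥ M *ᵥ x 2 = 0) (h13 : x 1 ⬝ᵥ M *ᵥ x 3 = 0)
    (h23 : x 2 ⬝ᵥ M *ᵥ x 3 = 0) : M = 0 := by
  have hsym : ∀ y z : Fin 4 → ℝ, y ⬝ᵥ M *ᵥ z = z ⬝ᵥ M *ᵥ y := by
    intro y z
    rw [dotProduct_mulVec, dotProduct_comm, ← mulVec_transpose, hM]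
  set X : Matrix (Fin 4) (Fin 4) ℝ := Matrix.of ![x 0, x 1, x 2, x 3] with hX
  have hdet : X.det ≠ 0 := by
    intro h0
    obtain ⟨v, hv0, hv⟩ := Matrix.exists_mulVec_eq_zero_iff.mpr h0
    apply hv0
    apply spark h 4 5
    intro j h4 h5
    have e0 := congrFun hv 0
    have e1 := congrFun hv 1
    have e2 := congrFun hv 2
    have e3 := congrFun hv 3
    fin_cases j
    · simpa [hX, Matrix.mulVec] using e0
    · simpa [hX, Matrix.mulVec] using e1
    · simpa [hX, Matrix.mulVec] using e2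
    · simpa [hX, Matrix.mulVec] using e3
    · exact absurd rfl h4
    · exact absurd rfl h5
  have hunit : IsUnit X.det := isUnit_iff_ne_zero.mpr hdet
  have hrep : ∀ y : Fin 4 → ℝ, ∃ a : Fin 4 → ℝ,
      y = a 0 • x 0 + a 1 • x 1 + a 2 • x 2 + a 3 • x 3 := by
    intro y
    refine ⟨y ᵥ* X⁻¹, ?_⟩
    have : (y ᵥ* X⁻¹) ᵥ* X = y := by
      rw [Matrix.vecMul_vecMul, Matrix.nonsing_inv_mul X hunit, Matrix.vecMul_one]
    have h2 : ∀ a : Fin 4 → ℝ, a ᵥ* X = a 0 • x 0 + a 1 • x 1 + a 2 • x 2 + a 3 • x 3 := by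
      intro a
      funext l
      simp [Matrix.vecMul, dotProduct, Fin.sum_univ_four, hX]
    rw [← h2, this]
  have h0j : ∀ j : Fin 6, (j = 4 ∨ j = 5) → x 0 ⬝ᵥ M *ᵥ x j = 0 := by
    intro j hj
    obtain ⟨a, ha⟩ := hrep (x j)
    have ha0 : a 0 ≠ 0 := by
      intro h0
      obtain ⟨z, hz0, z1, z2, z3⟩ := exists_perp3 (x 1) (x 2) (x 3)
      apply hz0
      have hzj : x j ⬝ᵥ z = 0 := by
        rw [ha, h0]
        simp [add_dotProduct, smul_dotProduct, z1, z2, z3]
      rcases hj with rfl | rfl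
      · apply spark h 0 5
        intro k h0 h5
        fin_cases k
        · exact absurd rfl h0
        · exact z1
        · exact z2
        · exact z3
        · exact hzj
        · exact absurd rfl h5
      · apply spark h 0 4
        intro k h0 h4
        fin_cases k
        · exact absurd rfl h0
        · exact z1
        · exact z2
        · exact z3
        · exact absurd rfl h4
        · exact hzj
    have e := hq j
    have q0 := hq 0
    have q1 := hq 1
    have q2 := hq 2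
    have q3 := hq 3
    have s10 := hsym (x 1) (x 0)
    have s20 := hsym (x 2) (x 0)
    have s30 := hsym (x 3) (x 0)
    have s21 := hsym (x 2) (x 1)
    have s31 := hsym (x 3) (x 1)
    have s32 := hsym (x 3) (x 2)
    rw [ha] at e ⊢
    simp only [add_dotProduct, smul_dotProduct, dotProduct_add, dotProduct_smul, mulVec_add,
      mulVec_smul, smul_eq_mul, q0, q1, q2, q3, h03, h12, h13, h23, s10, s20, s30, s21, s31, s32]
      at e ⊢
    have : a 0 * (a 1 * (x 0 ⬝ᵥ M *ᵥ x 1) + a 2 * (x 0 ⬝ᵥ M *ᵥ x 2)) = 0 := by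
      linarith
    have := (mul_eq_zero.mp this).resolve_left ha0
    linarith
  -- the four vectors `M x_j` vanish
  have k0 : M *ᵥ x 0 = 0 := by
    apply spark h 1 2
    intro j h1 h2
    rw [hsym]
    fin_cases j
    · exact hq 0
    · exact absurd rfl h1
    · exact absurd rfl h2
    · exact h03
    · exact h0j 4 (Or.inl rfl)
    · exact h0j 5 (Or.inr rfl)
  have hb : ∀ j : Fin 6, x 0 ⬝ᵥ M *ᵥ x j = 0 := by
    intro j; rw [hsym, k0]; simp
  have kill : ∀ y : Fin 4 → ℝ, x 0 ⬝ᵥ y = 0 → x 1 ⬝ᵥ y = 0 → x 2 ⬝ᵥ y = 0 → x 3 ⬝ᵥ y = 0 →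
      y = 0 := by
    intro y y0 y1 y2 y3
    apply spark h 4 5
    intro j h4 h5
    fin_cases j
    · exact y0
    · exact y1
    · exact y2
    · exact y3
    · exact absurd rfl h4
    · exact absurd rfl h5
  have k1 : M *ᵥ x 1 = 0 := kill _ (hb 1) (hq 1) (by rw [hsym]; exact h12)
    (by rw [hsym]; exact h13)
  have k2 : M *ᵥ x 2 = 0 := kill _ (hb 2) h12 (hq 2) (by rw [hsym]; exact h23)
  have k3 : M *ᵥ x 3 = 0 := kill _ (hb 3) h13 h23 (hq 3)
  have hrow : ∀ k, M k = 0 := by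
    intro k
    apply kill
    · rw [dotProduct_comm]; exact congrFun k0 k
    · rw [dotProduct_comm]; exact congrFun k1 k
    · rw [dotProduct_comm]; exact congrFun k2 k
    · rw [dotProduct_comm]; exact congrFun k3 k
  funext k
  exact hrow k

end Q95.WPR
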