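import Pool.Agent.Q95.WeakPhase3

/-!
# The end of the proof: a linear relation between five quadrics
-/

namespace Q95.WPR

open Matrix

/-- The patterns of the five chosen partitions. -/
def tt : Fin 5 → Fin 8 := ![3, 3, 5, 6, 7]

/-- The symmetric matrix of the product of the two linear forms. -/
def qm (D : Fin 4 → Bool) (u : Fin 4 → ℝ) : Matrix (Fin 4) (Fin 4) ℝ :=
  vecMulVec u (act D u) + vecMulVec (act D u) u

lemma qm_transpose (D : Fin 4 → Bool) (u : Fin 4 → ℝ) : (qm D u)ᵀ = qm D u := by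
  ext k l
  simp [qm, vecMulVec_apply]
  ring

lemma qm_apply (D : Fin 4 → Bool) (u : Fin 4 → ℝ) (k l : Fin 4) :
    qm D u k l = (sg (D k) + sg (D l)) * (u k * u l) := by
  simp [qm, vecMulVec_apply, act]
  ring

lemma qm_form (D : Fin 4 → Bool) (u y : Fin 4 → ℝ) :
    y ⬝ᵥ qm D u *ᵥ y = 2 * ((y ⬝ᵥ u) * (y ⬝ᵥ act D u)) := by
  rw [qm, add_mulVec, dotProduct_add, vecMulVec_mulVec, vecMulVec_mulVec]
  simp only [op_smul_eq_smul, dotProduct_smul, smul_eq_mul]
  rw [dotProduct_comm (act D u) y, dotProduct_comm u y]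
  ring

lemma last_step {c c' : ℝ} {u u' : Fin 4 → ℝ} (hu : ∀ k, u k ≠ 0) (hu' : ∀ k, u' k ≠ 0)
    (hc : c ≠ 0 ∨ c' ≠ 0)
    (h : ∀ k l, c * qm (col 3) u k l + c' * qm (col 3) u' k l = 0) :
    (∃ r : ℝ, u' = r • u) ∨ (∃ r : ℝ, u' = r • act (col 3) u) := by
  have e00 := h 0 0
  have e01 := h 0 1
  have e22 := h 2 2
  have e23 := h 2 3
  simp [qm_apply, col, sg] at e00 e01 e22 e23
  have g00 : c * (u 0 * u 0) + c' * (u' 0 * u' 0) = 0 := by linarith
  have g01 : c * (u 0 * u 1) + c' * (u' 0 * u' 1) = 0 := by linarith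
  have g22 : c * (u 2 * u 2) + c' * (u' 2 * u' 2) = 0 := by linarith
  have g23 : c * (u 2 * u 3) + c' * (u' 2 * u' 3) = 0 := by linarith
  have hc' : c' ≠ 0 := by
    intro h0
    rw [h0] at g00
    rcases hc with hc | hc
    · have : c * (u 0 * u 0) = 0 := by linarith
      exact (mul_ne_zero hc (mul_ne_zero (hu 0) (hu 0))) this
    · exact hc h0
  set r : ℝ := u' 0 / u 0 with hr
  have h0 : u' 0 = r * u 0 := by rw [hr]; field_simp [hu 0]
  have hu00 := hu 0
  have hr0 : r ≠ 0 := div_ne_zero (hu' 0) (hu 0)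
  have hcr : c = - (c' * r ^ 2) := by
    rw [h0] at g00
    have : (c + c' * r ^ 2) * (u 0 * u 0) = 0 := by linear_combination g00
    have := (mul_eq_zero.mp this).resolve_right (mul_ne_zero hu00 hu00)
    linarith
  have h1 : u' 1 = r * u 1 := by
    rw [h0, hcr] at g01
    have : (c' * r * u 0) * (u' 1 - r * u 1) = 0 := by linear_combination g01
    have := (mul_eq_zero.mp this).resolve_left (mul_ne_zero (mul_ne_zero hc' hr0) hu00)
    linarith
  have h2 : u' 2 ^ 2 = (r * u 2) ^ 2 := by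
    rw [hcr] at g22
    have : c' * (u' 2 ^ 2 - (r * u 2) ^ 2) = 0 := by linear_combination g22
    have := (mul_eq_zero.mp this).resolve_left hc'
    linarith
  have h3 : u' 2 * u' 3 = r ^ 2 * (u 2 * u 3) := by
    rw [hcr] at g23
    have : c' * (u' 2 * u' 3 - r ^ 2 * (u 2 * u 3)) = 0 := by linear_combination g23
    have := (mul_eq_zero.mp this).resolve_left hc'
    linarith
  have hu2 := hu 2
  rcases sq_eq_sq_iff_eq_or_eq_neg.mp h2 with h2 | h2
  · left
    refine ⟨r, ?_⟩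
    have h3' : u' 3 = r * u 3 := by
      rw [h2] at h3
      have : (r * u 2) * (u' 3 - r * u 3) = 0 := by linear_combination h3
      have := (mul_eq_zero.mp this).resolve_left (mul_ne_zero hr0 hu2)
      linarith
    funext l
    fin_cases l
    · exact h0
    · exact h1
    · exact h2
    · exact h3'
  · right
    refine ⟨r, ?_⟩
    have h3' : u' 3 = - (r * u 3) := by
      rw [h2] at h3
      have : (r * u 2) * (u' 3 + r * u 3) = 0 := by linear_combination - h3
      have := (mul_eq_zero.mp this).resolve_left (mul_ne_zero hr0 hu2)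
      linarith
    funext l
    fin_cases l
    · simp [act, col, sg, h0]
    · simp [act, col, sg, h1]
    · simp [act, col, sg, h2]
    · simp [act, col, sg, h3']

/-- **Main theorem.** No six vectors of `ℝ⁴` have the property `Star`. -/
theorem not_star (x : Fin 6 → Fin 4 → ℝ) : ¬ Star x := by
  intro h
  have hex : ∀ t : Fin 8, 1 ≤ cap t → ∃ i, i ∈ N x t := by
    intro t ht
    rw [← card_N_eq h t] at ht
    exact Finset.card_pos.mp ht
  obtain ⟨i0, i1, hi01, hN3⟩ := Finset.card_eq_two.mp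
    (show (N x 3).card = 2 by rw [card_N_eq h]; decide)
  obtain ⟨i2, hi2⟩ := hex 5 (by decide)
  obtain ⟨i3, hi3⟩ := hex 6 (by decide)
  obtain ⟨i4, hi4⟩ := hex 7 (by decide)
  have hi0 : i0 ∈ N x 3 := by rw [hN3]; simp
  have hi1 : i1 ∈ N x 3 := by rw [hN3]; simp
  obtain ⟨u0, hw0⟩ := mem_N.mp hi0
  obtain ⟨u1, hw1⟩ := mem_N.mp hi1
  obtain ⟨u2, hw2⟩ := mem_N.mp hi2
  obtain ⟨u3, hw3⟩ := mem_N.mp hi3
  obtain ⟨u4, hw4⟩ := mem_N.mp hi4
  have vanish : ∀ {i : Fin 10} {t : Fin 8} {u : Fin 4 → ℝ}, Wit x i (col t) u →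
      ∀ j, x j ⬝ᵥ qm (col t) u *ᵥ x j = 0 := by
    intro i t u hw j
    rw [qm_form]
    cases hS : S i j with
    | true => rw [hw.2.1 j hS]; ring
    | false => rw [hw.2.2 j hS]; ring
  set B : Fin 5 → Matrix (Fin 4) (Fin 4) ℝ :=
    ![qm (col 3) u0, qm (col 3) u1, qm (col 5) u2, qm (col 6) u3, qm (col 7) u4] with hB
  obtain ⟨c, hc0, h03, h12, h13, h23⟩ := exists_perp4
    (fun m => x 0 ⬝ᵥ B m *ᵥ x 3) (fun m => x 1 ⬝ᵥ B m *ᵥ x 2)
    (fun m => x 1 ⬝ᵥ B m *ᵥ x 3) (fun m => x 2 ⬝ᵥ B m *ᵥ x 3)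
  set M : Matrix (Fin 4) (Fin 4) ℝ :=
    c 0 • B 0 + c 1 • B 1 + c 2 • B 2 + c 3 • B 3 + c 4 • B 4 with hMdef
  have hform : ∀ y z : Fin 4 → ℝ, y ⬝ᵥ M *ᵥ z = c 0 * (y ⬝ᵥ B 0 *ᵥ z) + c 1 * (y ⬝ᵥ B 1 *ᵥ z)
      + c 2 * (y ⬝ᵥ B 2 *ᵥ z) + c 3 * (y ⬝ᵥ B 3 *ᵥ z) + c 4 * (y ⬝ᵥ B 4 *ᵥ z) := by
    intro y z
    simp only [hMdef, add_mulVec, smul_mulVec, dotProduct_add, dotProduct_smul, smul_eq_mul]
  have hM0 : M = 0 := by
    apply quad_zero h M
    · simp only [hMdef, Matrix.transpose_add, Matrix.transpose_smul]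
      simp only [hB, Matrix.cons_val, qm_transpose]
    · intro j
      rw [hform]
      have v0 : x j ⬝ᵥ B 0 *ᵥ x j = 0 := vanish hw0 j
      have v1 : x j ⬝ᵥ B 1 *ᵥ x j = 0 := vanish hw1 j
      have v2 : x j ⬝ᵥ B 2 *ᵥ x j = 0 := vanish hw2 j
      have v3 : x j ⬝ᵥ B 3 *ᵥ x j = 0 := vanish hw3 j
      have v4 : x j ⬝ᵥ B 4 *ᵥ x j = 0 := vanish hw4 j
      rw [v0, v1, v2, v3, v4]; ring
    · rw [hform]; simp only [dotProduct, Fin.sum_univ_five] at h03 ⊢; linarith
    · rw [hform]; simp only [dotProduct, Fin.sum_univ_five] at h12 ⊢; linarith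
    · rw [hform]; simp only [dotProduct, Fin.sum_univ_five] at h13 ⊢; linarith
    · rw [hform]; simp only [dotProduct, Fin.sum_univ_five] at h23 ⊢; linarith
  have hent : ∀ k l, c 0 * qm (col 3) u0 k l + c 1 * qm (col 3) u1 k l
      + c 2 * qm (col 5) u2 k l + c 3 * qm (col 6) u3 k l + c 4 * qm (col 7) u4 k l = 0 := by
    intro k l
    have := congrFun (congrFun hM0 k) l
    simpa [hMdef, hB] using this
  have n2 := entries_ne h hw2
  have n3 := entries_ne h hw3
  have n4 := entries_ne h hw4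
  have c2 : c 2 = 0 := by
    have := hent 0 2
    simp [qm_apply, col, sg] at this
    rcases this with h' | h' | h'
    · exact h'
    · exact absurd h' (n2 0)
    · exact absurd h' (n2 2)
  have c3 : c 3 = 0 := by
    have := hent 0 3
    simp [qm_apply, col, sg] at this
    rcases this with h' | h' | h'
    · exact h'
    · exact absurd h' (n3 0)
    · exact absurd h' (n3 3)
  have c4 : c 4 = 0 := by
    have := hent 1 3
    simp [qm_apply, col, sg, c2] at this
    rcases this with h' | h' | h'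
    · exact h'
    · exact absurd h' (n4 1)
    · exact absurd h' (n4 3)
  have hc : c 0 ≠ 0 ∨ c 1 ≠ 0 := by
    by_contra hcc
    push Not at hcc
    apply hc0
    funext l
    fin_cases l
    · exact hcc.1
    · exact hcc.2
    · exact c2
    · exact c3
    · exact c4
  rcases last_step (entries_ne h hw0) (entries_ne h hw1) hc (fun k l => by
    have := hent k l
    rw [c2, c3, c4] at this
    linarith) with ⟨r, hr⟩ | ⟨r, hr⟩
  · exact (ne_smul h hi01 hw0 hw1 r).1 hr
  · exact (ne_smul h hi01 hw0 hw1 r).2 hr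

end Q95.WPR
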